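import Pool.Agent.R508.BT.Defs

open MeasureTheory Set Filter Topology
open scoped ENNReal

namespace Pool.Agent.R508.BT

/-- elementary facts on `cntOn` -/
def S_CNT : Prop := ∀ a b : ℝ, a < b →
  (∀ f : ℝ → ℝ, 1 ≤ cntOn a b f) ∧
  (∀ c : ℝ, cntOn a b (fun _ => c) = 1) ∧
  (∀ f g : ℝ → ℝ, cntOn a b (fun s => g (f s)) ≤ cntOn a b f) ∧
  (∀ f g : ℝ → ℝ, (∀ᵐ s ∂(volume.restrict (Ioo a b)), f s = g s) → cntOn a b f = cntOn a b g) ∧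
  (∀ f : ℝ → ℝ, cntOn a b f < ∞ → ∃ A : Finset ℝ,
    (∀ᵐ s ∂(volume.restrict (Ioo a b)), f s ∈ A) ∧ (A.card : ℝ≥0∞) = cntOn a b f ∧
    ∀ x ∈ A, 0 < (volume.restrict (Ioo a b)) {s | f s = x}) ∧
  (∀ (f : ℝ → ℝ) (A : Finset ℝ), (∀ x ∈ A, 0 < (volume.restrict (Ioo a b)) {s | f s = x}) →
    (A.card : ℝ≥0∞) ≤ cntOn a b f) ∧
  (∀ (f : ℝ → ℝ) (α β : ℝ), 0 < α → cntOn a b (fun s => f (α * s + β)) =
    cntOn (α * a + β) (α * b + β) f)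

/-- measurability in time of the number of atoms -/
def S_MEAS : Prop := ∀ (T : ℝ) (V : ℝ → ℝ → ℝ), 0 < T → Measurable (Function.uncurry V) →
  kin T V < ∞ → ∀ a b : ℝ, 0 ≤ a → a < b → b ≤ 1 →
  AEMeasurable (fun t => cntOn a b (pos V t)) (volume.restrict (Ioo 0 T))

/-- basic regularity of the labels of a path -/
def S_REG : Prop := ∀ (T : ℝ) (V : ℝ → ℝ → ℝ), 0 < T → Measurable (Function.uncurry V) →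
  kin T V < ∞ →
  (∀ᵐ s ∂lam, IntervalIntegrable (fun t => V t s) volume 0 T) ∧
  (∀ᵐ s ∂lam, IntervalIntegrable (fun t => (V t s) ^ 2) volume 0 T) ∧
  (∀ t ∈ Icc 0 T, Integrable (fun s => (pos V t s) ^ 2) lam ∧ Integrable (pos V t) lam) ∧
  (Measurable (Function.uncurry (pos V))) ∧
  (kin T V = ENNReal.ofReal (∫ s, (∫ t in (0:ℝ)..T, (V t s) ^ 2) ∂lam)) ∧
  (kin T V = ENNReal.ofReal (∫ t in (0:ℝ)..T, (∫ s, (V t s) ^ 2 ∂lam)))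

def S_WAIT : Prop := ∀ T' T : ℝ, 0 < T' → T' ≤ T → E T ≤ E T' + ENNReal.ofReal (T - T')

def S_TSC : Prop := ∀ T T' : ℝ, 0 < T → 0 < T' →
  E T' ≤ ENNReal.ofReal (max (T' / T) (T / T')) * E T

def S_UPP : Prop := ∀ T : ℝ, 0 < T → E T ≤ ENNReal.ofReal ((1 + 2 * cc) * T + cc / (8 * T))

def S_LB : Prop := ∀ (T : ℝ) (V : ℝ → ℝ → ℝ), 0 < T → Path T V →
  ENNReal.ofReal (1 / (12 * T)) ≤ kin T V

/-- centring -/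
def S_CEN : Prop := ∀ (T : ℝ) (V : ℝ → ℝ → ℝ), 0 < T → Path T V →
  Path T (fun t s => V t s - ∫ s', V t s' ∂lam) ∧
  en T (fun t s => V t s - ∫ s', V t s' ∂lam) +
    (∫⁻ t in Ioo 0 T, ENNReal.ofReal ((∫ s, V t s ∂lam) ^ 2)) ≤ en T V

/-- minimizers are centred -/
def S_MZ : Prop := ∀ (T : ℝ) (V : ℝ → ℝ → ℝ), 0 < T → IsMin T V → E T < ∞ →
  ∀ t ∈ Icc 0 T, ∫ s, pos V t s ∂lam = 0

/-- all labels may be assumed to stay in the cone -/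
def S_CLIP : Prop := ∀ (T : ℝ) (V : ℝ → ℝ → ℝ), 0 < T → Path T V →
  ∃ W : ℝ → ℝ → ℝ, Path T W ∧ en T W ≤ en T V ∧
    ∀ t ∈ Icc 0 T, ∀ᵐ s ∂lam, |pos W t s| ≤ t / (2 * T)

def S_GLUE : Prop := ∀ T a : ℝ, 0 < T → 0 < a → a < 1 →
  E T ≤ ENNReal.ofReal (r32 a) * E (T / r32 a) +
    ENNReal.ofReal (r32 (1 - a)) * E (T / r32 (1 - a)) + ENNReal.ofReal (a * (1 - a) / (4 * T))

/-- weak compactness of velocities -/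
def S_WK : Prop := ∀ (T C : ℝ) (V : ℕ → ℝ → ℝ → ℝ), 0 < T →
  (∀ n, Measurable (Function.uncurry (V n))) → (∀ n, kin T (V n) ≤ ENNReal.ofReal C) →
  ∃ (φ : ℕ → ℕ) (W : ℝ → ℝ → ℝ), StrictMono φ ∧ Measurable (Function.uncurry W) ∧
    kin T W ≤ liminf (fun n => kin T (V (φ n))) atTop ∧
    ∀ t ∈ Icc 0 T, ∀ a b : ℝ, 0 ≤ a → a ≤ b → b ≤ 1 →
      Tendsto (fun n => ∫ s in a..b, pos (V (φ n)) t s) atTop (𝓝 (∫ s in a..b, pos W t s))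

/-- weak limits of nondecreasing functions -/
def S_LSC : Prop := ∀ (f : ℕ → ℝ → ℝ) (g : ℝ → ℝ), (∀ n, IntegrableOn (f n) (Ioo 0 1)) →
  IntegrableOn g (Ioo 0 1) → (∀ n, AEMono (f n)) →
  (∀ a b : ℝ, 0 ≤ a → a ≤ b → b ≤ 1 →
      Tendsto (fun n => ∫ s in a..b, f n s) atTop (𝓝 (∫ s in a..b, g s))) →
  AEMono g ∧ cnt g ≤ liminf (fun n => cnt (f n)) atTop

def S_EXI : Prop := ∀ T : ℝ, 0 < T → ∃ V : ℝ → ℝ → ℝ, IsMin T V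

/-- a minimizer is linear up to a time where the number of atoms is minimal -/
def S_LIN : Prop := ∀ (T : ℝ) (V : ℝ → ℝ → ℝ), 0 < T → IsMin T V → E T < ∞ →
  ∀ t0 ∈ Ioo 0 T, (∀ᵐ t ∂(volume.restrict (Ioo 0 t0)), cnt (pos V t0) ≤ cnt (pos V t)) →
  ∀ t ∈ Icc 0 t0, ∀ᵐ s ∂lam, pos V t s = t / t0 * pos V t0 s

/-- existence of such a time -/
def S_T0 : Prop := ∀ (T : ℝ) (V : ℝ → ℝ → ℝ), 0 < T → Path T V → en T V < ∞ →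
  ∀ t1 ∈ Ioc 0 T, ∃ t0 ∈ Ioo 0 t1, cnt (pos V t0) < ∞ ∧
    ∀ᵐ t ∂(volume.restrict (Ioo 0 t0)), cnt (pos V t0) ≤ cnt (pos V t)

/-- a minimizer which stays a single atom -/
def S_N1 : Prop := ∀ (T : ℝ) (V : ℝ → ℝ → ℝ), 0 < T → IsMin T V → E T < ∞ →
  ∀ t0 ∈ Ioo 0 T,
  (∀ᵐ t ∂(volume.restrict (Ioo 0 t0)), ∃ c : ℝ, ∀ᵐ s ∂lam, pos V t s = c) →
  ENNReal.ofReal t0 + E (T - t0) ≤ E T

/-- the value function is flat to the left at large times -/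
def S_LARGE : Prop := ∀ T : ℝ, cc < T → ∃ t0 ∈ Ioo 0 T, ENNReal.ofReal t0 + E (T - t0) ≤ E T

/-- first variation when the value function is flat to the right -/
def S_VAR : Prop := ∀ (T : ℝ) (V : ℝ → ℝ → ℝ), 0 < T → IsMin T V → E T < ∞ →
  ∀ t0 ∈ Ioo 0 T, (∀ t ∈ Icc 0 t0, ∀ᵐ s ∂lam, pos V t s = t / t0 * pos V t0 s) →
  ∀ n : ℕ, cnt (pos V t0) = n → ∀ T' : ℝ, T < T' → E T' = E T + ENNReal.ofReal (T' - T) →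
  ∫ s, (pos V t0 s / t0) ^ 2 ∂lam ≤ n - 1

/-- variations by merging groups for a short time -/
def S_MRG : Prop := ∀ (T : ℝ) (V : ℝ → ℝ → ℝ), 0 < T → IsMin T V → E T < ∞ →
  ∀ t0 ∈ Ioo 0 T, (∀ t ∈ Icc 0 t0, ∀ᵐ s ∂lam, pos V t s = t / t0 * pos V t0 s) →
  ∀ n : ℕ, cnt (pos V t0) = n → ∀ (g : ℝ → ℝ) (m : ℕ), Monotone g →
    ∫ s, (pos V t0 s / t0 - g (pos V t0 s / t0)) * g (pos V t0 s / t0) ∂lam = 0 →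
    cnt (fun s => g (pos V t0 s / t0)) ≤ m →
  (n : ℝ) - m ≤ ∫ s, (pos V t0 s / t0 - g (pos V t0 s / t0)) ^ 2 ∂lam

/-- only binary branchings -/
def S_TWO : Prop := ∀ (U : ℝ → ℝ) (n : ℕ), Measurable U → AEMono U → cnt U = n → 2 ≤ n →
  ∫ s, U s ∂lam = 0 → ∫ s, (U s) ^ 2 ∂lam ≤ n - 1 →
  (∀ (g : ℝ → ℝ) (m : ℕ), Monotone g → ∫ s, (U s - g (U s)) * g (U s) ∂lam = 0 →
    cnt (fun s => g (U s)) ≤ m → (n : ℝ) - m ≤ ∫ s, (U s - g (U s)) ^ 2 ∂lam) →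
  ∃ a v1 v2 : ℝ, 0 < a ∧ a < 1 ∧ v1 < v2 ∧ (∀ᵐ s ∂lam, s < a → U s = v1) ∧
    (∀ᵐ s ∂lam, a < s → U s = v2)

/-- no merging of the two groups -/
def S_NM : Prop := ∀ (T : ℝ) (V : ℝ → ℝ → ℝ), 0 < T → IsMin T V → E T < ∞ →
  ∀ t0 ∈ Ioo 0 T, ∀ a v1 v2 : ℝ, 0 < a → a < 1 → v1 < v2 →
  (∀ t ∈ Icc 0 t0, ∀ᵐ s ∂lam, (s < a → pos V t s = t * v1) ∧ (a < s → pos V t s = t * v2)) →
  ∀ᵐ t ∂(volume.restrict (Ioo 0 T)),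
    cntOn 0 a (pos V t) + cntOn a 1 (pos V t) ≤ cnt (pos V t)

/-- decomposition into two paths -/
def S_CHILD : Prop := ∀ (T : ℝ) (V : ℝ → ℝ → ℝ) (a : ℝ), 0 < T → Path T V → en T V < ∞ →
  0 < a → a < 1 →
  (∀ᵐ t ∂(volume.restrict (Ioo 0 T)),
    cntOn 0 a (pos V t) + cntOn a 1 (pos V t) ≤ cnt (pos V t)) →
  ∃ Z1 Z2 : ℝ → ℝ → ℝ, Path (T / r32 a) Z1 ∧ Path (T / r32 (1 - a)) Z2 ∧
    ENNReal.ofReal (r32 a) * en (T / r32 a) Z1 +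
      ENNReal.ofReal (r32 (1 - a)) * en (T / r32 (1 - a)) Z2 +
      ENNReal.ofReal (a * (1 - a) / (4 * T)) ≤ en T V ∧
    (∀ t ∈ Icc 0 T, (∃ c : ℝ, ∀ᵐ s ∂lam, s < a → pos V t s = c) →
      ∃ c : ℝ, ∀ᵐ s ∂lam, pos Z1 (t / r32 a) s = c) ∧
    (∀ t ∈ Icc 0 T, (∃ c : ℝ, ∀ᵐ s ∂lam, a < s → pos V t s = c) →
      ∃ c : ℝ, ∀ᵐ s ∂lam, pos Z2 (t / r32 (1 - a)) s = c)

/-- the structural statement (assembly, helper508) -/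
def S_S : Prop := ∀ T T' : ℝ, 0 < T → T < T' → E T' = E T + ENNReal.ofReal (T' - T) →
  (¬ ∃ t0 ∈ Ioo 0 T, ENNReal.ofReal t0 + E (T - t0) ≤ E T) →
  ∃ a : ℝ, 0 < a ∧ a < 1 ∧
    ENNReal.ofReal (r32 a) * E (T / r32 a) + ENNReal.ofReal (r32 (1 - a)) * E (T / r32 (1 - a)) +
      ENNReal.ofReal (a * (1 - a) / (4 * T)) ≤ E T ∧
    (∃ t0 ∈ Ioo 0 (T / r32 a), ENNReal.ofReal t0 + E (T / r32 a - t0) ≤ E (T / r32 a)) ∧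
    (∃ t0 ∈ Ioo 0 (T / r32 (1 - a)),
      ENNReal.ofReal t0 + E (T / r32 (1 - a) - t0) ≤ E (T / r32 (1 - a)))

/-! ### Real analysis -/

/-- the abstract properties of the (real valued) value function -/
structure VF (e : ℝ → ℝ) : Prop where
  wait : ∀ T' T : ℝ, 0 < T' → T' ≤ T → e T ≤ e T' + (T - T')
  tsc : ∀ T T' : ℝ, 0 < T → 0 < T' → e T' ≤ max (T' / T) (T / T') * e T
  upp : ∀ T : ℝ, 0 < T → e T ≤ (1 + 2 * cc) * T + cc / (8 * T)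
  lb : ∀ T : ℝ, 0 < T → 1 / (12 * T) ≤ e T
  glue : ∀ T a : ℝ, 0 < T → 0 < a → a < 1 →
    e T ≤ r32 a * e (T / r32 a) + r32 (1 - a) * e (T / r32 (1 - a)) + a * (1 - a) / (4 * T)
  large : ∀ T : ℝ, cc < T → FL e T
  str : ∀ T T' : ℝ, 0 < T → T < T' → e T' = e T + (T' - T) → ¬ FL e T → ∃ a : ℝ, 0 < a ∧ a < 1 ∧
    r32 a * e (T / r32 a) + r32 (1 - a) * e (T / r32 (1 - a)) + a * (1 - a) / (4 * T) ≤ e T ∧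
    FL e (T / r32 a) ∧ FL e (T / r32 (1 - a))

/-- numerical inequalities -/
def S_NUM : Prop :=
  (∀ a : ℝ, 0 < a → a < 1 → r32 a + r32 (1 - a) =
    (1 - Real.sqrt (a * (1 - a))) * Real.sqrt (1 + 2 * Real.sqrt (a * (1 - a)))) ∧
  (∀ y : ℝ, 0 < y → y ≤ 1 / 2 → cc * (1 - (1 - y) * Real.sqrt (1 + 2 * y)) ≤ y) ∧
  (∀ y : ℝ, 0 < y → y < 1 / 2 → cc * (1 - (1 - y) * Real.sqrt (1 + 2 * y)) < y) ∧
  (∀ y : ℝ, 4 * y ^ 2 ≥ 4 * (2 * Real.sqrt 2 - 2) * (3 - 2 * Real.sqrt 2) → 0 < y → y < 1 / 2 →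
    cc * y + cc / (4 * y) < y + cc * ((1 - y) * Real.sqrt (1 + 2 * y))) ∧
  (∀ b t : ℝ, 0 < b → b ≤ 3 - 2 * Real.sqrt 2 → 0 < t → 4 * t ^ 2 = b * (1 - b) →
    (1 - r32 (1 - b)) * (2 * cc * t + cc / (8 * t)) + t / 10 ≤ 2 * t + cc * r32 b)

/-- a left end point of a flat interval -/
def S_LEFT : Prop := ∀ e : ℝ → ℝ, VF e → ∀ T : ℝ, 0 < T → FL e T →
  ∃ T1 : ℝ, 0 < T1 ∧ T1 < T ∧ e T = e T1 + (T - T1) ∧ ¬ FL e T1 ∧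
    (∀ t : ℝ, T1 ≤ t → t ≤ T → e t = e T1 + (t - T1)) ∧
    (∀ t : ℝ, 0 < t → t < T1 → e T1 < e t + (T1 - t))

/-- balance at a left end point -/
def S_BAL : Prop := ∀ e : ℝ → ℝ, VF e → ∀ T1 T a : ℝ, 0 < T1 → T1 < T → 0 < a → a < 1 →
  (∀ t : ℝ, T1 ≤ t → t ≤ T → e t = e T1 + (t - T1)) →
  (∀ t : ℝ, 0 < t → t < T1 → e T1 < e t + (T1 - t)) →
  r32 a * e (T1 / r32 a) + r32 (1 - a) * e (T1 / r32 (1 - a)) + a * (1 - a) / (4 * T1) ≤ e T1 →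
  FL e (T1 / r32 a) → FL e (T1 / r32 (1 - a)) →
  4 * T1 ^ 2 = a * (1 - a) ∧
  e T1 - T1 = r32 a * (e (T1 / r32 a) - T1 / r32 a) +
    r32 (1 - a) * (e (T1 / r32 (1 - a)) - T1 / r32 (1 - a)) + 2 * T1

/-- the known part: `e T ≥ T + c` -/
def S_INF : Prop := ∀ e : ℝ → ℝ, VF e → ∀ T : ℝ, 0 < T → T + cc ≤ e T

/-- conclusion of the real analysis -/
def S_RA : Prop := ∀ e : ℝ → ℝ, VF e → ∀ T : ℝ, 0 < T → T < 1 / 4 → ¬ FL e T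

end Pool.Agent.R508.BT
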