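import Pool.Agent.R508.BT.Eul
import Pool.Agent.R508.BT.Stm

open MeasureTheory Set Filter Topology
open scoped ENNReal

namespace Pool.Agent.R508.BT

namespace ACp

/-- index of the time interval -/
noncomputable def ix (h t : ℝ) : ℕ := ⌊t / h⌋₊

/-- difference quotients -/
noncomputable def VN (Q : ℝ → ℝ → ℝ) (h t s : ℝ) : ℝ :=
  h⁻¹ * (Q (((ix h t : ℝ) + 1) * h) s - Q ((ix h t : ℝ) * h) s)

theorem ix_eq {h t : ℝ} (hh : 0 < h) {j : ℕ} (h1 : (j : ℝ) * h ≤ t) (h2 : t < ((j : ℝ) + 1) * h) :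
    ix h t = j := by
  unfold ix
  have ht : 0 ≤ t := le_trans (by positivity) h1
  rw [Nat.floor_eq_iff (by positivity)]
  exact ⟨by rw [le_div_iff₀ hh]; exact h1, by rw [div_lt_iff₀ hh]; exact h2⟩

theorem VN_meas {Q : ℝ → ℝ → ℝ} (hQ : Measurable (Function.uncurry Q)) (h : ℝ) :
    Measurable (Function.uncurry (VN Q h)) := by
  have h1 : Measurable fun p : ℝ × ℝ => (ix h p.1 : ℝ) := by
    have : Measurable fun p : ℝ × ℝ => ⌊p.1 / h⌋₊ :=
      Nat.measurable_floor.comp (measurable_fst.div_const h)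
    exact measurable_from_nat.comp this
  have h2 : Measurable fun p : ℝ × ℝ => Q (((ix h p.1 : ℝ) + 1) * h) p.2 :=
    hQ.comp (((h1.add_const 1).mul_const h).prodMk measurable_snd)
  have h3 : Measurable fun p : ℝ × ℝ => Q ((ix h p.1 : ℝ) * h) p.2 :=
    hQ.comp ((h1.mul_const h).prodMk measurable_snd)
  exact (h2.sub h3).const_mul h⁻¹

theorem VN_eq {Q : ℝ → ℝ → ℝ} {h t : ℝ} (hh : 0 < h) {j : ℕ} (h1 : (j : ℝ) * h ≤ t)
    (h2 : t < ((j : ℝ) + 1) * h) (s : ℝ) :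
    VN Q h t s = h⁻¹ * (Q (((j : ℝ) + 1) * h) s - Q ((j : ℝ) * h) s) := by
  unfold VN
  rw [ix_eq hh h1 h2]

section
variable {T : ℝ} {Q : ℝ → ℝ → ℝ} {g : ℝ → ℝ≥0∞}

theorem kin_piece
    (hb : ∀ a b : ℝ, 0 ≤ a → a < b → b ≤ T →
    ∫⁻ s, ENNReal.ofReal ((Q b s - Q a s) ^ 2) ∂lam ≤ ENNReal.ofReal (b - a) * ∫⁻ t in Ioo a b, g t)
    {h : ℝ} (hh : 0 < h) (j : ℕ) (hj : ((j : ℝ) + 1) * h ≤ T) :
    ∫⁻ t in Ico ((j : ℝ) * h) (((j : ℝ) + 1) * h), ∫⁻ s, ENNReal.ofReal ((VN Q h t s) ^ 2) ∂lam ≤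
      ∫⁻ t in Ioo ((j : ℝ) * h) (((j : ℝ) + 1) * h), g t := by
  set Γ := ∫⁻ t in Ioo ((j : ℝ) * h) (((j : ℝ) + 1) * h), g t with hΓ
  have hlen : ((j : ℝ) + 1) * h - (j : ℝ) * h = h := by ring
  have h0 := hb ((j : ℝ) * h) (((j : ℝ) + 1) * h) (by positivity) (by linarith) hj
  rw [hlen, ← hΓ] at h0
  calc ∫⁻ t in Ico ((j : ℝ) * h) (((j : ℝ) + 1) * h),
        ∫⁻ s, ENNReal.ofReal ((VN Q h t s) ^ 2) ∂lam
      ≤ ∫⁻ t in Ico ((j : ℝ) * h) (((j : ℝ) + 1) * h), (ENNReal.ofReal h⁻¹ * Γ) := by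
        apply setLIntegral_mono' measurableSet_Ico
        intro t ht
        have e : ∀ s, ENNReal.ofReal ((VN Q h t s) ^ 2) = ENNReal.ofReal (h⁻¹ ^ 2) *
            ENNReal.ofReal ((Q (((j : ℝ) + 1) * h) s - Q ((j : ℝ) * h) s) ^ 2) := by
          intro s
          rw [VN_eq hh ht.1 ht.2, mul_pow, ENNReal.ofReal_mul (by positivity)]
        simp_rw [e]
        rw [lintegral_const_mul' _ _ ENNReal.ofReal_ne_top]
        calc ENNReal.ofReal (h⁻¹ ^ 2) *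
              ∫⁻ s, ENNReal.ofReal ((Q (((j : ℝ) + 1) * h) s - Q ((j : ℝ) * h) s) ^ 2) ∂lam
            ≤ ENNReal.ofReal (h⁻¹ ^ 2) * (ENNReal.ofReal h * Γ) := by gcongr
          _ = ENNReal.ofReal h⁻¹ * Γ := by
              rw [← mul_assoc, ← ENNReal.ofReal_mul (by positivity)]
              congr 2
              field_simp
    _ = Γ := by
        rw [lintegral_const, Measure.restrict_apply_univ, Real.volume_Ico, hlen, mul_comm,
          ← mul_assoc, ← ENNReal.ofReal_mul hh.le, mul_inv_cancel₀ hh.ne', ENNReal.ofReal_one,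
          one_mul]

theorem kin_sum
    (hb : ∀ a b : ℝ, 0 ≤ a → a < b → b ≤ T →
    ∫⁻ s, ENNReal.ofReal ((Q b s - Q a s) ^ 2) ∂lam ≤ ENNReal.ofReal (b - a) * ∫⁻ t in Ioo a b, g t)
    {h : ℝ} (hh : 0 < h) (j : ℕ) (hj : (j : ℝ) * h ≤ T) :
    ∫⁻ t in Ico 0 ((j : ℝ) * h), ∫⁻ s, ENNReal.ofReal ((VN Q h t s) ^ 2) ∂lam ≤
      ∫⁻ t in Ioo 0 ((j : ℝ) * h), g t := by
  induction j with
  | zero => simp
  | succ j ih =>
    push_cast at hj ⊢
    have hj' : (j : ℝ) * h ≤ T := by linarith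
    have h0 : 0 ≤ (j : ℝ) * h := by positivity
    have h1 : (j : ℝ) * h ≤ ((j : ℝ) + 1) * h := by linarith
    rw [← Ico_union_Ico_eq_Ico h0 h1]
    calc ∫⁻ t in Ico 0 ((j : ℝ) * h) ∪ Ico ((j : ℝ) * h) (((j : ℝ) + 1) * h),
          ∫⁻ s, ENNReal.ofReal ((VN Q h t s) ^ 2) ∂lam
        ≤ (∫⁻ t in Ico 0 ((j : ℝ) * h), ∫⁻ s, ENNReal.ofReal ((VN Q h t s) ^ 2) ∂lam) +
          ∫⁻ t in Ico ((j : ℝ) * h) (((j : ℝ) + 1) * h),
            ∫⁻ s, ENNReal.ofReal ((VN Q h t s) ^ 2) ∂lam := lintegral_union_le _ _ _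
      _ ≤ (∫⁻ t in Ioo 0 ((j : ℝ) * h), g t) +
          ∫⁻ t in Ioo ((j : ℝ) * h) (((j : ℝ) + 1) * h), g t :=
          add_le_add (ih hj') (kin_piece hb hh j hj)
      _ = ∫⁻ t in Ioo 0 ((j : ℝ) * h) ∪ Ioo ((j : ℝ) * h) (((j : ℝ) + 1) * h), g t := by
          rw [lintegral_union measurableSet_Ioo]
          rw [Set.disjoint_left]
          intro x hx hx'
          exact absurd hx.2 (not_lt.mpr hx'.1.le)
      _ ≤ ∫⁻ t in Ioo 0 (((j : ℝ) + 1) * h), g t := by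
          apply lintegral_mono_set
          rintro x (hx | hx)
          · exact ⟨hx.1, lt_of_lt_of_le hx.2 h1⟩
          · exact ⟨lt_of_le_of_lt h0 hx.1, hx.2⟩

theorem piece_int {h : ℝ} (hh : 0 < h) (j : ℕ) {t : ℝ} (h1 : (j : ℝ) * h ≤ t)
    (h2 : t ≤ ((j : ℝ) + 1) * h) (s : ℝ) :
    IntervalIntegrable (fun τ => VN Q h τ s) volume ((j : ℝ) * h) t ∧
    ∫ τ in ((j : ℝ) * h)..t, VN Q h τ s =
      (t - (j : ℝ) * h) * (h⁻¹ * (Q (((j : ℝ) + 1) * h) s - Q ((j : ℝ) * h) s)) := by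
  have hE : EqOn (fun _ => h⁻¹ * (Q (((j : ℝ) + 1) * h) s - Q ((j : ℝ) * h) s))
      (fun τ => VN Q h τ s) (uIoo ((j : ℝ) * h) t) := by
    intro τ hτ
    rw [uIoo_of_le h1] at hτ
    exact (VN_eq hh hτ.1.le (lt_of_lt_of_le hτ.2 h2) s).symm
  refine ⟨IntervalIntegrable.congr_uIoo intervalIntegrable_const hE, ?_⟩
  rw [← intervalIntegral.integral_congr_uIoo hE, intervalIntegral.integral_const, smul_eq_mul]

theorem pos_grid {h : ℝ} (hh : 0 < h) (s : ℝ) (j : ℕ) :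
    IntervalIntegrable (fun τ => VN Q h τ s) volume 0 ((j : ℝ) * h) ∧
    ∫ τ in (0 : ℝ)..((j : ℝ) * h), VN Q h τ s = Q ((j : ℝ) * h) s - Q 0 s := by
  induction j with
  | zero => simp
  | succ j ih =>
    push_cast
    obtain ⟨p1, p2⟩ := piece_int (Q := Q) hh j (t := ((j : ℝ) + 1) * h) (by linarith) le_rfl s
    refine ⟨ih.1.trans p1, ?_⟩
    rw [← intervalIntegral.integral_add_adjacent_intervals ih.1 p1, ih.2, p2]
    field_simp
    ring

theorem pos_gen {h : ℝ} (hh : 0 < h) (j : ℕ) {t : ℝ} (h1 : (j : ℝ) * h ≤ t)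
    (h2 : t ≤ ((j : ℝ) + 1) * h) (s : ℝ) :
    pos (VN Q h) t s = Q ((j : ℝ) * h) s - Q 0 s +
      (t - (j : ℝ) * h) * (h⁻¹ * (Q (((j : ℝ) + 1) * h) s - Q ((j : ℝ) * h) s)) := by
  unfold pos
  obtain ⟨p1, p2⟩ := piece_int (Q := Q) hh j h1 h2 s
  obtain ⟨p3, p4⟩ := pos_grid (Q := Q) hh s j
  rw [← intervalIntegral.integral_add_adjacent_intervals p3 p1, p4, p2]

theorem D_bound {h : ℝ} (hh : 0 < h) (j : ℕ) {t : ℝ} (h1 : (j : ℝ) * h ≤ t)
    (h2 : t ≤ ((j : ℝ) + 1) * h) (s : ℝ) :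
    (pos (VN Q h) t s - (Q t s - Q 0 s)) ^ 2 ≤ 2 * (Q t s - Q ((j : ℝ) * h) s) ^ 2 +
      2 * (Q (((j : ℝ) + 1) * h) s - Q ((j : ℝ) * h) s) ^ 2 := by
  rw [pos_gen hh j h1 h2]
  set x := Q t s - Q ((j : ℝ) * h) s with hx
  set y := Q (((j : ℝ) + 1) * h) s - Q ((j : ℝ) * h) s with hy
  have e : Q ((j : ℝ) * h) s - Q 0 s + (t - (j : ℝ) * h) * (h⁻¹ * y) - (Q t s - Q 0 s) =
      (t - (j : ℝ) * h) * h⁻¹ * y - x := by rw [hx]; ring
  rw [e]
  set θ := (t - (j : ℝ) * h) * h⁻¹ with hθ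
  have hθ0 : 0 ≤ θ := mul_nonneg (by linarith) (by positivity)
  have hθ1 : θ ≤ 1 := by
    rw [hθ, ← div_eq_mul_inv, div_le_one hh]; linarith
  have h3 : (θ * y) ^ 2 ≤ y ^ 2 := by
    rw [mul_pow]
    have : θ ^ 2 ≤ 1 := by nlinarith
    nlinarith [sq_nonneg y]
  nlinarith [sq_nonneg (θ * y + x)]

end

theorem l1 {f : ℝ → ℝ} {δ : ℝ} (hδ : 0 < δ) :
    ∫⁻ s, ENNReal.ofReal |f s| ∂lam ≤
      ENNReal.ofReal δ + ENNReal.ofReal δ⁻¹ * ∫⁻ s, ENNReal.ofReal ((f s) ^ 2) ∂lam := by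
  have hvol : lam univ = 1 := by
    rw [Measure.restrict_apply_univ, Real.volume_Ioo]; simp
  calc ∫⁻ s, ENNReal.ofReal |f s| ∂lam
      ≤ ∫⁻ s, (ENNReal.ofReal δ + ENNReal.ofReal δ⁻¹ * ENNReal.ofReal ((f s) ^ 2)) ∂lam := by
        apply lintegral_mono
        intro s
        simp only
        rw [← ENNReal.ofReal_mul (by positivity), ← ENNReal.ofReal_add hδ.le (by positivity)]
        apply ENNReal.ofReal_le_ofReal
        have h1 : |f s| * δ ≤ δ * δ + (f s) ^ 2 := by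
          rw [← sq_abs (f s)]
          nlinarith [sq_nonneg (|f s| - δ), abs_nonneg (f s)]
        have h2 : |f s| = (|f s| * δ) * δ⁻¹ := by field_simp
        rw [h2]
        calc |f s| * δ * δ⁻¹ ≤ (δ * δ + (f s) ^ 2) * δ⁻¹ :=
              mul_le_mul_of_nonneg_right h1 (by positivity)
          _ = δ + δ⁻¹ * (f s) ^ 2 := by field_simp
    _ = _ := by
        rw [lintegral_add_left measurable_const, lintegral_const, hvol, mul_one,
          lintegral_const_mul' _ _ ENNReal.ofReal_ne_top]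

theorem int_of_sq {f : ℝ → ℝ} (hf : Measurable f)
    (h : ∫⁻ s, ENNReal.ofReal ((f s) ^ 2) ∂lam < ∞) : Integrable f lam := by
  refine ⟨hf.aestronglyMeasurable, ?_⟩
  rw [hasFiniteIntegral_iff_norm]
  exact lt_of_le_of_lt (l1 one_pos)
    (ENNReal.add_lt_top.mpr ⟨ENNReal.ofReal_lt_top, ENNReal.mul_lt_top ENNReal.ofReal_lt_top h⟩)

theorem abs_int_le {f : ℝ → ℝ} {K : ℝ} (hK : 0 ≤ K)
    (hf : ∫⁻ s, ENNReal.ofReal |f s| ∂lam ≤ ENNReal.ofReal K) {a b : ℝ} (ha : 0 ≤ a) (hab : a ≤ b)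
    (hb : b ≤ 1) : |∫ s in a..b, f s| ≤ K := by
  rw [intervalIntegral.integral_of_le hab]
  refine (norm_integral_le_lintegral_norm (μ := volume.restrict (Ioc a b)) f).trans ?_
  apply ENNReal.toReal_le_of_le_ofReal hK
  calc ∫⁻ s in Ioc a b, ENNReal.ofReal ‖f s‖ ≤ ∫⁻ s in Icc 0 1, ENNReal.ofReal ‖f s‖ :=
        lintegral_mono_set (fun x hx => ⟨ha.trans hx.1.le, hx.2.trans hb⟩)
    _ = ∫⁻ s, ENNReal.ofReal ‖f s‖ ∂lam := by
        rw [Measure.restrict_congr_set Ioo_ae_eq_Icc.symm]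
    _ ≤ _ := hf

theorem pos_int {T : ℝ} {W : ℝ → ℝ → ℝ} (hW : Measurable (Function.uncurry W))
    (hk : kin T W < ∞) {t : ℝ} (ht : t ∈ Icc 0 T) : Integrable (pos W t) lam := by
  have h1 : Integrable (Function.uncurry W) ((volume.restrict (Ioc 0 t)).prod lam) := by
    refine ⟨hW.aestronglyMeasurable, ?_⟩
    rw [hasFiniteIntegral_iff_norm, lintegral_prod _ (by fun_prop)]
    calc ∫⁻ τ in Ioc 0 t, ∫⁻ s, ENNReal.ofReal ‖Function.uncurry W (τ, s)‖ ∂lam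
        ≤ ∫⁻ τ in Ioc 0 t, (ENNReal.ofReal 1 +
            ENNReal.ofReal 1⁻¹ * ∫⁻ s, ENNReal.ofReal ((W τ s) ^ 2) ∂lam) :=
          lintegral_mono fun τ => l1 (f := W τ) one_pos
      _ ≤ ∫⁻ τ in Icc 0 T, (ENNReal.ofReal 1 +
            ENNReal.ofReal 1⁻¹ * ∫⁻ s, ENNReal.ofReal ((W τ s) ^ 2) ∂lam) :=
          lintegral_mono_set fun x hx => ⟨hx.1.le, hx.2.trans ht.2⟩
      _ = ∫⁻ τ in Ioo 0 T, (ENNReal.ofReal 1 +
            ENNReal.ofReal 1⁻¹ * ∫⁻ s, ENNReal.ofReal ((W τ s) ^ 2) ∂lam) := by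
          rw [Measure.restrict_congr_set Ioo_ae_eq_Icc.symm]
      _ = (∫⁻ τ in Ioo 0 T, ENNReal.ofReal 1) + ENNReal.ofReal 1⁻¹ * kin T W := by
          rw [lintegral_add_left measurable_const, lintegral_const_mul' _ _ ENNReal.ofReal_ne_top]
          rfl
      _ < ∞ := by
          refine ENNReal.add_lt_top.mpr ⟨?_, ENNReal.mul_lt_top ENNReal.ofReal_lt_top hk⟩
          rw [lintegral_const, Measure.restrict_apply_univ, Real.volume_Ioo]
          exact ENNReal.mul_lt_top ENNReal.ofReal_lt_top ENNReal.ofReal_lt_top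
  refine h1.integral_prod_right.congr (Eventually.of_forall fun s => ?_)
  simp only [pos, Function.uncurry]
  rw [intervalIntegral.integral_of_le ht.1]

theorem ii_of_lam {f : ℝ → ℝ} (hf : Integrable f lam) {x : ℝ} (hx0 : 0 ≤ x) (hx1 : x ≤ 1) :
    IntervalIntegrable f volume 0 x := by
  rw [intervalIntegrable_iff_integrableOn_Ioc_of_le hx0]
  have h1 : IntegrableOn f (Ioo 0 1) := hf
  rw [← integrableOn_Icc_iff_integrableOn_Ioo] at h1
  exact h1.mono_set fun y hy => ⟨hy.1.le, hy.2.trans hx1⟩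

theorem exists_j {h T t : ℝ} {M : ℕ} (hM : 0 < M) (hh : 0 < h) (hMh : (M : ℝ) * h = T)
    (ht : t ∈ Icc 0 T) : ∃ j : ℕ, (j : ℝ) * h ≤ t ∧ t ≤ ((j : ℝ) + 1) * h ∧
      ((j : ℝ) + 1) * h ≤ T := by
  rcases lt_or_eq_of_le ht.2 with h1 | h1
  · refine ⟨⌊t / h⌋₊, ?_, ?_, ?_⟩
    · rw [← le_div_iff₀ hh]
      exact Nat.floor_le (div_nonneg ht.1 hh.le)
    · rw [← div_le_iff₀ hh]
      exact (Nat.lt_floor_add_one _).le
    · have h2 : ⌊t / h⌋₊ < M := by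
        rw [Nat.floor_lt (div_nonneg ht.1 hh.le), div_lt_iff₀ hh, hMh]; exact h1
      have h3 : ((⌊t / h⌋₊ : ℝ) + 1) ≤ M := by exact_mod_cast h2
      rw [← hMh]
      exact mul_le_mul_of_nonneg_right h3 hh.le
  · refine ⟨M - 1, ?_, ?_, ?_⟩
    · have : ((M - 1 : ℕ) : ℝ) ≤ M := by exact_mod_cast Nat.sub_le _ _
      rw [h1, ← hMh]
      exact mul_le_mul_of_nonneg_right this hh.le
    · have : ((M - 1 : ℕ) : ℝ) + 1 = M := by
        have : M - 1 + 1 = M := by omega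
        exact_mod_cast this
      rw [this, hMh]; exact h1.le
    · have : ((M - 1 : ℕ) : ℝ) + 1 = M := by
        have : M - 1 + 1 = M := by omega
        exact_mod_cast this
      rw [this, hMh]

end ACp

open ACp

theorem t_AC (hWK : S_WK) : S_AC := by
  intro T Q g hT hQ hg hG hb
  set G := ∫⁻ t in Ioo 0 T, g t with hGdef
  set G' := G.toReal with hG'def
  have hG' : G = ENNReal.ofReal G' := (ENNReal.ofReal_toReal hG.ne).symm
  have hG'0 : 0 ≤ G' := ENNReal.toReal_nonneg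
  set H : ℕ → ℝ := fun n => T / ((n : ℝ) + 1) ^ 2 with hH
  have hH0 : ∀ n, 0 < H n := fun n => by positivity
  have hHM : ∀ n, (((n + 1) ^ 2 : ℕ) : ℝ) * H n = T := by
    intro n
    have : ((n : ℝ) + 1) ^ 2 ≠ 0 := by positivity
    simp only [hH]
    push_cast
    field_simp
  have hkin : ∀ n, kin T (VN Q (H n)) ≤ ENNReal.ofReal G' := by
    intro n
    have h1 := kin_sum (Q := Q) (g := g) hb (hH0 n) ((n + 1) ^ 2) (hHM n).le
    rw [hHM n] at h1
    rw [← hG']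
    exact (lintegral_mono_set Ioo_subset_Ico_self).trans h1
  obtain ⟨φ, W, hφ, hWm, hWk, hWt⟩ := hWK T G' (fun n => VN Q (H n)) hT
    (fun n => VN_meas hQ _) hkin
  have hkW : kin T W ≤ G := by
    refine hWk.trans ?_
    rw [hG']
    have : liminf (fun _ : ℕ => ENNReal.ofReal G') atTop = ENNReal.ofReal G' := liminf_const _
    rw [← this]
    exact liminf_le_liminf (Eventually.of_forall fun n => hkin _)
  refine ⟨W, hWm, ?_, hkW⟩
  intro t ht
  have hQm : ∀ x, Measurable (Q x) := fun x => hQ.comp measurable_prodMk_left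
  -- bound for differences
  have hsq : ∀ a b h : ℝ, 0 ≤ a → a ≤ b → b ≤ T → b - a ≤ h →
      ∫⁻ s, ENNReal.ofReal ((Q b s - Q a s) ^ 2) ∂lam ≤ ENNReal.ofReal h * G := by
    intro a b h ha hab hbT hh
    rcases eq_or_lt_of_le hab with h0 | h0
    · rw [h0]; simp
    · refine (hb a b ha h0 hbT).trans ?_
      gcongr
      exact lintegral_mono_set (Ioo_subset_Ioo ha hbT)
  have hQt : ∫⁻ s, ENNReal.ofReal ((Q t s - Q 0 s) ^ 2) ∂lam < ∞ :=
    lt_of_le_of_lt (hsq 0 t t le_rfl ht.1 ht.2 (by linarith))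
      (ENNReal.mul_lt_top ENNReal.ofReal_lt_top hG)
  have hI1 : Integrable (fun s => Q t s - Q 0 s) lam :=
    int_of_sq ((hQm t).sub (hQm 0)) hQt
  have hI2 : Integrable (pos W t) lam := pos_int hWm (lt_of_le_of_lt hkW hG) ht
  -- the error
  have hD : ∀ n, ∫⁻ s, ENNReal.ofReal ((pos (VN Q (H n)) t s - (Q t s - Q 0 s)) ^ 2) ∂lam ≤
      ENNReal.ofReal (4 * H n * G') := by
    intro n
    obtain ⟨j, h1, h2, h3⟩ := exists_j (by positivity) (hH0 n) (hHM n) ht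
    have hj0 : 0 ≤ (j : ℝ) * H n := by have := hH0 n; positivity
    calc ∫⁻ s, ENNReal.ofReal ((pos (VN Q (H n)) t s - (Q t s - Q 0 s)) ^ 2) ∂lam
        ≤ ∫⁻ s, (2 * ENNReal.ofReal ((Q t s - Q ((j : ℝ) * H n) s) ^ 2) +
            2 * ENNReal.ofReal ((Q (((j : ℝ) + 1) * H n) s - Q ((j : ℝ) * H n) s) ^ 2)) ∂lam := by
          apply lintegral_mono
          intro s
          have h4 := D_bound (Q := Q) (hH0 n) j h1 h2 s
          have e2 : (2 : ℝ≥0∞) = ENNReal.ofReal 2 := by simp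
          simp only
          rw [e2, ← ENNReal.ofReal_mul (by norm_num), ← ENNReal.ofReal_mul (by norm_num),
            ← ENNReal.ofReal_add (by positivity) (by positivity)]
          exact ENNReal.ofReal_le_ofReal h4
      _ = 2 * (∫⁻ s, ENNReal.ofReal ((Q t s - Q ((j : ℝ) * H n) s) ^ 2) ∂lam) +
            2 * ∫⁻ s, ENNReal.ofReal
              ((Q (((j : ℝ) + 1) * H n) s - Q ((j : ℝ) * H n) s) ^ 2) ∂lam := by
          rw [lintegral_add_left, lintegral_const_mul' _ _ (by simp),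
            lintegral_const_mul' _ _ (by simp)]
          exact ((((hQm t).sub (hQm _)).pow_const 2).ennreal_ofReal).const_mul 2
      _ ≤ 2 * (ENNReal.ofReal (H n) * G) + 2 * (ENNReal.ofReal (H n) * G) := by
          gcongr
          · exact hsq _ _ _ hj0 h1 ht.2 (by linarith)
          · exact hsq _ _ _ hj0 (by linarith) h3 (by linarith)
      _ = ENNReal.ofReal (4 * H n * G') := by
          have e4 : (4 : ℝ≥0∞) = ENNReal.ofReal 4 := by simp
          rw [hG', ← add_mul, ← ENNReal.ofReal_mul (hH0 n).le, mul_assoc 4,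
            ENNReal.ofReal_mul (by norm_num : (0:ℝ) ≤ 4), ← e4]
          norm_num
  have hDabs : ∀ n, ∫⁻ s, ENNReal.ofReal |pos (VN Q (H n)) t s - (Q t s - Q 0 s)| ∂lam ≤
      ENNReal.ofReal ((1 + 4 * T * G') / ((n : ℝ) + 1)) := by
    intro n
    have hn : (0 : ℝ) < 1 / ((n : ℝ) + 1) := by positivity
    refine (l1 hn).trans ?_
    calc ENNReal.ofReal (1 / ((n : ℝ) + 1)) + ENNReal.ofReal (1 / ((n : ℝ) + 1))⁻¹ *
          ∫⁻ s, ENNReal.ofReal ((pos (VN Q (H n)) t s - (Q t s - Q 0 s)) ^ 2) ∂lam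
        ≤ ENNReal.ofReal (1 / ((n : ℝ) + 1)) + ENNReal.ofReal (1 / ((n : ℝ) + 1))⁻¹ *
          ENNReal.ofReal (4 * H n * G') := by gcongr; exact hD n
      _ = ENNReal.ofReal ((1 + 4 * T * G') / ((n : ℝ) + 1)) := by
          have hHn := hH0 n
          rw [← ENNReal.ofReal_mul (by positivity), ← ENNReal.ofReal_add hn.le (by positivity)]
          congr 1
          simp only [hH]
          field_simp
  have hposm : ∀ n, Measurable (pos (VN Q (H n)) t) := by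
    intro n
    obtain ⟨j, h1, h2, h3⟩ := exists_j (by positivity) (hH0 n) (hHM n) ht
    have : pos (VN Q (H n)) t = fun s => Q ((j : ℝ) * H n) s - Q 0 s +
      (t - (j : ℝ) * H n) * ((H n)⁻¹ * (Q (((j : ℝ) + 1) * H n) s - Q ((j : ℝ) * H n) s)) :=
      funext fun s => pos_gen (hH0 n) j h1 h2 s
    rw [this]
    exact ((hQm _).sub (hQm _)).add ((((hQm _).sub (hQm _)).const_mul _).const_mul _)
  have hDI : ∀ n, Integrable (fun s => pos (VN Q (H n)) t s - (Q t s - Q 0 s)) lam := fun n =>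
    int_of_sq ((hposm n).sub ((hQm t).sub (hQm 0))) (lt_of_le_of_lt (hD n) ENNReal.ofReal_lt_top)
  -- equality of the integrals
  have heq : ∀ x ∈ Icc (0 : ℝ) 1, ∫ s in (0 : ℝ)..x, pos W t s =
      ∫ s in (0 : ℝ)..x, (Q t s - Q 0 s) := by
    intro x hx
    refine tendsto_nhds_unique (hWt t ht 0 x le_rfl hx.1 hx.2) ?_
    rw [tendsto_iff_norm_sub_tendsto_zero]
    have hlim : Tendsto (fun n : ℕ => (1 + 4 * T * G') / ((n : ℝ) + 1)) atTop (𝓝 0) := by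
      have := (tendsto_one_div_add_atTop_nhds_zero_nat (𝕜 := ℝ)).const_mul (1 + 4 * T * G')
      simpa [div_eq_mul_inv] using this
    refine squeeze_zero (fun n => norm_nonneg _) (fun n => ?_) (hlim.comp hφ.tendsto_atTop)
    have h5 := abs_int_le (K := (1 + 4 * T * G') / (((φ n : ℕ) : ℝ) + 1)) (by positivity)
      (hDabs (φ n)) le_rfl hx.1 hx.2
    rw [intervalIntegral.integral_sub (ii_of_lam ?_ hx.1 hx.2) (ii_of_lam hI1 hx.1 hx.2)] at h5
    · exact h5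
    · have h6 := (hDI (φ n)).add hI1
      refine h6.congr (Eventually.of_forall fun s => ?_)
      simp
  -- conclusion
  have hf : IntervalIntegrable (fun s => pos W t s - (Q t s - Q 0 s)) volume 0 1 :=
    ii_of_lam (hI2.sub hI1) zero_le_one le_rfl
  have hae := hf.ae_hasDerivAt_integral
  rw [ae_restrict_iff' measurableSet_Ioo]
  filter_upwards [hae] with x hx hx01
  have hxI : x ∈ uIcc (0 : ℝ) 1 := by rw [uIcc_of_le zero_le_one]; exact ⟨hx01.1.le, hx01.2.le⟩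
  have h7 := hx hxI 0 (by simp)
  have h8 : HasDerivAt (fun x => ∫ s in (0 : ℝ)..x, (pos W t s - (Q t s - Q 0 s))) 0 x := by
    refine (hasDerivAt_const x (0 : ℝ)).congr_of_eventuallyEq ?_
    filter_upwards [Ioo_mem_nhds hx01.1 hx01.2] with y hy
    rw [intervalIntegral.integral_sub (ii_of_lam hI2 hy.1.le hy.2.le)
      (ii_of_lam hI1 hy.1.le hy.2.le), heq y ⟨hy.1.le, hy.2.le⟩, sub_self]
  exact sub_eq_zero.mp (h7.unique h8)

end Pool.Agent.R508.BT
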