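import Pool.Agent.R508.BT.Stm

open MeasureTheory Set Filter Topology
open scoped ENNReal

namespace Pool.Agent.R508.BT

namespace BAL

/-- just to the left of a point where `e` is flat to the left -/
lemma fl_left {e : ℝ → ℝ} (he : VF e) {s : ℝ} (h : FL e s) :
    ∃ τ : ℝ, 0 < τ ∧ τ < s ∧ ∀ x, s - τ ≤ x → x ≤ s → e x ≤ e s - (s - x) := by
  obtain ⟨τ, h0, h1, h2⟩ := h
  refine ⟨τ, h0, h1, fun x hx hx' => ?_⟩
  have := he.wait (s - τ) x (by linarith) hx
  linarith

end BAL

theorem t_BAL : S_BAL := by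
  intro e he T1 T a hT1 hT ha ha1 hflat hleft hsplit hf1 hf2
  have hA : 0 < r32 a := Real.rpow_pos_of_pos ha _
  have hB : 0 < r32 (1 - a) := Real.rpow_pos_of_pos (by linarith) _
  set A := r32 a with hAdef
  set B := r32 (1 - a) with hBdef
  set K : ℝ := a * (1 - a) / 4 with hK
  have hK0 : 0 < K := by
    have : 0 < a * (1 - a) := mul_pos ha (by linarith)
    rw [hK]; linarith
  have hKt : ∀ t : ℝ, a * (1 - a) / (4 * t) = K / t := by
    intro t; rw [hK, div_div]
  have hs1 : 0 < T1 / A := div_pos hT1 hA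
  have hs2 : 0 < T1 / B := div_pos hT1 hB
  have hA1 : A * (T1 / A) = T1 := by field_simp
  have hB1 : B * (T1 / B) = T1 := by field_simp
  obtain ⟨τ1, h10, h11, h12⟩ := BAL.fl_left he hf1
  obtain ⟨τ2, h20, h21, h22⟩ := BAL.fl_left he hf2
  rw [hKt] at hsplit
  -- upper bound for `T1 ^ 2`
  have hup : T1 ^ 2 ≤ K := by
    by_contra hcon
    push Not at hcon
    -- choose t < T1 close to T1 with K ≤ t * T1
    obtain ⟨t, ht0, ht1, hta, htb, htK⟩ : ∃ t : ℝ, 0 < t ∧ t < T1 ∧ T1 - A * τ1 ≤ t ∧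
        T1 - B * τ2 ≤ t ∧ K ≤ t * T1 := by
      have hKT : K / T1 < T1 := by rw [div_lt_iff₀ hT1]; nlinarith
      have hm : max (max 0 (K / T1)) (max (T1 - A * τ1) (T1 - B * τ2)) < T1 := by
        have e1 : 0 < A * τ1 := mul_pos hA h10
        have e2 : 0 < B * τ2 := mul_pos hB h20
        refine max_lt (max_lt hT1 hKT) (max_lt ?_ ?_) <;> linarith
      obtain ⟨t, h1, h2⟩ := exists_between hm
      simp only [max_lt_iff] at h1
      obtain ⟨⟨h3, h4⟩, h5, h6⟩ := h1
      refine ⟨t, h3, h2, h5.le, h6.le, ?_⟩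
      rw [div_lt_iff₀ hT1] at h4
      exact h4.le
    have hg := he.glue t a ht0 ha ha1
    rw [← hAdef, ← hBdef, hKt] at hg
    have h3 : e (t / A) ≤ e (T1 / A) - (T1 / A - t / A) := by
      refine h12 _ ?_ (by gcongr)
      rw [sub_le_iff_le_add, div_le_iff₀ hA, add_mul, div_mul_cancel₀ _ hA.ne']
      linarith
    have h4 : e (t / B) ≤ e (T1 / B) - (T1 / B - t / B) := by
      refine h22 _ ?_ (by gcongr)
      rw [sub_le_iff_le_add, div_le_iff₀ hB, add_mul, div_mul_cancel₀ _ hB.ne']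
      linarith
    have h5 : A * e (t / A) ≤ A * e (T1 / A) - (T1 - t) := by
      have := mul_le_mul_of_nonneg_left h3 hA.le
      have e3 : A * (e (T1 / A) - (T1 / A - t / A)) = A * e (T1 / A) - (T1 - t) := by
        field_simp
      linarith
    have h6 : B * e (t / B) ≤ B * e (T1 / B) - (T1 - t) := by
      have := mul_le_mul_of_nonneg_left h4 hB.le
      have e3 : B * (e (T1 / B) - (T1 / B - t / B)) = B * e (T1 / B) - (T1 - t) := by
        field_simp
      linarith
    have h7 := hleft t ht0 ht1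
    have h8 : K / t - K / T1 ≤ T1 - t := by
      have e4 : K / t - K / T1 = K / (t * T1) * (T1 - t) := by field_simp
      rw [e4]
      have : K / (t * T1) ≤ 1 := by rw [div_le_one (mul_pos ht0 hT1)]; exact htK
      nlinarith [sub_pos.2 ht1]
    linarith
  have hlo : K ≤ T1 ^ 2 := by
    by_contra hcon
    push Not at hcon
    obtain ⟨t, ht1, htT, htK⟩ : ∃ t : ℝ, T1 < t ∧ t ≤ T ∧ t * T1 < K := by
      have hKT : T1 < K / T1 := by rw [lt_div_iff₀ hT1]; nlinarith
      obtain ⟨t, h1, h2⟩ := exists_between (lt_min hKT hT)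
      rw [lt_min_iff] at h2
      exact ⟨t, h1, h2.2.le, by rw [lt_div_iff₀ hT1] at h2; exact h2.1⟩
    have ht0 : 0 < t := hT1.trans ht1
    have hg := he.glue t a ht0 ha ha1
    rw [← hAdef, ← hBdef, hKt] at hg
    have h3 : e (t / A) ≤ e (T1 / A) + (t / A - T1 / A) :=
      he.wait _ _ hs1 (by gcongr)
    have h4 : e (t / B) ≤ e (T1 / B) + (t / B - T1 / B) :=
      he.wait _ _ hs2 (by gcongr)
    have h5 : A * e (t / A) ≤ A * e (T1 / A) + (t - T1) := by
      have := mul_le_mul_of_nonneg_left h3 hA.le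
      have e3 : A * (e (T1 / A) + (t / A - T1 / A)) = A * e (T1 / A) + (t - T1) := by
        field_simp
      linarith
    have h6 : B * e (t / B) ≤ B * e (T1 / B) + (t - T1) := by
      have := mul_le_mul_of_nonneg_left h4 hB.le
      have e3 : B * (e (T1 / B) + (t / B - T1 / B)) = B * e (T1 / B) + (t - T1) := by
        field_simp
      linarith
    have h7 := hflat t ht1.le htT
    have h8 : t - T1 < K / T1 - K / t := by
      have e4 : K / T1 - K / t = K / (t * T1) * (t - T1) := by field_simp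
      rw [e4]
      have : 1 < K / (t * T1) := by rw [one_lt_div (mul_pos ht0 hT1)]; exact htK
      nlinarith [sub_pos.2 ht1]
    linarith
  have hKT : K = T1 ^ 2 := le_antisymm hlo hup
  refine ⟨by rw [← hKT, hK]; ring, ?_⟩
  have hg := he.glue T1 a hT1 ha ha1
  rw [← hAdef, ← hBdef, hKt] at hg
  have heq : e T1 = A * e (T1 / A) + B * e (T1 / B) + K / T1 := le_antisymm hg hsplit
  have h9 : K / T1 = T1 := by rw [hKT]; field_simp
  rw [h9] at heq
  rw [mul_sub, mul_sub, hA1, hB1]
  linarith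

end Pool.Agent.R508.BT
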