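import Pool.Agent.R508.BT.Stm

/-! Centring of a path. -/

open MeasureTheory Set Filter Topology
open scoped ENNReal

namespace Pool.Agent.R508.BT

namespace CENaux

/-- the mean velocity -/
noncomputable def mn (V : ℝ → ℝ → ℝ) (t : ℝ) : ℝ := ∫ s', V t s' ∂lam

theorem lam_univ : lam univ = 1 := by
  simp [lam]

local instance : IsProbabilityMeasure lam := ⟨lam_univ⟩

theorem int_of_sq {α : Type*} [MeasurableSpace α] {μ : Measure α} [IsFiniteMeasure μ] {f : α → ℝ}
    (hm : Measurable f) (hf : ∫⁻ x, ENNReal.ofReal ((f x) ^ 2) ∂μ < ∞) :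
    Integrable (fun x => (f x) ^ 2) μ ∧ Integrable f μ := by
  have h1 : Integrable (fun x => (f x) ^ 2) μ := by
    refine ⟨(hm.pow_const 2).aestronglyMeasurable, ?_⟩
    rw [hasFiniteIntegral_iff_ofReal (Eventually.of_forall fun x => sq_nonneg (f x))]
    exact hf
  refine ⟨h1, ?_⟩
  refine Integrable.mono' (h1.add (integrable_const (1 : ℝ))) hm.aestronglyMeasurable
    (Eventually.of_forall fun x => ?_)
  simp only [Pi.add_apply, Real.norm_eq_abs]
  nlinarith [abs_nonneg (f x), sq_abs (f x), sq_nonneg (|f x| - 1)]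

theorem slice {f : ℝ → ℝ} (hm : Measurable f)
    (hf : ∫⁻ s, ENNReal.ofReal ((f s) ^ 2) ∂lam < ∞) :
    ∫⁻ s, ENNReal.ofReal ((f s - ∫ s', f s' ∂lam) ^ 2) ∂lam +
      ENNReal.ofReal ((∫ s', f s' ∂lam) ^ 2) = ∫⁻ s, ENNReal.ofReal ((f s) ^ 2) ∂lam := by
  obtain ⟨h2, h1⟩ := int_of_sq hm hf
  set m := ∫ s', f s' ∂lam with hmm
  have h3 : Integrable (fun s => (f s - m) ^ 2) lam := by
    have : (fun s => (f s - m) ^ 2) = fun s => (f s) ^ 2 - (2 * m) * f s + m ^ 2 := by
      funext s; ring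
    rw [this]
    exact (h2.sub (h1.const_mul _)).add (integrable_const _)
  have h4 : ∫ s, (f s - m) ^ 2 ∂lam = ∫ s, (f s) ^ 2 ∂lam - m ^ 2 := by
    have : (fun s => (f s - m) ^ 2) = fun s => (f s) ^ 2 - (2 * m) * f s + m ^ 2 := by
      funext s; ring
    have e1 : Integrable (fun s => (f s) ^ 2 - (2 * m) * f s) lam := h2.sub (h1.const_mul _)
    rw [this, integral_add e1 (integrable_const _),
      integral_sub h2 (h1.const_mul _), integral_const_mul, ← hmm, integral_const]
    simp only [probReal_univ, smul_eq_mul]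
    ring
  rw [← ofReal_integral_eq_lintegral_ofReal h3 (Eventually.of_forall fun s => sq_nonneg _),
    ← ofReal_integral_eq_lintegral_ofReal h2 (Eventually.of_forall fun s => sq_nonneg _),
    ← ENNReal.ofReal_add (integral_nonneg fun s => sq_nonneg _) (sq_nonneg _), h4]
  congr 1
  ring

theorem mn_meas {V : ℝ → ℝ → ℝ} (hV : Measurable (Function.uncurry V)) : Measurable (mn V) := by
  have := hV.stronglyMeasurable.integral_prod_right' (ν := lam)
  exact this.measurable

theorem cen_meas {V : ℝ → ℝ → ℝ} (hV : Measurable (Function.uncurry V)) :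
    Measurable (Function.uncurry fun t s => V t s - mn V t) :=
  hV.sub ((mn_meas hV).comp measurable_fst)

theorem kin_eq {T : ℝ} {V : ℝ → ℝ → ℝ} (hV : Measurable (Function.uncurry V))
    (hf : kin T V < ∞) : kin T (fun t s => V t s - mn V t) +
      (∫⁻ t in Ioo 0 T, ENNReal.ofReal ((mn V t) ^ 2)) = kin T V := by
  unfold kin
  rw [← lintegral_add_right _ ((mn_meas hV).pow_const 2).ennreal_ofReal]
  have hm : Measurable fun t => ∫⁻ s, ENNReal.ofReal ((V t s) ^ 2) ∂lam :=
    (hV.pow_const 2).ennreal_ofReal.lintegral_prod_right'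
  have h1 : ∀ᵐ t ∂(volume.restrict (Ioo 0 T)), ∫⁻ s, ENNReal.ofReal ((V t s) ^ 2) ∂lam < ∞ :=
    ae_lt_top hm (ne_of_lt hf)
  refine lintegral_congr_ae ?_
  filter_upwards [h1] with t ht
  exact slice (hV.comp measurable_prodMk_left) ht

theorem int_prod {T : ℝ} {V : ℝ → ℝ → ℝ} (hV : Measurable (Function.uncurry V))
    (hf : kin T V < ∞) :
    Integrable (Function.uncurry V) ((volume.restrict (Ioo 0 T)).prod lam) := by
  refine (int_of_sq hV ?_).2
  rw [lintegral_prod _ ((hV.pow_const 2).ennreal_ofReal.aemeasurable)]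
  exact hf

theorem ii_of {T : ℝ} (hT : 0 < T) {g : ℝ → ℝ} (hg : Integrable g (volume.restrict (Ioo 0 T)))
    {t : ℝ} (ht : t ∈ Icc 0 T) : IntervalIntegrable g volume 0 t := by
  have h : IntervalIntegrable g volume 0 T := by
    rw [intervalIntegrable_iff_integrableOn_Ioo_of_le hT.le]
    exact hg
  refine h.mono_set ?_
  rw [uIcc_of_le ht.1, uIcc_of_le hT.le]
  exact Icc_subset_Icc_right ht.2

theorem pos_eq {T : ℝ} (hT : 0 < T) {V : ℝ → ℝ → ℝ} (hV : Measurable (Function.uncurry V))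
    (hf : kin T V < ∞) : ∀ᵐ s ∂lam, ∀ t ∈ Icc 0 T,
      pos (fun t s => V t s - mn V t) t s = pos V t s - ∫ τ in (0 : ℝ)..t, mn V τ := by
  have hi := int_prod hV hf
  have hmi : Integrable (mn V) (volume.restrict (Ioo 0 T)) := hi.integral_prod_left
  filter_upwards [hi.prod_left_ae] with s hs t ht
  unfold pos
  exact intervalIntegral.integral_sub (ii_of hT hs ht) (ii_of hT hmi ht)

theorem mono_of {f g : ℝ → ℝ} {c : ℝ} (h : ∀ᵐ s ∂lam, g s = f s - c) (hf : AEMono f) :
    AEMono g := by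
  unfold AEMono at *
  have h1 : ∀ᵐ p ∂(lam.prod lam), g p.1 = f p.1 - c :=
    Measure.quasiMeasurePreserving_fst.ae h
  have h2 : ∀ᵐ p ∂(lam.prod lam), g p.2 = f p.2 - c :=
    Measure.quasiMeasurePreserving_snd.ae h
  filter_upwards [hf, h1, h2] with p hp hp1 hp2 hle
  rw [hp1, hp2]
  linarith [hp hle]

theorem cnt_le {f g : ℝ → ℝ} {c : ℝ} (h : ∀ᵐ s ∂lam, g s = f s - c) : cnt g ≤ cnt f := by
  classical
  unfold cnt cntOn
  refine le_iInf₂ fun A hA => ?_
  refine (iInf₂_le (A.image fun x => x - c) ?_).trans ?_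
  · filter_upwards [hA, h] with s hs1 hs2
    rw [hs2]
    exact Finset.mem_image_of_mem _ hs1
  · exact_mod_cast Finset.card_image_le

theorem mn_zero {T : ℝ} (hT : 0 < T) {V : ℝ → ℝ → ℝ} (hP : Path T V) :
    ∫ τ in (0 : ℝ)..T, mn V τ = 0 := by
  have hi := int_prod hP.meas hP.fin
  rw [intervalIntegral.integral_of_le hT.le, integral_Ioc_eq_integral_Ioo]
  unfold mn
  rw [integral_integral_swap hi]
  have h1 : ∀ᵐ s ∂lam, ∫ t in Ioo 0 T, V t s = s - 1 / 2 := by
    filter_upwards [hP.final] with s hs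
    rw [← hs]
    unfold pos
    rw [intervalIntegral.integral_of_le hT.le, integral_Ioc_eq_integral_Ioo]
  rw [integral_congr_ae h1]
  have h2 : ∫ s, (s - 1 / 2) ∂lam = ∫ s in (0 : ℝ)..1, (s - 1 / 2) := by
    rw [intervalIntegral.integral_of_le zero_le_one, integral_Ioc_eq_integral_Ioo]
  rw [h2, intervalIntegral.integral_sub intervalIntegral.intervalIntegrable_id
    intervalIntegrable_const, integral_id, intervalIntegral.integral_const]
  norm_num

end CENaux

open CENaux in
/-- centring -/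
theorem t_CEN : S_CEN := by
  intro T V hT hP
  have hk := kin_eq hP.meas hP.fin
  have hp := pos_eq hT hP.meas hP.fin
  have hpt : ∀ t ∈ Icc 0 T, ∀ᵐ s ∂lam, pos (fun t s => V t s - mn V t) t s =
      pos V t s - ∫ τ in (0 : ℝ)..t, mn V τ := fun t ht => by
    filter_upwards [hp] with s hs
    exact hs t ht
  change Path T (fun t s => V t s - mn V t) ∧ en T (fun t s => V t s - mn V t) +
    (∫⁻ t in Ioo 0 T, ENNReal.ofReal ((mn V t) ^ 2)) ≤ en T V
  refine ⟨⟨cen_meas hP.meas, ?_, ?_, ?_⟩, ?_⟩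
  · refine lt_of_le_of_lt ?_ hP.fin
    rw [← hk]
    exact le_self_add
  · intro t ht
    exact mono_of (hpt t ht) (hP.mono t ht)
  · filter_upwards [hpt T ⟨hT.le, le_rfl⟩, hP.final] with s hs1 hs2
    rw [hs1, hs2, mn_zero hT hP, sub_zero]
  · unfold en
    rw [add_assoc, hk]
    refine add_le_add_left (lintegral_mono_ae ?_) _
    filter_upwards [ae_restrict_mem measurableSet_Ioo] with t ht
    exact cnt_le (hpt t (Ioo_subset_Icc_self ht))

end Pool.Agent.R508.BT
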