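import Pool.Agent.R508.BT.Stm

/-! CHILD: decomposition of a path into two rescaled paths. -/

open MeasureTheory Set Filter Topology
open scoped ENNReal

namespace Pool.Agent.R508.BT

namespace Child

/-- affine change of variables -/
theorem map_aff (α β x y : ℝ) (hα : 0 < α) :
    Measure.map (fun u : ℝ => α * u + β) (volume.restrict (Ioo x y)) =
      ENNReal.ofReal α⁻¹ • volume.restrict (Ioo (α * x + β) (α * y + β)) := by
  have hm : Measurable (fun u : ℝ => α * u + β) := by fun_prop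
  have hvol : Measure.map (fun u : ℝ => α * u + β) volume = ENNReal.ofReal α⁻¹ • volume := by
    have e : (fun u : ℝ => α * u + β) = (fun v : ℝ => v + β) ∘ (fun u : ℝ => α * u) := rfl
    rw [e, ← Measure.map_map (by fun_prop) (by fun_prop), Real.map_volume_mul_left hα.ne',
      Measure.map_smul, map_add_right_eq_self, abs_of_pos (inv_pos.2 hα)]
  have hpre : (fun u : ℝ => α * u + β) ⁻¹' (Ioo (α * x + β) (α * y + β)) = Ioo x y := by
    ext u
    simp only [mem_preimage, mem_Ioo]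
    constructor
    · rintro ⟨h1, h2⟩
      exact ⟨by nlinarith, by nlinarith⟩
    · rintro ⟨h1, h2⟩
      exact ⟨by nlinarith, by nlinarith⟩
  rw [← hpre, ← Measure.restrict_map hm measurableSet_Ioo, hvol, Measure.restrict_smul]

theorem emb_aff (α β : ℝ) (hα : 0 < α) : MeasurableEmbedding (fun u : ℝ => α * u + β) := by
  have e : (fun u : ℝ => α * u + β) =
      ((Homeomorph.mulLeft₀ α hα.ne').trans (Homeomorph.addRight β)) := by
    funext u
    simp
  rw [e]
  exact Homeomorph.measurableEmbedding _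

theorem lint_aff (α β x y : ℝ) (hα : 0 < α) (F : ℝ → ℝ≥0∞) :
    ∫⁻ u in Ioo x y, F (α * u + β) =
      ENNReal.ofReal α⁻¹ * ∫⁻ v in Ioo (α * x + β) (α * y + β), F v := by
  rw [← (emb_aff α β hα).lintegral_map F, map_aff α β x y hα, lintegral_smul_measure, smul_eq_mul]

theorem ae_aff (α β x y : ℝ) (hα : 0 < α) {P : ℝ → Prop}
    (h : ∀ᵐ v ∂(volume.restrict (Ioo (α * x + β) (α * y + β))), P v) :
    ∀ᵐ u ∂(volume.restrict (Ioo x y)), P (α * u + β) := by
  have h2 : ∀ᵐ v ∂(Measure.map (fun u : ℝ => α * u + β) (volume.restrict (Ioo x y))), P v := by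
    rw [map_aff α β x y hα]
    exact Measure.ae_smul_measure h _
  exact ae_of_ae_map (by fun_prop) h2

theorem r32_pos {l : ℝ} (hl : 0 < l) : 0 < r32 l := Real.rpow_pos_of_pos hl _

theorem r32_sq {l : ℝ} (hl : 0 < l) : r32 l ^ 2 = l ^ 3 := by
  unfold r32
  rw [← Real.rpow_natCast, ← Real.rpow_mul hl.le, ← Real.rpow_natCast]
  norm_num

theorem int_V {T : ℝ} {V : ℝ → ℝ → ℝ} (hV : Path T V) :
    Integrable (fun p : ℝ × ℝ => (V p.1 p.2) ^ 2) ((volume.restrict (Ioo 0 T)).prod lam) ∧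
    Integrable (fun p : ℝ × ℝ => V p.1 p.2) ((volume.restrict (Ioo 0 T)).prod lam) := by
  have hm : Measurable (fun p : ℝ × ℝ => V p.1 p.2) := hV.meas
  have hfin := hV.fin
  unfold kin at hfin
  have h1 : Integrable (fun p : ℝ × ℝ => (V p.1 p.2) ^ 2)
      ((volume.restrict (Ioo 0 T)).prod lam) := by
    refine ⟨(hm.pow_const 2).aestronglyMeasurable, ?_⟩
    rw [hasFiniteIntegral_iff_ofReal (Eventually.of_forall fun p => sq_nonneg _)]
    rw [lintegral_prod _ ((hm.pow_const 2).ennreal_ofReal).aemeasurable]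
    exact hfin
  refine ⟨h1, ?_⟩
  refine Integrable.mono' (g := fun p : ℝ × ℝ => 1 + (V p.1 p.2) ^ 2)
    ((integrable_const 1).add h1) hm.aestronglyMeasurable (Eventually.of_forall fun p => ?_)
  rw [Real.norm_eq_abs]
  rcases abs_cases (V p.1 p.2) with ⟨h, _⟩ | ⟨h, _⟩ <;> rw [h] <;> nlinarith [sq_nonneg (V p.1 p.2 - 1), sq_nonneg (V p.1 p.2 + 1)]

/-- mean velocity of the labels in `(a,b)` -/
noncomputable def mm (V : ℝ → ℝ → ℝ) (a b t : ℝ) : ℝ := (b - a)⁻¹ * ∫ s in Ioo a b, V t s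

/-- the rescaled path of the labels in `(a,b)` -/
noncomputable def ZZ (V : ℝ → ℝ → ℝ) (a b τ σ : ℝ) : ℝ :=
  (r32 (b - a) / (b - a)) *
    (V (r32 (b - a) * τ) ((b - a) * σ + a) - mm V a b (r32 (b - a) * τ))

/-- mean position of the labels in `(a,b)` -/
noncomputable def MM (V : ℝ → ℝ → ℝ) (a b t : ℝ) : ℝ := ∫ u in (0 : ℝ)..t, mm V a b u

section

variable {T : ℝ} {V : ℝ → ℝ → ℝ} {a b : ℝ}

theorem nu_eq (ha : 0 ≤ a) (hb : b ≤ 1) :
    volume.restrict (Ioo a b) = lam.restrict (Ioo a b) := by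
  rw [Measure.restrict_restrict measurableSet_Ioo,
    inter_eq_left.2 (Ioo_subset_Ioo ha hb)]

theorem prod_le (ha : 0 ≤ a) (hb : b ≤ 1) (μ : Measure ℝ) [SFinite μ] :
    μ.prod (volume.restrict (Ioo a b)) ≤ μ.prod lam := by
  rw [nu_eq ha hb]
  conv_lhs => rw [← Measure.restrict_univ (μ := μ)]
  rw [Measure.prod_restrict]
  exact Measure.restrict_le_self

theorem int_ab (hV : Path T V) (ha : 0 ≤ a) (hb : b ≤ 1) :
    Integrable (fun p : ℝ × ℝ => V p.1 p.2)
      ((volume.restrict (Ioo 0 T)).prod (volume.restrict (Ioo a b))) :=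
  (int_V hV).2.mono_measure (prod_le ha hb _)

theorem int2_ab (hV : Path T V) (ha : 0 ≤ a) (hb : b ≤ 1) :
    Integrable (fun p : ℝ × ℝ => (V p.1 p.2) ^ 2)
      ((volume.restrict (Ioo 0 T)).prod (volume.restrict (Ioo a b))) :=
  (int_V hV).1.mono_measure (prod_le ha hb _)

theorem int_mm (hV : Path T V) (ha : 0 ≤ a) (hb : b ≤ 1) :
    IntegrableOn (mm V a b) (Ioo 0 T) :=
  (int_ab hV ha hb).integral_prod_left.const_mul _

theorem ii_mm (hV : Path T V) (ha : 0 ≤ a) (hb : b ≤ 1) {t : ℝ} (ht : t ∈ Icc 0 T) :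
    IntervalIntegrable (mm V a b) volume 0 t := by
  rw [intervalIntegrable_iff_integrableOn_Ioo_of_le ht.1]
  exact (int_mm hV ha hb).mono_set (Ioo_subset_Ioo_right ht.2)

theorem meas_mm (hV : Path T V) : Measurable (mm V a b) := by
  have h : StronglyMeasurable (fun p : ℝ × ℝ => V p.1 p.2) := hV.meas.stronglyMeasurable
  exact (h.integral_prod_right' (ν := volume.restrict (Ioo a b))).measurable.const_mul _

theorem pos_ZZ (hV : Path T V) (ha : 0 ≤ a) (hab : a < b) (hb : b ≤ 1) {t : ℝ}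
    (ht : t ∈ Icc 0 T) :
    ∀ᵐ σ ∂lam, pos (ZZ V a b) (t / r32 (b - a)) σ =
      (b - a)⁻¹ * (pos V t ((b - a) * σ + a) - MM V a b t) := by
  have hl : 0 < b - a := sub_pos.2 hab
  have hr := r32_pos hl
  have h1 : ∀ᵐ s ∂(volume.restrict (Ioo a b)), IntegrableOn (fun t => V t s) (Ioo 0 T) :=
    (int_ab hV ha hb).prod_left_ae
  have h2 := ae_aff (b - a) a 0 1 hl (P := fun s => IntegrableOn (fun t => V t s) (Ioo 0 T))
    (by simpa using h1)
  filter_upwards [h2] with σ hσ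
  have h3 : IntervalIntegrable (fun u => V u ((b - a) * σ + a)) volume 0 t := by
    rw [intervalIntegrable_iff_integrableOn_Ioo_of_le ht.1]
    exact hσ.mono_set (Ioo_subset_Ioo_right ht.2)
  unfold pos ZZ MM
  rw [intervalIntegral.integral_const_mul,
    intervalIntegral.integral_comp_mul_left
      (fun u => V u ((b - a) * σ + a) - mm V a b u) hr.ne', mul_zero,
    mul_div_cancel₀ t hr.ne', smul_eq_mul, intervalIntegral.integral_sub h3 (ii_mm hV ha hb ht)]
  field_simp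

theorem MM_T (hT : 0 < T) (hV : Path T V) (ha : 0 ≤ a) (hab : a < b) (hb : b ≤ 1) :
    MM V a b T = (a + b - 1) / 2 := by
  have hl : 0 < b - a := sub_pos.2 hab
  have h1 : ∫ t in Ioo 0 T, ∫ s in Ioo a b, V t s = ∫ s in Ioo a b, ∫ t in Ioo 0 T, V t s :=
    integral_integral_swap (int_ab hV ha hb)
  have h2 : ∫ s in Ioo a b, ∫ t in Ioo 0 T, V t s = ∫ s in Ioo a b, (s - 1 / 2) := by
    have h3 : ∀ᵐ s ∂(volume.restrict (Ioo a b)), pos V T s = s - 1 / 2 := by
      rw [nu_eq ha hb]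
      exact ae_restrict_of_ae hV.final
    apply integral_congr_ae
    filter_upwards [h3] with s hs
    rw [← hs, pos, intervalIntegral.integral_of_le hT.le, integral_Ioc_eq_integral_Ioo]
  have h4 : ∫ s in Ioo a b, (s - 1 / 2 : ℝ) = (b - a) * ((a + b - 1) / 2) := by
    rw [← integral_Ioc_eq_integral_Ioo, ← intervalIntegral.integral_of_le hab.le,
      intervalIntegral.integral_sub (by simp) (by simp)]
    simp
    ring
  unfold MM mm
  rw [intervalIntegral.integral_const_mul, intervalIntegral.integral_of_le hT.le,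
    integral_Ioc_eq_integral_Ioo, h1, h2, h4, inv_mul_cancel_left₀ hl.ne']

theorem qmp_aff (ha : 0 ≤ a) (hab : a < b) (hb : b ≤ 1) :
    Measure.QuasiMeasurePreserving (fun σ : ℝ => (b - a) * σ + a) lam lam := by
  refine ⟨by fun_prop, ?_⟩
  have hl : 0 < b - a := sub_pos.2 hab
  rw [map_aff (b - a) a 0 1 hl]
  have e : Ioo ((b - a) * 0 + a) ((b - a) * 1 + a) = Ioo a b := by simp
  rw [e]
  refine (Measure.smul_absolutelyContinuous).trans ?_
  exact (Measure.restrict_mono (Ioo_subset_Ioo ha hb) le_rfl).absolutelyContinuous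

theorem mono_ZZ (hV : Path T V) (ha : 0 ≤ a) (hab : a < b) (hb : b ≤ 1) {t : ℝ}
    (ht : t ∈ Icc 0 T) : AEMono (pos (ZZ V a b) (t / r32 (b - a))) := by
  have hl : 0 < b - a := sub_pos.2 hab
  have h1 := pos_ZZ hV ha hab hb ht
  have h2 := Measure.quasiMeasurePreserving_fst (μ := lam) (ν := lam) |>.ae h1
  have h3 := Measure.quasiMeasurePreserving_snd (μ := lam) (ν := lam) |>.ae h1
  have h4 := (MeasureTheory.QuasiMeasurePreserving.prodMap (qmp_aff ha hab hb)
    (qmp_aff ha hab hb)).ae (hV.mono t ht)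
  filter_upwards [h2, h3, h4] with p hp1 hp2 hp3 hp
  rw [hp1, hp2]
  have h5 : pos V t ((b - a) * p.1 + a) ≤ pos V t ((b - a) * p.2 + a) :=
    hp3 (by simp only [Prod.map]; nlinarith)
  have h6 : 0 < (b - a)⁻¹ := inv_pos.2 hl
  nlinarith

theorem final_ZZ (hT : 0 < T) (hV : Path T V) (ha : 0 ≤ a) (hab : a < b) (hb : b ≤ 1) :
    ∀ᵐ σ ∂lam, pos (ZZ V a b) (T / r32 (b - a)) σ = σ - 1 / 2 := by
  have hl : 0 < b - a := sub_pos.2 hab
  have h1 := pos_ZZ hV ha hab hb (right_mem_Icc.2 hT.le)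
  have h2 := (qmp_aff ha hab hb).ae hV.final
  filter_upwards [h1, h2] with σ h3 h4
  rw [h3, h4, MM_T hT hV ha hab hb]
  field_simp
  ring

theorem meas_ZZ (hV : Path T V) : Measurable (Function.uncurry (ZZ V a b)) := by
  have h1 : Measurable (fun p : ℝ × ℝ => V (r32 (b - a) * p.1) ((b - a) * p.2 + a)) :=
    hV.meas.comp (f := fun p : ℝ × ℝ => (r32 (b - a) * p.1, (b - a) * p.2 + a)) (by fun_prop)
  have h2 : Measurable (fun p : ℝ × ℝ => mm V a b (r32 (b - a) * p.1)) :=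
    (meas_mm hV).comp (by fun_prop)
  exact (h1.sub h2).const_mul _

/-- kinetic energy of the rescaled path -/
theorem kin_ZZ (hab : a < b) :
    ENNReal.ofReal (r32 (b - a)) * kin (T / r32 (b - a)) (ZZ V a b) =
      ∫⁻ t in Ioo 0 T, ∫⁻ s in Ioo a b, ENNReal.ofReal ((V t s - mm V a b t) ^ 2) := by
  have hl : 0 < b - a := sub_pos.2 hab
  have hr := r32_pos hl
  have hrsq := r32_sq hl
  set r := r32 (b - a) with hrdef
  have h1 : ∀ τ : ℝ, ∫⁻ σ, ENNReal.ofReal ((ZZ V a b τ σ) ^ 2) ∂lam =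
      ENNReal.ofReal ((r / (b - a)) ^ 2 * (b - a)⁻¹) *
        ∫⁻ s in Ioo a b, ENNReal.ofReal ((V (r * τ) s - mm V a b (r * τ)) ^ 2) := by
    intro τ
    have h2 : ∀ σ : ℝ, ENNReal.ofReal ((ZZ V a b τ σ) ^ 2) =
        ENNReal.ofReal ((r / (b - a)) ^ 2) *
          ENNReal.ofReal ((V (r * τ) ((b - a) * σ + a) - mm V a b (r * τ)) ^ 2) := by
      intro σ
      rw [← ENNReal.ofReal_mul (sq_nonneg _)]
      congr 1
      unfold ZZ
      ring
    simp_rw [h2]
    rw [lintegral_const_mul' _ _ ENNReal.ofReal_ne_top,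
      lint_aff (b - a) a 0 1 hl
        (fun s => ENNReal.ofReal ((V (r * τ) s - mm V a b (r * τ)) ^ 2)), ← mul_assoc,
      ← ENNReal.ofReal_mul (sq_nonneg _)]
    simp
  unfold kin
  simp_rw [h1]
  rw [lintegral_const_mul' _ _ ENNReal.ofReal_ne_top]
  have h3 := lint_aff r 0 0 (T / r) hr
    (fun t => ∫⁻ s in Ioo a b, ENNReal.ofReal ((V t s - mm V a b t) ^ 2))
  simp only [add_zero, mul_zero] at h3
  rw [h3, mul_div_cancel₀ T hr.ne', ← mul_assoc, ← mul_assoc, ← ENNReal.ofReal_mul hr.le,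
    ← ENNReal.ofReal_mul (by positivity)]
  have h4 : r * ((r / (b - a)) ^ 2 * (b - a)⁻¹) * r⁻¹ = 1 := by
    have : r * ((r / (b - a)) ^ 2 * (b - a)⁻¹) * r⁻¹ = r ^ 2 / (b - a) ^ 3 := by
      field_simp
    rw [this, hrsq, div_self (by positivity)]
  rw [h4, ENNReal.ofReal_one, one_mul]

theorem var_ab (hV : Path T V) (ha : 0 ≤ a) (hab : a < b) (hb : b ≤ 1) :
    ∀ᵐ t ∂(volume.restrict (Ioo 0 T)),
      (∫⁻ s in Ioo a b, ENNReal.ofReal ((V t s - mm V a b t) ^ 2)) +
        ENNReal.ofReal ((b - a) * (mm V a b t) ^ 2) =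
      ∫⁻ s in Ioo a b, ENNReal.ofReal ((V t s) ^ 2) := by
  have hl : 0 < b - a := sub_pos.2 hab
  filter_upwards [(int_ab hV ha hb).prod_right_ae, (int2_ab hV ha hb).prod_right_ae] with t h1 h2
  have h3 : Integrable (fun s => (V t s - mm V a b t) ^ 2) (volume.restrict (Ioo a b)) := by
    have e : (fun s => (V t s - mm V a b t) ^ 2) =
        fun s => (V t s) ^ 2 - 2 * mm V a b t * V t s + (mm V a b t) ^ 2 := by
      funext s
      ring
    rw [e]
    exact (h2.sub (h1.const_mul _)).add (integrable_const _)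
  rw [← ofReal_integral_eq_lintegral_ofReal h3 (Eventually.of_forall fun s => sq_nonneg _),
    ← ofReal_integral_eq_lintegral_ofReal h2 (Eventually.of_forall fun s => sq_nonneg _),
    ← ENNReal.ofReal_add (integral_nonneg fun s => sq_nonneg _) (by positivity)]
  congr 1
  have e : (fun s => (V t s - mm V a b t) ^ 2) =
      fun s => (V t s) ^ 2 - 2 * mm V a b t * V t s + (mm V a b t) ^ 2 := by
    funext s
    ring
  have e2 : ∫ s in Ioo a b, ((V t s) ^ 2 - 2 * mm V a b t * V t s + (mm V a b t) ^ 2) =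
      (∫ s in Ioo a b, (V t s) ^ 2) - 2 * mm V a b t * (∫ s in Ioo a b, V t s) +
        ∫ s in Ioo a b, (mm V a b t) ^ 2 := by
    rw [← integral_const_mul, ← integral_sub h2 (h1.const_mul _)]
    exact integral_add (h2.sub (h1.const_mul _)) (integrable_const _)
  rw [e, e2, integral_const]
  have h5 : ∫ s in Ioo a b, V t s = (b - a) * mm V a b t := by
    unfold mm
    rw [mul_inv_cancel_left₀ hl.ne']
  rw [h5]
  simp [hl.le]
  ring

theorem cs_ab (hT : 0 < T) (hV : Path T V) (ha : 0 ≤ a) (hab : a < b) (hb : b ≤ 1) :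
    ENNReal.ofReal ((b - a) * ((a + b - 1) / 2) ^ 2 / T) ≤
      ∫⁻ t in Ioo 0 T, ENNReal.ofReal ((b - a) * (mm V a b t) ^ 2) := by
  have hl : 0 < b - a := sub_pos.2 hab
  have hM := MM_T hT hV ha hab hb
  set κ := (a + b - 1) / 2 / T with hκ
  have h1 : IntegrableOn (fun t => (b - a) * (2 * κ * mm V a b t - κ ^ 2)) (Ioo 0 T) :=
    (((int_mm hV ha hb).const_mul _).sub (integrable_const _)).const_mul _
  have h2 : ∫ t in Ioo 0 T, (b - a) * (2 * κ * mm V a b t - κ ^ 2) =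
      (b - a) * ((a + b - 1) / 2) ^ 2 / T := by
    have h3 : ∫ t in Ioo 0 T, mm V a b t = (a + b - 1) / 2 := by
      rw [← hM, MM, intervalIntegral.integral_of_le hT.le, integral_Ioc_eq_integral_Ioo]
    rw [integral_const_mul, integral_sub ((int_mm hV ha hb).const_mul _) (integrable_const _),
      integral_const_mul, h3, integral_const]
    simp [hT.le]
    rw [hκ]
    field_simp
    ring
  rw [← h2]
  have h4 : ∫ t in Ioo 0 T, (b - a) * (2 * κ * mm V a b t - κ ^ 2) ≤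
      ∫ t in Ioo 0 T, max ((b - a) * (2 * κ * mm V a b t - κ ^ 2)) 0 :=
    integral_mono h1 h1.pos_part fun t => le_max_left _ _
  refine (ENNReal.ofReal_le_ofReal h4).trans ?_
  rw [ofReal_integral_eq_lintegral_ofReal h1.pos_part
    (Eventually.of_forall fun t => le_max_right _ _)]
  refine lintegral_mono fun t => ENNReal.ofReal_le_ofReal ?_
  apply max_le
  · nlinarith [sq_nonneg (mm V a b t - κ)]
  · positivity

/-- the main lemma: the labels in `(a,b)` -/
theorem main_ab (hC : S_CNT) (hT : 0 < T) (hV : Path T V) (ha : 0 ≤ a) (hab : a < b)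
    (hb : b ≤ 1) :
    Path (T / r32 (b - a)) (ZZ V a b) ∧
    ENNReal.ofReal (r32 (b - a)) * en (T / r32 (b - a)) (ZZ V a b) +
        ENNReal.ofReal ((b - a) * ((a + b - 1) / 2) ^ 2 / T) ≤
      (∫⁻ t in Ioo 0 T, cntOn a b (pos V t)) +
        ∫⁻ t in Ioo 0 T, ∫⁻ s in Ioo a b, ENNReal.ofReal ((V t s) ^ 2) := by
  have hl : 0 < b - a := sub_pos.2 hab
  have hr := r32_pos hl
  have hK := kin_ZZ (T := T) (V := V) hab
  have hvar : (∫⁻ t in Ioo 0 T, ∫⁻ s in Ioo a b, ENNReal.ofReal ((V t s - mm V a b t) ^ 2)) +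
      ENNReal.ofReal ((b - a) * ((a + b - 1) / 2) ^ 2 / T) ≤
        ∫⁻ t in Ioo 0 T, ∫⁻ s in Ioo a b, ENNReal.ofReal ((V t s) ^ 2) := by
    refine (add_le_add_right (cs_ab hT hV ha hab hb) _).trans ?_
    refine (le_lintegral_add _ _).trans ?_
    exact (lintegral_congr_ae (var_ab hV ha hab hb)).le
  have hcnt : ENNReal.ofReal (r32 (b - a)) *
      (∫⁻ τ in Ioo 0 (T / r32 (b - a)), cnt (pos (ZZ V a b) τ)) ≤
        ∫⁻ t in Ioo 0 T, cntOn a b (pos V t) := by
    have h1 : ∀ τ ∈ Ioo 0 (T / r32 (b - a)), cnt (pos (ZZ V a b) τ) ≤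
        cntOn a b (pos V (r32 (b - a) * τ)) := by
      intro τ hτ
      have ht : r32 (b - a) * τ ∈ Icc 0 T := by
        refine ⟨mul_nonneg hr.le hτ.1.le, ?_⟩
        have := hτ.2.le
        rwa [le_div_iff₀ hr, mul_comm] at this
      obtain ⟨-, -, c3, c4, -, -, -⟩ := hC 0 1 one_pos
      obtain ⟨-, -, -, -, -, -, c7⟩ := hC 0 1 one_pos
      have h2 := pos_ZZ hV ha hab hb ht
      rw [mul_div_cancel_left₀ τ hr.ne'] at h2
      rw [cnt, c4 _ _ h2]
      refine (c3 (fun σ => pos V (r32 (b - a) * τ) ((b - a) * σ + a))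
        (fun x => (b - a)⁻¹ * (x - MM V a b (r32 (b - a) * τ)))).trans ?_
      rw [c7 (pos V (r32 (b - a) * τ)) (b - a) a hl]
      simp
    have h2 := lint_aff (r32 (b - a)) 0 0 (T / r32 (b - a)) hr
      (fun t => cntOn a b (pos V t))
    simp only [add_zero, mul_zero] at h2
    rw [mul_div_cancel₀ T hr.ne'] at h2
    calc _ ≤ ENNReal.ofReal (r32 (b - a)) *
          ∫⁻ τ in Ioo 0 (T / r32 (b - a)), cntOn a b (pos V (r32 (b - a) * τ)) := by
            exact mul_le_mul_right (setLIntegral_mono' measurableSet_Ioo h1) _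
      _ = _ := by
            rw [h2, ← mul_assoc, ← ENNReal.ofReal_mul hr.le, mul_inv_cancel₀ hr.ne',
              ENNReal.ofReal_one, one_mul]
  constructor
  · refine ⟨meas_ZZ hV, ?_, ?_, final_ZZ hT hV ha hab hb⟩
    · have h1 : ENNReal.ofReal (r32 (b - a)) * kin (T / r32 (b - a)) (ZZ V a b) < ∞ := by
        rw [hK]
        refine lt_of_le_of_lt (le_self_add.trans hvar) ?_
        refine lt_of_le_of_lt ?_ hV.fin
        unfold kin
        refine lintegral_mono fun t => ?_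
        exact lintegral_mono' (Measure.restrict_mono (Ioo_subset_Ioo ha hb) le_rfl) le_rfl
      exact ENNReal.lt_top_of_mul_ne_top_right h1.ne (by simpa using hr)
    · intro τ hτ
      have ht : r32 (b - a) * τ ∈ Icc 0 T := by
        refine ⟨mul_nonneg hr.le hτ.1, ?_⟩
        have := hτ.2
        rwa [le_div_iff₀ hr, mul_comm] at this
      have h1 := mono_ZZ hV ha hab hb ht
      rwa [mul_div_cancel_left₀ τ hr.ne'] at h1
  · rw [en, mul_add, hK, add_assoc]
    exact add_le_add hcnt hvar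

theorem const_ZZ (hV : Path T V) (ha : 0 ≤ a) (hab : a < b) (hb : b ≤ 1) {t : ℝ}
    (ht : t ∈ Icc 0 T) (c : ℝ) (h : ∀ᵐ s ∂lam, s ∈ Ioo a b → pos V t s = c) :
    ∃ c : ℝ, ∀ᵐ s ∂lam, pos (ZZ V a b) (t / r32 (b - a)) s = c := by
  have hl : 0 < b - a := sub_pos.2 hab
  refine ⟨(b - a)⁻¹ * (c - MM V a b t), ?_⟩
  have h2 := (qmp_aff ha hab hb).ae h
  have h3 : ∀ᵐ s ∂lam, s ∈ Ioo (0 : ℝ) 1 := ae_restrict_mem measurableSet_Ioo
  filter_upwards [pos_ZZ hV ha hab hb ht, h2, h3] with σ h4 h5 h6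
  rw [h4, h5 ⟨by nlinarith [h6.1], by nlinarith [h6.2]⟩]

end

end Child

open Child in
theorem t_CHILD (hC : S_CNT) : S_CHILD := by
  intro T V a hT hV _ ha ha1 hle
  have h1 := main_ab hC hT hV le_rfl ha ha1.le
  have h2 := main_ab hC hT hV ha.le ha1 le_rfl
  rw [sub_zero] at h1
  refine ⟨ZZ V 0 a, ZZ V a 1, h1.1, h2.1, ?_, ?_, ?_⟩
  · have h3 : ENNReal.ofReal (a * (1 - a) / (4 * T)) =
        ENNReal.ofReal (a * ((0 + a - 1) / 2) ^ 2 / T) +
          ENNReal.ofReal ((1 - a) * ((a + 1 - 1) / 2) ^ 2 / T) := by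
      rw [← ENNReal.ofReal_add (by positivity)
        (div_nonneg (mul_nonneg (by linarith) (sq_nonneg _)) hT.le)]
      congr 1
      field_simp
      ring
    rw [h3]
    have h4 : (∫⁻ t in Ioo 0 T, cntOn 0 a (pos V t)) + (∫⁻ t in Ioo 0 T, cntOn a 1 (pos V t)) ≤
        ∫⁻ t in Ioo 0 T, cnt (pos V t) :=
      (le_lintegral_add _ _).trans (lintegral_mono_ae hle)
    have h5 : (∫⁻ t in Ioo 0 T, ∫⁻ s in Ioo 0 a, ENNReal.ofReal ((V t s) ^ 2)) +
        (∫⁻ t in Ioo 0 T, ∫⁻ s in Ioo a 1, ENNReal.ofReal ((V t s) ^ 2)) ≤ kin T V := by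
      refine (le_lintegral_add _ _).trans (lintegral_mono fun t => ?_)
      have hd : Disjoint (Ioo (0 : ℝ) a) (Ioo a 1) := by
        rw [Set.disjoint_left]
        intro x hx hx2
        exact lt_asymm hx.2 hx2.1
      rw [← lintegral_union measurableSet_Ioo hd]
      refine lintegral_mono' (Measure.restrict_mono ?_ le_rfl) le_rfl
      exact union_subset (Ioo_subset_Ioo_right ha1.le) (Ioo_subset_Ioo_left ha.le)
    calc _ = (ENNReal.ofReal (r32 a) * en (T / r32 a) (ZZ V 0 a) +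
          ENNReal.ofReal (a * ((0 + a - 1) / 2) ^ 2 / T)) +
          (ENNReal.ofReal (r32 (1 - a)) * en (T / r32 (1 - a)) (ZZ V a 1) +
          ENNReal.ofReal ((1 - a) * ((a + 1 - 1) / 2) ^ 2 / T)) := by ring
      _ ≤ _ := add_le_add h1.2 h2.2
      _ = ((∫⁻ t in Ioo 0 T, cntOn 0 a (pos V t)) + (∫⁻ t in Ioo 0 T, cntOn a 1 (pos V t))) +
          ((∫⁻ t in Ioo 0 T, ∫⁻ s in Ioo 0 a, ENNReal.ofReal ((V t s) ^ 2)) +
        (∫⁻ t in Ioo 0 T, ∫⁻ s in Ioo a 1, ENNReal.ofReal ((V t s) ^ 2))) := by ring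
      _ ≤ _ := add_le_add h4 h5
  · rintro t ht ⟨c, hc⟩
    have h3 := const_ZZ hV le_rfl ha ha1.le ht c
      (hc.mono fun s hs hs2 => hs hs2.2)
    rwa [sub_zero] at h3
  · rintro t ht ⟨c, hc⟩
    exact const_ZZ hV ha.le ha1 le_rfl ht c (hc.mono fun s hs hs2 => hs hs2.1)

end Pool.Agent.R508.BT
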