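import Pool.Agent.R508.BT.Stm

open MeasureTheory Set Filter Topology
open scoped ENNReal

namespace Pool.Agent.R508.BT

namespace CLIPaux

lemma ac_posPart {z : ℝ → ℝ} {a b : ℝ} (hz : AbsolutelyContinuousOnInterval z a b) :
    AbsolutelyContinuousOnInterval (fun t => max (z t) 0) a b := by
  apply squeeze_zero (fun t ↦ ?_) (fun t ↦ ?_) hz
  · exact Finset.sum_nonneg (fun i hi ↦ by positivity)
  · gcongr
    rw [Real.dist_eq, Real.dist_eq]
    exact abs_max_sub_max_le_abs _ _ _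

/-- chain rule for the positive part -/
lemma posPart_int {T ρ : ℝ} {v : ℝ → ℝ} (hT : 0 < T) (hv : IntervalIntegrable v volume 0 T)
    {t : ℝ} (ht : t ∈ Icc 0 T) :
    ∫ τ in (0 : ℝ)..t, (if ρ * τ < ∫ σ in (0 : ℝ)..τ, v σ then v τ - ρ else 0) =
      max ((∫ σ in (0 : ℝ)..t, v σ) - ρ * t) 0 := by
  have h0t : (0 : ℝ) ≤ t := ht.1
  have hvt : IntervalIntegrable v volume 0 t := by
    apply hv.mono_set
    rw [uIcc_of_le h0t, uIcc_of_le hT.le]
    exact Icc_subset_Icc_right ht.2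
  have hu : IntervalIntegrable (fun τ => v τ - ρ) volume 0 t := hvt.sub intervalIntegrable_const
  set z : ℝ → ℝ := fun τ => ∫ σ in (0 : ℝ)..τ, (v σ - ρ) with hz
  have hzval : ∀ τ ∈ Icc 0 t, z τ = (∫ σ in (0 : ℝ)..τ, v σ) - ρ * τ := by
    intro τ hτ
    have : IntervalIntegrable v volume 0 τ := by
      apply hvt.mono_set
      rw [uIcc_of_le hτ.1, uIcc_of_le h0t]
      exact Icc_subset_Icc_right hτ.2
    simp only [hz]
    rw [intervalIntegral.integral_sub this intervalIntegrable_const]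
    simp [mul_comm]
  have hzac : AbsolutelyContinuousOnInterval z 0 t :=
    hu.absolutelyContinuousOnInterval_intervalIntegral (c := 0) (by simp)
  have hyac := ac_posPart hzac
  have hFTC := hyac.integral_deriv_eq_sub
  have hz0 : z 0 = 0 := by simp [hz]
  simp only [hz0, max_self, sub_zero] at hFTC
  rw [hzval t ⟨h0t, le_rfl⟩] at hFTC
  rw [← hFTC]
  apply intervalIntegral.integral_congr_ae
  have hne : ∀ᵐ x : ℝ, x ≠ t := by
    simp [ae_iff, measure_singleton]
  filter_upwards [hyac.ae_differentiableAt, hu.ae_hasDerivAt_integral, hne] with τ h1 h2 h3 h4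
  rw [uIoc_of_le h0t] at h4
  have h5 : τ ∈ uIcc 0 t := by rw [uIcc_of_le h0t]; exact ⟨h4.1.le, h4.2⟩
  have h6 := h1 h5
  have h7 : HasDerivAt z (v τ - ρ) τ := h2 h5 0 (by simp)
  have h8 : z τ = (∫ σ in (0 : ℝ)..τ, v σ) - ρ * τ := hzval τ ⟨h4.1.le, h4.2⟩
  rcases lt_trichotomy (z τ) 0 with hlt | heq | hgt
  · rw [if_neg (by linarith)]
    have : (fun x => max (z x) 0) =ᶠ[𝓝 τ] fun _ => 0 := by
      have := h7.continuousAt.eventually (gt_mem_nhds hlt)
      filter_upwards [this] with x hx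
      exact max_eq_right hx.le
    rw [this.deriv_eq]
    simp
  · rw [if_neg (by linarith)]
    have hmin : IsLocalMin (fun x => max (z x) 0) τ := by
      apply Filter.Eventually.of_forall
      intro x
      simp [heq]
    exact hmin.deriv_eq_zero.symm
  · rw [if_pos (by linarith)]
    have : (fun x => max (z x) 0) =ᶠ[𝓝 τ] z := by
      have := h7.continuousAt.eventually (lt_mem_nhds hgt)
      filter_upwards [this] with x hx
      exact max_eq_left hx.le
    rw [this.deriv_eq, h7.deriv]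

lemma ind_integrable {T ρ : ℝ} {v : ℝ → ℝ} (hT : 0 < T) (hv : IntervalIntegrable v volume 0 T) :
    IntervalIntegrable (fun τ => if ρ * τ < ∫ σ in (0 : ℝ)..τ, v σ then v τ - ρ else 0)
      volume 0 T := by
  have hu : IntervalIntegrable (fun τ => v τ - ρ) volume 0 T := hv.sub intervalIntegrable_const
  rw [intervalIntegrable_iff_integrableOn_Icc_of_le hT.le] at hu ⊢
  have hcont : ContinuousOn (fun τ => (∫ σ in (0 : ℝ)..τ, v σ) - ρ * τ) (Icc 0 T) := by
    apply ContinuousOn.sub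
    · have := intervalIntegral.continuousOn_primitive_interval' hv (a := 0) (by simp)
      rwa [uIcc_of_le hT.le] at this
    · fun_prop
  -- measurable extension
  have hm : MeasurableSet {τ : ℝ | τ ∈ Icc 0 T ∧ 0 < (∫ σ in (0 : ℝ)..τ, v σ) - ρ * τ} := by
    obtain ⟨u, hu1, hu2⟩ := (continuousOn_iff'.1 hcont) (Ioi 0) isOpen_Ioi
    have : {τ : ℝ | τ ∈ Icc 0 T ∧ 0 < (∫ σ in (0 : ℝ)..τ, v σ) - ρ * τ} = u ∩ Icc 0 T := by
      rw [← hu2]
      ext τ
      simp only [mem_ofPred_eq, mem_inter_iff, mem_preimage, mem_Ioi]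
      exact and_comm
    rw [this]
    exact hu1.measurableSet.inter measurableSet_Icc
  have h1 := hu.indicator hm
  refine IntegrableOn.congr_fun h1 ?_ measurableSet_Icc
  intro τ hτ
  simp only [indicator, mem_ofPred_eq]
  by_cases h : ρ * τ < ∫ σ in (0 : ℝ)..τ, v σ
  · rw [if_pos h, if_pos ⟨hτ, by linarith⟩]
  · rw [if_neg h, if_neg (by rintro ⟨_, h'⟩; linarith)]

lemma scal {T ρ : ℝ} {v : ℝ → ℝ} (hT : 0 < T) (hv : IntervalIntegrable v volume 0 T)
    {t : ℝ} (ht : t ∈ Icc 0 T) :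
    ∫ τ in (0 : ℝ)..t, (if ρ * τ < ∫ σ in (0 : ℝ)..τ, v σ then ρ else v τ) =
      min (∫ σ in (0 : ℝ)..t, v σ) (ρ * t) := by
  have h0t : (0 : ℝ) ≤ t := ht.1
  have hsub : uIcc 0 t ⊆ uIcc 0 T := by
    rw [uIcc_of_le h0t, uIcc_of_le hT.le]
    exact Icc_subset_Icc_right ht.2
  have h1 : ∀ τ, (if ρ * τ < ∫ σ in (0 : ℝ)..τ, v σ then ρ else v τ) =
      v τ - (if ρ * τ < ∫ σ in (0 : ℝ)..τ, v σ then v τ - ρ else 0) := by
    intro τ
    split_ifs <;> ring
  simp only [h1]
  rw [intervalIntegral.integral_sub (hv.mono_set hsub) ((ind_integrable hT hv).mono_set hsub),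
    posPart_int hT hv ht]
  rcases le_total ((∫ σ in (0 : ℝ)..t, v σ) - ρ * t) 0 with h | h
  · rw [max_eq_right h, min_eq_left (by linarith)]; ring
  · rw [max_eq_left h, min_eq_right (by linarith)]; ring

lemma scal_en {T ρ : ℝ} {v : ℝ → ℝ} (hT : 0 < T) (hv : IntervalIntegrable v volume 0 T)
    (hv2 : IntervalIntegrable (fun t => (v t) ^ 2) volume 0 T)
    (hfin : ∫ σ in (0 : ℝ)..T, v σ ≤ ρ * T) :
    ∫⁻ t in Ioo 0 T, ENNReal.ofReal ((if ρ * t < ∫ σ in (0 : ℝ)..t, v σ then ρ else v t) ^ 2) ≤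
      ∫⁻ t in Ioo 0 T, ENNReal.ofReal ((v t) ^ 2) := by
  set w : ℝ → ℝ := fun t => if ρ * t < ∫ σ in (0 : ℝ)..t, v σ then ρ else v t with hw
  set q : ℝ → ℝ := fun τ => if ρ * τ < ∫ σ in (0 : ℝ)..τ, v σ then v τ - ρ else 0 with hq
  have hqi : IntervalIntegrable q volume 0 T := ind_integrable hT hv
  have hqT : ∫ τ in (0 : ℝ)..T, q τ = 0 := by
    have := posPart_int (ρ := ρ) hT hv (t := T) ⟨hT.le, le_rfl⟩
    rw [max_eq_right (by linarith)] at this
    exact this
  -- w = v - q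
  have hwq : ∀ τ, w τ = v τ - q τ := by
    intro τ
    simp only [hw, hq]
    split_ifs <;> ring
  have hineq : ∀ τ, (w τ) ^ 2 + 2 * ρ * q τ ≤ (v τ) ^ 2 := by
    intro τ
    simp only [hw, hq]
    split_ifs
    · nlinarith [sq_nonneg (v τ - ρ)]
    · simp
  have hw2 : IntervalIntegrable (fun t => (w t) ^ 2) volume 0 T := by
    have hb : IntervalIntegrable (fun t => (v t) ^ 2 + ρ ^ 2) volume 0 T :=
      hv2.add intervalIntegrable_const
    apply hb.mono_fun
    · have : AEStronglyMeasurable w (volume.restrict (uIoc 0 T)) := by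
        have h1 := (hv.sub hqi).def'.aestronglyMeasurable
        refine h1.congr ?_
        filter_upwards with τ
        exact (hwq τ).symm
      exact this.pow 2
    · filter_upwards with τ
      rw [Real.norm_eq_abs, Real.norm_eq_abs, abs_of_nonneg (by positivity),
        abs_of_nonneg (by positivity)]
      simp only [hw]
      split_ifs
      · nlinarith [sq_nonneg (v τ)]
      · nlinarith [sq_nonneg ρ]
  have hint : ∫ τ in (0 : ℝ)..T, (w τ) ^ 2 ≤ ∫ τ in (0 : ℝ)..T, (v τ) ^ 2 := by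
    have h1 : ∫ τ in (0 : ℝ)..T, ((w τ) ^ 2 + 2 * ρ * q τ) ≤ ∫ τ in (0 : ℝ)..T, (v τ) ^ 2 :=
      intervalIntegral.integral_mono hT.le (hw2.add (hqi.const_mul (2 * ρ))) hv2 hineq
    rw [intervalIntegral.integral_add hw2 (hqi.const_mul (2 * ρ)),
      intervalIntegral.integral_const_mul, hqT] at h1
    linarith
  have conv : ∀ f : ℝ → ℝ, (∀ t, 0 ≤ f t) → IntervalIntegrable f volume 0 T →
      ∫⁻ t in Ioo 0 T, ENNReal.ofReal (f t) = ENNReal.ofReal (∫ τ in (0 : ℝ)..T, f τ) := by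
    intro f hf hfi
    rw [intervalIntegral.integral_of_le hT.le, integral_Ioc_eq_integral_Ioo]
    rw [ofReal_integral_eq_lintegral_ofReal]
    · rw [intervalIntegrable_iff_integrableOn_Ioo_of_le hT.le] at hfi
      exact hfi
    · exact Filter.Eventually.of_forall hf
  rw [conv _ (fun t => sq_nonneg _) hw2, conv _ (fun t => sq_nonneg _) hv2]
  exact ENNReal.ofReal_le_ofReal hint

/-- one-sided clipping -/
noncomputable def clipA (ρ : ℝ) (V : ℝ → ℝ → ℝ) : ℝ → ℝ → ℝ :=
  fun t s => if ρ * t < pos V t s then ρ else V t s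

lemma kin_swap {T : ℝ} {V : ℝ → ℝ → ℝ} (hV : Measurable (Function.uncurry V)) :
    kin T V = ∫⁻ s, (∫⁻ t in Ioo 0 T, ENNReal.ofReal ((V t s) ^ 2)) ∂lam := by
  unfold kin
  rw [lintegral_lintegral_swap]
  exact (ENNReal.measurable_ofReal.comp (hV.pow_const 2)).aemeasurable

lemma stepA (hREG : S_REG) {T ρ : ℝ} {V : ℝ → ℝ → ℝ} (hT : 0 < T)
    (hV : Measurable (Function.uncurry V)) (hk : kin T V < ∞)
    (hfin : ∀ᵐ s ∂lam, pos V T s ≤ ρ * T) :
    Measurable (Function.uncurry (clipA ρ V)) ∧ kin T (clipA ρ V) ≤ kin T V ∧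
      ∀ᵐ s ∂lam, ∀ t ∈ Icc 0 T, pos (clipA ρ V) t s = min (pos V t s) (ρ * t) := by
  obtain ⟨r1, r2, -, r4, -, -⟩ := hREG T V hT hV hk
  have hm : Measurable (Function.uncurry (clipA ρ V)) := by
    have : Function.uncurry (clipA ρ V) = fun p : ℝ × ℝ =>
        if ρ * p.1 < Function.uncurry (pos V) p then ρ else Function.uncurry V p := by
      ext p; rfl
    rw [this]
    exact Measurable.ite (measurableSet_lt (by fun_prop) r4) measurable_const hV
  refine ⟨hm, ?_, ?_⟩
  · rw [kin_swap hm, kin_swap hV]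
    apply lintegral_mono_ae
    filter_upwards [r1, r2, hfin] with s h1 h2 h3
    exact scal_en hT h1 h2 h3
  · filter_upwards [r1] with s h1 t ht
    exact scal hT h1 ht

end CLIPaux

open CLIPaux in
theorem t_CLIP (hREG : S_REG) (hCNT : S_CNT) : S_CLIP := by
  intro T V hT hV
  set ρ : ℝ := 1 / (2 * T) with hρ
  have hρ0 : 0 ≤ ρ := by rw [hρ]; positivity
  have hρT : ρ * T = 1 / 2 := by rw [hρ]; field_simp
  have hI : ∀ᵐ s ∂lam, s ∈ Ioo (0 : ℝ) 1 := ae_restrict_mem measurableSet_Ioo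
  have hfin1 : ∀ᵐ s ∂lam, pos V T s ≤ ρ * T := by
    filter_upwards [hV.final, hI] with s h1 h2
    rw [h1, hρT]; linarith [h2.2]
  obtain ⟨m1, k1, p1⟩ := stepA hREG hT hV.meas hV.fin hfin1
  set U : ℝ → ℝ → ℝ := clipA ρ V with hU
  set U' : ℝ → ℝ → ℝ := fun t s => - U t s with hU'
  have posneg : ∀ (Z : ℝ → ℝ → ℝ) t s, pos (fun t s => - Z t s) t s = - pos Z t s := by
    intro Z t s
    simp [pos, intervalIntegral.integral_neg]
  have kinneg : ∀ (Z : ℝ → ℝ → ℝ), kin T (fun t s => - Z t s) = kin T Z := by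
    intro Z
    simp [kin]
  have m1' : Measurable (Function.uncurry U') := m1.neg
  have hfin2 : ∀ᵐ s ∂lam, pos U' T s ≤ ρ * T := by
    filter_upwards [hV.final, hI, p1] with s h1 h2 h3
    rw [hU', posneg, h3 T ⟨hT.le, le_rfl⟩, h1, hρT, min_eq_left (by linarith [h2.2])]
    linarith [h2.1]
  obtain ⟨m2, k2, p2⟩ := stepA hREG hT m1' (by rw [hU', kinneg]; exact lt_of_le_of_lt k1 hV.fin)
    hfin2
  set W' : ℝ → ℝ → ℝ := clipA ρ U' with hW'
  set g : ℝ → ℝ → ℝ := fun t x => - min (- (min x (ρ * t))) (ρ * t) with hg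
  have gmono : ∀ t, Monotone (g t) := by
    intro t x y hxy
    simp only [hg]
    have : min x (ρ * t) ≤ min y (ρ * t) := min_le_min_right _ hxy
    have := min_le_min_right (ρ * t) (neg_le_neg this)
    linarith
  have key : ∀ᵐ s ∂lam, ∀ t ∈ Icc 0 T, pos (fun t s => - W' t s) t s = g t (pos V t s) := by
    filter_upwards [p1, p2] with s h1 h2 t ht
    rw [posneg, h2 t ht, hU', posneg, h1 t ht]
  refine ⟨fun t s => - W' t s, ⟨m2.neg, ?_, ?_, ?_⟩, ?_, ?_⟩
  · rw [kinneg]
    refine lt_of_le_of_lt (k2.trans ?_) hV.fin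
    rw [hU', kinneg]; exact k1
  · intro t ht
    have h1 := hV.mono t ht
    unfold AEMono at h1 ⊢
    have ka : ∀ᵐ s ∂lam, pos (fun t s => - W' t s) t s = g t (pos V t s) := by
      filter_upwards [key] with s hs using hs t ht
    have k1' : ∀ᵐ p ∂(lam.prod lam), pos (fun t s => - W' t s) t (p : ℝ × ℝ).1 =
        g t (pos V t p.1) := Measure.quasiMeasurePreserving_fst.ae ka
    have k2' : ∀ᵐ p ∂(lam.prod lam), pos (fun t s => - W' t s) t (p : ℝ × ℝ).2 =
        g t (pos V t p.2) := Measure.quasiMeasurePreserving_snd.ae ka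
    filter_upwards [h1, k1', k2'] with p a1 a2 a3 a4
    rw [a2, a3]
    exact gmono t (a1 a4)
  · filter_upwards [key, hV.final, hI] with s h1 h2 h3
    rw [h1 T ⟨hT.le, le_rfl⟩, h2]
    simp only [hg]
    rw [hρT, min_eq_left (a := s - 1 / 2) (b := 1 / 2) (by linarith [h3.2]),
      min_eq_left (by linarith [h3.1])]
    ring
  · unfold en
    apply add_le_add
    · apply setLIntegral_mono' measurableSet_Ioo
      intro t ht
      have ht' : t ∈ Icc 0 T := ⟨ht.1.le, ht.2.le⟩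
      obtain ⟨-, -, c3, c4, -, -, -⟩ := hCNT 0 1 one_pos
      have ka : ∀ᵐ s ∂(volume.restrict (Ioo (0:ℝ) 1)), pos (fun t s => - W' t s) t s =
          g t (pos V t s) := by
        filter_upwards [key] with s hs using hs t ht'
      show cntOn 0 1 _ ≤ cntOn 0 1 _
      rw [c4 _ _ ka]
      exact c3 (pos V t) (g t)
    · rw [kinneg]
      refine k2.trans ?_
      rw [hU', kinneg]; exact k1
  · intro t ht
    filter_upwards [key] with s h1
    rw [h1 t ht]
    have hr : 0 ≤ ρ * t := mul_nonneg hρ0 ht.1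
    have : t / (2 * T) = ρ * t := by rw [hρ]; ring
    rw [this]
    simp only [hg]
    rw [abs_le]
    constructor
    · have := min_le_right (-(min (pos V t s) (ρ * t))) (ρ * t)
      linarith
    · have h2 := min_le_right (pos V t s) (ρ * t)
      have : -(ρ * t) ≤ min (-(min (pos V t s) (ρ * t))) (ρ * t) :=
        le_min (by linarith) (by linarith)
      linarith

end Pool.Agent.R508.BT
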