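import Pool.Agent.R508.BT.Stm

/-!
# BT-CNT: elementary facts on `cntOn`
-/

set_option autoImplicit false

open MeasureTheory Set
open scoped ENNReal

namespace Pool.Agent.R508.BT

namespace CNT

theorem ne_zero (a b : ℝ) (h : a < b) : (volume.restrict (Ioo a b)) ≠ 0 := by
  intro h0
  have h1 := congrArg (fun m : Measure ℝ => m univ) h0
  simp only [Measure.restrict_apply MeasurableSet.univ, univ_inter, Real.volume_Ioo,
    Measure.coe_zero, Pi.zero_apply, ENNReal.ofReal_eq_zero] at h1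
  linarith

theorem le_of (a b : ℝ) (f : ℝ → ℝ) (A : Finset ℝ)
    (h : ∀ᵐ s ∂(volume.restrict (Ioo a b)), f s ∈ A) : cntOn a b f ≤ (A.card : ℝ≥0∞) :=
  iInf₂_le A h

theorem one_le (a b : ℝ) (hab : a < b) (f : ℝ → ℝ) : 1 ≤ cntOn a b f := by
  refine le_iInf₂ fun A hA => ?_
  have hne : A.Nonempty := by
    by_contra hA0
    rw [Finset.not_nonempty_iff_eq_empty] at hA0
    rw [hA0] at hA
    simp only [Finset.notMem_empty] at hA
    have h2 : (volume.restrict (Ioo a b)) = 0 := by
      rw [Filter.eventually_false_iff_eq_bot, ae_eq_bot] at hA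
      exact hA
    exact ne_zero a b hab h2
  exact_mod_cast Finset.card_pos.2 hne

theorem comp_le (a b : ℝ) (f g : ℝ → ℝ) : cntOn a b (fun s => g (f s)) ≤ cntOn a b f := by
  classical
  refine le_iInf₂ fun A hA => ?_
  refine (le_of a b _ (A.image g) ?_).trans ?_
  · filter_upwards [hA] with s hs
    exact Finset.mem_image_of_mem g hs
  · exact_mod_cast Finset.card_image_le

theorem congr_le (a b : ℝ) (f g : ℝ → ℝ)
    (h : ∀ᵐ s ∂(volume.restrict (Ioo a b)), f s = g s) : cntOn a b f ≤ cntOn a b g := by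
  refine le_iInf₂ fun A hA => ?_
  apply le_of
  filter_upwards [hA, h] with s hs he
  rw [he]; exact hs

theorem attained (a b : ℝ) (f : ℝ → ℝ) (hf : cntOn a b f < ∞) : ∃ A : Finset ℝ,
    (∀ᵐ s ∂(volume.restrict (Ioo a b)), f s ∈ A) ∧ (A.card : ℝ≥0∞) = cntOn a b f ∧
    ∀ x ∈ A, 0 < (volume.restrict (Ioo a b)) {s | f s = x} := by
  classical
  have hex : ∃ n : ℕ, ∃ A : Finset ℝ, A.card = n ∧
      ∀ᵐ s ∂(volume.restrict (Ioo a b)), f s ∈ A := by
    by_contra hno
    have : cntOn a b f = ∞ := by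
      unfold cntOn
      rw [iInf₂_eq_top]
      intro A hA
      exact absurd ⟨A.card, A, rfl, hA⟩ hno
    rw [this] at hf
    exact lt_irrefl _ hf
  obtain ⟨A, hAc, hA⟩ := Nat.find_spec hex
  refine ⟨A, hA, ?_, ?_⟩
  · refine le_antisymm ?_ (le_of a b f A hA)
    refine le_iInf₂ fun B hB => ?_
    have h1 : Nat.find hex ≤ B.card := Nat.find_min' hex ⟨B, rfl, hB⟩
    rw [← hAc] at h1
    exact_mod_cast h1
  · intro x hx
    rw [pos_iff_ne_zero]
    intro h0
    have h1 : ∀ᵐ s ∂(volume.restrict (Ioo a b)), f s ≠ x := by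
      rw [ae_iff]
      simpa using h0
    have h2 : ∀ᵐ s ∂(volume.restrict (Ioo a b)), f s ∈ A.erase x := by
      filter_upwards [hA, h1] with s hs hs'
      exact Finset.mem_erase.2 ⟨hs', hs⟩
    have h3 : Nat.find hex ≤ (A.erase x).card := Nat.find_min' hex ⟨_, rfl, h2⟩
    have h4 := Finset.card_erase_lt_of_mem hx
    omega

theorem card_le (a b : ℝ) (f : ℝ → ℝ) (A : Finset ℝ)
    (h : ∀ x ∈ A, 0 < (volume.restrict (Ioo a b)) {s | f s = x}) :
    (A.card : ℝ≥0∞) ≤ cntOn a b f := by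
  refine le_iInf₂ fun B hB => ?_
  have hAB : A ⊆ B := by
    intro x hx
    by_contra hxB
    have h1 := h x hx
    rw [ae_iff] at hB
    have h2 : {s | f s = x} ⊆ {s | ¬ f s ∈ B} := by
      intro s hs
      have hs' : f s = x := hs
      show ¬ f s ∈ B
      rw [hs']; exact hxB
    have h3 := measure_mono_null h2 hB
    rw [h3] at h1
    exact lt_irrefl _ h1
  exact_mod_cast Finset.card_le_card hAB

theorem qmp (α β : ℝ) (hα : α ≠ 0) :
    Measure.QuasiMeasurePreserving (fun s : ℝ => α * s + β) volume volume := by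
  refine ⟨by fun_prop, ?_⟩
  apply Measure.AbsolutelyContinuous.mk
  intro s hs h0
  rw [Measure.map_apply (by fun_prop) hs]
  have h1 : (fun s : ℝ => α * s + β) ⁻¹' s = (fun x => α * x) ⁻¹' ((fun x => x + β) ⁻¹' s) := rfl
  rw [h1, Real.volume_preimage_mul_left hα, measure_preimage_add_right, h0, mul_zero]

theorem ae_affine (α β : ℝ) (hα : α ≠ 0) (P : ℝ → Prop) :
    (∀ᵐ u, P u) ↔ ∀ᵐ s, P (α * s + β) := by
  constructor
  · intro h
    exact (qmp α β hα).ae h
  · intro h
    have h1 := (qmp α⁻¹ (-(α⁻¹ * β)) (inv_ne_zero hα)).ae h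
    filter_upwards [h1] with u hu
    have e : α * (α⁻¹ * u + -(α⁻¹ * β)) + β = u := by field_simp; ring
    rwa [e] at hu

theorem affine (a b : ℝ) (f : ℝ → ℝ) (α β : ℝ) (hα : 0 < α) :
    cntOn a b (fun s => f (α * s + β)) = cntOn (α * a + β) (α * b + β) f := by
  have key : ∀ A : Finset ℝ, (∀ᵐ s ∂(volume.restrict (Ioo a b)), f (α * s + β) ∈ A) ↔
      ∀ᵐ s ∂(volume.restrict (Ioo (α * a + β) (α * b + β))), f s ∈ A := by
    intro A
    rw [ae_restrict_iff' measurableSet_Ioo, ae_restrict_iff' measurableSet_Ioo,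
      ae_affine α β hα.ne' (fun u => u ∈ Ioo (α * a + β) (α * b + β) → f u ∈ A)]
    have e : ∀ s : ℝ, α * s + β ∈ Ioo (α * a + β) (α * b + β) ↔ s ∈ Ioo a b := by
      intro s
      simp only [mem_Ioo]
      constructor
      · rintro ⟨h1, h2⟩
        constructor
        · exact lt_of_mul_lt_mul_left (by linarith) hα.le
        · exact lt_of_mul_lt_mul_left (by linarith) hα.le
      · rintro ⟨h1, h2⟩
        have h3 := mul_lt_mul_of_pos_left h1 hα
        have h4 := mul_lt_mul_of_pos_left h2 hα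
        constructor <;> linarith
    simp only [e]
  unfold cntOn
  apply le_antisymm
  · exact le_iInf₂ fun A hA => iInf₂_le A ((key A).2 hA)
  · exact le_iInf₂ fun A hA => iInf₂_le A ((key A).1 hA)

end CNT

theorem t_CNT : S_CNT := by
  intro a b hab
  refine ⟨CNT.one_le a b hab, ?_, CNT.comp_le a b, ?_, CNT.attained a b, CNT.card_le a b,
    fun f α β hα => CNT.affine a b f α β hα⟩
  · intro c
    apply le_antisymm _ (CNT.one_le a b hab _)
    have := CNT.le_of a b (fun _ => c) {c} (Filter.Eventually.of_forall fun s => by simp)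
    simpa using this
  · intro f g h
    exact le_antisymm (CNT.congr_le a b f g h)
      (CNT.congr_le a b g f (h.mono fun s hs => hs.symm))

end Pool.Agent.R508.BT
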