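import Pool.Agent.R508.BT.Stm

open MeasureTheory Set Filter Topology
open scoped ENNReal

namespace Pool.Agent.R508.BT

namespace CNTx

variable {a b : ℝ}

lemma neBot (hab : a < b) : (ae (volume.restrict (Ioo a b))).NeBot := by
  rw [ae_neBot]
  intro h
  have h1 : (volume.restrict (Ioo a b)) univ = 0 := by rw [h]; simp
  rw [Measure.restrict_apply_univ, Real.volume_Ioo] at h1
  simp at h1
  linarith

lemma one_le (hab : a < b) (f : ℝ → ℝ) : 1 ≤ cntOn a b f := by
  unfold cntOn
  refine le_iInf₂ fun A hA => ?_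
  haveI := neBot hab
  obtain ⟨s, hs⟩ := hA.exists
  have : 1 ≤ A.card := Finset.card_pos.2 ⟨_, hs⟩
  exact_mod_cast this

lemma comp_le (f g : ℝ → ℝ) : cntOn a b (fun s => g (f s)) ≤ cntOn a b f := by
  unfold cntOn
  refine le_iInf₂ fun A hA => ?_
  refine (iInf₂_le (A.image g) (hA.mono fun s hs => Finset.mem_image_of_mem g hs)).trans ?_
  exact_mod_cast Finset.card_image_le

lemma congr_le (f g : ℝ → ℝ) (h : ∀ᵐ s ∂(volume.restrict (Ioo a b)), f s = g s) :
    cntOn a b f ≤ cntOn a b g := by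
  unfold cntOn
  refine le_iInf₂ fun A hA => ?_
  refine iInf₂_le A ?_
  filter_upwards [hA, h] with s h1 h2
  rw [h2]
  exact h1

lemma attained (f : ℝ → ℝ) (h : cntOn a b f < ∞) : ∃ A : Finset ℝ,
    (∀ᵐ s ∂(volume.restrict (Ioo a b)), f s ∈ A) ∧ (A.card : ℝ≥0∞) = cntOn a b f ∧
    ∀ x ∈ A, 0 < (volume.restrict (Ioo a b)) {s | f s = x} := by
  classical
  have hex : ∃ n : ℕ, ∃ A : Finset ℝ, A.card = n ∧
      ∀ᵐ s ∂(volume.restrict (Ioo a b)), f s ∈ A := by
    unfold cntOn at h
    rw [iInf_lt_iff] at h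
    obtain ⟨A, hA⟩ := h
    rw [iInf_lt_iff] at hA
    obtain ⟨hA', -⟩ := hA
    exact ⟨A.card, A, rfl, hA'⟩
  obtain ⟨A, hAc, hA⟩ := Nat.find_spec hex
  have hmin : ∀ B : Finset ℝ, (∀ᵐ s ∂(volume.restrict (Ioo a b)), f s ∈ B) → A.card ≤ B.card := by
    intro B hB
    rw [hAc]
    exact Nat.find_min' hex ⟨B, rfl, hB⟩
  refine ⟨A, hA, ?_, ?_⟩
  · apply le_antisymm
    · unfold cntOn
      refine le_iInf₂ fun B hB => ?_
      exact_mod_cast hmin B hB
    · unfold cntOn
      exact iInf₂_le A hA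
  · intro x hx
    by_contra hcon
    have h0 : (volume.restrict (Ioo a b)) {s | f s = x} = 0 := by
      simpa using hcon
    have h1 : ∀ᵐ s ∂(volume.restrict (Ioo a b)), f s ≠ x := by
      rw [ae_iff]
      simpa using h0
    have h2 := hmin (A.erase x) (by
      filter_upwards [hA, h1] with s hs1 hs2
      exact Finset.mem_erase.2 ⟨hs2, hs1⟩)
    have h3 := Finset.card_erase_lt_of_mem hx
    omega

lemma card_le (f : ℝ → ℝ) (A : Finset ℝ)
    (hA : ∀ x ∈ A, 0 < (volume.restrict (Ioo a b)) {s | f s = x}) :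
    (A.card : ℝ≥0∞) ≤ cntOn a b f := by
  unfold cntOn
  refine le_iInf₂ fun B hB => ?_
  have : A ⊆ B := by
    intro x hx
    by_contra hcon
    have h0 : (volume.restrict (Ioo a b)) {s | f s = x} = 0 := by
      rw [ae_iff] at hB
      refine measure_mono_null ?_ hB
      intro s hs
      simp only [mem_setOf_eq] at hs ⊢
      rw [hs]
      exact hcon
    exact absurd h0 (hA x hx).ne'
  exact_mod_cast Finset.card_le_card this

lemma scale (f : ℝ → ℝ) (α β : ℝ) (hα : 0 < α) :
    cntOn a b (fun s => f (α * s + β)) = cntOn (α * a + β) (α * b + β) f := by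
  have key : ∀ A : Finset ℝ, (∀ᵐ s ∂(volume.restrict (Ioo a b)), f (α * s + β) ∈ A) ↔
      (∀ᵐ s ∂(volume.restrict (Ioo (α * a + β) (α * b + β))), f s ∈ A) := by
    intro A
    rw [ae_restrict_iff' measurableSet_Ioo, ae_restrict_iff' measurableSet_Ioo, ae_iff, ae_iff]
    have hset : {s | ¬(s ∈ Ioo a b → f (α * s + β) ∈ A)} =
        (fun x => α * x) ⁻¹' ((fun x => x + β) ⁻¹'
          {u | ¬(u ∈ Ioo (α * a + β) (α * b + β) → f u ∈ A)}) := by
      ext s
      simp only [mem_setOf_eq, mem_preimage, mem_Ioo, Classical.not_imp]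
      constructor
      · rintro ⟨⟨h1, h2⟩, h3⟩
        exact ⟨⟨by nlinarith, by nlinarith⟩, h3⟩
      · rintro ⟨⟨h1, h2⟩, h3⟩
        have h4 : α * a < α * s := by linarith
        have h5 : α * s < α * b := by linarith
        exact ⟨⟨lt_of_mul_lt_mul_left h4 hα.le, lt_of_mul_lt_mul_left h5 hα.le⟩, h3⟩
    rw [hset, Real.volume_preimage_mul_left hα.ne', measure_preimage_add_right, mul_eq_zero]
    constructor
    · rintro (h | h)
      · exfalso
        rw [ENNReal.ofReal_eq_zero] at h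
        have : 0 < |α⁻¹| := abs_pos.2 (inv_ne_zero hα.ne')
        linarith
      · exact h
    · intro h
      exact Or.inr h
  unfold cntOn
  refine iInf_congr fun A => ?_
  exact iInf_congr_Prop (key A) (fun _ => rfl)

end CNTx

theorem t_CNTx : S_CNT := by
  intro a b hab
  refine ⟨CNTx.one_le hab, ?_, CNTx.comp_le, ?_, CNTx.attained, CNTx.card_le, ?_⟩
  · intro c
    apply le_antisymm _ (CNTx.one_le hab _)
    unfold cntOn
    refine (iInf₂_le {c} (by simp)).trans ?_
    simp
  · intro f g h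
    exact le_antisymm (CNTx.congr_le f g h)
      (CNTx.congr_le g f (h.mono fun s hs => hs.symm))
  · intro f α β hα
    exact CNTx.scale f α β hα

end Pool.Agent.R508.BT
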