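import Mathlib

/-!
# One-dimensional branched transport in quantile form

`lam` is Lebesgue measure on the labels `(0,1)`.  A curve of probability measures on the line is
described by its quantile functions `pos V t`, `V` the velocity of the labels.
-/

open MeasureTheory Set
open scoped ENNReal

namespace Pool.Agent.R508.BT

/-- Lebesgue measure on the labels `(0,1)` -/
noncomputable abbrev lam : Measure ℝ := volume.restrict (Ioo (0 : ℝ) 1)

/-- position of the label `s` at time `t`; all mass starts at `0` -/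
noncomputable def pos (V : ℝ → ℝ → ℝ) (t s : ℝ) : ℝ := ∫ τ in (0 : ℝ)..t, V τ s

/-- `f` is nondecreasing on `(0,1)` (almost everywhere) -/
def AEMono (f : ℝ → ℝ) : Prop := ∀ᵐ p ∂(lam.prod lam), p.1 ≤ p.2 → f p.1 ≤ f p.2

/-- number of values of `f` on the interval `(a,b)` (up to null sets) -/
noncomputable def cntOn (a b : ℝ) (f : ℝ → ℝ) : ℝ≥0∞ :=
  ⨅ (A : Finset ℝ) (_ : ∀ᵐ s ∂(volume.restrict (Ioo a b)), f s ∈ A), (A.card : ℝ≥0∞)

/-- number of values of `f` on `(0,1)`: number of atoms of the image of `lam` -/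
noncomputable abbrev cnt (f : ℝ → ℝ) : ℝ≥0∞ := cntOn 0 1 f

/-- kinetic energy up to time `T` -/
noncomputable def kin (T : ℝ) (V : ℝ → ℝ → ℝ) : ℝ≥0∞ :=
  ∫⁻ t in Ioo 0 T, ∫⁻ s, ENNReal.ofReal ((V t s) ^ 2) ∂lam

/-- total energy up to time `T` -/
noncomputable def en (T : ℝ) (V : ℝ → ℝ → ℝ) : ℝ≥0∞ :=
  (∫⁻ t in Ioo 0 T, cnt (pos V t)) + kin T V

/-- admissible curves for the horizon `T` -/
structure Path (T : ℝ) (V : ℝ → ℝ → ℝ) : Prop where
  meas : Measurable (Function.uncurry V)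
  fin : kin T V < ∞
  mono : ∀ t ∈ Icc 0 T, AEMono (pos V t)
  final : ∀ᵐ s ∂lam, pos V T s = s - 1 / 2

/-- the minimal energy -/
noncomputable def E (T : ℝ) : ℝ≥0∞ := ⨅ (V : ℝ → ℝ → ℝ) (_ : Path T V), en T V

/-- `V` is a minimizer for the horizon `T` -/
def IsMin (T : ℝ) (V : ℝ → ℝ → ℝ) : Prop := Path T V ∧ en T V = E T

/-- `c = 1/(2-√2)` -/
noncomputable def cc : ℝ := 1 + Real.sqrt 2 / 2

/-- `a^{3/2}` -/
noncomputable def r32 (a : ℝ) : ℝ := a ^ (3 / 2 : ℝ)

/-- `e` is flat to the left of `T` (a minimizer may wait at the beginning) -/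
def FL (e : ℝ → ℝ) (T : ℝ) : Prop := ∃ τ, 0 < τ ∧ τ < T ∧ e T = τ + e (T - τ)

end Pool.Agent.R508.BT
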