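import Pool.Agent.R508.BT.Eul

/-!
# From measures to labels: assembly of `S_EUL` from `S_W2`, `S_AC`, `S_QF`.
-/

open MeasureTheory Set Filter Topology
open scoped ENNReal

namespace Pool.Agent.R508.BT

namespace EulAux

lemma ae_lam (p : ℝ → Prop) (h : ∀ s ∈ Ioo (0 : ℝ) 1, p s) : ∀ᵐ s ∂lam, p s :=
  (ae_restrict_iff' measurableSet_Ioo).mpr (Eventually.of_forall h)

lemma cnt_congr (f g : ℝ → ℝ) (h : ∀ᵐ s ∂lam, f s = g s) : cnt f = cnt g := by
  unfold cnt cntOn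
  congr 1
  ext A
  have : (∀ᵐ s ∂(volume.restrict (Ioo (0 : ℝ) 1)), f s ∈ A) ↔
      (∀ᵐ s ∂(volume.restrict (Ioo (0 : ℝ) 1)), g s ∈ A) := by
    constructor
    · intro h1
      filter_upwards [h, h1] with s h2 h3
      rwa [← h2]
    · intro h1
      filter_upwards [h, h1] with s h2 h3
      rwa [h2]
  simp only [this]

lemma mono_congr (f g : ℝ → ℝ) (h : ∀ᵐ s ∂lam, f s = g s) (hg : AEMono g) : AEMono f := by
  unfold AEMono at *
  have h1 : ∀ᵐ p ∂(lam.prod lam), f p.1 = g p.1 := Measure.quasiMeasurePreserving_fst.ae h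
  have h2 : ∀ᵐ p ∂(lam.prod lam), f p.2 = g p.2 := Measure.quasiMeasurePreserving_snd.ae h
  filter_upwards [h1, h2, hg] with p a b c hp
  rw [a, b]
  exact c hp

lemma exists_meas (T : ℝ) (mu : ℝ → Measure ℝ) (v : ℝ → ℝ → ℝ)
    (hprob : ∀ t ∈ Icc 0 T, IsProbabilityMeasure (mu t))
    (hkern : ∀ B : Set ℝ, MeasurableSet B → Measurable (fun t => mu t B))
    (hv : Measurable (Function.uncurry v)) :
    ∃ g : ℝ → ℝ≥0∞, Measurable g ∧
      ∀ t ∈ Icc 0 T, g t = ∫⁻ x, ENNReal.ofReal ((v t x) ^ 2) ∂(mu t) := by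
  classical
  set mu' : ℝ → Measure ℝ := fun t => if t ∈ Icc 0 T then mu t else Measure.dirac 0 with hmu'
  have hm : Measurable mu' := by
    apply Measure.measurable_of_measurable_coe
    intro B hB
    have e : (fun t => mu' t B) = fun t => if t ∈ Icc 0 T then mu t B else Measure.dirac 0 B := by
      ext t
      simp only [hmu']
      split_ifs <;> rfl
    rw [e]
    exact Measurable.ite measurableSet_Icc (hkern B hB) measurable_const
  let κ : ProbabilityTheory.Kernel ℝ ℝ := ⟨mu', hm⟩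
  have hκ : ProbabilityTheory.IsMarkovKernel κ := by
    constructor
    intro t
    change IsProbabilityMeasure (mu' t)
    simp only [hmu']
    split_ifs with h
    · exact hprob t h
    · infer_instance
  refine ⟨fun t => ∫⁻ x, ENNReal.ofReal ((v t x) ^ 2) ∂(κ t), ?_, ?_⟩
  · apply Measurable.lintegral_kernel_prod_right
    have := hv
    fun_prop
  · intro t ht
    change ∫⁻ x, ENNReal.ofReal ((v t x) ^ 2) ∂(mu' t) = _
    simp only [hmu']
    rw [if_pos ht]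

end EulAux

open EulAux in
theorem t_EUL (hW2 : S_W2) (hAC : S_AC) (hQF : S_QF) : S_EUL := by
  intro T mu v hT hA
  obtain ⟨hQ1, hQ2, hQ3, hQ4⟩ := hQF
  obtain ⟨Q, hQm, hQ⟩ := hQ2 T mu hT hA.prob hA.kern
  obtain ⟨g, hgm, hg⟩ := exists_meas T mu v hA.prob hA.kern hA.meas
  have hgI : ∀ a b : ℝ, 0 ≤ a → b ≤ T → ∫⁻ t in Ioo a b, g t =
      ∫⁻ t in Ioo a b, ∫⁻ x, ENNReal.ofReal ((v t x) ^ 2) ∂(mu t) := by
    intro a b ha hb
    apply setLIntegral_congr_fun measurableSet_Ioo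
    intro t ht
    exact hg t ⟨ha.trans ht.1.le, ht.2.le.trans hb⟩
  have hfin : (∫⁻ t in Ioo 0 T, g t) < ∞ := by
    rw [hgI 0 T le_rfl le_rfl]
    exact hA.fin
  obtain ⟨V, hVm, hVp, hVk⟩ := hAC T Q g hT hQm hgm hfin (by
    intro a b ha hab hb
    rw [hgI a b ha hb]
    refine le_trans (le_of_eq ?_) (hW2 T mu v hT hA a b ha hab hb)
    apply setLIntegral_congr_fun measurableSet_Ioo
    intro s hs
    simp only
    rw [hQ b ⟨ha.trans hab.le, hb⟩ s hs, hQ a ⟨ha, hab.le.trans hb⟩ s hs])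
  have hpos : ∀ t ∈ Icc 0 T, ∀ᵐ s ∂lam, pos V t s = qf (mu t) s := by
    intro t ht
    have h1 : ∀ᵐ s ∂lam, Q t s = qf (mu t) s := ae_lam _ (hQ t ht)
    have h2 : ∀ᵐ s ∂lam, Q 0 s = qf (mu 0) s := ae_lam _ (hQ 0 ⟨le_rfl, hT.le⟩)
    rw [hA.init] at h2
    filter_upwards [hVp t ht, h1, h2, hQ3] with s a b c d
    rw [a, b, c, d, sub_zero]
  refine ⟨V, ⟨hVm, lt_of_le_of_lt hVk hfin, ?_, ?_⟩, ?_, ?_⟩
  · intro t ht
    exact mono_congr _ _ (hpos t ht) (hQ1 (mu t) (hA.prob t ht)).2.2.1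
  · have h1 := hpos T ⟨hT.le, le_rfl⟩
    rw [hA.final] at h1
    filter_upwards [h1, hQ4] with s a b
    rw [a, b]
  · unfold en enE
    apply add_le_add
    · apply le_of_eq
      apply setLIntegral_congr_fun measurableSet_Ioo
      intro t ht
      have ht' : t ∈ Icc 0 T := ⟨ht.1.le, ht.2.le⟩
      simp only
      rw [cnt_congr _ _ (hpos t ht'), (hQ1 (mu t) (hA.prob t ht')).2.2.2]
    · rw [← hgI 0 T le_rfl le_rfl]
      exact hVk
  · intro t ht
    rw [Measure.map_congr (hpos t ht)]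
    exact (hQ1 (mu t) (hA.prob t ht)).2.1

end Pool.Agent.R508.BT
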