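import Pool.Agent.R508.BT.Stm

open MeasureTheory Set Filter Topology
open scoped ENNReal

namespace Pool.Agent.R508.BT

namespace EXI

theorem add_liminf (a b : ℕ → ℝ≥0∞) :
    liminf a atTop + liminf b atTop ≤ liminf (fun n => a n + b n) atTop := by
  simp only [liminf_eq_iSup_iInf_of_nat]
  rw [ENNReal.iSup_add_iSup_of_monotone]
  · refine iSup_mono fun n => ?_
    refine le_iInf₂ fun i hi => ?_
    exact add_le_add (iInf₂_le i hi) (iInf₂_le i hi)
  · intro m n hmn
    exact biInf_mono fun i hi => le_trans hmn hi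
  · intro m n hmn
    exact biInf_mono fun i hi => le_trans hmn hi

/-- a function on `(0,1)` all of whose interval integrals vanish is zero -/
theorem zero_of_integrals (hLSC : S_LSC) (hCNT : S_CNT) (h : ℝ → ℝ)
    (hi : IntegrableOn h (Ioo 0 1))
    (h0 : ∀ a b : ℝ, 0 ≤ a → a ≤ b → b ≤ 1 → ∫ s in a..b, h s = 0) :
    ∀ᵐ s ∂lam, h s = 0 := by
  obtain ⟨-, hc⟩ := hLSC (fun _ _ => 0) h (fun _ => integrableOn_zero) hi
    (fun _ => Eventually.of_forall fun _ _ => le_rfl) (by
      intro a b ha hab hb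
      rw [h0 a b ha hab hb]
      simp)
  obtain ⟨-, h2, -, -, h5, -, -⟩ := hCNT 0 1 one_pos
  have hle : cnt h ≤ 1 := by
    refine hc.trans ?_
    have : (fun n : ℕ => cnt ((fun (_ : ℕ) (_ : ℝ) => (0 : ℝ)) n)) = fun _ : ℕ => (1 : ℝ≥0∞) := by
      funext n
      exact h2 0
    rw [this]
    simp
  obtain ⟨A, hA, hcard, -⟩ := h5 h (lt_of_le_of_lt hle (by simp))
  have hA1 : A.card ≤ 1 := by
    have : (A.card : ℝ≥0∞) ≤ ((1 : ℕ) : ℝ≥0∞) := by
      rw [hcard]
      simpa using hle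
    exact_mod_cast this
  obtain ⟨c, hc1⟩ := Finset.card_le_one_iff_subset_singleton.mp hA1
  have hhc : ∀ᵐ s ∂lam, h s = c := by
    filter_upwards [hA] with s hs
    simpa using hc1 hs
  have hint : ∫ s in (0 : ℝ)..1, h s = c := by
    rw [intervalIntegral.integral_of_le zero_le_one, integral_Ioc_eq_integral_Ioo,
      integral_congr_ae (g := fun _ => c) hhc]
    simp
  rw [h0 0 1 le_rfl zero_le_one le_rfl] at hint
  filter_upwards [hhc] with s hs
  rw [hs, ← hint]

theorem main (hWK : S_WK) (hLSC : S_LSC) (hUPP : S_UPP) (hCNT : S_CNT) (hMEAS : S_MEAS)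
    (hREG : S_REG) (T : ℝ) (hT : 0 < T) : ∃ V : ℝ → ℝ → ℝ, IsMin T V := by
  have hE : E T < ∞ := lt_of_le_of_lt (hUPP T hT) ENNReal.ofReal_lt_top
  have hseq : ∀ n : ℕ, ∃ V, Path T V ∧ en T V ≤ E T + (((n + 1 : ℕ) : ℝ≥0∞))⁻¹ := by
    intro n
    have hlt : (⨅ (V : ℝ → ℝ → ℝ) (_ : Path T V), en T V) < E T + (((n + 1 : ℕ) : ℝ≥0∞))⁻¹ :=
      ENNReal.lt_add_right hE.ne (by simp)
    obtain ⟨V, hV⟩ := iInf_lt_iff.mp hlt
    obtain ⟨hP, hV⟩ := iInf_lt_iff.mp hV
    exact ⟨V, hP, hV.le⟩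
  choose V hP hle using hseq
  have hfin1 : E T + 1 ≠ ∞ := ENNReal.add_ne_top.mpr ⟨hE.ne, ENNReal.one_ne_top⟩
  have hkin : ∀ n, kin T (V n) ≤ ENNReal.ofReal (E T + 1).toReal := by
    intro n
    rw [ENNReal.ofReal_toReal hfin1]
    refine le_trans (le_add_self : kin T (V n) ≤ en T (V n)) ((hle n).trans ?_)
    gcongr
    rw [ENNReal.inv_le_one]
    exact_mod_cast Nat.succ_le_succ (Nat.zero_le n)
  obtain ⟨φ, W, hφ, hWm, hWk, hlim⟩ :=
    hWK T (E T + 1).toReal V hT (fun n => (hP n).meas) hkin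
  have hWfin : kin T W < ∞ := by
    refine lt_of_le_of_lt hWk (lt_of_le_of_lt ?_ (ENNReal.ofReal_lt_top (r := (E T + 1).toReal)))
    calc liminf (fun n => kin T (V (φ n))) atTop
        ≤ liminf (fun _ : ℕ => ENNReal.ofReal (E T + 1).toReal) atTop :=
          liminf_le_liminf (Eventually.of_forall fun n => hkin (φ n))
      _ = _ := by simp
  have hregW := (hREG T W hT hWm hWfin).2.2.1
  have hregV := fun n => (hREG T (V n) hT (hP n).meas (hP n).fin).2.2.1
  have hL : ∀ t ∈ Icc 0 T, AEMono (pos W t) ∧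
      cnt (pos W t) ≤ liminf (fun n => cnt (pos (V (φ n)) t)) atTop := by
    intro t ht
    exact hLSC (fun n => pos (V (φ n)) t) (pos W t) (fun n => (hregV (φ n) t ht).2)
      (hregW t ht).2 (fun n => (hP (φ n)).mono t ht) (hlim t ht)
  have hTT : T ∈ Icc 0 T := ⟨hT.le, le_rfl⟩
  have hfinal : ∀ᵐ s ∂lam, pos W T s = s - 1 / 2 := by
    have hid : IntegrableOn (fun s : ℝ => s - 1 / 2) (Ioo 0 1) := by
      have : Continuous (fun s : ℝ => s - 1 / 2) := by fun_prop
      exact (this.integrableOn_Icc (a := 0) (b := 1)).mono_set Ioo_subset_Icc_self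
    have hz := zero_of_integrals hLSC hCNT (fun s => pos W T s - (s - 1 / 2))
      ((hregW T hTT).2.sub hid) (by
        intro a b ha hab hb
        have hsub : Ioc a b ⊆ Ioc 0 1 := Ioc_subset_Ioc ha hb
        have hW1 : IntervalIntegrable (pos W T) volume a b := by
          rw [intervalIntegrable_iff_integrableOn_Ioo_of_le hab]
          have h1 : IntegrableOn (pos W T) (Ioo 0 1) := (hregW T hTT).2
          exact h1.mono_set (Ioo_subset_Ioo ha hb)
        have hi1 : IntervalIntegrable (fun s : ℝ => s - 1 / 2) volume a b :=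
          (by fun_prop : Continuous (fun s : ℝ => s - 1 / 2)).intervalIntegrable _ _
        rw [intervalIntegral.integral_sub hW1 hi1]
        have hconst : ∀ n, ∫ s in a..b, pos (V (φ n)) T s = ∫ s in a..b, (s - 1 / 2) := by
          intro n
          have hf := (hP (φ n)).final
          rw [intervalIntegral.integral_of_le hab, intervalIntegral.integral_of_le hab,
            integral_Ioc_eq_integral_Ioo, integral_Ioc_eq_integral_Ioo]
          refine integral_congr_ae ?_
          exact ae_restrict_of_ae_restrict_of_subset (Ioo_subset_Ioo ha hb) hf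
        have h1 := hlim T hTT a b ha hab hb
        simp_rw [hconst] at h1
        have h2 := tendsto_nhds_unique h1 tendsto_const_nhds
        rw [h2, sub_self])
    filter_upwards [hz] with s hs
    linarith
  have hPW : Path T W := ⟨hWm, hWfin, fun t ht => (hL t ht).1, hfinal⟩
  refine ⟨W, hPW, le_antisymm ?_ (iInf₂_le W hPW)⟩
  have hcntle : (∫⁻ t in Ioo 0 T, cnt (pos W t)) ≤
      liminf (fun n => ∫⁻ t in Ioo 0 T, cnt (pos (V (φ n)) t)) atTop := by
    refine le_trans ?_ (lintegral_liminf_le' (fun n =>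
      hMEAS T (V (φ n)) hT (hP (φ n)).meas (hP (φ n)).fin 0 1 le_rfl one_pos le_rfl))
    refine setLIntegral_mono_ae' measurableSet_Ioo ?_
    exact Eventually.of_forall fun t ht => (hL t ⟨ht.1.le, ht.2.le⟩).2
  calc en T W = (∫⁻ t in Ioo 0 T, cnt (pos W t)) + kin T W := rfl
    _ ≤ liminf (fun n => ∫⁻ t in Ioo 0 T, cnt (pos (V (φ n)) t)) atTop +
        liminf (fun n => kin T (V (φ n))) atTop := add_le_add hcntle hWk
    _ ≤ liminf (fun n => (∫⁻ t in Ioo 0 T, cnt (pos (V (φ n)) t)) + kin T (V (φ n))) atTop :=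
        add_liminf _ _
    _ ≤ liminf (fun n => E T + (((φ n + 1 : ℕ) : ℝ≥0∞))⁻¹) atTop :=
        liminf_le_liminf (Eventually.of_forall fun n => hle (φ n))
    _ = E T := by
        have h1 : Tendsto (fun n => (((φ n + 1 : ℕ) : ℝ≥0∞))⁻¹) atTop (𝓝 0) :=
          (ENNReal.tendsto_inv_nat_nhds_zero.comp (tendsto_add_atTop_nat 1)).comp hφ.tendsto_atTop
        have h2 : Tendsto (fun n => E T + (((φ n + 1 : ℕ) : ℝ≥0∞))⁻¹) atTop (𝓝 (E T + 0)) :=
          tendsto_const_nhds.add h1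
        rw [add_zero] at h2
        exact h2.liminf_eq

end EXI

theorem t_EXI (hWK : S_WK) (hLSC : S_LSC) (hUPP : S_UPP) (hCNT : S_CNT) (hMEAS : S_MEAS)
    (hREG : S_REG) : S_EXI :=
  fun T hT => EXI.main hWK hLSC hUPP hCNT hMEAS hREG T hT

end Pool.Agent.R508.BT
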