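import Pool.Agent.R508.BT.Defs

/-!
# The branched transport functional in its original (Eulerian) form

`mu t` is the slice at time `t`, `v = dm/dmu`.
-/

open MeasureTheory Set Filter Topology
open scoped ENNReal

namespace Pool.Agent.R508.BT

/-- number of atoms: the least cardinality of a finite set carrying `ν` (`∞` if there is none) -/
noncomputable def natoms (ν : Measure ℝ) : ℝ≥0∞ :=
  ⨅ (A : Finset ℝ) (_ : ν (↑A : Set ℝ)ᶜ = 0), (A.card : ℝ≥0∞)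

/-- the energy of the pair `(μ, v μ)` -/
noncomputable def enE (T : ℝ) (mu : ℝ → Measure ℝ) (v : ℝ → ℝ → ℝ) : ℝ≥0∞ :=
  (∫⁻ t in Ioo 0 T, natoms (mu t)) +
    ∫⁻ t in Ioo 0 T, ∫⁻ x, ENNReal.ofReal ((v t x) ^ 2) ∂(mu t)

/-- `(μ, v μ)` is a solution of the continuity equation on `(0,T)` with finite kinetic energy, in
its weakly continuous representative, from `δ_0` to the uniform measure on `[-1/2,1/2]` -/
structure Adm (T : ℝ) (mu : ℝ → Measure ℝ) (v : ℝ → ℝ → ℝ) : Prop where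
  prob : ∀ t ∈ Icc 0 T, IsProbabilityMeasure (mu t)
  kern : ∀ B : Set ℝ, MeasurableSet B → Measurable (fun t => mu t B)
  meas : Measurable (Function.uncurry v)
  fin : (∫⁻ t in Ioo 0 T, ∫⁻ x, ENNReal.ofReal ((v t x) ^ 2) ∂(mu t)) < ∞
  cont : ∀ f : BoundedContinuousFunction ℝ ℝ, ContinuousOn (fun t => ∫ x, f x ∂(mu t)) (Icc 0 T)
  eqn : ∀ ψ : ℝ → ℝ → ℝ, ContDiff ℝ (↑(⊤ : ℕ∞)) (Function.uncurry ψ) → HasCompactSupport (Function.uncurry ψ) →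
    tsupport (Function.uncurry ψ) ⊆ Ioo 0 T ×ˢ univ →
    ∫ t in Ioo 0 T, ∫ x, (deriv (fun τ => ψ τ x) t + v t x * deriv (ψ t) x) ∂(mu t) = 0
  init : mu 0 = Measure.dirac 0
  final : mu T = volume.restrict (Icc (-(1 / 2 : ℝ)) (1 / 2))

/-- the minimal energy -/
noncomputable def EE (T : ℝ) : ℝ≥0∞ :=
  ⨅ (mu : ℝ → Measure ℝ) (v : ℝ → ℝ → ℝ) (_ : Adm T mu v), enE T mu v

/-- from labels to measures -/
def S_LAG : Prop := ∀ (T : ℝ) (V : ℝ → ℝ → ℝ), 0 < T → Path T V →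
  ∃ (mu : ℝ → Measure ℝ) (v : ℝ → ℝ → ℝ), Adm T mu v ∧ enE T mu v ≤ en T V

/-- from measures to labels (quantile functions) -/
def S_EUL : Prop := ∀ (T : ℝ) (mu : ℝ → Measure ℝ) (v : ℝ → ℝ → ℝ), 0 < T → Adm T mu v →
  ∃ V : ℝ → ℝ → ℝ, Path T V ∧ en T V ≤ enE T mu v ∧
    ∀ t ∈ Icc 0 T, lam.map (pos V t) = mu t

/-! ### pieces for `S_EUL` -/

/-- quantile function -/
noncomputable def qf (ν : Measure ℝ) (s : ℝ) : ℝ := sInf {x : ℝ | s ≤ (ν (Iic x)).toReal}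

/-- a smooth family of distribution functions -/
structure SmoothCdf (F : ℝ → ℝ → ℝ) : Prop where
  smooth : ContDiff ℝ 2 (Function.uncurry F)
  pos : ∀ t x, 0 < deriv (F t) x
  bot : ∀ t, Tendsto (F t) atBot (𝓝 0)
  top : ∀ t, Tendsto (F t) atTop (𝓝 1)

/-- the action of a smooth family of distribution functions -/
noncomputable def act (F : ℝ → ℝ → ℝ) (a b : ℝ) : ℝ≥0∞ :=
  ∫⁻ t in Ioo a b, ∫⁻ x, ENNReal.ofReal ((deriv (fun τ => F τ x) t) ^ 2 / deriv (F t) x)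

/-- smooth case of the one-dimensional Benamou-Brenier inequality -/
def S_SM : Prop := ∀ (F : ℝ → ℝ → ℝ) (a b : ℝ), SmoothCdf F → a < b →
  ∃ q : ℝ → ℝ → ℝ, (∀ t, ∀ s ∈ Ioo (0:ℝ) 1, F t (q t s) = s) ∧
    ∫⁻ s, ENNReal.ofReal ((q b s - q a s) ^ 2) ∂lam ≤ ENNReal.ofReal (b - a) * act F a b

/-- mollification -/
def S_MOL : Prop := ∀ (T : ℝ) (mu : ℝ → Measure ℝ) (v : ℝ → ℝ → ℝ), 0 < T → Adm T mu v →
  ∃ F : ℕ → ℝ → ℝ → ℝ, (∀ n, SmoothCdf (F n)) ∧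
    (∀ n, ∀ a b : ℝ, 0 ≤ a → a < b → b ≤ T → act (F n) a b ≤
      ∫⁻ t in (Ioo (a - 1 / (n + 1)) (b + 1 / (n + 1)) ∩ Ioo 0 T),
        ∫⁻ x, ENNReal.ofReal ((v t x) ^ 2) ∂(mu t)) ∧
    (∀ t ∈ Icc 0 T, ∀ x : ℝ, mu t {x} = 0 →
      Tendsto (fun n => F n t x) atTop (𝓝 ((mu t (Iic x)).toReal)))

/-- the inequality for the quantile functions -/
def S_W2 : Prop := ∀ (T : ℝ) (mu : ℝ → Measure ℝ) (v : ℝ → ℝ → ℝ), 0 < T → Adm T mu v →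
  ∀ a b : ℝ, 0 ≤ a → a < b → b ≤ T →
    ∫⁻ s, ENNReal.ofReal ((qf (mu b) s - qf (mu a) s) ^ 2) ∂lam ≤ ENNReal.ofReal (b - a) *
      ∫⁻ t in Ioo a b, ∫⁻ x, ENNReal.ofReal ((v t x) ^ 2) ∂(mu t)

/-- absolutely continuous curves in `L²` have velocities -/
def S_AC : Prop := ∀ (T : ℝ) (Q : ℝ → ℝ → ℝ) (g : ℝ → ℝ≥0∞), 0 < T →
  Measurable (Function.uncurry Q) → Measurable g → (∫⁻ t in Ioo 0 T, g t) < ∞ →
  (∀ a b : ℝ, 0 ≤ a → a < b → b ≤ T →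
    ∫⁻ s, ENNReal.ofReal ((Q b s - Q a s) ^ 2) ∂lam ≤ ENNReal.ofReal (b - a) * ∫⁻ t in Ioo a b, g t) →
  ∃ V : ℝ → ℝ → ℝ, Measurable (Function.uncurry V) ∧
    (∀ t ∈ Icc 0 T, ∀ᵐ s ∂lam, pos V t s = Q t s - Q 0 s) ∧ kin T V ≤ ∫⁻ t in Ioo 0 T, g t

/-- facts on quantile functions -/
def S_QF : Prop :=
  (∀ ν : Measure ℝ, IsProbabilityMeasure ν → Measurable (qf ν) ∧ lam.map (qf ν) = ν ∧
    AEMono (qf ν) ∧ natoms ν = cnt (qf ν)) ∧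
  (∀ (T : ℝ) (mu : ℝ → Measure ℝ), 0 < T → (∀ t ∈ Icc 0 T, IsProbabilityMeasure (mu t)) →
    (∀ B : Set ℝ, MeasurableSet B → Measurable (fun t => mu t B)) →
    ∃ Q : ℝ → ℝ → ℝ, Measurable (Function.uncurry Q) ∧
      ∀ t ∈ Icc 0 T, ∀ s ∈ Ioo (0:ℝ) 1, Q t s = qf (mu t) s) ∧
  (∀ᵐ s ∂lam, qf (Measure.dirac 0) s = 0) ∧
  (∀ᵐ s ∂lam, qf (volume.restrict (Icc (-(1 / 2 : ℝ)) (1 / 2))) s = s - 1 / 2)

end Pool.Agent.R508.BT
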