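import Pool.Agent.R508.BT.Stm

/-!
# Gluing two rescaled paths
-/

open MeasureTheory Set Filter Topology
open scoped ENNReal

namespace Pool.Agent.R508.BT

namespace GLUE

/-- affine maps are quasi measure preserving -/
theorem qmp (α β : ℝ) (hα : 0 < α) :
    Measure.QuasiMeasurePreserving (fun s : ℝ => (s - β) / α) volume volume := by
  have h1 : Measure.QuasiMeasurePreserving (fun s : ℝ => s - β) volume volume :=
    (measurePreserving_sub_right volume β).quasiMeasurePreserving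
  have h2 : Measure.QuasiMeasurePreserving (fun s : ℝ => s * α⁻¹) volume volume := by
    refine ⟨by fun_prop, ?_⟩
    rw [Real.map_volume_mul_right (inv_ne_zero hα.ne')]
    exact Measure.smul_absolutelyContinuous
  have h3 := h2.comp h1
  simpa [Function.comp_def, div_eq_mul_inv] using h3

theorem mem_unit {α β s : ℝ} (hα : 0 < α) (hs : s ∈ Ioo β (β + α)) :
    (s - β) / α ∈ Ioo (0 : ℝ) 1 := by
  constructor
  · exact div_pos (by linarith [hs.1]) hα
  · rw [div_lt_one hα]; linarith [hs.2]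

theorem qmpr (α β L : ℝ) (hα : 0 < α) :
    Measure.QuasiMeasurePreserving (fun s : ℝ => (s - β) / α)
      (volume.restrict (Ioo β (β + α * L))) (volume.restrict (Ioo 0 L)) := by
  refine (qmp α β hα).restrict ?_
  intro s hs
  constructor
  · exact div_pos (by linarith [hs.1]) hα
  · rw [div_lt_iff₀ hα]; linarith [hs.2]

/-- change of variables in the lower integral -/
theorem lint_aff (α β L : ℝ) (hα : 0 < α) (f : ℝ → ℝ≥0∞) :
    ∫⁻ s in Ioo β (β + α * L), f ((s - β) / α) = ENNReal.ofReal α * ∫⁻ σ in Ioo 0 L, f σ := by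
  have him : (fun σ : ℝ => α * σ + β) '' (Ioo 0 L) = Ioo β (β + α * L) := by
    ext s
    constructor
    · rintro ⟨σ, hσ, rfl⟩
      constructor
      · have := mul_pos hα hσ.1; simp only; linarith
      · have := mul_lt_mul_of_pos_left hσ.2 hα; simp only; linarith
    · intro hs
      refine ⟨(s - β) / α, ⟨div_pos (by linarith [hs.1]) hα, ?_⟩, ?_⟩
      · rw [div_lt_iff₀ hα]; linarith [hs.2]
      · field_simp; ring
  have h := lintegral_image_eq_lintegral_abs_deriv_mul (s := Ioo 0 L)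
    (f := fun σ : ℝ => α * σ + β) (f' := fun _ => α) measurableSet_Ioo
    (fun x _ => by
      have := ((hasDerivAt_id x).const_mul α).add_const β
      simpa using this.hasDerivWithinAt)
    (fun x _ y _ hxy => by
      have h1 : α * x + β = α * y + β := hxy
      have h2 : α * x = α * y := by linarith
      exact mul_left_cancel₀ hα.ne' h2)
    (fun s => f ((s - β) / α))
  rw [him] at h
  rw [h]
  have h3 : ∀ x : ℝ, (α * x + β - β) / α = x := by intro x; field_simp; ring
  simp only [h3, abs_of_pos hα]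
  exact lintegral_const_mul' _ _ ENNReal.ofReal_ne_top

/-- number of values of an affine image -/
theorem cnt_aff (α β : ℝ) (hα : 0 < α) (h F g : ℝ → ℝ)
    (hh : ∀ᵐ s ∂(volume.restrict (Ioo β (β + α))), h s = g (F ((s - β) / α))) :
    cntOn β (β + α) h ≤ cntOn 0 1 F := by
  classical
  unfold cntOn
  refine le_iInf fun A => le_iInf fun hA => ?_
  have h1 : ∀ᵐ s ∂(volume.restrict (Ioo β (β + α))), F ((s - β) / α) ∈ A := by
    have := qmpr α β 1 hα
    rw [mul_one] at this
    exact this.ae hA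
  refine (iInf_le _ (A.image g)).trans ((iInf_le _ ?_).trans ?_)
  · filter_upwards [hh, h1] with s hs1 hs2
    rw [hs1]
    exact Finset.mem_image_of_mem g hs2
  · exact_mod_cast Finset.card_image_le

/-- subadditivity of the number of values -/
theorem cnt_split (a : ℝ) (h : ℝ → ℝ) :
    cntOn 0 1 h ≤ cntOn 0 a h + cntOn a 1 h := by
  classical
  have key : ∀ A B : Finset ℝ, (∀ᵐ s ∂(volume.restrict (Ioo 0 a)), h s ∈ A) →
      (∀ᵐ s ∂(volume.restrict (Ioo a 1)), h s ∈ B) →
      cntOn 0 1 h ≤ (A.card : ℝ≥0∞) + (B.card : ℝ≥0∞) := by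
    intro A B hA hB
    refine (iInf_le _ (A ∪ B)).trans ((iInf_le _ ?_).trans ?_)
    · rw [ae_restrict_iff' measurableSet_Ioo] at hA hB ⊢
      have hne : ∀ᵐ s : ℝ, s ≠ a := by
        simp [ae_iff]
      filter_upwards [hA, hB, hne] with s hs1 hs2 hs3 hs
      rcases lt_or_gt_of_ne hs3 with h4 | h4
      · exact Finset.mem_union_left _ (hs1 ⟨hs.1, h4⟩)
      · exact Finset.mem_union_right _ (hs2 ⟨h4, hs.2⟩)
    · exact_mod_cast Finset.card_union_le A B
  have e1 : cntOn 0 a h + cntOn a 1 h =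
      ⨅ (B : Finset ℝ) (_ : ∀ᵐ s ∂(volume.restrict (Ioo a 1)), h s ∈ B)
        (A : Finset ℝ) (_ : ∀ᵐ s ∂(volume.restrict (Ioo 0 a)), h s ∈ A),
        ((A.card : ℝ≥0∞) + (B.card : ℝ≥0∞)) := by
    unfold cntOn
    simp only [ENNReal.iInf_add, ENNReal.add_iInf]
  rw [e1]
  exact le_iInf fun B => le_iInf fun hB => le_iInf fun A => le_iInf fun hA => key A B hA hB

/-- the rescaled piece -/
noncomputable def piece (c α β ρ : ℝ) (W : ℝ → ℝ → ℝ) (t s : ℝ) : ℝ :=
  c + (α / ρ) * W (t / ρ) ((s - β) / α)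

theorem piece_meas (c α β ρ : ℝ) {W : ℝ → ℝ → ℝ} (hW : Measurable (Function.uncurry W)) :
    Measurable (Function.uncurry (piece c α β ρ W)) := by
  have h : Measurable (fun p : ℝ × ℝ => (p.1 / ρ, (p.2 - β) / α)) := by fun_prop
  have h2 := (hW.comp h).const_mul (α / ρ) |>.const_add c
  exact h2

/-- position of the rescaled piece -/
theorem piece_pos (c α β ρ T : ℝ) (hρ : 0 < ρ) (hT : 0 < T) {W : ℝ → ℝ → ℝ} {σ : ℝ}
    (hi : IntervalIntegrable (fun t => W t σ) volume 0 (T / ρ)) (s : ℝ) (hs : (s - β) / α = σ)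
    (t : ℝ) (ht : t ∈ Icc 0 T) :
    pos (piece c α β ρ W) t s = c * t + α * pos W (t / ρ) σ := by
  unfold pos piece
  rw [hs]
  have h1 : IntervalIntegrable (fun τ => W (τ / ρ) σ) volume 0 t := by
    have h2 : IntervalIntegrable (fun t => W t σ) volume 0 (t / ρ) := by
      refine hi.mono_set ?_
      rw [uIcc_of_le (div_nonneg ht.1 hρ.le), uIcc_of_le (div_nonneg hT.le hρ.le)]
      exact Icc_subset_Icc le_rfl (div_le_div_of_nonneg_right ht.2 hρ.le)
    have h3 := h2.comp_mul_left (c := ρ⁻¹)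
    have h4 : (fun τ : ℝ => W (ρ⁻¹ * τ) σ) = fun τ => W (τ / ρ) σ := by
      funext τ; rw [div_eq_inv_mul]
    rw [h4] at h3
    have h5 : t / ρ / ρ⁻¹ = t := by field_simp
    simpa [h5] using h3
  rw [intervalIntegral.integral_add (by simp) (h1.const_mul _)]
  rw [intervalIntegral.integral_const, intervalIntegral.integral_const_mul,
    intervalIntegral.integral_comp_div (fun u => W u σ) hρ.ne']
  simp only [sub_zero, smul_eq_mul, zero_div]
  field_simp

/-- kinetic energy of an affine perturbation with zero cross term -/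
theorem kin_aff (T c k : ℝ) (hT : 0 < T) {W : ℝ → ℝ → ℝ} (hW : Path T W) :
    kin T (fun t s => c + k * W t s) = ENNReal.ofReal (c ^ 2 * T) +
      ENNReal.ofReal (k ^ 2) * kin T W := by
  have hm : Measurable (Function.uncurry W) := hW.meas
  set μ : Measure ℝ := volume.restrict (Ioo 0 T) with hμ
  have : IsFiniteMeasure μ := by
    rw [hμ]; exact ⟨by simp [Measure.restrict_apply, Real.volume_Ioo]⟩
  have : IsFiniteMeasure lam := ⟨by simp [Measure.restrict_apply, Real.volume_Ioo]⟩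
  have hk : ∀ U : ℝ → ℝ → ℝ, Measurable (Function.uncurry U) →
      kin T U = ∫⁻ p, ENNReal.ofReal ((Function.uncurry U p) ^ 2) ∂(μ.prod lam) := by
    intro U hU
    rw [lintegral_prod _ ((hU.pow_const 2).ennreal_ofReal.aemeasurable)]
    rfl
  have hfin : ∫⁻ p, ENNReal.ofReal ((Function.uncurry W p) ^ 2) ∂(μ.prod lam) < ∞ := by
    rw [← hk W hm]; exact hW.fin
  have hsq : Integrable (fun p => (Function.uncurry W p) ^ 2) (μ.prod lam) := by
    refine ⟨(hm.pow_const 2).aestronglyMeasurable, ?_⟩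
    rw [hasFiniteIntegral_iff_ofReal (Eventually.of_forall fun p => sq_nonneg _)]
    exact hfin
  have hL2 : MemLp (Function.uncurry W) 2 (μ.prod lam) :=
    (memLp_two_iff_integrable_sq hm.aestronglyMeasurable).2 hsq
  have hint : Integrable (Function.uncurry W) (μ.prod lam) :=
    hL2.integrable (by norm_num)
  have hzero : ∫ p, Function.uncurry W p ∂(μ.prod lam) = 0 := by
    rw [integral_prod_symm _ hint]
    have h1 : ∀ᵐ s ∂lam, ∫ t, Function.uncurry W (t, s) ∂μ = s - 1 / 2 := by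
      filter_upwards [hW.final] with s hs
      rw [← hs]
      unfold pos
      rw [intervalIntegral.integral_of_le hT.le, integral_Ioc_eq_integral_Ioo]
      rfl
    rw [integral_congr_ae h1]
    have h2 : ∫ s, (s - 1 / 2 : ℝ) ∂lam = ∫ s in (0 : ℝ)..1, (s - 1 / 2) := by
      rw [intervalIntegral.integral_of_le zero_le_one, integral_Ioc_eq_integral_Ioo]
    rw [h2]
    rw [intervalIntegral.integral_sub (by simp) (by simp)]
    norm_num
  have hmass : (μ.prod lam).real univ = T := by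
    rw [Measure.real, Measure.prod_apply MeasurableSet.univ]
    simp [hμ, Measure.restrict_apply, Real.volume_Ioo, hT.le]
  have hU : Measurable (Function.uncurry (fun t s => c + k * W t s)) :=
    (hm.const_mul k).const_add c
  rw [hk _ hU, hk W hm]
  have hexp : ∀ p : ℝ × ℝ, (Function.uncurry (fun t s => c + k * W t s) p) ^ 2 =
      (c ^ 2 + 2 * c * k * Function.uncurry W p) + k ^ 2 * (Function.uncurry W p) ^ 2 := by
    intro p
    simp only [Function.uncurry]
    ring
  have hi1 : Integrable (fun p : ℝ × ℝ => c ^ 2 + 2 * c * k * Function.uncurry W p)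
      (μ.prod lam) := (integrable_const _).add (hint.const_mul _)
  have hi2 : Integrable (fun p : ℝ × ℝ => (c ^ 2 + 2 * c * k * Function.uncurry W p) +
      k ^ 2 * (Function.uncurry W p) ^ 2) (μ.prod lam) := hi1.add (hsq.const_mul _)
  rw [← ofReal_integral_eq_lintegral_ofReal (by simpa only [hexp] using hi2)
    (Eventually.of_forall fun p => sq_nonneg _)]
  rw [← ofReal_integral_eq_lintegral_ofReal hsq (Eventually.of_forall fun p => sq_nonneg _)]
  simp only [hexp]
  rw [integral_add hi1 (hsq.const_mul _), integral_add (integrable_const _) (hint.const_mul _),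
    integral_const_mul, integral_const_mul, hzero, integral_const, hmass]
  rw [← ENNReal.ofReal_mul (sq_nonneg k), ← ENNReal.ofReal_add (by positivity)
    (mul_nonneg (sq_nonneg k) (integral_nonneg fun p => sq_nonneg _))]
  congr 1
  simp only [smul_eq_mul]
  ring

/-- kinetic energy of the rescaled piece -/
theorem piece_kin (c α β ρ T : ℝ) (hα : 0 < α) (hρ : 0 < ρ) (hT : 0 < T) {W : ℝ → ℝ → ℝ}
    (hW : Path (T / ρ) W) :
    ∫⁻ t in Ioo 0 T, ∫⁻ s in Ioo β (β + α), ENNReal.ofReal ((piece c α β ρ W t s) ^ 2) =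
      ENNReal.ofReal (α * c ^ 2 * T) + ENNReal.ofReal (α ^ 3 / ρ) * kin (T / ρ) W := by
  have h1 : ∀ t : ℝ, ∫⁻ s in Ioo β (β + α), ENNReal.ofReal ((piece c α β ρ W t s) ^ 2) =
      ENNReal.ofReal α * ∫⁻ σ in Ioo 0 1, ENNReal.ofReal ((c + (α / ρ) * W (t / ρ) σ) ^ 2) := by
    intro t
    have := lint_aff α β 1 hα (fun σ => ENNReal.ofReal ((c + (α / ρ) * W (t / ρ) σ) ^ 2))
    rw [mul_one] at this
    exact this
  simp only [h1]
  rw [lintegral_const_mul' _ _ ENNReal.ofReal_ne_top]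
  have h2 := lint_aff ρ 0 (T / ρ) hρ
    (fun u => ∫⁻ σ in Ioo 0 1, ENNReal.ofReal ((c + (α / ρ) * W u σ) ^ 2))
  have h3 : 0 + ρ * (T / ρ) = T := by field_simp; ring
  rw [h3] at h2
  simp only [sub_zero] at h2
  rw [h2]
  have h4 := kin_aff (T / ρ) c (α / ρ) (div_pos hT hρ) hW
  unfold kin at h4
  rw [h4]
  rw [mul_add, mul_add, ← mul_assoc, ← mul_assoc, ← mul_assoc,
    ← ENNReal.ofReal_mul hα.le, ← ENNReal.ofReal_mul (by positivity),
    ← ENNReal.ofReal_mul (by positivity)]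
  congr 1
  · congr 1
    field_simp
  · unfold kin
    congr 2
    field_simp

theorem pos_ae (hR : S_REG) (c α β ρ T : ℝ) (hα : 0 < α) (hρ : 0 < ρ) (hT : 0 < T)
    {W : ℝ → ℝ → ℝ} (hW : Path (T / ρ) W) :
    ∀ᵐ s : ℝ, s ∈ Ioo β (β + α) → ∀ t ∈ Icc 0 T,
      pos (piece c α β ρ W) t s = c * t + α * pos W (t / ρ) ((s - β) / α) := by
  have h1 := (hR (T / ρ) W (div_pos hT hρ) hW.meas hW.fin).1
  have h2 := (qmpr α β 1 hα).ae h1
  rw [mul_one, ae_restrict_iff' measurableSet_Ioo] at h2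
  filter_upwards [h2] with s hs hs' t ht
  exact piece_pos c α β ρ T hρ hT (hs hs') s rfl t ht

theorem cone_ae (α β : ℝ) (hα : 0 < α) {P : ℝ → Prop} (h : ∀ᵐ σ ∂lam, P σ) :
    ∀ᵐ s : ℝ, s ∈ Ioo β (β + α) → P ((s - β) / α) := by
  have h2 := (qmpr α β 1 hα).ae h
  rw [mul_one, ae_restrict_iff' measurableSet_Ioo] at h2
  exact h2

theorem prod_ae (α β : ℝ) (hα : 0 < α) {P : ℝ × ℝ → Prop} (h : ∀ᵐ p ∂(lam.prod lam), P p) :
    ∀ᵐ p ∂((volume : Measure ℝ).prod (volume : Measure ℝ)),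
      p.1 ∈ Ioo β (β + α) → p.2 ∈ Ioo β (β + α) → P ((p.1 - β) / α, (p.2 - β) / α) := by
  have h2 := (MeasureTheory.QuasiMeasurePreserving.prodMap (qmpr α β 1 hα) (qmpr α β 1 hα)).ae h
  rw [mul_one, Measure.prod_restrict,
    ae_restrict_iff' (measurableSet_Ioo.prod measurableSet_Ioo)] at h2
  filter_upwards [h2] with p hp hp1 hp2
  exact hp ⟨hp1, hp2⟩

/-- gluing two paths in the cone -/
theorem core (hR : S_REG) (hM : S_MEAS) (T a r q : ℝ) (hT : 0 < T) (h0 : 0 < a) (h1 : a < 1)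
    (hr : 0 < r) (hr2 : r ^ 2 = a ^ 3) (hq : 0 < q) (hq2 : q ^ 2 = (1 - a) ^ 3)
    (V1 V2 : ℝ → ℝ → ℝ) (hV1 : Path (T / r) V1) (hV2 : Path (T / q) V2)
    (hc1 : ∀ t ∈ Icc 0 (T / r), ∀ᵐ s ∂lam, |pos V1 t s| ≤ t / (2 * (T / r)))
    (hc2 : ∀ t ∈ Icc 0 (T / q), ∀ᵐ s ∂lam, |pos V2 t s| ≤ t / (2 * (T / q))) :
    E T ≤ ENNReal.ofReal r * en (T / r) V1 + ENNReal.ofReal q * en (T / q) V2 +
      ENNReal.ofReal (a * (1 - a) / (4 * T)) := by
  have hb : 0 < 1 - a := by linarith
  set c1 : ℝ := -(1 - a) / (2 * T) with hc1d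
  set c2 : ℝ := a / (2 * T) with hc2d
  set P1 := piece c1 a 0 r V1 with hP1
  set P2 := piece c2 (1 - a) a q V2 with hP2
  set V : ℝ → ℝ → ℝ := fun t s => if s < a then P1 t s else P2 t s with hV
  have e1 : (0 : ℝ) + a = a := zero_add a
  have e2 : a + (1 - a) = 1 := by ring
  have hm1 : Measurable (Function.uncurry P1) := piece_meas _ _ _ _ hV1.meas
  have hm2 : Measurable (Function.uncurry P2) := piece_meas _ _ _ _ hV2.meas
  have hVm : Measurable (Function.uncurry V) := by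
    have : Function.uncurry V = fun p : ℝ × ℝ =>
        if p.2 < a then Function.uncurry P1 p else Function.uncurry P2 p := by
      funext p; rfl
    rw [this]
    exact Measurable.ite (measurableSet_lt measurable_snd measurable_const) hm1 hm2
  have hpl : ∀ t s : ℝ, s < a → pos V t s = pos P1 t s := by
    intro t s hs
    unfold pos
    simp only [hV, if_pos hs]
  have hpr : ∀ t s : ℝ, a < s → pos V t s = pos P2 t s := by
    intro t s hs
    unfold pos
    simp only [hV, if_neg (not_lt.2 hs.le)]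
  have A1 : ∀ᵐ s : ℝ, s ∈ Ioo 0 a → ∀ t ∈ Icc 0 T,
      pos V t s = c1 * t + a * pos V1 (t / r) ((s - 0) / a) := by
    have := pos_ae hR c1 a 0 r T h0 hr hT hV1
    rw [e1] at this
    filter_upwards [this] with s hs hs' t ht
    rw [hpl t s hs'.2]
    exact hs hs' t ht
  have A2 : ∀ᵐ s : ℝ, s ∈ Ioo a 1 → ∀ t ∈ Icc 0 T,
      pos V t s = c2 * t + (1 - a) * pos V2 (t / q) ((s - a) / (1 - a)) := by
    have := pos_ae hR c2 (1 - a) a q T hb hq hT hV2
    rw [e2] at this
    filter_upwards [this] with s hs hs' t ht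
    rw [hpr t s hs'.1]
    exact hs hs' t ht
  have hne : ∀ᵐ s : ℝ, s ≠ a := by simp [ae_iff]
  have htr : ∀ t ∈ Icc 0 T, t / r ∈ Icc 0 (T / r) := fun t ht =>
    ⟨div_nonneg ht.1 hr.le, div_le_div_of_nonneg_right ht.2 hr.le⟩
  have htq : ∀ t ∈ Icc 0 T, t / q ∈ Icc 0 (T / q) := fun t ht =>
    ⟨div_nonneg ht.1 hq.le, div_le_div_of_nonneg_right ht.2 hq.le⟩
  -- monotonicity
  have hmono : ∀ t ∈ Icc 0 T, AEMono (pos V t) := by
    intro t ht
    have B1 := prod_ae a 0 h0 (hV1.mono (t / r) (htr t ht))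
    have B2 := prod_ae (1 - a) a hb (hV2.mono (t / q) (htq t ht))
    have C1 := cone_ae a 0 h0 (hc1 (t / r) (htr t ht))
    have C2 := cone_ae (1 - a) a hb (hc2 (t / q) (htq t ht))
    rw [e1] at B1 C1
    rw [e2] at B2 C2
    have D1 : t / r / (2 * (T / r)) = t / (2 * T) := by field_simp
    have D2 : t / q / (2 * (T / q)) = t / (2 * T) := by field_simp
    rw [D1] at C1
    rw [D2] at C2
    have F : ∀ᵐ s : ℝ, s ∈ Ioo (0 : ℝ) 1 → s ≠ a ∧
        (s < a → pos V t s = c1 * t + a * pos V1 (t / r) ((s - 0) / a) ∧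
          |pos V1 (t / r) ((s - 0) / a)| ≤ t / (2 * T)) ∧
        (a < s → pos V t s = c2 * t + (1 - a) * pos V2 (t / q) ((s - a) / (1 - a)) ∧
          |pos V2 (t / q) ((s - a) / (1 - a))| ≤ t / (2 * T)) := by
      filter_upwards [A1, A2, C1, C2, hne] with s a1 a2 b1 b2 b3 hs
      exact ⟨b3, fun h => ⟨a1 ⟨hs.1, h⟩ t ht, b1 ⟨hs.1, h⟩⟩,
        fun h => ⟨a2 ⟨h, hs.2⟩ t ht, b2 ⟨h, hs.2⟩⟩⟩
    have F1 := (Measure.quasiMeasurePreserving_fst (μ := (volume : Measure ℝ))
      (ν := (volume : Measure ℝ))).ae F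
    have F2 := (Measure.quasiMeasurePreserving_snd (μ := (volume : Measure ℝ))
      (ν := (volume : Measure ℝ))).ae F
    unfold AEMono
    rw [Measure.prod_restrict, ae_restrict_iff' (measurableSet_Ioo.prod measurableSet_Ioo)]
    filter_upwards [B1, B2, F1, F2] with p b1 b2 f1 f2 hp hle
    obtain ⟨n1, l1, u1⟩ := f1 hp.1
    obtain ⟨n2, l2, u2⟩ := f2 hp.2
    have hp1 := hp.1
    have hp2 := hp.2
    rcases lt_or_gt_of_ne n1 with g1 | g1
    · rcases lt_or_gt_of_ne n2 with g2 | g2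
      · rw [(l1 g1).1, (l2 g2).1]
        have h3 := b1 ⟨hp1.1, g1⟩ ⟨hp2.1, g2⟩
          (div_le_div_of_nonneg_right (by linarith) h0.le)
        have h4 := mul_le_mul_of_nonneg_left h3 h0.le
        linarith
      · rw [(l1 g1).1, (u2 g2).1]
        have h3 := (abs_le.1 (l1 g1).2).2
        have h4 := (abs_le.1 (u2 g2).2).1
        have h5 := mul_le_mul_of_nonneg_left h3 h0.le
        have h6 := mul_le_mul_of_nonneg_left h4 hb.le
        have h7 : c1 * t + a * (t / (2 * T)) = c2 * t + (1 - a) * (-(t / (2 * T))) := by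
          rw [hc1d, hc2d]
          field_simp
          ring
        linarith
    · have g2 : a < p.2 := lt_of_lt_of_le g1 hle
      rw [(u1 g1).1, (u2 g2).1]
      have h3 := b2 ⟨g1, hp1.2⟩ ⟨g2, hp2.2⟩
        (div_le_div_of_nonneg_right (by linarith) hb.le)
      have h4 := mul_le_mul_of_nonneg_left h3 hb.le
      linarith
  -- final position
  have hTT : T ∈ Icc 0 T := ⟨hT.le, le_rfl⟩
  have hfinal : ∀ᵐ s ∂lam, pos V T s = s - 1 / 2 := by
    rw [ae_restrict_iff' measurableSet_Ioo]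
    have C1 := cone_ae a 0 h0 hV1.final
    have C2 := cone_ae (1 - a) a hb hV2.final
    rw [e1] at C1
    rw [e2] at C2
    filter_upwards [A1, A2, C1, C2, hne] with s a1 a2 b1 b2 b3 hs
    rcases lt_or_gt_of_ne b3 with g | g
    · rw [a1 ⟨hs.1, g⟩ T hTT, b1 ⟨hs.1, g⟩, hc1d]
      field_simp
      ring
    · rw [a2 ⟨g, hs.2⟩ T hTT, b2 ⟨g, hs.2⟩, hc2d]
      field_simp
      ring
  -- kinetic energy
  have hkin : kin T V ≤ (ENNReal.ofReal r * kin (T / r) V1 + ENNReal.ofReal q * kin (T / q) V2) +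
      ENNReal.ofReal (a * (1 - a) / (4 * T)) := by
    have k1 := piece_kin c1 a 0 r T h0 hr hT hV1
    have k2 := piece_kin c2 (1 - a) a q T hb hq hT hV2
    rw [e1] at k1
    rw [e2] at k2
    have hs : ∀ t : ℝ, ∫⁻ s, ENNReal.ofReal ((V t s) ^ 2) ∂lam ≤
        (∫⁻ s in Ioo 0 a, ENNReal.ofReal ((P1 t s) ^ 2)) +
          ∫⁻ s in Ioo a 1, ENNReal.ofReal ((P2 t s) ^ 2) := by
      intro t
      have g1 : ∫⁻ s, ENNReal.ofReal ((V t s) ^ 2) ∂lam ≤
          ∫⁻ s in Ioo 0 a ∪ Ioo a 1, ENNReal.ofReal ((V t s) ^ 2) := by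
        have : lam ≤ volume.restrict (Ioo 0 a ∪ Ioo a 1) := by
          refine Measure.restrict_mono_ae ?_
          filter_upwards [hne] with s hs hs'
          rcases lt_or_gt_of_ne hs with g | g
          · exact Or.inl ⟨hs'.1, g⟩
          · exact Or.inr ⟨g, hs'.2⟩
        exact lintegral_mono' this le_rfl
      refine g1.trans ((lintegral_union_le _ _ _).trans ?_)
      refine add_le_add (le_of_eq ?_) (le_of_eq ?_)
      · refine setLIntegral_congr_fun measurableSet_Ioo fun s hs => ?_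
        simp only [hV, if_pos hs.2]
      · refine setLIntegral_congr_fun measurableSet_Ioo fun s hs => ?_
        simp only [hV, if_neg (not_lt.2 hs.1.le)]
    have hmeas : Measurable fun t => ∫⁻ s in Ioo 0 a, ENNReal.ofReal ((P1 t s) ^ 2) :=
      Measurable.lintegral_prod_right' (f := fun p : ℝ × ℝ =>
        ENNReal.ofReal ((Function.uncurry P1 p) ^ 2)) (hm1.pow_const 2).ennreal_ofReal
    have g2 : kin T V ≤ (∫⁻ t in Ioo 0 T, ∫⁻ s in Ioo 0 a, ENNReal.ofReal ((P1 t s) ^ 2)) +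
        ∫⁻ t in Ioo 0 T, ∫⁻ s in Ioo a 1, ENNReal.ofReal ((P2 t s) ^ 2) := by
      unfold kin
      rw [← lintegral_add_left hmeas]
      exact lintegral_mono hs
    refine g2.trans (le_of_eq ?_)
    rw [k1, k2]
    have f1 : a ^ 3 / r = r := by rw [← hr2]; field_simp
    have f2 : (1 - a) ^ 3 / q = q := by rw [← hq2]; field_simp
    rw [f1, f2]
    have f3 : ENNReal.ofReal (a * (1 - a) / (4 * T)) =
        ENNReal.ofReal (a * c1 ^ 2 * T) + ENNReal.ofReal ((1 - a) * c2 ^ 2 * T) := by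
      rw [← ENNReal.ofReal_add (by positivity) (by positivity)]
      congr 1
      rw [hc1d, hc2d]
      field_simp
      ring
    rw [f3]
    ring
  have hkfin : kin T V < ∞ := by
    refine lt_of_le_of_lt hkin ?_
    have := hV1.fin
    have := hV2.fin
    refine ENNReal.add_lt_top.2 ⟨ENNReal.add_lt_top.2 ⟨?_, ?_⟩, ENNReal.ofReal_lt_top⟩
    · exact ENNReal.mul_lt_top ENNReal.ofReal_lt_top hV1.fin
    · exact ENNReal.mul_lt_top ENNReal.ofReal_lt_top hV2.fin
  have hPath : Path T V := ⟨hVm, hkfin, hmono, hfinal⟩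
  -- number of atoms
  have hcnt : ∀ t ∈ Ioo 0 T, cnt (pos V t) ≤ cnt (pos V1 (t / r)) + cnt (pos V2 (t / q)) := by
    intro t ht
    have ht' : t ∈ Icc 0 T := ⟨ht.1.le, ht.2.le⟩
    refine (cnt_split a _).trans (add_le_add ?_ ?_)
    · have := cnt_aff a 0 h0 (pos V t) (pos V1 (t / r)) (fun x => c1 * t + a * x) (by
        rw [e1, ae_restrict_iff' measurableSet_Ioo]
        filter_upwards [A1] with s hs hs'
        exact hs hs' t ht')
      rw [e1] at this
      exact this
    · have := cnt_aff (1 - a) a hb (pos V t) (pos V2 (t / q)) (fun x => c2 * t + (1 - a) * x) (by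
        rw [e2, ae_restrict_iff' measurableSet_Ioo]
        filter_upwards [A2] with s hs hs'
        exact hs hs' t ht')
      rw [e2] at this
      exact this
  have e3 : 0 + r * (T / r) = T := by field_simp; ring
  have e4 : 0 + q * (T / q) = T := by field_simp; ring
  have hcm : AEMeasurable (fun t => cnt (pos V1 (t / r))) (volume.restrict (Ioo 0 T)) := by
    have h2 := hM (T / r) V1 (div_pos hT hr) hV1.meas hV1.fin 0 1 le_rfl zero_lt_one le_rfl
    have h3 := qmpr r 0 (T / r) hr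
    rw [e3] at h3
    have h4 := h2.comp_quasiMeasurePreserving h3
    simpa [Function.comp_def] using h4
  have hI : ∫⁻ t in Ioo 0 T, cnt (pos V t) ≤
      ENNReal.ofReal r * (∫⁻ t in Ioo 0 (T / r), cnt (pos V1 t)) +
        ENNReal.ofReal q * (∫⁻ t in Ioo 0 (T / q), cnt (pos V2 t)) := by
    have g1 : ∫⁻ t in Ioo 0 T, cnt (pos V t) ≤
        ∫⁻ t in Ioo 0 T, (cnt (pos V1 (t / r)) + cnt (pos V2 (t / q))) :=
      setLIntegral_mono' measurableSet_Ioo hcnt
    refine g1.trans (le_of_eq ?_)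
    rw [lintegral_add_left' hcm]
    have h2 := lint_aff r 0 (T / r) hr (fun u => cnt (pos V1 u))
    have h3 := lint_aff q 0 (T / q) hq (fun u => cnt (pos V2 u))
    rw [e3] at h2
    rw [e4] at h3
    simp only [sub_zero] at h2 h3
    rw [h2, h3]
  have hE : E T ≤ en T V := iInf_le_of_le V (iInf_le _ hPath)
  refine hE.trans ?_
  unfold en
  refine (add_le_add hI hkin).trans (le_of_eq ?_)
  ring

end GLUE

/-- gluing -/
theorem t_GLUE (hR : S_REG) (hM : S_MEAS) (hC : S_CLIP) : S_GLUE := by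
  intro T a hT h0 h1
  have hb : 0 < 1 - a := by linarith
  have hr : 0 < r32 a := Real.rpow_pos_of_pos h0 _
  have hq : 0 < r32 (1 - a) := Real.rpow_pos_of_pos hb _
  have hsq : ∀ x : ℝ, 0 < x → (r32 x) ^ 2 = x ^ 3 := by
    intro x hx
    unfold r32
    rw [← Real.rpow_natCast, ← Real.rpow_mul hx.le, ← Real.rpow_natCast]
    norm_num
  have key : ∀ V1 V2 : ℝ → ℝ → ℝ, Path (T / r32 a) V1 → Path (T / r32 (1 - a)) V2 →
      E T ≤ ENNReal.ofReal (r32 a) * en (T / r32 a) V1 +
        ENNReal.ofReal (r32 (1 - a)) * en (T / r32 (1 - a)) V2 +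
        ENNReal.ofReal (a * (1 - a) / (4 * T)) := by
    intro V1 V2 h2 h3
    obtain ⟨W1, p1, n1, k1⟩ := hC _ V1 (div_pos hT hr) h2
    obtain ⟨W2, p2, n2, k2⟩ := hC _ V2 (div_pos hT hq) h3
    refine (GLUE.core hR hM T a _ _ hT h0 h1 hr (hsq a h0) hq (hsq _ hb) W1 W2 p1 p2 k1 k2).trans ?_
    gcongr
  unfold E at key ⊢
  rw [ENNReal.mul_iInf_of_ne (by simpa using hr) ENNReal.ofReal_ne_top,
    ENNReal.mul_iInf_of_ne (by simpa using hq) ENNReal.ofReal_ne_top]
  rw [ENNReal.iInf_add, ENNReal.iInf_add]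
  refine le_iInf fun V1 => ?_
  rw [ENNReal.add_iInf, ENNReal.iInf_add]
  refine le_iInf fun V2 => ?_
  rw [ENNReal.mul_iInf_of_ne (by simpa using hr) ENNReal.ofReal_ne_top,
    ENNReal.mul_iInf_of_ne (by simpa using hq) ENNReal.ofReal_ne_top]
  rw [ENNReal.iInf_add, ENNReal.iInf_add]
  refine le_iInf fun h2 => ?_
  rw [ENNReal.add_iInf, ENNReal.iInf_add]
  refine le_iInf fun h3 => ?_
  exact key V1 V2 h2 h3

end Pool.Agent.R508.BT
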