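import Pool.Agent.R508.BT.Stm

/-! Piece INF (helper160): the bound `T + c ≤ e T`, from NUM, LEFT, BAL. -/

namespace Pool.Agent.R508.BT

theorem INF.rho_lt {y : ℝ} (h0 : 0 < y) (h1 : y ≤ 1 / 2) : (1 - y) * Real.sqrt (1 + 2 * y) < 1 := by
  have hs : 0 ≤ Real.sqrt (1 + 2 * y) := Real.sqrt_nonneg _
  have hs2 : Real.sqrt (1 + 2 * y) ^ 2 = 1 + 2 * y := Real.sq_sqrt (by linarith)
  have h2 : ((1 - y) * Real.sqrt (1 + 2 * y)) ^ 2 < 1 := by
    rw [mul_pow, hs2]
    nlinarith [pow_pos h0 2, pow_pos h0 3, mul_pos (pow_pos h0 2) (show (0:ℝ) < 3 - 2 * y by linarith)]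
  have h3 : 0 ≤ (1 - y) * Real.sqrt (1 + 2 * y) := mul_nonneg (by linarith) hs
  nlinarith

theorem t_INF (hN : S_NUM) (hL : S_LEFT) (hB : S_BAL) : S_INF := by
  intro e he T hT
  have hcc : 0 < cc := by
    unfold cc
    have := Real.sqrt_nonneg 2
    linarith
  have hTs : 0 < cc + 1 := by linarith
  obtain ⟨T1, hT1, hT1s, hT1e, hnf, hflat, hstr⟩ :=
    hL e he (cc + 1) hTs (he.large _ (by linarith))
  -- `e - id` is bounded below by its value at `T1`
  have hmin : ∀ t : ℝ, 0 < t → e T1 - T1 ≤ e t - t := by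
    intro t ht
    rcases le_or_gt t (cc + 1) with h | h
    · have := he.wait t (cc + 1) ht h
      linarith
    · obtain ⟨T2, hT2, hT2t, hT2e, hnf2, hflat2, -⟩ := hL e he t ht (he.large _ (by linarith))
      have h2 : T2 ≤ cc := by
        by_contra hc
        exact hnf2 (he.large _ (not_le.mp hc))
      have h3 := hflat2 (cc + 1) (by linarith) h.le
      linarith
  obtain ⟨a, ha0, ha1, hle, hf1, hf2⟩ := he.str T1 (cc + 1) hT1 hT1s hT1e hnf
  obtain ⟨hb1, hb2⟩ := hB e he T1 (cc + 1) a hT1 hT1s ha0 ha1 hflat hstr hle hf1 hf2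
  have hy : Real.sqrt (a * (1 - a)) = 2 * T1 := by
    rw [← hb1, show 4 * T1 ^ 2 = (2 * T1) ^ 2 by ring]
    exact Real.sqrt_sq (by linarith)
  have hr := hN.1 a ha0 ha1
  rw [hy] at hr
  have hy2 : 2 * T1 ≤ 1 / 2 := by nlinarith [sq_nonneg (2 * a - 1)]
  have h2 := hN.2.1 (2 * T1) (by linarith) hy2
  have h3 := INF.rho_lt (show 0 < 2 * T1 by linarith) hy2
  have hra : 0 < r32 a := Real.rpow_pos_of_pos ha0 _
  have hrb : 0 < r32 (1 - a) := Real.rpow_pos_of_pos (by linarith) _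
  have h4 := hmin (T1 / r32 a) (div_pos hT1 hra)
  have h5 := hmin (T1 / r32 (1 - a)) (div_pos hT1 hrb)
  have h6 := mul_le_mul_of_nonneg_left h4 hra.le
  have h7 := mul_le_mul_of_nonneg_left h5 hrb.le
  have h8 : (e T1 - T1) * (r32 a + r32 (1 - a)) + 2 * T1 ≤ e T1 - T1 := by linarith
  rw [hr] at h8
  have h9 : cc ≤ e T1 - T1 := by
    have : 0 < 1 - (1 - 2 * T1) * Real.sqrt (1 + 2 * (2 * T1)) := by linarith
    by_contra hc
    have := mul_lt_mul_of_pos_right (not_le.mp hc) this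
    linarith
  linarith [hmin T hT]

end Pool.Agent.R508.BT
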