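import Pool.Agent.R508.BT.Eul
import Pool.Agent.R508.BT.Stm

/-!
Piece BT-LAG (helper250): from label paths to measures.
-/

open MeasureTheory Set Filter Topology ProbabilityTheory
open scoped ENNReal NNReal

namespace Pool.Agent.R508.BT

namespace LagAux

lemma jensen (κ : Measure ℝ) [IsProbabilityMeasure κ] :
    ENNReal.ofReal ((∫ y, y ∂κ) ^ 2) ≤ ∫⁻ y, ENNReal.ofReal (y ^ 2) ∂κ := by
  have h1 : eLpNorm (fun y : ℝ => y) 1 κ ≤ eLpNorm (fun y : ℝ => y) 2 κ :=
    eLpNorm_le_eLpNorm_of_exponent_le (by norm_num) (by fun_prop)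
  rw [eLpNorm_one_eq_lintegral_enorm,
    eLpNorm_eq_lintegral_rpow_enorm_toReal (by norm_num) (by norm_num)] at h1
  have h2 : ‖∫ y, y ∂κ‖ₑ ≤ ∫⁻ y, ‖y‖ₑ ∂κ := enorm_integral_le_lintegral_enorm _
  have h3 := h2.trans h1
  have h4 : ∀ y : ℝ, ENNReal.ofReal (y ^ 2) = ‖y‖ₑ ^ (2 : ℝ) := by
    intro y
    rw [Real.enorm_eq_ofReal_abs, ENNReal.ofReal_rpow_of_nonneg (abs_nonneg _) (by norm_num)]
    simp
  rw [h4]
  calc ‖∫ y, y ∂κ‖ₑ ^ (2 : ℝ)
      ≤ ((∫⁻ y, ‖y‖ₑ ^ (2 : ℝ≥0∞).toReal ∂κ) ^ (1 / (2 : ℝ≥0∞).toReal)) ^ (2 : ℝ) :=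
        ENNReal.rpow_le_rpow h3 (by norm_num)
    _ = ∫⁻ y, ‖y‖ₑ ^ (2 : ℝ) ∂κ := by
        rw [← ENNReal.rpow_mul]
        simp
    _ = ∫⁻ y, ENNReal.ofReal (y ^ 2) ∂κ := by
        refine lintegral_congr fun y => ?_
        rw [h4]

/-- conditional expectation of `Y` given `Φ = z` -/
noncomputable def cv (P : Measure (ℝ × ℝ)) [IsFiniteMeasure P] (Φ : ℝ × ℝ → ℝ × ℝ)
    (Y : ℝ × ℝ → ℝ) (z : ℝ × ℝ) : ℝ :=
  ∫ y, y ∂(condDistrib Y Φ P z)

variable {P : Measure (ℝ × ℝ)} [IsFiniteMeasure P] {Φ : ℝ × ℝ → ℝ × ℝ} {Y : ℝ × ℝ → ℝ}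

lemma cv_meas : Measurable (cv P Φ Y) := by
  unfold cv
  exact (StronglyMeasurable.integral_condDistrib (Y := Y) (X := Φ) (μ := P)
    (f := fun w : (ℝ × ℝ) × ℝ => w.2) (measurable_snd.stronglyMeasurable)).measurable

lemma cv_sq (hΦ : Measurable Φ) (hY : Measurable Y) :
    ∫⁻ p, ENNReal.ofReal ((cv P Φ Y (Φ p)) ^ 2) ∂P ≤ ∫⁻ p, ENNReal.ofReal ((Y p) ^ 2) ∂P := by
  have hcv : Measurable (fun z => ENNReal.ofReal ((cv P Φ Y z) ^ 2)) :=
    ENNReal.measurable_ofReal.comp (cv_meas.pow_const 2)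
  have hsq : Measurable (fun w : (ℝ × ℝ) × ℝ => ENNReal.ofReal (w.2 ^ 2)) :=
    ENNReal.measurable_ofReal.comp (measurable_snd.pow_const 2)
  calc ∫⁻ p, ENNReal.ofReal ((cv P Φ Y (Φ p)) ^ 2) ∂P
      = ∫⁻ z, ENNReal.ofReal ((cv P Φ Y z) ^ 2) ∂(P.map Φ) := (lintegral_map hcv hΦ).symm
    _ ≤ ∫⁻ z, ∫⁻ y, ENNReal.ofReal (y ^ 2) ∂(condDistrib Y Φ P z) ∂(P.map Φ) :=
        lintegral_mono fun z => jensen _
    _ = ∫⁻ w, ENNReal.ofReal (w.2 ^ 2) ∂((P.map Φ) ⊗ₘ condDistrib Y Φ P) := by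
        rw [Measure.lintegral_compProd hsq]
    _ = ∫⁻ w, ENNReal.ofReal (w.2 ^ 2) ∂(P.map fun a => (Φ a, Y a)) := by
        rw [compProd_map_condDistrib hY.aemeasurable]
    _ = ∫⁻ p, ENNReal.ofReal ((Y p) ^ 2) ∂P := by
        rw [lintegral_map hsq (hΦ.prodMk hY)]

lemma cv_cross (hΦ : Measurable Φ) (hY : Measurable Y) (hYi : Integrable Y P) (g : ℝ × ℝ → ℝ)
    (hg : Measurable g) (C : ℝ) (hC : ∀ z, |g z| ≤ C) :
    ∫ p, cv P Φ Y (Φ p) * g (Φ p) ∂P = ∫ p, Y p * g (Φ p) ∂P := by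
  have hm : Measurable (fun w : (ℝ × ℝ) × ℝ => w.2 * g w.1) :=
    measurable_snd.mul (hg.comp measurable_fst)
  have hint : Integrable (fun w : (ℝ × ℝ) × ℝ => w.2 * g w.1) (P.map fun a => (Φ a, Y a)) := by
    rw [integrable_map_measure hm.aestronglyMeasurable (hΦ.prodMk hY).aemeasurable]
    show Integrable (fun a => Y a * g (Φ a)) P
    exact hYi.mul_bdd (c := C) (hg.comp hΦ).aestronglyMeasurable
      (ae_of_all _ fun a => by simpa using hC (Φ a))
  calc ∫ p, cv P Φ Y (Φ p) * g (Φ p) ∂P = ∫ z, cv P Φ Y z * g z ∂(P.map Φ) :=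
        (integral_map hΦ.aemeasurable (cv_meas.mul hg).aestronglyMeasurable).symm
    _ = ∫ z, ∫ y, y * g z ∂(condDistrib Y Φ P z) ∂(P.map Φ) := by
        refine integral_congr_ae (ae_of_all _ fun z => ?_)
        simp only [cv]
        rw [integral_mul_const]
    _ = ∫ w, w.2 * g w.1 ∂((P.map Φ) ⊗ₘ condDistrib Y Φ P) := by
        rw [Measure.integral_compProd]
        rw [compProd_map_condDistrib hY.aemeasurable]
        exact hint
    _ = ∫ w, w.2 * g w.1 ∂(P.map fun a => (Φ a, Y a)) := by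
        rw [compProd_map_condDistrib hY.aemeasurable]
    _ = ∫ p, Y p * g (Φ p) ∂P :=
        integral_map (hΦ.prodMk hY).aemeasurable hm.aestronglyMeasurable

lemma ac_comp {ψ : ℝ → ℝ → ℝ} {C : ℝ≥0} (hψ : LipschitzWith C (Function.uncurry ψ)) {γ : ℝ → ℝ}
    {a b : ℝ} (hγ : AbsolutelyContinuousOnInterval γ a b) :
    AbsolutelyContinuousOnInterval (fun t => ψ t (γ t)) a b := by
  have hid : AbsolutelyContinuousOnInterval (fun t : ℝ => t) a b :=
    (LipschitzWith.id.lipschitzOnWith (s := uIcc a b)).absolutelyContinuousOnInterval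
  unfold AbsolutelyContinuousOnInterval at *
  have hsum := (hid.add hγ).const_mul (C : ℝ)
  simp only [add_zero, mul_zero] at hsum
  refine squeeze_zero (fun E => Finset.sum_nonneg fun _ _ => dist_nonneg) (fun E => ?_) hsum
  rw [← Finset.sum_add_distrib, Finset.mul_sum]
  refine Finset.sum_le_sum fun i _ => ?_
  have := hψ.dist_le_mul ((E.2 i).1, γ (E.2 i).1) ((E.2 i).2, γ (E.2 i).2)
  simp only [Function.uncurry] at this
  refine this.trans (mul_le_mul_of_nonneg_left ?_ C.2)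
  rw [Prod.dist_eq]
  exact max_le_add_of_nonneg dist_nonneg dist_nonneg

lemma d1 {ψ : ℝ → ℝ → ℝ} (hψ : ContDiff ℝ (↑(⊤ : ℕ∞)) (Function.uncurry ψ)) (t x : ℝ) :
    HasDerivAt (fun τ => ψ τ x) (fderiv ℝ (Function.uncurry ψ) (t, x) (1, 0)) t := by
  have hF := ((hψ.differentiable (by simp)) (t, x)).hasFDerivAt
  exact hF.comp_hasDerivAt t ((hasDerivAt_id t).prodMk (hasDerivAt_const t x))

lemma d2 {ψ : ℝ → ℝ → ℝ} (hψ : ContDiff ℝ (↑(⊤ : ℕ∞)) (Function.uncurry ψ)) (t x : ℝ) :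
    HasDerivAt (ψ t) (fderiv ℝ (Function.uncurry ψ) (t, x) (0, 1)) x := by
  have hF := ((hψ.differentiable (by simp)) (t, x)).hasFDerivAt
  exact hF.comp_hasDerivAt x ((hasDerivAt_const x t).prodMk (hasDerivAt_id x))

lemma ftc {ψ : ℝ → ℝ → ℝ} (hψ : ContDiff ℝ (↑(⊤ : ℕ∞)) (Function.uncurry ψ))
    (hc : HasCompactSupport (Function.uncurry ψ)) {T : ℝ} (hT : 0 < T)
    (hs : tsupport (Function.uncurry ψ) ⊆ Ioo 0 T ×ˢ univ) {w : ℝ → ℝ}
    (hw : IntervalIntegrable w volume 0 T) :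
    ∫ t in Ioo 0 T, (fderiv ℝ (Function.uncurry ψ) (t, ∫ r in (0 : ℝ)..t, w r) (1, 0) +
      w t * fderiv ℝ (Function.uncurry ψ) (t, ∫ r in (0 : ℝ)..t, w r) (0, 1)) = 0 := by
  obtain ⟨C, hC⟩ := hψ.lipschitzWith_of_hasCompactSupport hc (by simp)
  set γ : ℝ → ℝ := fun t => ∫ r in (0 : ℝ)..t, w r with hγdef
  have hγ : AbsolutelyContinuousOnInterval γ 0 T :=
    hw.absolutelyContinuousOnInterval_intervalIntegral (by simp)
  have hac := ac_comp hC hγ
  have h1 := hac.integral_deriv_eq_sub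
  have hz : ∀ t x : ℝ, t ∉ Ioo 0 T → ψ t x = 0 := by
    intro t x ht
    have : (t, x) ∉ tsupport (Function.uncurry ψ) := fun h => ht (hs h).1
    have h0 : Function.uncurry ψ (t, x) = 0 := image_eq_zero_of_notMem_tsupport this
    exact h0
  rw [hz T _ (by simp), hz 0 _ (by simp), sub_zero] at h1
  refine Eq.trans ?_ h1
  rw [intervalIntegral.integral_of_le hT.le, ← integral_Ioc_eq_integral_Ioo]
  refine setIntegral_congr_ae measurableSet_Ioc ?_
  filter_upwards [hw.ae_hasDerivAt_integral] with t ht htm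
  have hd : HasDerivAt γ (w t) t := by
    refine ht ?_ 0 (by simp)
    rw [uIcc_of_le hT.le]
    exact ⟨htm.1.le, htm.2⟩
  have hF := ((hψ.differentiable (by simp)) (t, γ t)).hasFDerivAt
  have hc1 : HasDerivAt (fun t => (t, γ t)) ((1 : ℝ), w t) t := (hasDerivAt_id t).prodMk hd
  have e1 : HasDerivAt (fun t => ψ t (γ t))
      ((fderiv ℝ (Function.uncurry ψ) (t, γ t)) (1, w t)) t := by
    have e0 := HasFDerivAt.comp_hasDerivAt (l := Function.uncurry ψ)
      (f := fun t => (t, γ t)) t hF hc1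
    exact e0
  rw [e1.deriv]
  have : ((1 : ℝ), w t) = (1, 0) + w t • ((0 : ℝ), (1 : ℝ)) := by simp
  rw [this, map_add, map_smul, smul_eq_mul]

lemma natoms_le {f : ℝ → ℝ} (hf : Measurable f) : natoms (lam.map f) ≤ cnt f := by
  unfold natoms
  refine le_iInf₂ fun A hA => iInf₂_le A ?_
  rw [Measure.map_apply hf A.measurableSet.compl]
  exact hA

end LagAux

open LagAux in
/-- piece BT-LAG -/
theorem t_LAG (hREG : S_REG) : S_LAG := by
  intro T V hT hV
  obtain ⟨hI, _, _, hpm, _, _⟩ := hREG T V hT hV.meas hV.fin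
  set P : Measure (ℝ × ℝ) := (volume.restrict (Ioo 0 T)).prod lam with hP
  have : IsFiniteMeasure (volume.restrict (Ioo (0 : ℝ) T)) := ⟨by simp⟩
  have : IsFiniteMeasure P := by rw [hP]; infer_instance
  have : IsProbabilityMeasure lam := ⟨by simp⟩
  set Φ : ℝ × ℝ → ℝ × ℝ := fun p => (p.1, pos V p.1 p.2) with hΦdef
  have hΦ : Measurable Φ := measurable_fst.prodMk hpm
  set Y : ℝ × ℝ → ℝ := Function.uncurry V with hYdef
  have hY : Measurable Y := hV.meas
  set v : ℝ → ℝ → ℝ := fun t x => cv P Φ Y (t, x) with hv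
  have hvm : Measurable (cv P Φ Y) := cv_meas
  have hpt : ∀ t, Measurable (pos V t) := fun t => hpm.comp measurable_prodMk_left
  set cl : ℝ → ℝ := fun t => max 0 (min t T) with hcl
  have hclm : Measurable cl := measurable_const.max (measurable_id.min measurable_const)
  have hcl1 : ∀ t ∈ Icc 0 T, cl t = t := by
    intro t ht
    simp only [hcl]
    rw [min_eq_left ht.2, max_eq_right ht.1]
  set mu : ℝ → Measure ℝ := fun t => lam.map (pos V (cl t)) with hmu
  have hmu1 : ∀ t ∈ Icc 0 T, mu t = lam.map (pos V t) := by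
    intro t ht
    simp only [hmu]
    rw [hcl1 t ht]
  have hsub : Ioo 0 T ⊆ Icc 0 T := Ioo_subset_Icc_self
  have hkinP : kin T V = ∫⁻ p, ENNReal.ofReal ((Y p) ^ 2) ∂P := by
    exact (lintegral_prod (μ := volume.restrict (Ioo 0 T)) (ν := lam)
      (fun p : ℝ × ℝ => ENNReal.ofReal ((Y p) ^ 2))
      (ENNReal.measurable_ofReal.comp (hY.pow_const 2)).aemeasurable).symm
  have hkin : ∫⁻ t in Ioo 0 T, ∫⁻ x, ENNReal.ofReal ((v t x) ^ 2) ∂(mu t) ≤ kin T V := by
    have h1 : ∫⁻ t in Ioo 0 T, ∫⁻ x, ENNReal.ofReal ((v t x) ^ 2) ∂(mu t) =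
        ∫⁻ t in Ioo 0 T, ∫⁻ s, ENNReal.ofReal ((cv P Φ Y (Φ (t, s))) ^ 2) ∂lam := by
      refine setLIntegral_congr_fun measurableSet_Ioo fun t ht => ?_
      show ∫⁻ x, ENNReal.ofReal ((v t x) ^ 2) ∂(mu t) = _
      rw [hmu1 t (hsub ht), lintegral_map _ (hpt t)]
      exact ENNReal.measurable_ofReal.comp ((hvm.comp measurable_prodMk_left).pow_const 2)
    rw [h1, hkinP]
    refine le_trans (le_of_eq ?_) (cv_sq (P := P) hΦ hY)
    exact (lintegral_prod (μ := volume.restrict (Ioo 0 T)) (ν := lam)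
      (fun p : ℝ × ℝ => ENNReal.ofReal ((cv P Φ Y (Φ p)) ^ 2))
      (ENNReal.measurable_ofReal.comp ((hvm.comp hΦ).pow_const 2)).aemeasurable).symm
  have hYsq : Integrable (fun p => (Y p) ^ 2) P := by
    refine ⟨(hY.pow_const 2).aestronglyMeasurable, ?_⟩
    rw [hasFiniteIntegral_iff_ofReal (ae_of_all _ fun p => sq_nonneg _), ← hkinP]
    exact hV.fin
  have hYi : Integrable Y P :=
    ((memLp_two_iff_integrable_sq hY.aestronglyMeasurable).2 hYsq).integrable (by norm_num)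
  have hcvi : Integrable (fun p => cv P Φ Y (Φ p)) P := by
    refine ((memLp_two_iff_integrable_sq (hvm.comp hΦ).aestronglyMeasurable).2 ?_).integrable
      (by norm_num)
    refine ⟨((hvm.comp hΦ).pow_const 2).aestronglyMeasurable, ?_⟩
    rw [hasFiniteIntegral_iff_ofReal (ae_of_all _ fun p => sq_nonneg _)]
    refine lt_of_le_of_lt (cv_sq (P := P) hΦ hY) ?_
    rw [← hkinP]
    exact hV.fin
  refine ⟨mu, v, ?_, ?_⟩
  · refine
      { prob := ?_
        kern := ?_
        meas := ?_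
        fin := lt_of_le_of_lt hkin hV.fin
        cont := ?_
        eqn := ?_
        init := ?_
        final := ?_ }
    · intro t _
      exact Measure.isProbabilityMeasure_map (hpt _).aemeasurable
    · intro B hB
      have h1 : (fun t => mu t B) = fun t => lam ((fun s => (t, s)) ⁻¹'
          ((fun p : ℝ × ℝ => pos V (cl p.1) p.2) ⁻¹' B)) := by
        funext t
        simp only [hmu]
        rw [Measure.map_apply (hpt _) hB]
        rfl
      rw [h1]
      apply measurable_measure_prodMk_left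
      have h2 : Measurable (fun p : ℝ × ℝ => pos V (cl p.1) p.2) :=
        hpm.comp ((hclm.comp measurable_fst).prodMk measurable_snd)
      exact h2 hB
    · have : Function.uncurry v = cv P Φ Y := by
        funext p
        rfl
      rw [this]
      exact hvm
    · intro f
      have h1 : ContinuousOn (fun t => ∫ s, f (pos V t s) ∂lam) (Icc 0 T) := by
        refine continuousOn_of_dominated (bound := fun _ => ‖f‖) ?_ ?_ (integrable_const _) ?_
        · intro t _
          exact (f.continuous.measurable.comp (hpt t)).aestronglyMeasurable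
        · intro t _
          exact ae_of_all _ fun s => f.norm_coe_le_norm _
        · filter_upwards [hI] with s hs
          refine f.continuous.comp_continuousOn ?_
          have := intervalIntegral.continuousOn_primitive_interval
            (f := fun τ => V τ s) (μ := volume) (a := 0) (b := T)
            ((intervalIntegrable_iff_integrableOn_Icc_of_le hT.le).1 hs |> fun h => by
              rwa [uIcc_of_le hT.le])
          rwa [uIcc_of_le hT.le] at this
      refine h1.congr fun t ht => ?_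
      beta_reduce
      rw [hmu1 t ht, integral_map (hpt t).aemeasurable
        f.continuous.measurable.aestronglyMeasurable]
    · intro ψ hψ hc hs
      obtain ⟨C, hC⟩ := hψ.lipschitzWith_of_hasCompactSupport hc (by simp)
      have hcont : Continuous (fderiv ℝ (Function.uncurry ψ)) := hψ.continuous_fderiv (by simp)
      set g1 : ℝ × ℝ → ℝ := fun z => fderiv ℝ (Function.uncurry ψ) z (1, 0) with hg1
      set g2 : ℝ × ℝ → ℝ := fun z => fderiv ℝ (Function.uncurry ψ) z (0, 1) with hg2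
      have hg1m : Measurable g1 := (hcont.clm_apply continuous_const).measurable
      have hg2m : Measurable g2 := (hcont.clm_apply continuous_const).measurable
      have hbd : ∀ (z w : ℝ × ℝ), ‖w‖ ≤ 1 → |fderiv ℝ (Function.uncurry ψ) z w| ≤ C := by
        intro z w hw
        calc |fderiv ℝ (Function.uncurry ψ) z w| ≤ ‖fderiv ℝ (Function.uncurry ψ) z‖ * ‖w‖ :=
              (fderiv ℝ (Function.uncurry ψ) z).le_opNorm w
          _ ≤ C * 1 := mul_le_mul (norm_fderiv_le_of_lipschitz ℝ hC) hw (norm_nonneg _) C.2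
          _ = C := mul_one _
      have hb1 : ∀ z, |g1 z| ≤ C := fun z => hbd z _ (by simp [Prod.norm_def])
      have hb2 : ∀ z, |g2 z| ≤ C := fun z => hbd z _ (by simp [Prod.norm_def])
      have hi1 : Integrable (fun p => g1 (Φ p)) P := by
        refine Integrable.of_bound (hg1m.comp hΦ).aestronglyMeasurable (C : ℝ)
          (ae_of_all _ fun p => ?_)
        simpa using hb1 (Φ p)
      have hi2 : Integrable (fun p => cv P Φ Y (Φ p) * g2 (Φ p)) P :=
        hcvi.mul_bdd (c := (C : ℝ)) (hg2m.comp hΦ).aestronglyMeasurable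
          (ae_of_all _ fun a => by simpa using hb2 (Φ a))
      have hi3 : Integrable (fun p => Y p * g2 (Φ p)) P :=
        hYi.mul_bdd (c := (C : ℝ)) (hg2m.comp hΦ).aestronglyMeasurable
          (ae_of_all _ fun a => by simpa using hb2 (Φ a))
      have e1 : ∫ t in Ioo 0 T, ∫ x, (deriv (fun τ => ψ τ x) t + v t x * deriv (ψ t) x) ∂(mu t) =
          ∫ t in Ioo 0 T, ∫ s, (g1 (Φ (t, s)) + cv P Φ Y (Φ (t, s)) * g2 (Φ (t, s))) ∂lam := by
        refine setIntegral_congr_fun measurableSet_Ioo fun t ht => ?_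
        have e2 : (fun x => deriv (fun τ => ψ τ x) t + v t x * deriv (ψ t) x) =
            fun x => g1 (t, x) + cv P Φ Y (t, x) * g2 (t, x) := by
          funext x
          rw [(d1 hψ t x).deriv, (d2 hψ t x).deriv]
        rw [e2, hmu1 t (hsub ht), integral_map (hpt t).aemeasurable]
        exact ((hg1m.comp measurable_prodMk_left).add
          ((hvm.comp measurable_prodMk_left).mul
            (hg2m.comp measurable_prodMk_left))).aestronglyMeasurable
      rw [e1]
      have e3 : ∫ t in Ioo 0 T, ∫ s, (g1 (Φ (t, s)) + cv P Φ Y (Φ (t, s)) * g2 (Φ (t, s))) ∂lam =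
          ∫ p, (g1 (Φ p) + cv P Φ Y (Φ p) * g2 (Φ p)) ∂P := by
        exact (integral_prod (μ := volume.restrict (Ioo 0 T)) (ν := lam)
          (fun p => g1 (Φ p) + cv P Φ Y (Φ p) * g2 (Φ p)) (hi1.add hi2)).symm
      rw [e3, integral_add hi1 hi2, cv_cross hΦ hY hYi g2 hg2m C hb2, ← integral_add hi1 hi3]
      have e4 : ∫ p, (g1 (Φ p) + Y p * g2 (Φ p)) ∂P =
          ∫ s, (∫ t in Ioo 0 T, (g1 (Φ (t, s)) + Y (t, s) * g2 (Φ (t, s)))) ∂lam := by
        exact integral_prod_symm (μ := volume.restrict (Ioo 0 T)) (ν := lam)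
          (fun p => g1 (Φ p) + Y p * g2 (Φ p)) (hi1.add hi3)
      rw [e4]
      refine integral_eq_zero_of_ae ?_
      filter_upwards [hI] with s hs'
      exact ftc hψ hc hT hs hs'
    · rw [hmu1 0 ⟨le_refl _, hT.le⟩]
      have : pos V 0 = fun _ => 0 := by
        funext s
        simp [pos]
      rw [this, Measure.map_const]
      simp
    · rw [hmu1 T ⟨hT.le, le_refl _⟩, Measure.map_congr hV.final]
      have h1 : MeasurePreserving (fun s : ℝ => s - 1 / 2) volume volume :=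
        measurePreserving_sub_right volume (1 / 2)
      have h2 := (h1.restrict_preimage (s := Ioo (-(1 / 2 : ℝ)) (1 / 2)) measurableSet_Ioo).map_eq
      have h3 : (fun s : ℝ => s - 1 / 2) ⁻¹' Ioo (-(1 / 2 : ℝ)) (1 / 2) = Ioo 0 1 := by
        ext s
        simp only [mem_preimage, mem_Ioo]
        constructor
        · rintro ⟨h, h'⟩
          constructor <;> linarith
        · rintro ⟨h, h'⟩
          constructor <;> linarith
      rw [h3] at h2
      rw [h2]
      exact Measure.restrict_congr_set Ioo_ae_eq_Icc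
  · unfold enE en
    refine add_le_add ?_ hkin
    refine setLIntegral_mono' measurableSet_Ioo fun t ht => ?_
    rw [hmu1 t (hsub ht)]
    exact natoms_le (hpt t)

end Pool.Agent.R508.BT
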