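import Pool.Agent.R508.BT.Stm

/-! BT-LARGE (helper608 for helper508): the value function is flat to the left at large times. -/

open MeasureTheory Set Filter Topology
open scoped ENNReal

namespace Pool.Agent.R508.BT

namespace LARGE

theorem cc_bound : 1 < cc := by
  unfold cc
  have : 0 < Real.sqrt 2 := Real.sqrt_pos.2 (by norm_num)
  linarith

theorem E_bound (h2 : S_UPP) (h3 : S_WAIT) (T : ℝ) (hT : cc < T) :
    E T ≤ ENNReal.ofReal (T + cc) := by
  have hc := cc_bound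
  have h4 := h2 (1 / 4) (by norm_num)
  have h5 := h3 (1 / 4) T (by norm_num) (by linarith)
  refine h5.trans ((add_le_add_left h4 _).trans ?_)
  rw [← ENNReal.ofReal_add (by positivity) (by linarith)]
  apply ENNReal.ofReal_le_ofReal
  apply le_of_eq
  ring

theorem exists_one (h6 : S_CNT) (T : ℝ) (hT : 0 < T) (V : ℝ → ℝ → ℝ)
    (h : ∫⁻ t in Ioo 0 T, cnt (pos V t) < ENNReal.ofReal (2 * T)) :
    ∃ t0 ∈ Ioo 0 T, cnt (pos V t0) = 1 := by
  by_contra hcon
  push Not at hcon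
  have h01 := h6 0 1 zero_lt_one
  have h2 : ∀ t ∈ Ioo 0 T, (2 : ℝ≥0∞) ≤ cnt (pos V t) := by
    intro t ht
    by_contra hlt
    push Not at hlt
    obtain ⟨A, -, hA, -⟩ := h01.2.2.2.2.1 (pos V t) (hlt.trans ENNReal.ofNat_lt_top)
    have h1 : (1 : ℝ≥0∞) ≤ (A.card : ℝ≥0∞) := by
      rw [hA]
      exact h01.1 _
    have h3 : (A.card : ℝ≥0∞) < 2 := by
      rw [hA]
      exact hlt
    have h1' : 1 ≤ A.card := by exact_mod_cast h1
    have h3' : A.card < 2 := by exact_mod_cast h3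
    have h4 : A.card = 1 := by omega
    apply hcon t ht
    change cntOn 0 1 (pos V t) = 1
    rw [← hA, h4, Nat.cast_one]
  have h3 : ENNReal.ofReal (2 * T) ≤ ∫⁻ t in Ioo 0 T, cnt (pos V t) := by
    calc ENNReal.ofReal (2 * T) = ∫⁻ _ in Ioo 0 T, (2 : ℝ≥0∞) := by
          rw [setLIntegral_const, Real.volume_Ioo, sub_zero, ENNReal.ofReal_mul (by norm_num)]
          simp
      _ ≤ _ := setLIntegral_mono' measurableSet_Ioo h2
  exact absurd h3 (not_le.2 h)

end LARGE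

theorem t_LARGE (h1 : S_EXI) (h2 : S_UPP) (h3 : S_WAIT) (h4 : S_LIN) (h5 : S_N1) (h6 : S_CNT) :
    S_LARGE := by
  intro T hT
  have hc := LARGE.cc_bound
  have hT0 : 0 < T := by linarith
  obtain ⟨V, hV⟩ := h1 T hT0
  have hE := LARGE.E_bound h2 h3 T hT
  have hfin : E T < ∞ := lt_of_le_of_lt hE ENNReal.ofReal_lt_top
  have hlt : ∫⁻ t in Ioo 0 T, cnt (pos V t) < ENNReal.ofReal (2 * T) := by
    calc ∫⁻ t in Ioo 0 T, cnt (pos V t) ≤ en T V := le_self_add
      _ = E T := hV.2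
      _ ≤ ENNReal.ofReal (T + cc) := hE
      _ < ENNReal.ofReal (2 * T) := by
        rw [ENNReal.ofReal_lt_ofReal_iff (by linarith)]
        linarith
  obtain ⟨t0, ht0, hcnt⟩ := LARGE.exists_one h6 T hT0 V hlt
  have h01 := h6 0 1 zero_lt_one
  obtain ⟨A, hA, hAc, -⟩ := h01.2.2.2.2.1 (pos V t0) (by
    change cnt (pos V t0) < ∞
    rw [hcnt]
    exact ENNReal.one_lt_top)
  have hA1 : A.card = 1 := by
    have : (A.card : ℝ≥0∞) = 1 := by
      rw [hAc]
      exact hcnt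
    exact_mod_cast this
  obtain ⟨x, rfl⟩ := Finset.card_eq_one.1 hA1
  have hx : ∀ᵐ s ∂lam, pos V t0 s = x := by
    filter_upwards [hA] with s hs
    simpa using hs
  have hlin := h4 T V hT0 hV hfin t0 ht0 (Eventually.of_forall fun t => by
    rw [hcnt]
    exact h01.1 _)
  refine ⟨t0, ht0, h5 T V hT0 hV hfin t0 ht0 ?_⟩
  filter_upwards [ae_restrict_mem measurableSet_Ioo] with t ht
  refine ⟨t / t0 * x, ?_⟩
  filter_upwards [hx, hlin t ⟨ht.1.le, ht.2.le⟩] with s hs1 hs2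
  rw [hs2, hs1]

end Pool.Agent.R508.BT
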