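import Pool.Agent.R508.BT.Stm

/-! BT-LB: lower bound for the kinetic energy. -/

set_option autoImplicit false

open MeasureTheory Set Filter Topology
open scoped ENNReal

namespace Pool.Agent.R508.BT

namespace Lb

/-- Cauchy-Schwarz for one label -/
lemma one_label (T : ℝ) (hT : 0 < T) (f : ℝ → ℝ) (hf : Measurable f) (x : ℝ)
    (hx : ∫ τ in (0 : ℝ)..T, f τ = x) :
    ENNReal.ofReal (x ^ 2 / T) ≤ ∫⁻ t in Ioo 0 T, ENNReal.ofReal (f t ^ 2) := by
  by_cases hA : ∫⁻ t in Ioo 0 T, ENNReal.ofReal (f t ^ 2) = ∞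
  · rw [hA]
    exact le_top
  have hf2 : Integrable (fun t => f t ^ 2) (volume.restrict (Ioo 0 T)) := by
    refine ⟨(hf.pow_const 2).aestronglyMeasurable, ?_⟩
    rw [hasFiniteIntegral_iff_ofReal (Eventually.of_forall fun t => sq_nonneg _)]
    exact lt_top_iff_ne_top.2 hA
  have : IsFiniteMeasure (volume.restrict (Ioo 0 T)) := by
    refine ⟨?_⟩
    rw [Measure.restrict_apply_univ, Real.volume_Ioo]
    exact ENNReal.ofReal_lt_top
  have hf1 : Integrable f (volume.restrict (Ioo 0 T)) := by
    refine Integrable.mono' ((integrable_const (1 : ℝ)).add hf2) hf.aestronglyMeasurable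
      (Eventually.of_forall fun t => ?_)
    rw [Real.norm_eq_abs]
    simp only [Pi.add_apply]
    nlinarith [sq_nonneg (|f t| - 1), sq_abs (f t), abs_nonneg (f t)]
  have hx' : ∫ t in Ioo 0 T, f t = x := by
    rw [← hx, intervalIntegral.integral_of_le hT.le, integral_Ioc_eq_integral_Ioo]
  have hle : ∫ t in Ioo 0 T, (2 * (x / T) * f t - (x / T) ^ 2) ≤ ∫ t in Ioo 0 T, f t ^ 2 := by
    refine integral_mono ((hf1.const_mul _).sub (integrable_const _)) hf2 fun t => ?_
    simp only
    nlinarith [sq_nonneg (f t - x / T)]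
  rw [integral_sub (hf1.const_mul _) (integrable_const _), integral_const_mul, hx', setIntegral_const,
    measureReal_def, Real.volume_Ioo, ENNReal.toReal_ofReal (by linarith), smul_eq_mul] at hle
  have hval : 2 * (x / T) * x - (T - 0) * (x / T) ^ 2 = x ^ 2 / T := by
    field_simp
    ring
  rw [hval] at hle
  rw [← ofReal_integral_eq_lintegral_ofReal hf2 (Eventually.of_forall fun t => sq_nonneg _)]
  exact ENNReal.ofReal_le_ofReal hle

lemma int_label (T : ℝ) (hT : 0 < T) :
    ∫⁻ s, ENNReal.ofReal ((s - 1 / 2) ^ 2 / T) ∂lam = ENNReal.ofReal (1 / (12 * T)) := by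
  have hi : Integrable (fun s : ℝ => (s - 1 / 2) ^ 2 / T) lam := by
    have h1 : IntegrableOn (fun s : ℝ => (s - 1 / 2) ^ 2 / T) (Icc 0 1) :=
      ContinuousOn.integrableOn_Icc (by fun_prop)
    exact h1.mono_set Ioo_subset_Icc_self
  rw [← ofReal_integral_eq_lintegral_ofReal hi (Eventually.of_forall fun s => by positivity)]
  congr 1
  rw [← integral_Ioc_eq_integral_Ioo, ← intervalIntegral.integral_of_le zero_le_one,
    intervalIntegral.integral_div, intervalIntegral.integral_comp_sub_right (fun s => s ^ 2),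
    integral_pow]
  field_simp
  norm_num

end Lb

theorem t_LB : S_LB := by
  intro T V hT hV
  have hm : Measurable (Function.uncurry fun t s => ENNReal.ofReal (V t s ^ 2)) :=
    (hV.meas.pow_const 2).ennreal_ofReal
  have hswap : kin T V = ∫⁻ s, (∫⁻ t in Ioo 0 T, ENNReal.ofReal (V t s ^ 2)) ∂lam := by
    unfold kin
    exact lintegral_lintegral_swap hm.aemeasurable
  rw [hswap, ← Lb.int_label T hT]
  have hae : ∀ᵐ s ∂lam, ENNReal.ofReal ((s - 1 / 2) ^ 2 / T) ≤
      ∫⁻ t in Ioo 0 T, ENNReal.ofReal (V t s ^ 2) := by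
    filter_upwards [hV.final] with s hs
    exact Lb.one_label T hT (fun t => V t s) (hV.meas.comp (measurable_id.prodMk measurable_const)) _ hs
  exact lintegral_mono_ae hae

end Pool.Agent.R508.BT
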