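import Pool.Agent.R508.BT.Stm

open MeasureTheory Set Filter Topology
open scoped ENNReal

namespace Pool.Agent.R508.BT

theorem t_LEFT : S_LEFT := by
  intro e he T hT hFL
  obtain ⟨τ, hτ0, hτT, hτ⟩ := hFL
  set S : Set ℝ := {t | 0 < t ∧ t ≤ T ∧ e T = e t + (T - t)} with hS
  have hmono : ∀ t t' : ℝ, 0 < t → t ≤ t' → e t' - t' ≤ e t - t := by
    intro t t' h1 h2
    have := he.wait t t' h1 h2
    linarith
  have hup : ∀ t t' : ℝ, t ∈ S → t ≤ t' → t' ≤ T → t' ∈ S := by
    intro t t' ht h1 h2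
    obtain ⟨h3, h4, h5⟩ := ht
    refine ⟨by linarith, h2, ?_⟩
    have h6 := hmono t t' h3 h1
    have h7 := hmono t' T (by linarith) h2
    linarith
  have hmem : T - τ ∈ S := ⟨by linarith, by linarith, by linarith⟩
  have heT : 0 < e T := by
    have h1 := he.lb T hT
    have h2 : 0 < 1 / (12 * T) := by positivity
    linarith
  have hlow : ∀ t ∈ S, 1 / (12 * e T) ≤ t := by
    intro t ht
    obtain ⟨h3, h4, h5⟩ := ht
    have h1 := he.lb t h3
    have h2 : 1 / (12 * t) ≤ e T := by linarith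
    rw [div_le_iff₀ (by positivity)] at h2
    rw [div_le_iff₀ (by positivity)]
    nlinarith
  have hbdd : BddBelow S := ⟨1 / (12 * e T), hlow⟩
  have hne : S.Nonempty := ⟨_, hmem⟩
  set T1 := sInf S with hT1
  have hT1pos : 0 < T1 := by
    have h1 : 1 / (12 * e T) ≤ T1 := le_csInf hne hlow
    have h2 : 0 < 1 / (12 * e T) := by positivity
    linarith
  have hT1le : T1 ≤ T - τ := csInf_le hbdd hmem
  have hT1T : T1 < T := by linarith
  have hin : ∀ t : ℝ, T1 < t → t ≤ T → t ∈ S := by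
    intro t h1 h2
    obtain ⟨s, hs, hst⟩ := exists_lt_of_csInf_lt hne h1
    exact hup s t hs hst.le h2
  have hkey : e T1 ≤ (e T - T) + T1 := by
    have hcont : Continuous (fun t : ℝ => t / T1 * ((e T - T) + t)) := by fun_prop
    have htend : Tendsto (fun t : ℝ => t / T1 * ((e T - T) + t)) (𝓝[>] T1)
        (𝓝 (T1 / T1 * ((e T - T) + T1))) := (hcont.tendsto T1).mono_left nhdsWithin_le_nhds
    rw [div_self hT1pos.ne', one_mul] at htend
    refine ge_of_tendsto htend ?_
    have hev : ∀ᶠ t in 𝓝[>] T1, t ∈ Ioc T1 T := Ioc_mem_nhdsGT hT1T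
    filter_upwards [hev] with t ht
    have h1 := hin t ht.1 ht.2
    obtain ⟨h3, h4, h5⟩ := h1
    have h6 := he.tsc t T1 h3 hT1pos
    have h7 : max (T1 / t) (t / T1) = t / T1 := by
      apply max_eq_right
      have h8 : T1 / t ≤ 1 := by rw [div_le_one h3]; exact ht.1.le
      have h9 : 1 ≤ t / T1 := by rw [one_le_div hT1pos]; exact ht.1.le
      linarith
    rw [h7] at h6
    have h10 : e t = (e T - T) + t := by linarith
    rw [h10] at h6
    exact h6
  have hT1mem : T1 ∈ S := by
    refine ⟨hT1pos, hT1T.le, ?_⟩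
    have h1 := hmono T1 T hT1pos hT1T.le
    linarith
  refine ⟨T1, hT1pos, hT1T, hT1mem.2.2, ?_, ?_, ?_⟩
  · rintro ⟨σ, h1, h2, h3⟩
    have h4 : T1 - σ ∈ S := by
      refine ⟨by linarith, by linarith, ?_⟩
      have := hT1mem.2.2
      linarith
    have h5 := csInf_le hbdd h4
    linarith
  · intro t h1 h2
    have h3 := hup T1 t hT1mem h1 h2
    have h4 := h3.2.2
    have h5 := hT1mem.2.2
    linarith
  · intro t h1 h2
    have h3 := hmono t T1 h1 h2.le
    by_contra hcon
    push Not at hcon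
    have h4 : t ∈ S := by
      refine ⟨h1, by linarith, ?_⟩
      have h5 := hT1mem.2.2
      linarith
    have h5 := csInf_le hbdd h4
    linarith

end Pool.Agent.R508.BT
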