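import Pool.Agent.R508.BT.Stm

/-!
# A minimizer is linear up to a time of minimal number of atoms
-/

open MeasureTheory Set Filter Topology
open scoped ENNReal

namespace Pool.Agent.R508.BT

namespace LIN

/-- the competitor: straight lines up to time `t0` -/
noncomputable def W (t0 : ℝ) (V : ℝ → ℝ → ℝ) : ℝ → ℝ → ℝ :=
  fun t s => if t < t0 then pos V t0 s / t0 else V t s

/-- Pythagoras in time -/
theorem pythag (f : ℝ → ℝ) (t0 : ℝ) (h0 : 0 < t0) (h1 : IntervalIntegrable f volume 0 t0)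
    (h2 : IntervalIntegrable (fun t => f t ^ 2) volume 0 t0) :
    ∫⁻ t in Ioo 0 t0, ENNReal.ofReal (f t ^ 2) =
      (∫⁻ _t in Ioo 0 t0, ENNReal.ofReal (((∫ τ in (0:ℝ)..t0, f τ) / t0) ^ 2)) +
      ∫⁻ t in Ioo 0 t0, ENNReal.ofReal ((f t - (∫ τ in (0:ℝ)..t0, f τ) / t0) ^ 2) := by
  have hI : Integrable f (volume.restrict (Ioo 0 t0)) := by
    have := (intervalIntegrable_iff_integrableOn_Ioo_of_le h0.le).1 h1
    exact this
  have hI2 : Integrable (fun t => f t ^ 2) (volume.restrict (Ioo 0 t0)) := by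
    have := (intervalIntegrable_iff_integrableOn_Ioo_of_le h0.le).1 h2
    exact this
  have hval : ∫ t in Ioo 0 t0, f t = ∫ τ in (0:ℝ)..t0, f τ := by
    rw [intervalIntegral.integral_of_le h0.le, integral_Ioc_eq_integral_Ioo]
  set c : ℝ := (∫ τ in (0:ℝ)..t0, f τ) / t0 with hc
  have hct : ∫ τ in (0:ℝ)..t0, f τ = c * t0 := by
    rw [hc]; field_simp
  have hIc : Integrable (fun _ : ℝ => c ^ 2) (volume.restrict (Ioo 0 t0)) := by
    apply integrable_const
  have hexp : (fun t => (f t - c) ^ 2) = fun t => (f t ^ 2 - 2 * c * f t) + c ^ 2 := by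
    funext t; ring
  have hI3 : Integrable (fun t => (f t - c) ^ 2) (volume.restrict (Ioo 0 t0)) := by
    rw [hexp]
    exact (hI2.sub (hI.const_mul (2 * c))).add hIc
  have hvol : (volume.restrict (Ioo 0 t0)).real univ = t0 := by
    simp [Measure.real, h0.le]
  have hsum : ∫ t in Ioo 0 t0, (f t - c) ^ 2 = (∫ t in Ioo 0 t0, f t ^ 2) - c ^ 2 * t0 := by
    have hA : Integrable (fun t => f t ^ 2 - 2 * c * f t) (volume.restrict (Ioo 0 t0)) :=
      hI2.sub (hI.const_mul (2 * c))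
    rw [hexp, integral_add hA hIc,
      integral_sub hI2 (hI.const_mul (2 * c)), integral_const_mul, hval, hct, integral_const, hvol,
      smul_eq_mul]
    ring
  have hc2 : ∫ _t in Ioo 0 t0, c ^ 2 = c ^ 2 * t0 := by
    rw [integral_const, hvol, smul_eq_mul]; ring
  rw [← ofReal_integral_eq_lintegral_ofReal hI2 (Eventually.of_forall fun t => sq_nonneg _),
    ← ofReal_integral_eq_lintegral_ofReal hIc (Eventually.of_forall fun t => sq_nonneg _),
    ← ofReal_integral_eq_lintegral_ofReal hI3 (Eventually.of_forall fun t => sq_nonneg _),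
    ← ENNReal.ofReal_add (integral_nonneg fun t => sq_nonneg _)
      (integral_nonneg fun t => sq_nonneg _), hsum, hc2]
  congr 1
  ring

/-- splitting the time interval -/
theorem split (T t0 : ℝ) (h0 : 0 < t0) (hT : t0 < T) (g : ℝ → ℝ≥0∞) :
    ∫⁻ t in Ioo 0 T, g t = (∫⁻ t in Ioo 0 t0, g t) + ∫⁻ t in Ico t0 T, g t := by
  rw [← lintegral_union measurableSet_Ico]
  · rw [Ioo_union_Ico_eq_Ioo h0 hT.le]
  · rw [Set.disjoint_left]
    intro t ht ht'
    exact absurd ht.2 (not_lt.2 ht'.1)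

/-- identity for one label -/
theorem one_label (T t0 : ℝ) (h0 : 0 < t0) (hT : t0 < T) (V : ℝ → ℝ → ℝ) (s : ℝ)
    (h1 : IntervalIntegrable (fun t => V t s) volume 0 T)
    (h2 : IntervalIntegrable (fun t => V t s ^ 2) volume 0 T) :
    ∫⁻ t in Ioo 0 T, ENNReal.ofReal (V t s ^ 2) =
      (∫⁻ t in Ioo 0 T, ENNReal.ofReal (W t0 V t s ^ 2)) +
      ∫⁻ t in Ioo 0 T, ENNReal.ofReal ((V t s - W t0 V t s) ^ 2) := by
  have hsub : uIcc 0 t0 ⊆ uIcc 0 T := by
    rw [uIcc_of_le h0.le, uIcc_of_le (h0.le.trans hT.le)]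
    exact Icc_subset_Icc le_rfl hT.le
  have h1' := h1.mono_set hsub
  have h2' := h2.mono_set hsub
  have hp := pythag (fun t => V t s) t0 h0 h1' h2'
  rw [split T t0 h0 hT, split T t0 h0 hT (fun t => ENNReal.ofReal (W t0 V t s ^ 2)),
    split T t0 h0 hT (fun t => ENNReal.ofReal ((V t s - W t0 V t s) ^ 2))]
  have e1 : ∫⁻ t in Ioo 0 t0, ENNReal.ofReal (W t0 V t s ^ 2) =
      ∫⁻ _t in Ioo 0 t0, ENNReal.ofReal ((pos V t0 s / t0) ^ 2) := by
    apply setLIntegral_congr_fun measurableSet_Ioo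
    intro t ht
    simp only [W, if_pos ht.2]
  have e2 : ∫⁻ t in Ioo 0 t0, ENNReal.ofReal ((V t s - W t0 V t s) ^ 2) =
      ∫⁻ t in Ioo 0 t0, ENNReal.ofReal ((V t s - pos V t0 s / t0) ^ 2) := by
    apply setLIntegral_congr_fun measurableSet_Ioo
    intro t ht
    simp only [W, if_pos ht.2]
  have e3 : ∫⁻ t in Ico t0 T, ENNReal.ofReal (W t0 V t s ^ 2) =
      ∫⁻ t in Ico t0 T, ENNReal.ofReal (V t s ^ 2) := by
    apply setLIntegral_congr_fun measurableSet_Ico
    intro t ht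
    simp only [W, if_neg (not_lt.2 ht.1)]
  have e4 : ∫⁻ t in Ico t0 T, ENNReal.ofReal ((V t s - W t0 V t s) ^ 2) = 0 := by
    rw [setLIntegral_congr_fun (g := fun _ => 0) measurableSet_Ico]
    · simp
    · intro t ht
      simp only [W, if_neg (not_lt.2 ht.1)]
      simp
  rw [e1, e2, e3, e4, add_zero]
  have hp' : ∫⁻ t in Ioo 0 t0, ENNReal.ofReal (V t s ^ 2) =
      (∫⁻ _t in Ioo 0 t0, ENNReal.ofReal ((pos V t0 s / t0) ^ 2)) +
      ∫⁻ t in Ioo 0 t0, ENNReal.ofReal ((V t s - pos V t0 s / t0) ^ 2) := hp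
  rw [hp']
  ring

theorem meas_W (t0 : ℝ) (V : ℝ → ℝ → ℝ) (hV : Measurable (Function.uncurry V))
    (hp : Measurable (Function.uncurry (pos V))) : Measurable (Function.uncurry (W t0 V)) := by
  have h1 : Measurable fun p : ℝ × ℝ => pos V t0 p.2 / t0 := by
    have : Measurable fun p : ℝ × ℝ => (Function.uncurry (pos V)) (t0, p.2) :=
      hp.comp (measurable_const.prodMk measurable_snd)
    exact this.div_const t0
  have h2 : MeasurableSet {p : ℝ × ℝ | p.1 < t0} := measurableSet_lt measurable_fst measurable_const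
  exact Measurable.ite h2 h1 hV

theorem meas_sq (U : ℝ → ℝ → ℝ) (hU : Measurable (Function.uncurry U)) :
    Measurable fun p : ℝ × ℝ => ENNReal.ofReal (U p.1 p.2 ^ 2) := by
  have : Measurable fun p : ℝ × ℝ => U p.1 p.2 := hU
  exact (this.pow_const 2).ennreal_ofReal

theorem kin_swap (T : ℝ) (U : ℝ → ℝ → ℝ) (hU : Measurable (Function.uncurry U)) :
    kin T U = ∫⁻ s, (∫⁻ t in Ioo 0 T, ENNReal.ofReal (U t s ^ 2)) ∂lam := by
  unfold kin
  rw [lintegral_lintegral_swap]
  exact (meas_sq U hU).aemeasurable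

theorem pos_W_lt (t0 : ℝ) (V : ℝ → ℝ → ℝ) (t s : ℝ) (ht : t ∈ Icc 0 t0) :
    pos (W t0 V) t s = t / t0 * pos V t0 s := by
  unfold pos
  rw [intervalIntegral.integral_congr_ae (g := fun _ => pos V t0 s / t0)]
  · rw [intervalIntegral.integral_const, smul_eq_mul]
    unfold pos
    ring
  · have : ∀ᵐ x : ℝ, x ≠ t0 := by
      rw [ae_iff]; simp
    filter_upwards [this] with x hx hx'
    rw [uIoc_of_le ht.1] at hx'
    have : x < t0 := lt_of_le_of_ne (hx'.2.trans ht.2) hx
    simp only [W, if_pos this]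

theorem pos_W_ge (T t0 : ℝ) (h0 : 0 < t0) (V : ℝ → ℝ → ℝ) (t s : ℝ)
    (h1 : IntervalIntegrable (fun t => V t s) volume 0 T) (ht : t0 ≤ t) (htT : t ≤ T) :
    pos (W t0 V) t s = pos V t s := by
  have i1 : IntervalIntegrable (fun t => V t s) volume 0 t0 := by
    apply h1.mono_set
    rw [uIcc_of_le h0.le, uIcc_of_le (h0.le.trans (ht.trans htT))]
    exact Icc_subset_Icc le_rfl (ht.trans htT)
  have i2 : IntervalIntegrable (fun t => V t s) volume t0 t := by
    apply h1.mono_set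
    rw [uIcc_of_le ht, uIcc_of_le (h0.le.trans (ht.trans htT))]
    exact Icc_subset_Icc h0.le htT
  have j1 : IntervalIntegrable (fun t => W t0 V t s) volume 0 t0 := by
    rw [intervalIntegrable_iff_integrableOn_Ioo_of_le h0.le]
    have : IntegrableOn (fun _ : ℝ => pos V t0 s / t0) (Ioo 0 t0) :=
      integrable_const (μ := volume.restrict (Ioo 0 t0)) (pos V t0 s / t0)
    refine this.congr_fun ?_ measurableSet_Ioo
    intro x hx
    simp only [W, if_pos hx.2]
  have hcongr : ∀ x ∈ uIcc t0 t, V x s = W t0 V x s := by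
    intro x hx
    rw [uIcc_of_le ht] at hx
    simp only [W, if_neg (not_lt.2 hx.1)]
  have j2 : IntervalIntegrable (fun t => W t0 V t s) volume t0 t := by
    rw [intervalIntegrable_iff_integrableOn_Ioc_of_le ht] at i2 ⊢
    refine i2.congr_fun ?_ measurableSet_Ioc
    intro x hx
    exact hcongr x (by rw [uIcc_of_le ht]; exact ⟨hx.1.le, hx.2⟩)
  have e0 : pos (W t0 V) t0 s = pos V t0 s := by
    rw [pos_W_lt t0 V t0 s ⟨h0.le, le_rfl⟩, div_self h0.ne', one_mul]
  have e1 : pos (W t0 V) t s = pos (W t0 V) t0 s + ∫ τ in t0..t, W t0 V τ s := by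
    unfold pos
    rw [intervalIntegral.integral_add_adjacent_intervals j1 j2]
  have e2 : pos V t s = pos V t0 s + ∫ τ in t0..t, V τ s := by
    unfold pos
    rw [intervalIntegral.integral_add_adjacent_intervals i1 i2]
  rw [e1, e2, e0, intervalIntegral.integral_congr (g := fun τ => V τ s)]
  intro x hx
  exact (hcongr x hx).symm

end LIN

theorem t_LIN (hCNT : S_CNT) (hREG : S_REG) : S_LIN := by
  intro T V hT hmin hE t0 ht0 hle
  obtain ⟨hpath, hen⟩ := hmin
  have h0 : 0 < t0 := ht0.1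
  have h0T : t0 < T := ht0.2
  obtain ⟨r1, r2, -, r4, -, -⟩ := hREG T V hT hpath.meas hpath.fin
  obtain ⟨-, -, c3, c4, -, -, -⟩ := hCNT 0 1 one_pos
  have mW := LIN.meas_W t0 V hpath.meas r4
  -- the kinetic energies
  have hkey : kin T V = kin T (LIN.W t0 V) +
      ∫⁻ s, (∫⁻ t in Ioo 0 T, ENNReal.ofReal ((V t s - LIN.W t0 V t s) ^ 2)) ∂lam := by
    rw [LIN.kin_swap T V hpath.meas, LIN.kin_swap T _ mW, ← lintegral_add_left]
    · apply lintegral_congr_ae
      filter_upwards [r1, r2] with s hs1 hs2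
      exact LIN.one_label T t0 h0 h0T V s hs1 hs2
    · have := LIN.meas_sq _ mW
      exact Measurable.lintegral_prod_left' (μ := volume.restrict (Ioo 0 T)) this
  have hkinW : kin T (LIN.W t0 V) < ∞ := by
    refine lt_of_le_of_lt ?_ hpath.fin
    rw [hkey]
    exact le_self_add
  have hposge : ∀ t ∈ Icc t0 T, ∀ᵐ s ∂lam, pos (LIN.W t0 V) t s = pos V t s := by
    intro t ht
    filter_upwards [r1] with s hs
    exact LIN.pos_W_ge T t0 h0 V t s hs ht.1 ht.2
  have hpathW : Path T (LIN.W t0 V) := by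
    refine ⟨mW, hkinW, ?_, ?_⟩
    · intro t ht
      rcases le_total t t0 with h | h
      · have hm := hpath.mono t0 ⟨h0.le, h0T.le⟩
        unfold AEMono at hm ⊢
        filter_upwards [hm] with p hp hp'
        rw [LIN.pos_W_lt t0 V t p.1 ⟨ht.1, h⟩, LIN.pos_W_lt t0 V t p.2 ⟨ht.1, h⟩]
        exact mul_le_mul_of_nonneg_left (hp hp') (div_nonneg ht.1 h0.le)
      · have hm := hpath.mono t ht
        have hae := hposge t ⟨h, ht.2⟩
        unfold AEMono at hm ⊢
        have q1 : ∀ᵐ p ∂(lam.prod lam), pos (LIN.W t0 V) t p.1 = pos V t p.1 :=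
          Measure.quasiMeasurePreserving_fst.ae hae
        have q2 : ∀ᵐ p ∂(lam.prod lam), pos (LIN.W t0 V) t p.2 = pos V t p.2 :=
          Measure.quasiMeasurePreserving_snd.ae hae
        filter_upwards [hm, q1, q2] with p hp h1 h2 hp'
        rw [h1, h2]
        exact hp hp'
    · filter_upwards [hposge T ⟨h0T.le, le_rfl⟩, hpath.final] with s h1 h2
      rw [h1, h2]
  -- the number of atoms
  have hN : ∫⁻ t in Ioo 0 T, cnt (pos (LIN.W t0 V) t) ≤ ∫⁻ t in Ioo 0 T, cnt (pos V t) := by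
    rw [LIN.split T t0 h0 h0T, LIN.split T t0 h0 h0T]
    refine add_le_add ?_ ?_
    · apply lintegral_mono_ae
      filter_upwards [hle, ae_restrict_mem measurableSet_Ioo] with t ht htm
      refine le_trans ?_ ht
      have hfun : pos (LIN.W t0 V) t = fun s => (fun x => t / t0 * x) (pos V t0 s) := by
        funext s
        exact LIN.pos_W_lt t0 V t s ⟨htm.1.le, htm.2.le⟩
      rw [hfun]
      exact c3 (pos V t0) (fun x => t / t0 * x)
    · apply lintegral_mono_ae
      filter_upwards [ae_restrict_mem measurableSet_Ico] with t htm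
      exact (c4 _ _ (hposge t ⟨htm.1, htm.2.le⟩)).le
  have hEle : E T ≤ en T (LIN.W t0 V) := by
    unfold E
    exact iInf₂_le (LIN.W t0 V) hpathW
  have hfinN : (∫⁻ t in Ioo 0 T, cnt (pos V t)) ≠ ∞ := by
    have : en T V ≠ ∞ := by rw [hen]; exact hE.ne
    unfold en at this
    exact (ENNReal.add_ne_top.1 this).1
  have hkinle : kin T V ≤ kin T (LIN.W t0 V) := by
    have h1 : (∫⁻ t in Ioo 0 T, cnt (pos V t)) + kin T V ≤
        (∫⁻ t in Ioo 0 T, cnt (pos V t)) + kin T (LIN.W t0 V) := by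
      calc (∫⁻ t in Ioo 0 T, cnt (pos V t)) + kin T V = en T V := rfl
        _ = E T := hen
        _ ≤ en T (LIN.W t0 V) := hEle
        _ = (∫⁻ t in Ioo 0 T, cnt (pos (LIN.W t0 V) t)) + kin T (LIN.W t0 V) := rfl
        _ ≤ _ := add_le_add hN le_rfl
    exact (ENNReal.add_le_add_iff_left hfinN).1 h1
  have hD : ∫⁻ s, (∫⁻ t in Ioo 0 T, ENNReal.ofReal ((V t s - LIN.W t0 V t s) ^ 2)) ∂lam = 0 := by
    rw [hkey] at hkinle
    have h2 : kin T (LIN.W t0 V) +
        (∫⁻ s, (∫⁻ t in Ioo 0 T, ENNReal.ofReal ((V t s - LIN.W t0 V t s) ^ 2)) ∂lam) ≤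
        kin T (LIN.W t0 V) + 0 := by rw [add_zero]; exact hkinle
    exact le_antisymm ((ENNReal.add_le_add_iff_left hkinW.ne).1 h2) bot_le
  have mVW : Measurable (Function.uncurry fun t s => V t s - LIN.W t0 V t s) :=
    hpath.meas.sub mW
  have mD : Measurable fun s =>
      ∫⁻ t in Ioo 0 T, ENNReal.ofReal ((V t s - LIN.W t0 V t s) ^ 2) := by
    have := LIN.meas_sq _ mVW
    exact Measurable.lintegral_prod_left' (μ := volume.restrict (Ioo 0 T)) this
  have hDae := (lintegral_eq_zero_iff mD).1 hD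
  intro t ht
  filter_upwards [hDae] with s hs
  have ms : Measurable fun t => ENNReal.ofReal ((V t s - LIN.W t0 V t s) ^ 2) := by
    have := LIN.meas_sq _ mVW
    exact this.comp (measurable_id.prodMk measurable_const)
  have hs2 := (lintegral_eq_zero_iff ms).1 hs
  rw [← LIN.pos_W_lt t0 V t s ht]
  unfold pos
  apply intervalIntegral.integral_congr_ae
  have hs3 : ∀ᵐ x : ℝ, x ∈ Ioo 0 T → V x s = LIN.W t0 V x s := by
    rw [← ae_restrict_iff' measurableSet_Ioo]
    filter_upwards [hs2] with x hx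
    simp only [Pi.zero_apply, ENNReal.ofReal_eq_zero] at hx
    have : V x s - LIN.W t0 V x s = 0 := by
      have h3 : (V x s - LIN.W t0 V x s) ^ 2 = 0 := le_antisymm hx (sq_nonneg _)
      exact pow_eq_zero_iff (two_ne_zero) |>.1 h3
    linarith
  filter_upwards [hs3] with x hx hx'
  rw [uIoc_of_le ht.1] at hx'
  exact hx ⟨hx'.1, lt_of_le_of_lt (hx'.2.trans ht.2) h0T⟩

end Pool.Agent.R508.BT
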