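import Pool.Agent.R508.BT.Stm

/-!
# BT-LSC: weak limits of nondecreasing functions, lower semicontinuity of the number of values.
-/

open MeasureTheory Set Filter Topology
open scoped ENNReal

namespace Pool.Agent.R508.BT

namespace LSC

theorem ii {f : ℝ → ℝ} (hf : IntegrableOn f (Ioo 0 1)) {a b : ℝ} (ha : 0 ≤ a) (hab : a ≤ b)
    (hb : b ≤ 1) : IntervalIntegrable f volume a b := by
  rw [intervalIntegrable_iff_integrableOn_Ioo_of_le hab]
  exact hf.mono_set (Ioo_subset_Ioo ha hb)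

theorem ae1 {f : ℝ → ℝ} (h : AEMono f) : ∀ᵐ x ∂lam, ∀ᵐ y ∂lam, x ≤ y → f x ≤ f y :=
  Measure.ae_ae_of_ae_prod h

theorem ae2 {f : ℝ → ℝ} (h : AEMono f) : ∀ᵐ y ∂lam, ∀ᵐ x ∂lam, x ≤ y → f x ≤ f y := by
  have h2 : ∀ᵐ p ∂(lam.prod lam), (Prod.swap p).1 ≤ (Prod.swap p).2 →
      f (Prod.swap p).1 ≤ f (Prod.swap p).2 :=
    (Measure.measurePreserving_swap (μ := lam) (ν := lam)).quasiMeasurePreserving.ae h
  exact Measure.ae_ae_of_ae_prod h2

theorem pw1 {f : ℝ → ℝ} (hm : AEMono f) (hf : IntegrableOn f (Ioo 0 1)) {a b : ℝ} (ha : 0 ≤ a)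
    (hab : a ≤ b) (hb : b ≤ 1) : ∀ᵐ s ∂lam, b ≤ s → ∫ x in a..b, f x ≤ (b - a) * f s := by
  filter_upwards [ae2 hm] with s hs hbs
  have h1 : ∫ x in Ioo a b, f x ≤ ∫ _x in Ioo a b, f s := by
    refine setIntegral_mono_ae_restrict (hf.mono_set (Ioo_subset_Ioo ha hb))
      (by simp) ?_
    have h2 := ae_restrict_of_ae_restrict_of_subset (Ioo_subset_Ioo ha hb) hs
    filter_upwards [h2, ae_restrict_mem measurableSet_Ioo] with x hx hx'
    exact hx (hx'.2.le.trans hbs)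
  rw [intervalIntegral.integral_of_le hab, integral_Ioc_eq_integral_Ioo]
  refine h1.trans (le_of_eq ?_)
  rw [setIntegral_const, smul_eq_mul, Measure.real, Real.volume_Ioo,
    ENNReal.toReal_ofReal (by linarith)]

theorem pw2 {f : ℝ → ℝ} (hm : AEMono f) (hf : IntegrableOn f (Ioo 0 1)) {a b : ℝ} (ha : 0 ≤ a)
    (hab : a ≤ b) (hb : b ≤ 1) : ∀ᵐ s ∂lam, s ≤ a → (b - a) * f s ≤ ∫ x in a..b, f x := by
  filter_upwards [ae1 hm] with s hs hbs
  have h1 : ∫ _x in Ioo a b, f s ≤ ∫ x in Ioo a b, f x := by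
    refine setIntegral_mono_ae_restrict (by simp)
      (hf.mono_set (Ioo_subset_Ioo ha hb)) ?_
    have h2 := ae_restrict_of_ae_restrict_of_subset (Ioo_subset_Ioo ha hb) hs
    filter_upwards [h2, ae_restrict_mem measurableSet_Ioo] with x hx hx'
    exact hx (hbs.trans hx'.1.le)
  rw [intervalIntegral.integral_of_le hab, integral_Ioc_eq_integral_Ioo]
  refine le_trans (le_of_eq ?_) h1
  rw [setIntegral_const, smul_eq_mul, Measure.real, Real.volume_Ioo,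
    ENNReal.toReal_ofReal (by linarith)]

theorem avg {f : ℝ → ℝ} (hm : AEMono f) (hf : IntegrableOn f (Ioo 0 1)) {a b c d : ℝ}
    (ha : 0 ≤ a) (hab : a ≤ b) (hbc : b ≤ c) (hcd : c ≤ d) (hd : d ≤ 1) :
    (d - c) * ∫ x in a..b, f x ≤ (b - a) * ∫ x in c..d, f x := by
  have h0 := pw1 hm hf ha hab (by linarith)
  have hc0 : 0 ≤ c := by linarith
  have h1 : ∫ _s in Ioo c d, (∫ x in a..b, f x) ≤ ∫ s in Ioo c d, (b - a) * f s := by
    refine setIntegral_mono_ae_restrict (by simp)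
      ((hf.mono_set (Ioo_subset_Ioo hc0 hd)).const_mul _) ?_
    have h2 := ae_restrict_of_ae_restrict_of_subset (Ioo_subset_Ioo hc0 hd) h0
    filter_upwards [h2, ae_restrict_mem measurableSet_Ioo] with x hx hx'
    exact hx (hbc.trans hx'.1.le)
  rw [setIntegral_const, smul_eq_mul, Measure.real, Real.volume_Ioo,
    ENNReal.toReal_ofReal (by linarith), integral_const_mul] at h1
  rw [intervalIntegral.integral_of_le hcd, integral_Ioc_eq_integral_Ioo]
  exact h1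

/-- good points of `g` -/
def Good (g : ℝ → ℝ) (s : ℝ) : Prop :=
  s ∈ Ioo (0 : ℝ) 1 ∧ HasDerivAt (fun x => ∫ t in (0 : ℝ)..x, g t) (g s) s

theorem good_ae {g : ℝ → ℝ} (hg : IntegrableOn g (Ioo 0 1)) : ∀ᵐ s ∂lam, Good g s := by
  have h1 := (ii hg le_rfl zero_le_one le_rfl).ae_hasDerivAt_integral
  have h2 : ∀ᵐ s ∂lam, s ∈ uIcc (0 : ℝ) 1 → ∀ c ∈ uIcc (0 : ℝ) 1,
      HasDerivAt (fun x => ∫ t in c..x, g t) (g s) s := ae_restrict_of_ae h1
  filter_upwards [h2, ae_restrict_mem measurableSet_Ioo] with s hs hs'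
  refine ⟨hs', ?_⟩
  apply hs _ 0 left_mem_uIcc
  rw [uIcc_of_le zero_le_one]
  exact Ioo_subset_Icc_self hs'

theorem intF {g : ℝ → ℝ} (hg : IntegrableOn g (Ioo 0 1)) {a b : ℝ} (ha : 0 ≤ a) (hab : a ≤ b)
    (hb : b ≤ 1) : ∫ x in a..b, g x = (∫ t in (0 : ℝ)..b, g t) - ∫ t in (0 : ℝ)..a, g t := by
  rw [eq_sub_iff_add_eq, add_comm]
  exact intervalIntegral.integral_add_adjacent_intervals (ii hg le_rfl ha (hab.trans hb))
    (ii hg ha hab hb)

theorem lim2 {g : ℝ → ℝ} (hg : IntegrableOn g (Ioo 0 1)) {s : ℝ} (hs : Good g s) :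
    Tendsto (fun h : ℝ => h⁻¹ * ∫ x in s..(s + h), g x) (𝓝[>] 0) (𝓝 (g s)) := by
  have h1 := (hasDerivAt_iff_tendsto_slope_zero.1 hs.2)
  have h2 := h1.mono_left (nhdsWithin_mono (0 : ℝ) (s := Ioi 0) (t := {0}ᶜ)
    (fun x (hx : 0 < x) => hx.ne'))
  refine h2.congr' ?_
  have h3 : ∀ᶠ h : ℝ in 𝓝[>] 0, h < 1 - s :=
    nhdsWithin_le_nhds (Iio_mem_nhds (by linarith [hs.1.2]))
  filter_upwards [h3, self_mem_nhdsWithin] with h hh hh0
  have hh0' : (0 : ℝ) < h := hh0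
  rw [intF hg hs.1.1.le (by linarith) (by linarith), smul_eq_mul]

theorem lim1 {g : ℝ → ℝ} (hg : IntegrableOn g (Ioo 0 1)) {s : ℝ} (hs : Good g s) :
    Tendsto (fun h : ℝ => h⁻¹ * ∫ x in (s - h)..s, g x) (𝓝[>] 0) (𝓝 (g s)) := by
  have h1 := (hasDerivAt_iff_tendsto_slope_zero.1 hs.2)
  have hneg : Tendsto (fun h : ℝ => -h) (𝓝[>] 0) (𝓝[≠] 0) := by
    refine tendsto_nhdsWithin_iff.2 ⟨?_, ?_⟩
    · have : Tendsto (fun h : ℝ => -h) (𝓝 0) (𝓝 (-0)) := (continuous_neg).tendsto 0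
      rw [neg_zero] at this
      exact this.mono_left nhdsWithin_le_nhds
    · filter_upwards [self_mem_nhdsWithin] with h hh
      have hh' : (0 : ℝ) < h := hh
      exact neg_ne_zero.2 hh'.ne'
  have h2 := h1.comp hneg
  refine h2.congr' ?_
  have h3 : ∀ᶠ h : ℝ in 𝓝[>] 0, h < s :=
    nhdsWithin_le_nhds (Iio_mem_nhds (by linarith [hs.1.1]))
  filter_upwards [h3, self_mem_nhdsWithin] with h hh hh0
  have hh0' : (0 : ℝ) < h := hh0
  rw [intF hg (a := s - h) (b := s) (by linarith) (by linarith) hs.1.2.le]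
  simp only [Function.comp, smul_eq_mul]
  rw [inv_neg, ← sub_eq_add_neg]
  ring

theorem lim3 {g : ℝ → ℝ} (hg : IntegrableOn g (Ioo 0 1)) {s : ℝ} (hs : Good g s) :
    Tendsto (fun h : ℝ => h⁻¹ * ∫ x in (s + h)..(s + 2 * h), g x) (𝓝[>] 0) (𝓝 (g s)) := by
  have h1 := lim2 hg hs
  have hdbl : Tendsto (fun h : ℝ => 2 * h) (𝓝[>] 0) (𝓝[>] 0) := by
    refine tendsto_nhdsWithin_iff.2 ⟨?_, ?_⟩
    · have : Tendsto (fun h : ℝ => 2 * h) (𝓝 0) (𝓝 (2 * 0)) :=
        (continuous_const.mul continuous_id).tendsto 0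
      rw [mul_zero] at this
      exact this.mono_left nhdsWithin_le_nhds
    · filter_upwards [self_mem_nhdsWithin] with h hh
      have hh' : (0 : ℝ) < h := hh
      show (0 : ℝ) < 2 * h
      linarith
  have h2 := (((h1.comp hdbl).const_mul 2).sub h1)
  have e : 2 * g s - g s = g s := by ring
  rw [e] at h2
  refine h2.congr' ?_
  have h3 : ∀ᶠ h : ℝ in 𝓝[>] 0, h < (1 - s) / 2 :=
    nhdsWithin_le_nhds (Iio_mem_nhds (by linarith [hs.1.2]))
  filter_upwards [h3, self_mem_nhdsWithin] with h hh hh0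
  have hh0' : (0 : ℝ) < h := hh0
  simp only [Function.comp]
  rw [intF hg (a := s + h) (b := s + 2 * h) (by linarith [hs.1.1]) (by linarith) (by linarith),
    intF hg (a := s) (b := s + 2 * h) hs.1.1.le (by linarith) (by linarith),
    intF hg (a := s) (b := s + h) hs.1.1.le (by linarith) (by linarith), mul_inv]
  ring

theorem exists_window (f : ℕ → ℝ → ℝ) (g : ℝ → ℝ) (hf : ∀ n, IntegrableOn (f n) (Ioo 0 1))
    (hg : IntegrableOn g (Ioo 0 1)) (hm : ∀ n, AEMono (f n))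
    (hlim : ∀ a b : ℝ, 0 ≤ a → a ≤ b → b ≤ 1 →
      Tendsto (fun n => ∫ s in a..b, f n s) atTop (𝓝 (∫ s in a..b, g s)))
    {δ : ℝ} (hδ : 0 < δ) {s : ℝ} (hs : Good g s) :
    ∀ᶠ n in atTop, ∃ h : ℝ, 0 < h ∧ s + h ≤ 1 ∧
      ∀ᵐ σ ∂lam, s < σ → σ < s + h → |f n σ - g s| < δ := by
  have e1 : ∀ᶠ h : ℝ in 𝓝[>] 0, g s - δ < h⁻¹ * ∫ x in (s - h)..s, g x :=
    (lim1 hg hs).eventually (lt_mem_nhds (by linarith))
  have e2 : ∀ᶠ h : ℝ in 𝓝[>] 0, h⁻¹ * ∫ x in (s + h)..(s + 2 * h), g x < g s + δ :=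
    (lim3 hg hs).eventually (gt_mem_nhds (by linarith))
  have e3 : ∀ᶠ h : ℝ in 𝓝[>] 0, h < (1 - s) / 2 :=
    nhdsWithin_le_nhds (Iio_mem_nhds (by linarith [hs.1.2]))
  have e4 : ∀ᶠ h : ℝ in 𝓝[>] 0, h < s :=
    nhdsWithin_le_nhds (Iio_mem_nhds (by linarith [hs.1.1]))
  obtain ⟨h, h1, h2, h3, h4, h5⟩ := (e1.and (e2.and (e3.and (e4.and self_mem_nhdsWithin)))).exists
  have hh : (0 : ℝ) < h := h5
  have t1 := ((hlim (s - h) s (by linarith) (by linarith) hs.1.2.le).const_mul h⁻¹).eventually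
    (lt_mem_nhds h1)
  have t2 := ((hlim (s + h) (s + 2 * h) (by linarith [hs.1.1]) (by linarith)
    (by linarith)).const_mul h⁻¹).eventually (gt_mem_nhds h2)
  filter_upwards [t1, t2] with n n1 n2
  refine ⟨h, hh, by linarith, ?_⟩
  filter_upwards [pw1 (hm n) (hf n) (a := s - h) (b := s) (by linarith) (by linarith) hs.1.2.le,
    pw2 (hm n) (hf n) (a := s + h) (b := s + 2 * h) (by linarith [hs.1.1]) (by linarith)
      (by linarith)] with σ p1 p2 hσ1 hσ2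
  have q1 := p1 hσ1.le
  have q2 := p2 hσ2.le
  have q1' : h⁻¹ * ∫ x in (s - h)..s, f n x ≤ f n σ := by
    rw [inv_mul_le_iff₀ hh]
    calc _ ≤ _ := q1
      _ = _ := by ring
  have q2' : f n σ ≤ h⁻¹ * ∫ x in (s + h)..(s + 2 * h), f n x := by
    rw [le_inv_mul_iff₀ hh]
    calc _ = _ := by ring
      _ ≤ _ := q2
  rw [abs_lt]
  constructor <;> linarith

theorem aemono_lim (f : ℕ → ℝ → ℝ) (g : ℝ → ℝ) (hf : ∀ n, IntegrableOn (f n) (Ioo 0 1))
    (hg : IntegrableOn g (Ioo 0 1)) (hm : ∀ n, AEMono (f n))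
    (hlim : ∀ a b : ℝ, 0 ≤ a → a ≤ b → b ≤ 1 →
      Tendsto (fun n => ∫ s in a..b, f n s) atTop (𝓝 (∫ s in a..b, g s))) : AEMono g := by
  have h1 : ∀ᵐ p ∂(lam.prod lam), Good g p.1 :=
    Measure.quasiMeasurePreserving_fst.ae (good_ae hg)
  have h2 : ∀ᵐ p ∂(lam.prod lam), Good g p.2 :=
    Measure.quasiMeasurePreserving_snd.ae (good_ae hg)
  unfold AEMono
  filter_upwards [h1, h2] with p hp1 hp2 hle
  rcases hle.eq_or_lt with heq | hlt
  · rw [heq]
  · refine le_of_tendsto_of_tendsto (lim2 hg hp1) (lim1 hg hp2) ?_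
    have e3 : ∀ᶠ h : ℝ in 𝓝[>] 0, h < (p.2 - p.1) / 2 :=
      nhdsWithin_le_nhds (Iio_mem_nhds (by linarith))
    filter_upwards [e3, self_mem_nhdsWithin] with h hh hh0
    have hh0' : (0 : ℝ) < h := hh0
    have b1 := hp1.1.1
    have b2 := hp2.1.2
    have k1 : (p.2 - (p.2 - h)) * ∫ x in p.1..(p.1 + h), g x ≤
        ((p.1 + h) - p.1) * ∫ x in (p.2 - h)..p.2, g x :=
      le_of_tendsto_of_tendsto'
        ((hlim p.1 (p.1 + h) b1.le (by linarith) (by linarith)).const_mul _)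
        ((hlim (p.2 - h) p.2 (by linarith) (by linarith) b2.le).const_mul _)
        (fun n => avg (hm n) (hf n) b1.le (by linarith) (by linarith) (by linarith) b2.le)
    have k2 : h * ∫ x in p.1..(p.1 + h), g x ≤ h * ∫ x in (p.2 - h)..p.2, g x := by
      calc _ = _ := by ring
        _ ≤ _ := k1
        _ = _ := by ring
    have k3 := le_of_mul_le_mul_left k2 hh0'
    exact mul_le_mul_of_nonneg_left k3 (inv_nonneg.2 hh0'.le)

theorem exists_pts (g : ℝ → ℝ) (hg : IntegrableOn g (Ioo 0 1)) (k : ℕ)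
    (hk : (k : ℝ≥0∞) < cnt g) : ∀ m ≤ k + 1, ∃ S : Finset ℝ, (∀ s ∈ S, Good g s) ∧ S.card = m ∧
      Set.InjOn g S := by
  intro m
  induction m with
  | zero => intro _; exact ⟨∅, by simp, by simp, by simp⟩
  | succ m ih =>
    intro hmk
    obtain ⟨S, hS1, hS2, hS3⟩ := ih (by omega)
    classical
    have hA : ¬ ∀ᵐ s ∂(volume.restrict (Ioo (0 : ℝ) 1)), g s ∈ S.image g := by
      intro hA
      have h1 : cnt g ≤ ((S.image g).card : ℝ≥0∞) := iInf₂_le (S.image g) hA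
      have h2 : (S.image g).card ≤ k := Finset.card_image_le.trans (by omega)
      have h3 : ((S.image g).card : ℝ≥0∞) ≤ (k : ℝ≥0∞) := by exact_mod_cast h2
      exact absurd (h1.trans h3) (not_le.2 hk)
    obtain ⟨s, hs1, hs2⟩ : ∃ s, Good g s ∧ g s ∉ S.image g := by
      by_contra hcon
      push Not at hcon
      apply hA
      filter_upwards [good_ae hg] with s hs
      exact hcon s hs
    have hsS : s ∉ S := fun h => hs2 (Finset.mem_image_of_mem g h)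
    refine ⟨insert s S, ?_, ?_, ?_⟩
    · intro t ht
      rcases Finset.mem_insert.1 ht with rfl | ht
      · exact hs1
      · exact hS1 t ht
    · rw [Finset.card_insert_of_notMem hsS, hS2]
    · rw [Finset.coe_insert, Set.injOn_insert (by simpa using hsS)]
      refine ⟨hS3, ?_⟩
      rintro ⟨t, ht, hts⟩
      exact hs2 (by rw [← hts]; exact Finset.mem_image_of_mem g (by simpa using ht))

theorem key (f : ℕ → ℝ → ℝ) (g : ℝ → ℝ) (hf : ∀ n, IntegrableOn (f n) (Ioo 0 1))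
    (hg : IntegrableOn g (Ioo 0 1)) (hm : ∀ n, AEMono (f n))
    (hlim : ∀ a b : ℝ, 0 ≤ a → a ≤ b → b ≤ 1 →
      Tendsto (fun n => ∫ s in a..b, f n s) atTop (𝓝 (∫ s in a..b, g s))) (k : ℕ)
    (hk : (k : ℝ≥0∞) < cnt g) : ∀ᶠ n in atTop, ((k + 1 : ℕ) : ℝ≥0∞) ≤ cnt (f n) := by
  classical
  obtain ⟨S, hS1, hS2, hS3⟩ := exists_pts g hg k hk (k + 1) le_rfl
  obtain ⟨δ, hδ0, hδ⟩ : ∃ δ : ℝ, 0 < δ ∧ ∀ s ∈ S, ∀ t ∈ S, s ≠ t → 2 * δ ≤ |g s - g t| := by
    have h1 : ∀ᶠ δ : ℝ in 𝓝[>] 0, ∀ p ∈ S ×ˢ S, p.1 ≠ p.2 → 2 * δ ≤ |g p.1 - g p.2| := by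
      rw [Finset.eventually_all]
      intro p hp
      by_cases hne : p.1 = p.2
      · exact Filter.Eventually.of_forall (fun δ h => absurd hne h)
      · rw [Finset.mem_product] at hp
        have h2 : 0 < |g p.1 - g p.2| := by
          rw [abs_pos, sub_ne_zero]
          intro h
          exact hne (hS3 (by simpa using hp.1) (by simpa using hp.2) h)
        have h3 : ∀ᶠ δ : ℝ in 𝓝[>] 0, δ < |g p.1 - g p.2| / 2 :=
          nhdsWithin_le_nhds (Iio_mem_nhds (by linarith))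
        filter_upwards [h3] with δ h4 _
        linarith
    obtain ⟨δ, h2, h3⟩ := (h1.and self_mem_nhdsWithin).exists
    exact ⟨δ, h3, fun s hs t ht hst => h2 (s, t) (Finset.mem_product.2 ⟨hs, ht⟩) hst⟩
  have hev : ∀ᶠ n in atTop, ∀ s ∈ S, ∃ h : ℝ, 0 < h ∧ s + h ≤ 1 ∧
      ∀ᵐ σ ∂lam, s < σ → σ < s + h → |f n σ - g s| < δ := by
    rw [Finset.eventually_all]
    intro s hs
    exact exists_window f g hf hg hm hlim hδ0 (hS1 s hs)
  filter_upwards [hev] with n hn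
  refine le_iInf₂ (fun A hA => ?_)
  have hex : ∀ s ∈ S, ∃ a ∈ A, |a - g s| < δ := by
    intro s hs
    obtain ⟨h, h1, h2, h3⟩ := hn s hs
    by_contra hcon
    push Not at hcon
    have h4 : ∀ᵐ σ ∂lam, ¬ (s < σ ∧ σ < s + h) := by
      filter_upwards [h3, hA] with σ h5 h6 h7
      exact absurd (h5 h7.1 h7.2) (not_lt.2 (hcon _ h6))
    have h5 : ∀ᵐ σ ∂(volume.restrict (Ioo s (s + h))), ¬ (s < σ ∧ σ < s + h) :=
      ae_restrict_of_ae_restrict_of_subset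
        (Ioo_subset_Ioo (hS1 s hs).1.1.le h2) h4
    have h6 : ∀ᵐ σ ∂(volume.restrict (Ioo s (s + h))), False := by
      filter_upwards [h5, ae_restrict_mem measurableSet_Ioo] with σ h7 h8
      exact h7 ⟨h8.1, h8.2⟩
    rw [Filter.eventually_false_iff_eq_bot, ae_eq_bot, Measure.restrict_eq_zero,
      Real.volume_Ioo, ENNReal.ofReal_eq_zero] at h6
    linarith
  choose! φ hφ1 hφ2 using hex
  have hcard : S.card ≤ A.card := by
    refine Finset.card_le_card_of_injOn φ (fun s hs => hφ1 s hs) ?_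
    intro s hs t ht hst
    by_contra hne
    have h1 := hδ s hs t ht hne
    have h2 := hφ2 s hs
    have h3 := hφ2 t ht
    rw [hst] at h2
    rw [abs_lt] at h2 h3
    have h4 : |g s - g t| < 2 * δ := by
      rw [abs_lt]
      constructor <;> linarith
    linarith
  rw [hS2] at hcard
  exact_mod_cast hcard

end LSC

theorem t_LSC : S_LSC := by
  intro f g hf hg hm hlim
  refine ⟨LSC.aemono_lim f g hf hg hm hlim, ?_⟩
  by_contra hcon
  rw [not_le] at hcon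
  have hne : liminf (fun n => cnt (f n)) atTop ≠ ⊤ := (lt_of_lt_of_le hcon le_top).ne
  have hex : ∃ m : ℕ, liminf (fun n => cnt (f n)) atTop < m := ENNReal.exists_nat_gt hne
  classical
  set m := Nat.find hex with hmdef
  have hm1 : liminf (fun n => cnt (f n)) atTop < m := Nat.find_spec hex
  rcases Nat.eq_zero_or_pos m with h0 | hpos
  · rw [h0] at hm1
    simp at hm1
  · obtain ⟨k, hk⟩ : ∃ k, m = k + 1 := ⟨m - 1, by omega⟩
    have hk1 : ¬ liminf (fun n => cnt (f n)) atTop < (k : ℝ≥0∞) :=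
      Nat.find_min hex (by omega)
    rw [not_lt] at hk1
    have h2 := LSC.key f g hf hg hm hlim k (lt_of_le_of_lt hk1 hcon)
    have h3 : ((k + 1 : ℕ) : ℝ≥0∞) ≤ liminf (fun n => cnt (f n)) atTop :=
      le_liminf_of_le (by isBoundedDefault) h2
    rw [hk] at hm1
    exact absurd hm1 (not_lt.2 h3)

end Pool.Agent.R508.BT
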