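import Pool.Agent.R508.BT.Stm

/-!
# MEAS: measurability in time of the number of atoms
-/

open MeasureTheory Set
open scoped ENNReal

namespace Pool.Agent.R508.BT

namespace Meas

/-- the rational interval with the end points `q` -/
def RI (q : ℚ × ℚ) : Set ℝ := Ioo (q.1 : ℝ) (q.2 : ℝ)

theorem exists_RI {U : Set ℝ} (hU : IsOpen U) {x : ℝ} (hx : x ∈ U) : ∃ q, x ∈ RI q ∧ RI q ⊆ U := by
  obtain ⟨ε, hε, hb⟩ := Metric.isOpen_iff.1 hU x hx
  obtain ⟨p, hp1, hp2⟩ := exists_rat_btwn (show x - ε < x by linarith)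
  obtain ⟨q, hq1, hq2⟩ := exists_rat_btwn (show x < x + ε by linarith)
  refine ⟨(p, q), ⟨hp2, hq1⟩, ?_⟩
  intro y hy
  apply hb
  rw [Metric.mem_ball, Real.dist_eq, abs_lt]
  have h1 : (p : ℝ) < y := hy.1
  have h2 : y < (q : ℝ) := hy.2
  constructor <;> linarith

/-- the condition on a family of rational intervals -/
def Good (μ : Measure ℝ) (f : ℝ → ℝ) (p : Σ k : ℕ, (Fin k → ℚ × ℚ)) : Prop :=
  (Pairwise fun i j => Disjoint (RI (p.2 i)) (RI (p.2 j))) ∧ ∀ i, 0 < μ {s | f s ∈ RI (p.2 i)}

open Classical in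
theorem cnt_eq (a b : ℝ) (f : ℝ → ℝ) : cntOn a b f =
    ⨆ p : Σ k : ℕ, (Fin k → ℚ × ℚ),
      if Good (volume.restrict (Ioo a b)) f p then (p.1 : ℝ≥0∞) else 0 := by
  set μ := volume.restrict (Ioo a b) with hμ
  apply le_antisymm
  · set S : Set ℝ := {x | ∀ q : ℚ × ℚ, x ∈ RI q → 0 < μ {s | f s ∈ RI q}} with hS
    have hae : ∀ᵐ s ∂μ, f s ∈ S := by
      rw [ae_iff]
      have hsub : {s | ¬ f s ∈ S} ⊆ ⋃ q : {q : ℚ × ℚ // μ {s | f s ∈ RI q} = 0},
          {s | f s ∈ RI q.1} := by
        intro s hs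
        have hs' : ¬ ∀ q : ℚ × ℚ, f s ∈ RI q → 0 < μ {s | f s ∈ RI q} := hs
        push Not at hs'
        obtain ⟨q, hq, hq'⟩ := hs'
        rw [mem_iUnion]
        exact ⟨⟨q, le_antisymm hq' bot_le⟩, hq⟩
      exact measure_mono_null hsub (measure_iUnion_null fun q => q.2)
    have hF : ∀ F : Finset ℝ, (F : Set ℝ) ⊆ S → (F.card : ℝ≥0∞) ≤
        ⨆ p : Σ k : ℕ, (Fin k → ℚ × ℚ), if Good μ f p then (p.1 : ℝ≥0∞) else 0 := by
      intro F hFS
      obtain ⟨U, hU, hd⟩ := F.finite_toSet.t2_separation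
      have hex : ∀ x : ℝ, ∃ q, x ∈ RI q ∧ RI q ⊆ U x := fun x => exists_RI (hU x).2 (hU x).1
      choose q hq1 hq2 using hex
      let e := F.equivFin.symm
      refine le_trans ?_ (le_iSup _ ⟨F.card, fun i => q (e i)⟩)
      rw [if_pos]
      constructor
      · intro i j hij
        have hne : ((e i : F) : ℝ) ≠ (e j : F) := fun h => hij (e.injective (Subtype.ext h))
        exact (hd (e i).2 (e j).2 hne).mono (hq2 _) (hq2 _)
      · intro i
        exact hFS (e i).2 _ (hq1 _)
    by_cases hfin : S.Finite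
    · have h1 := hF hfin.toFinset (by simp)
      refine le_trans ?_ h1
      refine iInf₂_le hfin.toFinset ?_
      filter_upwards [hae] with s hs
      simpa using hs
    · have hinf : S.Infinite := hfin
      refine le_trans le_top (le_of_eq ?_)
      symm
      refine ENNReal.eq_top_of_forall_nnreal_le fun r => ?_
      obtain ⟨n, hn⟩ := exists_nat_gt r
      obtain ⟨F, hF1, hF2⟩ := hinf.exists_subset_card_eq n
      have h2 := hF F hF1
      rw [hF2] at h2
      refine le_trans ?_ h2
      have : ((r : NNReal) : ℝ≥0∞) ≤ ((n : NNReal) : ℝ≥0∞) := ENNReal.coe_le_coe.2 hn.le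
      simpa using this
  · refine iSup_le fun p => ?_
    split_ifs with hg
    · refine le_iInf₂ fun A hA => ?_
      have hex : ∀ i : Fin p.1, ∃ x ∈ A, x ∈ RI (p.2 i) := by
        intro i
        by_contra hno
        push Not at hno
        refine absurd (hg.2 i) (not_lt.2 (le_of_eq ?_))
        refine measure_mono_null ?_ (ae_iff.1 hA)
        intro s hs hsA
        exact hno _ hsA hs
      choose x hxA hxI using hex
      have hinj : Function.Injective x := by
        intro i j hij
        by_contra hne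
        exact disjoint_left.1 (hg.1 hne) (hxI i) (hij ▸ hxI j)
      have := Finset.card_le_card_of_injOn (s := (Finset.univ : Finset (Fin p.1))) (t := A) x
        (fun i _ => hxA i) (fun i _ j _ h => hinj h)
      rw [Finset.card_univ, Fintype.card_fin] at this
      exact_mod_cast this
    · exact bot_le

theorem measurable_cnt (a b : ℝ) {X : ℝ → ℝ → ℝ} (hX : Measurable (Function.uncurry X)) :
    Measurable (fun t => cntOn a b (X t)) := by
  classical
  simp_rw [cnt_eq]
  refine Measurable.iSup fun p => ?_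
  refine Measurable.ite ?_ measurable_const measurable_const
  have h : {t | Good (volume.restrict (Ioo a b)) (X t) p} =
      {t | Pairwise fun i j => Disjoint (RI (p.2 i)) (RI (p.2 j))} ∩
        ⋂ i, {t | 0 < (volume.restrict (Ioo a b)) {s | X t s ∈ RI (p.2 i)}} := by
    ext t
    simp only [Good, mem_ofPred_eq, mem_inter_iff, mem_iInter]
  rw [h]
  refine (MeasurableSet.const _).inter (MeasurableSet.iInter fun i => ?_)
  refine measurableSet_lt measurable_const ?_
  have hs : MeasurableSet (Function.uncurry X ⁻¹' RI (p.2 i)) := hX measurableSet_Ioo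
  exact measurable_measure_prodMk_left hs

theorem measurable_pos {V : ℝ → ℝ → ℝ} (hV : Measurable (Function.uncurry V)) :
    Measurable (Function.uncurry fun t s : ℝ => ∫ τ, (Ioc (0 : ℝ) t).indicator (fun τ => V τ s) τ) := by
  have h1 : Measurable (fun p : (ℝ × ℝ) × ℝ => (Ioc (0 : ℝ) p.1.1).indicator (fun τ => V τ p.1.2) p.2) := by
    have h2 : (fun p : (ℝ × ℝ) × ℝ => (Ioc (0 : ℝ) p.1.1).indicator (fun τ => V τ p.1.2) p.2) =
        {p : (ℝ × ℝ) × ℝ | 0 < p.2 ∧ p.2 ≤ p.1.1}.indicator
          (fun p => Function.uncurry V (p.2, p.1.2)) := by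
      funext p
      by_cases h : 0 < p.2 ∧ p.2 ≤ p.1.1
      · rw [indicator_of_mem (show p.2 ∈ Ioc 0 p.1.1 from h),
          indicator_of_mem (show p ∈ {p : (ℝ × ℝ) × ℝ | 0 < p.2 ∧ p.2 ≤ p.1.1} from h)]
        rfl
      · rw [indicator_of_notMem (show p.2 ∉ Ioc 0 p.1.1 from h),
          indicator_of_notMem (show p ∉ {p : (ℝ × ℝ) × ℝ | 0 < p.2 ∧ p.2 ≤ p.1.1} from h)]
    rw [h2]
    refine Measurable.indicator ?_ ?_
    · exact hV.comp (measurable_snd.prodMk (measurable_snd.comp measurable_fst))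
    · exact (measurableSet_lt measurable_const measurable_snd).inter
        (measurableSet_le measurable_snd (measurable_fst.comp measurable_fst))
  exact (h1.stronglyMeasurable.integral_prod_right (ν := volume)).measurable

end Meas

open Meas in
theorem t_MEAS : S_MEAS := by
  intro T V _ hV _ a b _ _ _
  refine ⟨_, measurable_cnt a b (measurable_pos hV), ?_⟩
  filter_upwards [ae_restrict_mem measurableSet_Ioo] with t ht
  congr 1
  funext s
  rw [pos, intervalIntegral.integral_of_le ht.1.le, integral_indicator measurableSet_Ioc]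

end Pool.Agent.R508.BT
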