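import Pool.Agent.R510.MOL.Act
import Pool.Agent.R510.MOL.Conv

/-! Piece MOL of project BT (helper508, MP_c57125_an), by helper510. -/

set_option autoImplicit false

open MeasureTheory Set Filter Topology
open scoped ENNReal

namespace Pool.Agent.R508.BT

open Pool.Agent.R510.MOL in
theorem t_MOL : S_MOL := by
  intro T mu v hT h
  obtain ⟨M, g⟩ := exists_M T mu v h
  set r : ℕ → ℝ := fun n => min (1 / (7 * ((n : ℝ) + 1))) (T / 16) with hr
  have hr0 : ∀ n, 0 < r n := fun n => lt_min (by positivity) (by positivity)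
  have hr7 : ∀ n, 7 * r n ≤ 1 / ((n : ℝ) + 1) := by
    intro n
    have h1 : r n ≤ 1 / (7 * ((n : ℝ) + 1)) := min_le_left _ _
    have h2 : 7 * (1 / (7 * ((n : ℝ) + 1))) = 1 / ((n : ℝ) + 1) := by
      field_simp
    linarith
  have hr16 : ∀ n, 16 * r n ≤ T := by
    intro n
    have h1 : r n ≤ T / 16 := min_le_right _ _
    linarith
  choose ρ hρ hρc hρ0 hρs _ hρ1 using fun n => exists_rho (hr0 n)
  choose θ χ hχc hχ0 hχ1 hθd hθ hθ1 hθ2 hθ3 using fun n => exists_theta (hr0 n) (hr16 n)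
  refine ⟨fun n t x => I M (ρ n) (Sg (1 / ((n : ℝ) + 1))) (θ n t, x), fun n => ?_,
    fun n a b ha hab hb => ?_, fun t ht x hx => ?_⟩
  · exact smoothCdf h g (hr0 n) (hρ n) (hρc n) (hρ0 n) (hρs n) (hρ1 n) (by positivity)
      (hθ n) (hθ1 n) (hθ2 n)
  · exact act_le h g (hr0 n) (hr7 n) (hρ n) (hρc n) (hρ0 n) (hρs n) (hρ1 n) (by positivity)
      (hχc n) (hχ0 n) (hχ1 n) (hθd n) (hθ1 n) (hθ2 n) (hθ3 n) ha hab hb
  · exact conv h g (s := fun n => θ n t) hr7 (fun n => (hρ n).continuous) hρc hρ0 hρs hρ1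
      (fun n => by have := hθ1 n t; have := hr0 n; linarith)
      (fun n => by have := hθ2 n t; have := hr0 n; linarith) ht (fun n => hθ3 n t ht) hx

end Pool.Agent.R508.BT
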