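import Mathlib
import Pool.Agent.R508.BT.Stm

/-!
Project BT (MP_c57125_an), piece MRG: variations by merging groups for a short time.
-/

open MeasureTheory Set Filter Topology
open scoped ENNReal

namespace Pool.Agent.R508.BT

namespace MRGx

theorem aemono_comp {f G : ℝ → ℝ} (hf : AEMono f) (hG : Monotone G) :
    AEMono (fun s => G (f s)) := by
  unfold AEMono at *
  filter_upwards [hf] with p hp h
  exact hG (hp h)

theorem aemono_congr {f h : ℝ → ℝ} (hf : AEMono f) (hfh : ∀ᵐ s ∂lam, f s = h s) : AEMono h := by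
  unfold AEMono at *
  have h1 : ∀ᵐ p ∂(lam.prod lam), f p.1 = h p.1 :=
    Measure.quasiMeasurePreserving_fst.ae hfh
  have h2 : ∀ᵐ p ∂(lam.prod lam), f p.2 = h p.2 :=
    Measure.quasiMeasurePreserving_snd.ae hfh
  filter_upwards [hf, h1, h2] with p hp h1 h2 hle
  rw [← h1, ← h2]
  exact hp hle

/-- interval integrals of functions which agree on `(a,b]` -/
theorem ii_congr {f h : ℝ → ℝ} {a b : ℝ} (hab : a ≤ b) (hfh : ∀ x ∈ Ioc a b, f x = h x)
    (hh : IntervalIntegrable h volume a b) :
    IntervalIntegrable f volume a b ∧ ∫ x in a..b, f x = ∫ x in a..b, h x := by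
  constructor
  · rw [intervalIntegrable_iff_integrableOn_Ioc_of_le hab] at hh ⊢
    exact hh.congr_fun (fun x hx => (hfh x hx).symm) measurableSet_Ioc
  · rw [intervalIntegral.integral_of_le hab, intervalIntegral.integral_of_le hab]
    exact setIntegral_congr_fun measurableSet_Ioc hfh

/-- the competitor -/
noncomputable def comp (V : ℝ → ℝ → ℝ) (U W : ℝ → ℝ) (τ t0 : ℝ) (t s : ℝ) : ℝ :=
  if t ≤ τ then W s else if t ≤ t0 then (t0 * U s - τ * W s) / (t0 - τ) else V t s

section

variable {V : ℝ → ℝ → ℝ} {U W : ℝ → ℝ} {τ t0 : ℝ}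

theorem comp_pos1 (hτ : 0 < τ) {t : ℝ} (ht0 : 0 ≤ t) (ht : t ≤ τ) (s : ℝ) :
    IntervalIntegrable (fun x => comp V U W τ t0 x s) volume 0 t ∧
      pos (comp V U W τ t0) t s = t * W s := by
  have h := ii_congr (f := fun x => comp V U W τ t0 x s) (h := fun _ => W s) ht0
    (fun x hx => by
      have : x ≤ τ := hx.2.trans ht
      simp [comp, this]) intervalIntegrable_const
  refine ⟨h.1, ?_⟩
  unfold pos
  rw [h.2]
  simp

theorem comp_pos2 (hτ : 0 < τ) (hτt : τ < t0) {t : ℝ} (ht0 : τ ≤ t) (ht : t ≤ t0) (s : ℝ) :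
    IntervalIntegrable (fun x => comp V U W τ t0 x s) volume 0 t ∧
      pos (comp V U W τ t0) t s = τ * W s + (t - τ) * ((t0 * U s - τ * W s) / (t0 - τ)) := by
  have h1 := comp_pos1 (V := V) (U := U) (W := W) (t0 := t0) hτ hτ.le le_rfl s
  have h := ii_congr (f := fun x => comp V U W τ t0 x s)
    (h := fun _ => (t0 * U s - τ * W s) / (t0 - τ)) ht0
    (fun x hx => by
      have h2 : ¬ x ≤ τ := not_le.mpr hx.1
      have h3 : x ≤ t0 := hx.2.trans ht
      simp [comp, h2, h3]) intervalIntegrable_const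
  refine ⟨h1.1.trans h.1, ?_⟩
  have h4 := h1.2
  unfold pos at h4 ⊢
  rw [← intervalIntegral.integral_add_adjacent_intervals h1.1 h.1, h4, h.2,
    intervalIntegral.integral_const, smul_eq_mul]

theorem comp_pos3 {T : ℝ} (hτ : 0 < τ) (hτt : τ < t0) {t : ℝ} (ht0 : t0 ≤ t) (ht : t ≤ T) (s : ℝ)
    (hU : pos V t0 s = t0 * U s) (hV : IntervalIntegrable (fun x => V x s) volume 0 T) :
    pos (comp V U W τ t0) t s = pos V t s := by
  have ht00 : 0 < t0 := hτ.trans hτt
  have h1 := comp_pos2 (V := V) (U := U) (W := W) hτ hτt hτt.le le_rfl s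
  have hVa : IntervalIntegrable (fun x => V x s) volume 0 t0 :=
    hV.mono_set (by
      rw [Set.uIcc_of_le ht00.le, Set.uIcc_of_le (by linarith)]
      exact Set.Icc_subset_Icc le_rfl (ht0.trans ht))
  have hVb : IntervalIntegrable (fun x => V x s) volume t0 t :=
    hV.mono_set (by
      rw [Set.uIcc_of_le ht0, Set.uIcc_of_le (by linarith)]
      exact Set.Icc_subset_Icc ht00.le ht)
  have h := ii_congr (f := fun x => comp V U W τ t0 x s)
    (h := fun x => V x s) ht0
    (fun x hx => by
      have h2 : ¬ x ≤ τ := not_le.mpr (hτt.trans hx.1)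
      have h3 : ¬ x ≤ t0 := not_le.mpr hx.1
      simp [comp, h2, h3]) hVb
  have h4 := h1.2
  unfold pos at h4 hU ⊢
  rw [← intervalIntegral.integral_add_adjacent_intervals h1.1 h.1, h4, h.2,
    ← intervalIntegral.integral_add_adjacent_intervals hVa hVb, hU]
  have : t0 - τ ≠ 0 := by
    have : 0 < t0 - τ := sub_pos.mpr hτt
    exact this.ne'
  field_simp
  ring

theorem comp_meas (hV : Measurable (Function.uncurry V)) (hU : Measurable U) (hW : Measurable W) :
    Measurable (Function.uncurry (comp V U W τ t0)) := by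
  have h1 : Function.uncurry (comp V U W τ t0) = fun p : ℝ × ℝ => if p.1 ≤ τ then W p.2 else
      if p.1 ≤ t0 then (t0 * U p.2 - τ * W p.2) / (t0 - τ) else Function.uncurry V p := by
    funext p
    rfl
  rw [h1]
  refine Measurable.ite (measurableSet_le measurable_fst measurable_const)
    (hW.comp measurable_snd) ?_
  refine Measurable.ite (measurableSet_le measurable_fst measurable_const) ?_ hV
  exact (((hU.comp measurable_snd).const_mul t0).sub
    ((hW.comp measurable_snd).const_mul τ)).div_const _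

end

/-- splitting the interval -/
theorem split2 (f : ℝ → ℝ≥0∞) {t0 T : ℝ} (h0 : 0 < t0) (hT : t0 < T) :
    ∫⁻ t in Ioo 0 T, f t = (∫⁻ t in Ioc 0 t0, f t) + ∫⁻ t in Ioo t0 T, f t := by
  rw [← lintegral_union measurableSet_Ioo]
  · congr 2
    exact (Ioc_union_Ioo_eq_Ioo h0.le hT).symm
  · rw [Set.disjoint_left]
    intro x hx hx'
    exact absurd hx.2 (not_le.mpr hx'.1)

theorem split3 (f : ℝ → ℝ≥0∞) {τ t0 : ℝ} (h0 : 0 < τ) (h1 : τ < t0) :
    ∫⁻ t in Ioc 0 t0, f t = (∫⁻ t in Ioc 0 τ, f t) + ∫⁻ t in Ioc τ t0, f t := by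
  rw [← lintegral_union measurableSet_Ioc]
  · rw [Ioc_union_Ioc_eq_Ioc h0.le h1.le]
  · rw [Set.disjoint_left]
    intro x hx hx'
    exact absurd hx.2 (not_le.mpr hx'.1)

end MRGx

open MRGx in
theorem t_MRG (hCNT : S_CNT) (hREG : S_REG) : S_MRG := by
  intro T V hT hmin hE t0 ht0 hlin n hn g m hg horth hm
  obtain ⟨hpath, hen⟩ := hmin
  obtain ⟨hr1, hr2, -, hr4, -, -⟩ := hREG T V hT hpath.meas hpath.fin
  obtain ⟨-, -, hc3, hc4, hc5, -, -⟩ := hCNT 0 1 one_pos
  have ht00 : 0 < t0 := ht0.1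
  have ht0T : t0 < T := ht0.2
  set P : ℝ → ℝ := pos V t0 with hP
  have hPm : Measurable P := hr4.comp (measurable_const.prodMk measurable_id)
  have hgm : Measurable g := hg.measurable
  let U : ℝ → ℝ := fun s => P s / t0
  let W : ℝ → ℝ := fun s => g (P s / t0)
  have hUm : Measurable U := hPm.div_const t0
  have hWm : Measurable W := hgm.comp hUm
  have hPU : ∀ s, P s = t0 * U s := fun s => by
    simp only [U]
    field_simp
  -- bounded functions of the position
  obtain ⟨A, hA, -, -⟩ := hc5 P (by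
    have h0 : cntOn 0 1 P = (n : ℝ≥0∞) := hn
    rw [h0]
    exact ENNReal.natCast_lt_top n)
  have hint : ∀ F : ℝ → ℝ, Measurable F → Integrable (fun s => F (P s)) lam := by
    intro F hF
    refine Integrable.mono' (integrable_const (∑ x ∈ A, |F x|))
      (hF.comp hPm).aestronglyMeasurable ?_
    filter_upwards [hA] with s hs
    rw [Real.norm_eq_abs]
    exact Finset.single_le_sum (f := fun x => |F x|) (fun x _ => abs_nonneg _) hs
  have hg2 : Measurable (fun x : ℝ => g (x / t0)) := hgm.comp (measurable_id.div_const t0)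
  have hintU2 : Integrable (fun s => U s ^ 2) lam :=
    hint (fun x => (x / t0) ^ 2) ((measurable_id.div_const t0).pow_const 2)
  have hintW2 : Integrable (fun s => W s ^ 2) lam :=
    hint (fun x => (g (x / t0)) ^ 2) (hg2.pow_const 2)
  have hintD : Integrable (fun s => (U s - W s) ^ 2) lam :=
    hint (fun x => (x / t0 - g (x / t0)) ^ 2) (((measurable_id.div_const t0).sub hg2).pow_const 2)
  have hintO : Integrable (fun s => (U s - W s) * W s) lam :=
    hint (fun x => (x / t0 - g (x / t0)) * g (x / t0))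
      (((measurable_id.div_const t0).sub hg2).mul hg2)
  have horth' : ∫ s, (U s - W s) * W s ∂lam = 0 := horth
  set D : ℝ := ∫ s, (U s - W s) ^ 2 ∂lam with hD
  set w : ℝ := ∫ s, W s ^ 2 ∂lam with hw
  have hD0 : 0 ≤ D := integral_nonneg fun s => sq_nonneg _
  have hw0 : 0 ≤ w := integral_nonneg fun s => sq_nonneg _
  have hcomb : ∀ κ : ℝ, ∫ s, (κ * (U s - W s) + W s) ^ 2 ∂lam = κ ^ 2 * D + w := by
    intro κ
    have h1 : (fun s => (κ * (U s - W s) + W s) ^ 2) = fun s =>
        (κ ^ 2 * (U s - W s) ^ 2 + 2 * κ * ((U s - W s) * W s)) + W s ^ 2 := by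
      funext s
      ring
    have i1 : Integrable (fun s => κ ^ 2 * (U s - W s) ^ 2) lam := hintD.const_mul _
    have i2 : Integrable (fun s => 2 * κ * ((U s - W s) * W s)) lam := hintO.const_mul _
    have i3 : Integrable (fun s => κ ^ 2 * (U s - W s) ^ 2 + 2 * κ * ((U s - W s) * W s)) lam :=
      i1.add i2
    rw [h1, integral_add i3 hintW2, integral_add i1 i2, integral_const_mul,
      integral_const_mul, horth']
    ring
  have hU2 : ∫ s, U s ^ 2 ∂lam = D + w := by
    have := hcomb 1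
    rw [one_pow, one_mul] at this
    rw [← this]
    refine integral_congr_ae (Filter.Eventually.of_forall fun s => ?_)
    simp only
    ring
  -- the main inequality
  have key : ∀ τ : ℝ, 0 < τ → τ < t0 → ((n : ℝ) - m) * (t0 - τ) ≤ t0 * D := by
    intro τ hτ hτt
    have hκ : 0 < t0 - τ := sub_pos.mpr hτt
    set V' : ℝ → ℝ → ℝ := comp V U W τ t0 with hV'
    have hV'm : Measurable (Function.uncurry V') := comp_meas hpath.meas hUm hWm
    -- positions
    have hp1 : ∀ t, 0 ≤ t → t ≤ τ → ∀ s, pos V' t s = t * g (P s / t0) := fun t h1 h2 s =>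
      (comp_pos1 hτ h1 h2 s).2
    have hp2 : ∀ t, τ ≤ t → t ≤ t0 → ∀ s, pos V' t s =
        ((t0 - t) * τ * g (P s / t0) + (t - τ) * P s) / (t0 - τ) := by
      intro t h1 h2 s
      rw [hV', (comp_pos2 hτ hτt h1 h2 s).2, hPU s]
      simp only [W]
      rw [hPU s]
      have h3 : t0 * U s / t0 = U s := by field_simp
      rw [h3]
      have := hκ.ne'
      field_simp
      ring
    have hp3 : ∀ t, t0 ≤ t → t ≤ T → ∀ᵐ s ∂lam, pos V' t s = pos V t s := by
      intro t h1 h2
      filter_upwards [hr1] with s hs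
      exact comp_pos3 hτ hτt h1 h2 s (hPU s) hs
    have hG1 : ∀ t, 0 ≤ t → Monotone (fun x : ℝ => t * g (x / t0)) := by
      intro t ht x y hxy
      exact mul_le_mul_of_nonneg_left (hg (div_le_div_of_nonneg_right hxy ht00.le)) ht
    have hG2 : ∀ t, τ ≤ t → t ≤ t0 → Monotone (fun x : ℝ =>
        ((t0 - t) * τ * g (x / t0) + (t - τ) * x) / (t0 - τ)) := by
      intro t h1 h2 x y hxy
      refine div_le_div_of_nonneg_right ?_ hκ.le
      have h3 : g (x / t0) ≤ g (y / t0) := hg (div_le_div_of_nonneg_right hxy ht00.le)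
      have h4 : 0 ≤ (t0 - t) * τ := mul_nonneg (by linarith) hτ.le
      have h5 : 0 ≤ t - τ := by linarith
      exact add_le_add (mul_le_mul_of_nonneg_left h3 h4) (mul_le_mul_of_nonneg_left hxy h5)
    have hPmono : AEMono P := hpath.mono t0 ⟨ht00.le, ht0T.le⟩
    -- kinetic energy
    have hk1 : ∫⁻ t in Ioc 0 τ, ∫⁻ s, ENNReal.ofReal ((V' t s) ^ 2) ∂lam
        = ENNReal.ofReal (τ * w) := by
      have h1 : ∀ t ∈ Ioc 0 τ, ∫⁻ s, ENNReal.ofReal ((V' t s) ^ 2) ∂lam = ENNReal.ofReal w := by
        intro t ht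
        have h2 : ∀ s, V' t s = W s := fun s => by simp [hV', comp, ht.2]
        simp_rw [h2]
        rw [hw, ofReal_integral_eq_lintegral_ofReal hintW2
          (Filter.Eventually.of_forall fun s => sq_nonneg _)]
      rw [setLIntegral_congr_fun measurableSet_Ioc h1, setLIntegral_const, Real.volume_Ioc,
        sub_zero, mul_comm, ← ENNReal.ofReal_mul hτ.le]
    have hk2 : ∫⁻ t in Ioc τ t0, ∫⁻ s, ENNReal.ofReal ((V' t s) ^ 2) ∂lam
        = ENNReal.ofReal ((t0 - τ) * ((t0 / (t0 - τ)) ^ 2 * D + w)) := by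
      have h1 : ∀ t ∈ Ioc τ t0, ∫⁻ s, ENNReal.ofReal ((V' t s) ^ 2) ∂lam
          = ENNReal.ofReal ((t0 / (t0 - τ)) ^ 2 * D + w) := by
        intro t ht
        have h2 : ∀ s, V' t s = t0 / (t0 - τ) * (U s - W s) + W s := by
          intro s
          have h3 : ¬ t ≤ τ := not_le.mpr ht.1
          simp only [hV', comp, h3, ht.2, if_true, if_false]
          have := hκ.ne'
          field_simp
          ring
        simp_rw [h2]
        rw [← hcomb, ofReal_integral_eq_lintegral_ofReal ?_
          (Filter.Eventually.of_forall fun s => sq_nonneg _)]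
        exact hint (fun x => (t0 / (t0 - τ) * (x / t0 - g (x / t0)) + g (x / t0)) ^ 2)
          (((((measurable_id.div_const t0).sub hg2).const_mul _).add hg2).pow_const 2)
      rw [setLIntegral_congr_fun measurableSet_Ioc h1, setLIntegral_const, Real.volume_Ioc,
        mul_comm, ← ENNReal.ofReal_mul hκ.le]
    have hk3 : ∫⁻ t in Ioo t0 T, ∫⁻ s, ENNReal.ofReal ((V' t s) ^ 2) ∂lam
        = ∫⁻ t in Ioo t0 T, ∫⁻ s, ENNReal.ofReal ((V t s) ^ 2) ∂lam := by
      refine setLIntegral_congr_fun measurableSet_Ioo fun t ht => ?_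
      have h2 : ∀ s, V' t s = V t s := by
        intro s
        have h3 : ¬ t ≤ τ := not_le.mpr (hτt.trans ht.1)
        have h4 : ¬ t ≤ t0 := not_le.mpr ht.1
        simp [hV', comp, h3, h4]
      simp only [h2]
    set Rk : ℝ≥0∞ := ∫⁻ t in Ioo t0 T, ∫⁻ s, ENNReal.ofReal ((V t s) ^ 2) ∂lam with hRk
    have hkin' : kin T V' = ENNReal.ofReal (τ * w) +
        ENNReal.ofReal ((t0 - τ) * ((t0 / (t0 - τ)) ^ 2 * D + w)) + Rk := by
      unfold kin
      rw [split2 _ ht00 ht0T, split3 _ hτ hτt, hk1, hk2, hk3]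
    have hkinV : kin T V =
        (∫⁻ t in Ioc 0 t0, ∫⁻ s, ENNReal.ofReal ((V t s) ^ 2) ∂lam) + Rk := by
      unfold kin
      rw [split2 _ ht00 ht0T]
    have hRkfin : Rk ≠ ∞ := by
      have h1 : Rk ≤ kin T V := by
        rw [hkinV]
        exact le_add_self
      exact (h1.trans_lt hpath.fin).ne
    -- the competitor is admissible
    have hpath' : Path T V' := by
      refine ⟨hV'm, ?_, ?_, ?_⟩
      · rw [hkin']
        exact ENNReal.add_lt_top.mpr ⟨ENNReal.add_lt_top.mpr
          ⟨ENNReal.ofReal_lt_top, ENNReal.ofReal_lt_top⟩, hRkfin.lt_top⟩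
      · intro t ht
        rcases le_total t τ with h1 | h1
        · have h2 : pos V' t = fun s => t * g (P s / t0) := funext (hp1 t ht.1 h1)
          rw [h2]
          exact aemono_comp (G := fun x : ℝ => t * g (x / t0)) hPmono (hG1 t ht.1)
        · rcases le_total t t0 with h2 | h2
          · have h3 : pos V' t = fun s => ((t0 - t) * τ * g (P s / t0) + (t - τ) * P s) /
                (t0 - τ) := funext (hp2 t h1 h2)
            rw [h3]
            exact aemono_comp (G := fun x : ℝ =>
              ((t0 - t) * τ * g (x / t0) + (t - τ) * x) / (t0 - τ)) hPmono (hG2 t h1 h2)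
          · refine aemono_congr (hpath.mono t ht) ?_
            filter_upwards [hp3 t h2 ht.2] with s hs
            exact hs.symm
      · filter_upwards [hp3 T ht0T.le le_rfl, hpath.final] with s h1 h2
        rw [h1, h2]
    have hle : en T V ≤ en T V' := by
      rw [hen]
      exact iInf₂_le V' hpath'
    -- numbers of atoms
    set Rc : ℝ≥0∞ := ∫⁻ t in Ioo t0 T, cnt (pos V t) with hRc
    have hcV : ENNReal.ofReal (n * t0) ≤ ∫⁻ t in Ioc 0 t0, cnt (pos V t) := by
      have h1 : ∀ t ∈ Ioc 0 t0, (n : ℝ≥0∞) ≤ cnt (pos V t) := by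
        intro t ht
        have h2 : cnt (pos V t) = cnt (fun s => t / t0 * P s) :=
          hc4 _ _ (hlin t ⟨ht.1.le, ht.2⟩)
        have h3 := hc3 (fun s => t / t0 * P s) (fun x => t0 / t * x)
        have h4 : (fun s => t0 / t * (t / t0 * P s)) = P := by
          funext s
          have := ht.1.ne'
          field_simp
        rw [h4] at h3
        rw [h2, ← hn]
        exact h3
      have h5 : ∫⁻ _t in Ioc 0 t0, (n : ℝ≥0∞) ≤ ∫⁻ t in Ioc 0 t0, cnt (pos V t) :=
        setLIntegral_mono' measurableSet_Ioc h1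
      rw [setLIntegral_const, Real.volume_Ioc, sub_zero] at h5
      rw [ENNReal.ofReal_mul (Nat.cast_nonneg n), ENNReal.ofReal_natCast]
      exact h5
    have hc1' : ∫⁻ t in Ioc 0 τ, cnt (pos V' t) ≤ ENNReal.ofReal (m * τ) := by
      have h1 : ∀ t ∈ Ioc 0 τ, cnt (pos V' t) ≤ (m : ℝ≥0∞) := by
        intro t ht
        have h2 : pos V' t = fun s => t * g (P s / t0) := funext (hp1 t ht.1.le ht.2)
        rw [h2]
        exact (hc3 (fun s => g (P s / t0)) (fun x => t * x)).trans hm
      have h5 : ∫⁻ t in Ioc 0 τ, cnt (pos V' t) ≤ ∫⁻ _t in Ioc 0 τ, (m : ℝ≥0∞) :=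
        setLIntegral_mono' measurableSet_Ioc h1
      rw [setLIntegral_const, Real.volume_Ioc, sub_zero] at h5
      rw [ENNReal.ofReal_mul (Nat.cast_nonneg m), ENNReal.ofReal_natCast]
      exact h5
    have hc2' : ∫⁻ t in Ioc τ t0, cnt (pos V' t) ≤ ENNReal.ofReal (n * (t0 - τ)) := by
      have h1 : ∀ t ∈ Ioc τ t0, cnt (pos V' t) ≤ (n : ℝ≥0∞) := by
        intro t ht
        have h2 : pos V' t = fun s => ((t0 - t) * τ * g (P s / t0) + (t - τ) * P s) /
                (t0 - τ) := funext (hp2 t ht.1.le ht.2)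
        rw [h2, ← hn]
        exact hc3 P (fun x => ((t0 - t) * τ * g (x / t0) + (t - τ) * x) / (t0 - τ))
      have h5 : ∫⁻ t in Ioc τ t0, cnt (pos V' t) ≤ ∫⁻ _t in Ioc τ t0, (n : ℝ≥0∞) :=
        setLIntegral_mono' measurableSet_Ioc h1
      rw [setLIntegral_const, Real.volume_Ioc] at h5
      rw [ENNReal.ofReal_mul (Nat.cast_nonneg n), ENNReal.ofReal_natCast]
      exact h5
    have hc3' : ∫⁻ t in Ioo t0 T, cnt (pos V' t) = Rc := by
      refine setLIntegral_congr_fun measurableSet_Ioo fun t ht => ?_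
      exact hc4 _ _ (hp3 t ht.1.le ht.2.le)
    -- kinetic energy of `V` before `t0`
    have hkV : ENNReal.ofReal (t0 * (D + w)) ≤
        ∫⁻ t in Ioc 0 t0, ∫⁻ s, ENNReal.ofReal ((V t s) ^ 2) ∂lam := by
      have hmeas2 : Measurable (Function.uncurry fun t s => ENNReal.ofReal ((V t s) ^ 2)) :=
        (hpath.meas.pow_const 2).ennreal_ofReal
      rw [lintegral_lintegral_swap hmeas2.aemeasurable]
      rw [← hU2, ← integral_const_mul, ofReal_integral_eq_lintegral_ofReal
        (hintU2.const_mul t0) (Filter.Eventually.of_forall fun s => by positivity)]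
      refine lintegral_mono_ae ?_
      filter_upwards [hr1, hr2] with s h1 h2
      have hsub : uIcc 0 t0 ⊆ uIcc 0 T := by
        rw [Set.uIcc_of_le ht00.le, Set.uIcc_of_le hT.le]
        exact Set.Icc_subset_Icc le_rfl ht0T.le
      have h1' := h1.mono_set hsub
      have h2' := h2.mono_set hsub
      rw [intervalIntegrable_iff_integrableOn_Ioc_of_le ht00.le] at h1' h2'
      rw [← ofReal_integral_eq_lintegral_ofReal h2'
        (Filter.Eventually.of_forall fun t => sq_nonneg _)]
      refine ENNReal.ofReal_le_ofReal ?_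
      have h3 : 0 ≤ ∫ t in Ioc 0 t0, (V t s - U s) ^ 2 :=
        integral_nonneg fun t => sq_nonneg _
      have h4 : (fun t => (V t s - U s) ^ 2) = fun t =>
          ((V t s) ^ 2 - 2 * U s * V t s) + U s ^ 2 := by
        funext t
        ring
      have i1 : Integrable (fun t => 2 * U s * V t s) (volume.restrict (Ioc 0 t0)) :=
        Integrable.const_mul h1' _
      have i2 : Integrable (fun t => (V t s) ^ 2 - 2 * U s * V t s)
          (volume.restrict (Ioc 0 t0)) := Integrable.sub h2' i1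
      rw [h4, integral_add i2 (integrable_const _), integral_sub h2' i1, integral_const_mul,
        setIntegral_const] at h3
      have h5 : ∫ t in Ioc 0 t0, V t s = t0 * U s := by
        rw [← intervalIntegral.integral_of_le ht00.le]
        exact hPU s
      have h6 : volume.real (Ioc 0 t0) = t0 := by
        rw [Real.volume_real_Ioc_of_le ht00.le, sub_zero]
      rw [h5, h6, smul_eq_mul] at h3
      nlinarith
    -- conclusion
    have henV : ENNReal.ofReal (n * t0 + t0 * (D + w)) + (Rc + Rk) ≤ en T V := by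
      unfold en
      rw [split2 (fun t => cnt (pos V t)) ht00 ht0T, hkinV,
        ENNReal.ofReal_add (by positivity) (by positivity)]
      calc ENNReal.ofReal (n * t0) + ENNReal.ofReal (t0 * (D + w)) + (Rc + Rk)
          = (ENNReal.ofReal (n * t0) + Rc) + (ENNReal.ofReal (t0 * (D + w)) + Rk) := by ring
        _ ≤ _ := add_le_add (add_le_add hcV le_rfl) (add_le_add hkV le_rfl)
    have henV' : en T V' ≤ ENNReal.ofReal (m * τ + n * (t0 - τ) + τ * w +
        (t0 - τ) * ((t0 / (t0 - τ)) ^ 2 * D + w)) + (Rc + Rk) := by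
      unfold en
      rw [split2 (fun t => cnt (pos V' t)) ht00 ht0T,
        split3 (fun t => cnt (pos V' t)) hτ hτt, hc3', hkin']
      rw [ENNReal.ofReal_add (by positivity) (by positivity),
        ENNReal.ofReal_add (by positivity) (by positivity),
        ENNReal.ofReal_add (by positivity) (by positivity)]
      calc (∫⁻ t in Ioc 0 τ, cnt (pos V' t)) + (∫⁻ t in Ioc τ t0, cnt (pos V' t)) + Rc +
            (ENNReal.ofReal (τ * w) +
              ENNReal.ofReal ((t0 - τ) * ((t0 / (t0 - τ)) ^ 2 * D + w)) + Rk)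
          ≤ ENNReal.ofReal (m * τ) + ENNReal.ofReal (n * (t0 - τ)) + Rc +
            (ENNReal.ofReal (τ * w) +
              ENNReal.ofReal ((t0 - τ) * ((t0 / (t0 - τ)) ^ 2 * D + w)) + Rk) :=
            add_le_add (add_le_add (add_le_add hc1' hc2') le_rfl) le_rfl
        _ = _ := by ring
    have hRcfin : Rc ≠ ∞ := by
      have h1 : Rc + Rk ≤ en T V := le_add_self.trans henV
      have h2 : Rc ≤ en T V := le_self_add.trans h1
      rw [hen] at h2
      exact (h2.trans_lt hE).ne
    have hfin : Rc + Rk ≠ ∞ := ENNReal.add_ne_top.mpr ⟨hRcfin, hRkfin⟩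
    have h1 := (henV.trans hle).trans henV'
    have h2 := (ENNReal.add_le_add_iff_right hfin).mp h1
    have h3 := (ENNReal.ofReal_le_ofReal_iff (by positivity)).mp h2
    have h4 : (t0 - τ) * ((t0 / (t0 - τ)) ^ 2 * D + w) = t0 ^ 2 * D / (t0 - τ) +
        (t0 - τ) * w := by
      have := hκ.ne'
      field_simp
    rw [h4] at h3
    have h5 : ((n : ℝ) - m) * τ + t0 * D ≤ t0 ^ 2 * D / (t0 - τ) := by linarith
    rw [le_div_iff₀ hκ] at h5
    have h6 : ((n : ℝ) - m) * τ * (t0 - τ) ≤ t0 * D * τ := by nlinarith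
    have h7 : (((n : ℝ) - m) * (t0 - τ)) * τ ≤ (t0 * D) * τ := by linarith
    exact le_of_mul_le_mul_right h7 hτ
  change (n : ℝ) - m ≤ D
  by_contra hcon
  rw [not_le] at hcon
  set c : ℝ := (n : ℝ) - m with hc
  have hc0 : 0 < c := lt_of_le_of_lt hD0 hcon
  have h1 := key (t0 * (c - D) / (2 * c)) (by
    have : 0 < c - D := sub_pos.mpr hcon
    positivity) (by
    rw [div_lt_iff₀ (by positivity)]
    nlinarith)
  have h2 : c * (t0 - t0 * (c - D) / (2 * c)) = t0 * (c + D) / 2 := by
    field_simp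
    ring
  rw [h2] at h1
  nlinarith

end Pool.Agent.R508.BT
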