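import Pool.Agent.R508.BT.Stm

open MeasureTheory Set Filter Topology
open scoped ENNReal

namespace Pool.Agent.R508.BT

namespace MZ

/-- square integrable functions on a finite measure space are integrable (lower integral form) -/
theorem integrable_prod (T : ℝ) (V : ℝ → ℝ → ℝ) (hm : Measurable (Function.uncurry V))
    (hk : kin T V < ∞) : Integrable (Function.uncurry V) ((volume.restrict (Ioo 0 T)).prod lam) := by
  have h1 : MemLp (Function.uncurry V) 2 ((volume.restrict (Ioo 0 T)).prod lam) := by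
    rw [memLp_two_iff_integrable_sq hm.aestronglyMeasurable]
    refine ⟨(hm.pow_const 2).aestronglyMeasurable, ?_⟩
    rw [hasFiniteIntegral_iff_ofReal (Eventually.of_forall fun p => sq_nonneg _)]
    rw [lintegral_prod _ ((hm.pow_const 2).ennreal_ofReal.aemeasurable)]
    exact hk
  exact h1.integrable (by norm_num)

end MZ

open MZ in
theorem t_MZ (hCEN : S_CEN) : S_MZ := by
  intro T V hT hV hE t ht
  obtain ⟨hP', hle⟩ := hCEN T V hT hV.1
  have h1 : E T ≤ en T (fun t s => V t s - ∫ s', V t s' ∂lam) := iInf₂_le _ hP'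
  have h2 : (∫⁻ t in Ioo 0 T, ENNReal.ofReal ((∫ s, V t s ∂lam) ^ 2)) = 0 := by
    rw [hV.2] at hle
    have h3 : E T + (∫⁻ t in Ioo 0 T, ENNReal.ofReal ((∫ s, V t s ∂lam) ^ 2)) ≤ E T + 0 := by
      rw [add_zero]
      exact (add_le_add_left h1 _).trans hle
    have h4 := (ENNReal.add_le_add_iff_left hE.ne).1 h3
    exact le_antisymm h4 zero_le
  have hmean : Measurable (fun t => ∫ s, V t s ∂lam) :=
    (hV.1.meas.stronglyMeasurable.integral_prod_right).measurable
  have h5 : ∀ᵐ τ ∂(volume.restrict (Ioo 0 T)), (∫ s, V τ s ∂lam) = 0 := by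
    rw [lintegral_eq_zero_iff ((hmean.pow_const 2).ennreal_ofReal)] at h2
    filter_upwards [h2] with τ hτ
    have h6 : (∫ s, V τ s ∂lam) ^ 2 ≤ 0 := ENNReal.ofReal_eq_zero.1 hτ
    exact pow_eq_zero_iff (two_ne_zero) |>.1 (le_antisymm h6 (sq_nonneg _))
  have hint := integrable_prod T V hV.1.meas hV.1.fin
  have hsub : Ioc 0 t ⊆ Ioc 0 T := Ioc_subset_Ioc_right ht.2
  have hmeq : (volume.restrict (Ioo 0 T) : Measure ℝ) = volume.restrict (Ioc 0 T) :=
    restrict_Ioo_eq_restrict_Ioc
  rw [hmeq] at hint h5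
  have hint' : Integrable (Function.uncurry V) ((volume.restrict (Ioc 0 t)).prod lam) :=
    hint.mono_measure (Measure.prod_mono (Measure.restrict_mono_set volume hsub) le_rfl)
  have h7 : (∫ s, pos V t s ∂lam) = ∫ s, (∫ τ in Ioc 0 t, V τ s) ∂lam := by
    refine integral_congr_ae (Eventually.of_forall fun s => ?_)
    unfold pos
    exact intervalIntegral.integral_of_le ht.1
  rw [h7]
  rw [← integral_integral_swap hint']
  have h8 : ∀ᵐ τ ∂(volume.restrict (Ioc 0 t)), (∫ s, V τ s ∂lam) = 0 :=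
    ae_mono (Measure.restrict_mono_set volume hsub) h5
  rw [integral_congr_ae (g := fun _ => (0 : ℝ)) h8]
  simp

end Pool.Agent.R508.BT
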