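import Pool.Agent.R508.BT.Stm
import Pool.Agent.R508.BT.Eul

open MeasureTheory Set Filter Topology
open scoped ENNReal

namespace Pool.Agent.R508.BT

namespace Main

lemma r32_pos {a : ℝ} (ha : 0 < a) : 0 < r32 a := Real.rpow_pos_of_pos ha _

/-- the real valued value function -/
noncomputable def ev (T : ℝ) : ℝ := (E T).toReal

lemma ev_nonneg (T : ℝ) : 0 ≤ ev T := ENNReal.toReal_nonneg

lemma EE_le {T : ℝ} {mu : ℝ → Measure ℝ} {v : ℝ → ℝ → ℝ} (h : Adm T mu v) : EE T ≤ enE T mu v := by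
  unfold EE
  exact iInf_le_of_le mu (iInf_le_of_le v (iInf_le_of_le h le_rfl))

lemma fin (hUPP : S_UPP) {T : ℝ} (hT : 0 < T) : E T ≠ ∞ :=
  (lt_of_le_of_lt (hUPP T hT) ENNReal.ofReal_lt_top).ne

lemma ofReal_ev (hUPP : S_UPP) {T : ℝ} (hT : 0 < T) : ENNReal.ofReal (ev T) = E T :=
  ENNReal.ofReal_toReal (fin hUPP hT)

lemma fl_iff (hUPP : S_UPP) (hWAIT : S_WAIT) {T : ℝ} (hT : 0 < T) :
    FL ev T ↔ ∃ t0 ∈ Ioo 0 T, ENNReal.ofReal t0 + E (T - t0) ≤ E T := by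
  constructor
  · rintro ⟨τ, h0, h1, h⟩
    refine ⟨τ, ⟨h0, h1⟩, ?_⟩
    rw [← ofReal_ev hUPP (sub_pos.2 h1), ← ofReal_ev hUPP hT,
      ← ENNReal.ofReal_add h0.le (ev_nonneg _), h]
  · rintro ⟨τ, ⟨h0, h1⟩, h⟩
    refine ⟨τ, h0, h1, le_antisymm ?_ ?_⟩
    · have := hWAIT (T - τ) T (sub_pos.2 h1) (by linarith)
      rw [← ofReal_ev hUPP (sub_pos.2 h1), ← ofReal_ev hUPP hT,
        ← ENNReal.ofReal_add (ev_nonneg _) (by linarith)] at this
      have h2 := (ENNReal.ofReal_le_ofReal_iff (add_nonneg (ev_nonneg _)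
        (by linarith : (0:ℝ) ≤ T - (T - τ)))).1 this
      have h3 : T - (T - τ) = τ := by ring
      rw [h3] at h2
      linarith
    · rw [← ofReal_ev hUPP (sub_pos.2 h1), ← ofReal_ev hUPP hT,
        ← ENNReal.ofReal_add h0.le (ev_nonneg _)] at h
      exact (ENNReal.ofReal_le_ofReal_iff (ev_nonneg _)).1 h

theorem vf (hWAIT : S_WAIT) (hTSC : S_TSC) (hUPP : S_UPP) (hLB : S_LB) (hGLUE : S_GLUE)
    (hLARGE : S_LARGE) (hS : S_S) : VF ev where
  wait := by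
    intro T' T hT' hle
    have := hWAIT T' T hT' hle
    rw [← ofReal_ev hUPP hT', ← ofReal_ev hUPP (lt_of_lt_of_le hT' hle),
      ← ENNReal.ofReal_add (ev_nonneg _) (by linarith)] at this
    exact (ENNReal.ofReal_le_ofReal_iff (add_nonneg (ev_nonneg _) (by linarith))).1 this
  tsc := by
    intro T T' hT hT'
    have := hTSC T T' hT hT'
    have hm : 0 ≤ max (T' / T) (T / T') := le_max_of_le_left (div_pos hT' hT).le
    rw [← ofReal_ev hUPP hT, ← ofReal_ev hUPP hT', ← ENNReal.ofReal_mul hm] at this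
    exact (ENNReal.ofReal_le_ofReal_iff (mul_nonneg hm (ev_nonneg _))).1 this
  upp := by
    intro T hT
    have := hUPP T hT
    rw [← ofReal_ev hUPP hT] at this
    have hc : 0 < cc := by unfold cc; positivity
    exact (ENNReal.ofReal_le_ofReal_iff (by positivity)).1 this
  lb := by
    intro T hT
    have h1 : ENNReal.ofReal (1 / (12 * T)) ≤ E T := by
      unfold E
      refine le_iInf₂ fun V hV => ?_
      exact (hLB T V hT hV).trans le_add_self
    rw [← ofReal_ev hUPP hT] at h1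
    exact (ENNReal.ofReal_le_ofReal_iff (ev_nonneg _)).1 h1
  glue := by
    intro T a hT ha0 ha1
    have := hGLUE T a hT ha0 ha1
    have hb0 : 0 < 1 - a := by linarith
    have hr1 := r32_pos ha0
    have hr2 := r32_pos hb0
    have hK : 0 ≤ a * (1 - a) / (4 * T) := by positivity
    rw [← ofReal_ev hUPP hT, ← ofReal_ev hUPP (div_pos hT hr1), ← ofReal_ev hUPP (div_pos hT hr2),
      ← ENNReal.ofReal_mul hr1.le, ← ENNReal.ofReal_mul hr2.le,
      ← ENNReal.ofReal_add (mul_nonneg hr1.le (ev_nonneg _)) (mul_nonneg hr2.le (ev_nonneg _)),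
      ← ENNReal.ofReal_add (add_nonneg (mul_nonneg hr1.le (ev_nonneg _))
        (mul_nonneg hr2.le (ev_nonneg _))) hK] at this
    exact (ENNReal.ofReal_le_ofReal_iff (add_nonneg (add_nonneg (mul_nonneg hr1.le (ev_nonneg _))
        (mul_nonneg hr2.le (ev_nonneg _))) hK)).1 this
  large := by
    intro T hT
    have hc : 0 < cc := by unfold cc; positivity
    exact (fl_iff hUPP hWAIT (hc.trans hT)).2 (hLARGE T hT)
  str := by
    intro T T' hT hTT' hflat hnFL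
    have hT' : 0 < T' := hT.trans hTT'
    have hflat' : E T' = E T + ENNReal.ofReal (T' - T) := by
      rw [← ofReal_ev hUPP hT', ← ofReal_ev hUPP hT,
        ← ENNReal.ofReal_add (ev_nonneg _) (by linarith), hflat]
    have hn : ¬ ∃ t0 ∈ Ioo 0 T, ENNReal.ofReal t0 + E (T - t0) ≤ E T := fun h =>
      hnFL ((fl_iff hUPP hWAIT hT).2 h)
    obtain ⟨a, ha0, ha1, hle, hf1, hf2⟩ := hS T T' hT hTT' hflat' hn
    have hb0 : 0 < 1 - a := by linarith
    have hr1 := r32_pos ha0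
    have hr2 := r32_pos hb0
    have hK : 0 ≤ a * (1 - a) / (4 * T) := by positivity
    refine ⟨a, ha0, ha1, ?_, (fl_iff hUPP hWAIT (div_pos hT hr1)).2 hf1,
      (fl_iff hUPP hWAIT (div_pos hT hr2)).2 hf2⟩
    rw [← ofReal_ev hUPP hT, ← ofReal_ev hUPP (div_pos hT hr1), ← ofReal_ev hUPP (div_pos hT hr2),
      ← ENNReal.ofReal_mul hr1.le, ← ENNReal.ofReal_mul hr2.le,
      ← ENNReal.ofReal_add (mul_nonneg hr1.le (ev_nonneg _)) (mul_nonneg hr2.le (ev_nonneg _)),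
      ← ENNReal.ofReal_add (add_nonneg (mul_nonneg hr1.le (ev_nonneg _))
        (mul_nonneg hr2.le (ev_nonneg _))) hK] at hle
    exact (ENNReal.ofReal_le_ofReal_iff (ev_nonneg _)).1 hle

/-- quantile form -/
theorem quantile (hWAIT : S_WAIT) (hUPP : S_UPP) (hN1 : S_N1) (hRA : S_RA) (hVF : VF ev)
    {T : ℝ} (hT : 0 < T) (hT4 : T < 1 / 4) {V : ℝ → ℝ → ℝ} (hV : IsMin T V) :
    ¬ ∃ δ : ℝ, 0 < δ ∧ ∀ᵐ t ∂(volume.restrict (Ioo 0 δ)), ∃ c : ℝ, ∀ᵐ s ∂lam, pos V t s = c := by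
  rintro ⟨δ, hδ, h⟩
  apply hRA ev hVF T hT hT4
  rw [fl_iff hUPP hWAIT hT]
  have hm : 0 < min δ T := lt_min hδ hT
  refine ⟨min δ T / 2, ⟨by positivity, ?_⟩, ?_⟩
  · have := min_le_right δ T
    linarith
  · apply hN1 T V hT hV (lt_of_le_of_lt (hUPP T hT) ENNReal.ofReal_lt_top) _
      ⟨by positivity, by have := min_le_right δ T; linarith⟩
    apply ae_mono (Measure.restrict_mono _ le_rfl) h
    intro t ht
    exact ⟨ht.1, by have := min_le_left δ T; have := ht.2; linarith⟩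

theorem EE_eq (hLAG : S_LAG) (hEUL : S_EUL) {T : ℝ} (hT : 0 < T) : EE T = E T := by
  apply le_antisymm
  · unfold E
    refine le_iInf₂ fun V hV => ?_
    obtain ⟨mu, v, had, hle⟩ := hLAG T V hT hV
    exact (EE_le had).trans hle
  · unfold EE
    refine le_iInf fun mu => le_iInf fun v => le_iInf fun had => ?_
    obtain ⟨V, hV, hle, -⟩ := hEUL T mu v hT had
    exact (iInf₂_le V hV).trans hle

/-- measure form -/
theorem eulerian (hREG : S_REG) (hWAIT : S_WAIT) (hUPP : S_UPP) (hEXI : S_EXI) (hN1 : S_N1)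
    (hRA : S_RA) (hVF : VF ev) (hLAG : S_LAG) (hEUL : S_EUL) {T : ℝ} (hT : 0 < T)
    (hT4 : T < 1 / 4) :
    (∃ (mu : ℝ → Measure ℝ) (v : ℝ → ℝ → ℝ), Adm T mu v ∧ enE T mu v = EE T) ∧
    (∀ (mu : ℝ → Measure ℝ) (v : ℝ → ℝ → ℝ), Adm T mu v → enE T mu v = EE T →
      ¬ ∃ δ : ℝ, 0 < δ ∧ ∀ᵐ t ∂(volume.restrict (Ioo 0 δ)), ∃ x : ℝ, mu t = Measure.dirac x) ∧
    (∀ ε : ℝ, 0 < ε → ε < T → EE T < EE (T - ε) + ENNReal.ofReal ε) := by
  refine ⟨?_, ?_, ?_⟩
  · obtain ⟨V, hV⟩ := hEXI T hT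
    obtain ⟨mu, v, had, hle⟩ := hLAG T V hT hV.1
    refine ⟨mu, v, had, le_antisymm ?_ ?_⟩
    · rw [EE_eq hLAG hEUL hT, ← hV.2]
      exact hle
    · exact EE_le had
  · rintro mu v had hmin ⟨δ, hδ, h⟩
    obtain ⟨V, hV, hle, hmap⟩ := hEUL T mu v hT had
    have hVmin : IsMin T V := by
      refine ⟨hV, le_antisymm ?_ (iInf₂_le V hV)⟩
      rw [← EE_eq hLAG hEUL hT, ← hmin]
      exact hle
    apply quantile hWAIT hUPP hN1 hRA hVF hT hT4 hVmin
    have hm : 0 < min δ T := lt_min hδ hT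
    refine ⟨min δ T, hm, ?_⟩
    have h1 : ∀ᵐ t ∂(volume.restrict (Ioo 0 (min δ T))), ∃ x : ℝ, mu t = Measure.dirac x :=
      ae_mono (Measure.restrict_mono (Ioo_subset_Ioo_right (min_le_left _ _)) le_rfl) h
    have h2 : ∀ᵐ t ∂(volume.restrict (Ioo 0 (min δ T))), t ∈ Ioo 0 (min δ T) :=
      ae_restrict_mem measurableSet_Ioo
    filter_upwards [h1, h2] with t ⟨x, hx⟩ ht
    refine ⟨x, ?_⟩
    have htT : t ∈ Icc 0 T := ⟨ht.1.le, ht.2.le.trans (min_le_right _ _)⟩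
    have hmp : Measurable (pos V t) :=
      (hREG T V hT hV.meas hV.fin).2.2.2.1.comp (measurable_const.prodMk measurable_id)
    have h3 : lam.map (pos V t) {x}ᶜ = 0 := by
      rw [hmap t htT, hx]
      simp
    rw [Measure.map_apply hmp (measurableSet_singleton x).compl] at h3
    exact h3
  · intro ε hε hεT
    have hTε : 0 < T - ε := sub_pos.2 hεT
    rw [EE_eq hLAG hEUL hT, EE_eq hLAG hEUL hTε]
    have h1 := hWAIT (T - ε) T hTε (by linarith)
    have h2 : T - (T - ε) = ε := by ring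
    rw [h2] at h1
    refine lt_of_le_of_ne h1 fun heq => ?_
    apply hRA ev hVF T hT hT4
    rw [fl_iff hUPP hWAIT hT]
    exact ⟨ε, ⟨hε, hεT⟩, by rw [heq, add_comm]⟩

end Main

end Pool.Agent.R508.BT
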