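import Pool.Agent.R508.BT.Stm

/-!
Project BT (MP_c57125_an): piece N1.
-/

open MeasureTheory Set Filter Topology
open scoped ENNReal

namespace Pool.Agent.R508.BT

namespace N1P

lemma AEMono.congr {f g : ℝ → ℝ} (hf : AEMono f) (h : ∀ᵐ s ∂lam, f s = g s) : AEMono g := by
  have h1 : ∀ᵐ p ∂(lam.prod lam), f p.1 = g p.1 := Measure.quasiMeasurePreserving_fst.ae h
  have h2 : ∀ᵐ p ∂(lam.prod lam), f p.2 = g p.2 := Measure.quasiMeasurePreserving_snd.ae h
  unfold AEMono at hf ⊢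
  filter_upwards [hf, h1, h2] with p h3 h4 h5 h6
  rw [← h4, ← h5]
  exact h3 h6

/-- positions of the shifted path -/
lemma pos_shift {V : ℝ → ℝ → ℝ} {T t0 s : ℝ} (ht0 : t0 ∈ Ioo 0 T)
    (hI : IntervalIntegrable (fun t => V t s) volume 0 T) (h0 : pos V t0 s = 0) {t : ℝ}
    (ht : t ∈ Icc 0 (T - t0)) : pos (fun t s => V (t + t0) s) t s = pos V (t + t0) s := by
  unfold pos at h0 ⊢
  have h1 := intervalIntegral.integral_comp_add_right (a := 0) (b := t) (fun τ => V τ s) t0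
  rw [h1, zero_add]
  have hT : 0 ≤ T := ht0.1.le.trans ht0.2.le
  have i1 : IntervalIntegrable (fun t => V t s) volume 0 t0 := by
    refine hI.mono_set ?_
    rw [uIcc_of_le ht0.1.le, uIcc_of_le hT]
    exact Icc_subset_Icc le_rfl ht0.2.le
  have i2 : IntervalIntegrable (fun t => V t s) volume t0 (t + t0) := by
    refine hI.mono_set ?_
    rw [uIcc_of_le (by linarith [ht.1]), uIcc_of_le hT]
    exact Icc_subset_Icc ht0.1.le (by linarith [ht.2])
  rw [← intervalIntegral.integral_add_adjacent_intervals i1 i2, h0, zero_add]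

lemma zero_at {V : ℝ → ℝ → ℝ} {T t0 : ℝ} (ht0 : t0 ∈ Ioo 0 T)
    (hI : ∀ᵐ s ∂lam, IntervalIntegrable (fun t => V t s) volume 0 T)
    (h : ∀ᵐ t ∂(volume.restrict (Ioo 0 t0)), ∀ᵐ s ∂lam, pos V t s = 0) :
    ∀ᵐ s ∂lam, pos V t0 s = 0 := by
  -- a sequence of good times
  have hex : ∀ n : ℕ, ∃ t : ℝ, max 0 (t0 - 1 / ((n : ℝ) + 1)) < t ∧ t < t0 ∧
      ∀ᵐ s ∂lam, pos V t s = 0 := by
    intro n
    by_contra hc
    have h1 : (0 : ℝ) < 1 / ((n : ℝ) + 1) := by positivity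
    have hlt : max 0 (t0 - 1 / ((n : ℝ) + 1)) < t0 := max_lt ht0.1 (by linarith)
    have h2 : Ioo (max 0 (t0 - 1 / ((n : ℝ) + 1))) t0 ⊆ Ioo 0 t0 :=
      Ioo_subset_Ioo (le_max_left _ _) le_rfl
    have h3 : ∀ᵐ t ∂(volume.restrict (Ioo (max 0 (t0 - 1 / ((n : ℝ) + 1))) t0)),
        ∀ᵐ s ∂lam, pos V t s = 0 := ae_restrict_of_ae_restrict_of_subset h2 h
    rw [ae_restrict_iff' measurableSet_Ioo] at h3
    have h4 : volume (Ioo (max 0 (t0 - 1 / ((n : ℝ) + 1))) t0) = 0 := by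
      refine measure_mono_null ?_ (ae_iff.1 h3)
      intro t ht
      simp only [mem_ofPred_eq]
      intro h5
      exact hc ⟨t, ht.1, ht.2, h5 ht⟩
    rw [Real.volume_Ioo, ENNReal.ofReal_eq_zero] at h4
    linarith
  choose u hu1 hu2 hu3 using hex
  have hlim : Tendsto u atTop (𝓝 t0) := by
    have hl : Tendsto (fun n : ℕ => t0 - 1 / ((n : ℝ) + 1)) atTop (𝓝 t0) := by
      have := (tendsto_const_nhds (x := t0)).sub tendsto_one_div_add_atTop_nhds_zero_nat
      simpa using this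
    exact tendsto_of_tendsto_of_tendsto_of_le_of_le hl tendsto_const_nhds
      (fun n => (le_max_right _ _).trans (hu1 n).le) (fun n => (hu2 n).le)
  filter_upwards [hI, ae_all_iff.2 hu3] with s hs1 hs2
  have hT : 0 ≤ T := ht0.1.le.trans ht0.2.le
  have hcont : ContinuousOn (fun t => pos V t s) (uIcc 0 T) :=
    intervalIntegral.continuousOn_primitive_interval' hs1 left_mem_uIcc
  rw [uIcc_of_le hT] at hcont
  have h1 := (hcont t0 ⟨ht0.1.le, ht0.2.le⟩).tendsto.comp (tendsto_nhdsWithin_iff.2 ⟨hlim,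
    Eventually.of_forall fun n => (⟨((le_max_left _ _).trans_lt (hu1 n)).le,
      ((hu2 n).trans ht0.2).le⟩ : u n ∈ Icc 0 T)⟩)
  have h2 : (fun t => pos V t s) ∘ u = fun _ => 0 := by
    funext n
    exact hs2 n
  rw [h2] at h1
  exact (tendsto_nhds_unique h1 tendsto_const_nhds)

end N1P

theorem t_N1 (hMZ : S_MZ) (hREG : S_REG) (hCNT : S_CNT) : S_N1 := by
  intro T V hT hmin hE t0 ht0 hc
  obtain ⟨hpath, hen⟩ := hmin
  have hreg := hREG T V hT hpath.meas hpath.fin
  have hI := hreg.1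
  have hcnt := hCNT 0 1 one_pos
  have hz : ∀ᵐ t ∂(volume.restrict (Ioo 0 t0)), ∀ᵐ s ∂lam, pos V t s = 0 := by
    filter_upwards [hc, ae_restrict_mem measurableSet_Ioo] with t ht htm
    obtain ⟨c, hcs⟩ := ht
    have h1 := hMZ T V hT ⟨hpath, hen⟩ hE t ⟨htm.1.le, (htm.2.trans ht0.2).le⟩
    rw [integral_congr_ae hcs, integral_const] at h1
    have h2 : lam.real univ = 1 := by
      rw [measureReal_def, Measure.restrict_apply_univ, Real.volume_Ioo]
      norm_num
    rw [h2, one_smul] at h1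
    filter_upwards [hcs] with s hs
    rw [hs, h1]
  have h0 := N1P.zero_at ht0 hI hz
  have hpos : ∀ t ∈ Icc 0 (T - t0), ∀ᵐ s ∂lam,
      pos V (t + t0) s = pos (fun t s => V (t + t0) s) t s := by
    intro t ht
    filter_upwards [hI, h0] with s hs1 hs2
    exact (N1P.pos_shift ht0 hs1 hs2 ht).symm
  have hsub : Ioo 0 t0 ∪ Ioo t0 T ⊆ Ioo 0 T := by
    apply union_subset
    · exact Ioo_subset_Ioo le_rfl ht0.2.le
    · exact Ioo_subset_Ioo ht0.1.le le_rfl
  have hdisj : Disjoint (Ioo 0 t0) (Ioo t0 T) := by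
    rw [Set.disjoint_left]
    intro x hx hx'
    exact absurd hx.2 (not_lt.2 hx'.1.le)
  have hshift : ∀ f : ℝ → ℝ≥0∞, ∫⁻ t in Ioo 0 (T - t0), f (t + t0) = ∫⁻ t in Ioo t0 T, f t := by
    intro f
    have h1 := (measurePreserving_add_right (volume : Measure ℝ) t0).setLIntegral_comp_preimage_emb
      (measurableEmbedding_addRight t0) f (Ioo t0 T)
    rw [Set.preimage_add_const_Ioo, sub_self] at h1
    exact h1
  have hkin : kin (T - t0) (fun t s => V (t + t0) s) =
      ∫⁻ t in Ioo t0 T, ∫⁻ s, ENNReal.ofReal ((V t s) ^ 2) ∂lam :=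
    hshift (fun t => ∫⁻ s, ENNReal.ofReal ((V t s) ^ 2) ∂lam)
  have hkin2 : kin (T - t0) (fun t s => V (t + t0) s) ≤ kin T V := by
    rw [hkin]
    exact lintegral_mono_set (Ioo_subset_Ioo ht0.1.le le_rfl)
  have hW : Path (T - t0) (fun t s => V (t + t0) s) := by
    refine ⟨?_, lt_of_le_of_lt hkin2 hpath.fin, ?_, ?_⟩
    · exact hpath.meas.comp ((measurable_fst.add_const t0).prodMk measurable_snd)
    · intro t ht
      exact N1P.AEMono.congr (hpath.mono (t + t0) ⟨by linarith [ht.1, ht0.1], by linarith [ht.2]⟩)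
        (hpos t ht)
    · have h1 := hpos (T - t0) ⟨by linarith [ht0.2], le_rfl⟩
      rw [sub_add_cancel] at h1
      filter_upwards [h1, hpath.final] with s hs1 hs2
      rw [← hs1, hs2]
  have hle : ENNReal.ofReal t0 + en (T - t0) (fun t s => V (t + t0) s) ≤ en T V := by
    unfold en
    have h1 : ENNReal.ofReal t0 + ∫⁻ t in Ioo 0 (T - t0), cnt (pos (fun t s => V (t + t0) s) t) ≤
        ∫⁻ t in Ioo 0 T, cnt (pos V t) := by
      have h2 : ∫⁻ t in Ioo 0 (T - t0), cnt (pos (fun t s => V (t + t0) s) t) =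
          ∫⁻ t in Ioo 0 (T - t0), cnt (pos V (t + t0)) := by
        apply setLIntegral_congr_fun measurableSet_Ioo
        intro t ht
        exact (hcnt.2.2.2.1 _ _ (hpos t ⟨ht.1.le, ht.2.le⟩)).symm
      rw [h2, hshift (fun t => cnt (pos V t))]
      refine le_trans ?_ (lintegral_mono_set hsub)
      rw [lintegral_union measurableSet_Ioo hdisj]
      gcongr
      calc ENNReal.ofReal t0 = ∫⁻ _ in Ioo 0 t0, 1 := by
            rw [setLIntegral_const, Real.volume_Ioo, one_mul, sub_zero]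
        _ ≤ ∫⁻ t in Ioo 0 t0, cnt (pos V t) := lintegral_mono fun t => hcnt.1 _
    calc _ = (ENNReal.ofReal t0 + ∫⁻ t in Ioo 0 (T - t0),
          cnt (pos (fun t s => V (t + t0) s) t)) + kin (T - t0) (fun t s => V (t + t0) s) := by
          rw [add_assoc]
      _ ≤ _ := add_le_add h1 hkin2
  rw [← hen]
  refine le_trans ?_ hle
  gcongr
  exact iInf₂_le _ hW

end Pool.Agent.R508.BT
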