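import Mathlib
import Pool.Agent.R508.BT.Stm

open MeasureTheory Set Filter Topology
open scoped ENNReal

namespace Pool.Agent.R508.BT

namespace NM

/-- the competitor: follow the label `u` up to time `t1` -/
noncomputable def W (V : ℝ → ℝ → ℝ) (t1 s1 s2 u : ℝ) : ℝ → ℝ → ℝ :=
  fun t s => if t ≤ t1 ∧ s1 < s ∧ s < s2 then V t u else V t s

lemma W_meas {V : ℝ → ℝ → ℝ} (hV : Measurable (Function.uncurry V)) (t1 s1 s2 u : ℝ) :
    Measurable (Function.uncurry (W V t1 s1 s2 u)) := by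
  have h1 : Measurable (fun p : ℝ × ℝ => V p.1 u) :=
    hV.comp (measurable_fst.prodMk measurable_const)
  have hs : MeasurableSet {p : ℝ × ℝ | p.1 ≤ t1 ∧ s1 < p.2 ∧ p.2 < s2} :=
    (measurableSet_le measurable_fst measurable_const).inter
      ((measurableSet_lt measurable_const measurable_snd).inter
        (measurableSet_lt measurable_snd measurable_const))
  exact Measurable.ite hs h1 hV

lemma pos_W_out (V : ℝ → ℝ → ℝ) (t1 s1 s2 u t s : ℝ) (hs : ¬ (s1 < s ∧ s < s2)) :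
    pos (W V t1 s1 s2 u) t s = pos V t s := by
  unfold pos W
  simp [hs]

lemma pos_W_in (V : ℝ → ℝ → ℝ) (t1 s1 s2 u t s : ℝ) (ht0 : 0 ≤ t) (ht : t ≤ t1)
    (hs : s1 < s ∧ s < s2) : pos (W V t1 s1 s2 u) t s = pos V t u := by
  unfold pos
  apply intervalIntegral.integral_congr
  intro τ hτ
  rw [uIcc_of_le ht0] at hτ
  simp [W, hs, hτ.2.trans ht]

lemma pos_W_late (V : ℝ → ℝ → ℝ) (T t1 s1 s2 u t s : ℝ) (ht1 : 0 ≤ t1) (ht : t1 ≤ t) (htT : t ≤ T)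
    (hs : s1 < s ∧ s < s2) (hu : IntervalIntegrable (fun t => V t u) volume 0 T)
    (hs' : IntervalIntegrable (fun t => V t s) volume 0 T) (hx : pos V t1 u = pos V t1 s) :
    pos (W V t1 s1 s2 u) t s = pos V t s := by
  have hT : 0 ≤ T := ht1.trans (ht.trans htT)
  have sub1 : uIcc 0 t1 ⊆ uIcc 0 T := by
    rw [uIcc_of_le ht1, uIcc_of_le hT]
    exact Icc_subset_Icc le_rfl (ht.trans htT)
  have sub2 : uIcc t1 t ⊆ uIcc 0 T := by
    rw [uIcc_of_le ht, uIcc_of_le hT]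
    exact Icc_subset_Icc ht1 htT
  have a1 : ∀ τ ∈ uIoc 0 t1, V τ u = W V t1 s1 s2 u τ s := by
    intro τ hτ
    rw [uIoc_of_le ht1] at hτ
    simp [W, hs, hτ.2]
  have a2 : ∀ τ ∈ uIoc t1 t, V τ s = W V t1 s1 s2 u τ s := by
    intro τ hτ
    rw [uIoc_of_le ht] at hτ
    simp [W, hs, not_le.2 hτ.1]
  have i1 : IntervalIntegrable (fun τ => W V t1 s1 s2 u τ s) volume 0 t1 := by
    have h := hu.mono_set sub1
    rw [intervalIntegrable_iff] at h ⊢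
    exact h.congr_fun a1 measurableSet_uIoc
  have i2 : IntervalIntegrable (fun τ => W V t1 s1 s2 u τ s) volume t1 t := by
    have h := hs'.mono_set sub2
    rw [intervalIntegrable_iff] at h ⊢
    exact h.congr_fun a2 measurableSet_uIoc
  have e1 : ∫ τ in (0:ℝ)..t1, W V t1 s1 s2 u τ s = pos V t1 u := by
    unfold pos
    refine intervalIntegral.integral_congr_ae (Eventually.of_forall fun τ hτ => (a1 τ hτ).symm)
  have e2 : ∫ τ in t1..t, W V t1 s1 s2 u τ s = ∫ τ in t1..t, V τ s :=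
    intervalIntegral.integral_congr_ae (Eventually.of_forall fun τ hτ => (a2 τ hτ).symm)
  have e3 : pos (W V t1 s1 s2 u) t s = pos V t1 u + ∫ τ in t1..t, V τ s := by
    rw [← e1, ← e2]
    exact (intervalIntegral.integral_add_adjacent_intervals i1 i2).symm
  have e4 : pos V t s = pos V t1 s + ∫ τ in t1..t, V τ s :=
    (intervalIntegral.integral_add_adjacent_intervals (hs'.mono_set sub1) (hs'.mono_set sub2)).symm
  rw [e3, e4, hx]

lemma exists_of_pos {μ : Measure ℝ} {S : Set ℝ} {P : ℝ → Prop} (hS : 0 < μ S)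
    (hP : ∀ᵐ s ∂μ, P s) : ∃ s, s ∈ S ∧ P s := by
  by_contra hcon
  push Not at hcon
  have h0 : μ S = 0 := measure_mono_null (fun s hs => hcon s hs) (ae_iff.1 hP)
  exact hS.ne' h0

lemma cnt_le (f g : ℝ → ℝ) (c : ℝ) (hc : 0 < lam {s | f s = c})
    (hg : ∀ᵐ s ∂lam, g s = f s ∨ g s = c) : cnt g ≤ cnt f := by
  unfold cnt cntOn
  refine le_iInf₂ fun A hA => iInf₂_le A ?_
  obtain ⟨s0, hs0, hs0'⟩ := exists_of_pos hc hA
  have hs0'' : f s0 = c := hs0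
  rw [hs0''] at hs0'
  filter_upwards [hA, hg] with s h1 h2
  rcases h2 with h | h
  · rw [h]
    exact h1
  · rw [h]
    exact hs0'

lemma ae_fst {P : ℝ → Prop} (h : ∀ᵐ s ∂lam, P s) : ∀ᵐ p ∂(lam.prod lam), P p.1 :=
  (Measure.quasiMeasurePreserving_fst (μ := lam) (ν := lam)).ae h

lemma ae_snd {P : ℝ → Prop} (h : ∀ᵐ s ∂lam, P s) : ∀ᵐ p ∂(lam.prod lam), P p.2 :=
  (Measure.quasiMeasurePreserving_snd (μ := lam) (ν := lam)).ae h

lemma AEMono_congr {f g : ℝ → ℝ} (hfg : ∀ᵐ s ∂lam, g s = f s) (hf : AEMono f) : AEMono g := by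
  unfold AEMono at *
  filter_upwards [hf, ae_fst hfg, ae_snd hfg] with p h1 h2 h3 h4
  rw [h2, h3]
  exact h1 h4

lemma AEMono_ite {f g : ℝ → ℝ} {s1 s2 u : ℝ} (hf : AEMono f) (hu1 : s1 < u) (hu2 : u < s2)
    (hgd : ∀ᵐ q ∂lam, (u ≤ q → f u ≤ f q) ∧ (q ≤ u → f q ≤ f u))
    (hg1 : ∀ s, s1 < s → s < s2 → g s = f u) (hg2 : ∀ s, ¬ (s1 < s ∧ s < s2) → g s = f s) :
    AEMono g := by
  unfold AEMono at *
  filter_upwards [hf, ae_fst hgd, ae_snd hgd] with p h1 h2 h3 h4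
  by_cases hp : s1 < p.1 ∧ p.1 < s2
  · by_cases hq : s1 < p.2 ∧ p.2 < s2
    · rw [hg1 _ hp.1 hp.2, hg1 _ hq.1 hq.2]
    · rw [hg1 _ hp.1 hp.2, hg2 _ hq]
      apply h3.1
      by_contra hcon
      exact hq ⟨hp.1.trans_le h4, (not_le.1 hcon).trans hu2⟩
  · by_cases hq : s1 < p.2 ∧ p.2 < s2
    · rw [hg2 _ hp, hg1 _ hq.1 hq.2]
      apply h2.2
      by_contra hcon
      exact hp ⟨hu1.trans (not_le.1 hcon), h4.trans_lt hq.2⟩
    · rw [hg2 _ hp, hg2 _ hq]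
      exact h1 h4

lemma cont_pos {V : ℝ → ℝ → ℝ} {T s : ℝ} (hT : 0 < T)
    (h : IntervalIntegrable (fun t => V t s) volume 0 T) :
    ContinuousOn (fun t => pos V t s) (Icc 0 T) := by
  have h1 := intervalIntegral.continuousOn_primitive_interval' h (left_mem_uIcc)
  rw [uIcc_of_le hT.le] at h1
  exact h1

lemma good_pairs {V : ℝ → ℝ → ℝ} {T : ℝ} (hT : 0 < T)
    (hm : ∀ t ∈ Icc 0 T, AEMono (pos V t))
    (hI : ∀ᵐ s ∂lam, IntervalIntegrable (fun t => V t s) volume 0 T) :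
    ∀ᵐ p ∂(lam.prod lam), ∀ t ∈ Icc 0 T, p.1 ≤ p.2 → pos V t p.1 ≤ pos V t p.2 := by
  have h1 : ∀ᵐ p ∂(lam.prod lam), ∀ r : ℚ, (r : ℝ) ∈ Icc 0 T → p.1 ≤ p.2 →
      pos V r p.1 ≤ pos V r p.2 := by
    rw [ae_all_iff]
    intro r
    by_cases hr : (r : ℝ) ∈ Icc 0 T
    · filter_upwards [hm r hr] with p hp _ h2
      exact hp h2
    · exact Eventually.of_forall fun p h => absurd h hr
  filter_upwards [h1, ae_fst hI, ae_snd hI] with p hp1 hp2 hp3 t ht hle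
  have hcl : closure (Ioo 0 T ∩ range ((↑) : ℚ → ℝ)) = Icc 0 T := by
    apply le_antisymm
    · have := closure_mono (inter_subset_left : Ioo 0 T ∩ range ((↑) : ℚ → ℝ) ⊆ Ioo 0 T)
      rwa [closure_Ioo hT.ne] at this
    · have h5 : Ioo 0 T ⊆ closure (Ioo 0 T ∩ range ((↑) : ℚ → ℝ)) :=
        Dense.open_subset_closure_inter Rat.denseRange_cast isOpen_Ioo
      have h6 := closure_mono h5
      rwa [closure_closure, closure_Ioo hT.ne] at h6
  have hc1 := cont_pos hT hp2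
  have hc2 := cont_pos hT hp3
  rw [← hcl] at hc1 hc2 ht
  refine le_on_closure ?_ hc1 hc2 ht
  rintro x ⟨hx1, r, rfl⟩
  exact hp1 r ⟨hx1.1.le, hx1.2.le⟩ hle

lemma good_ae {V : ℝ → ℝ → ℝ} {T : ℝ} (hT : 0 < T)
    (hm : ∀ t ∈ Icc 0 T, AEMono (pos V t))
    (hI : ∀ᵐ s ∂lam, IntervalIntegrable (fun t => V t s) volume 0 T) :
    ∀ᵐ u ∂lam, ∀ᵐ q ∂lam, ∀ t ∈ Icc 0 T,
      (u ≤ q → pos V t u ≤ pos V t q) ∧ (q ≤ u → pos V t q ≤ pos V t u) := by
  have h1 := good_pairs hT hm hI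
  have h2 : ∀ᵐ p ∂(lam.prod lam), ∀ t ∈ Icc 0 T, p.swap.1 ≤ p.swap.2 →
      pos V t p.swap.1 ≤ pos V t p.swap.2 :=
    (Measure.measurePreserving_swap (μ := lam) (ν := lam)).quasiMeasurePreserving.ae h1
  have h3 := Measure.ae_ae_of_ae_prod (h1.and h2)
  filter_upwards [h3] with u hu
  filter_upwards [hu] with q hq t ht
  exact ⟨hq.1 t ht, hq.2 t ht⟩

/-- kinetic energy of the label up to time `t1` -/
noncomputable def kap (V : ℝ → ℝ → ℝ) (t1 s : ℝ) : ℝ≥0∞ :=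
  ∫⁻ t in Ioc 0 t1, ENNReal.ofReal ((V t s) ^ 2)

/-- kinetic energy of the label after time `t1` -/
noncomputable def rh (V : ℝ → ℝ → ℝ) (t1 T s : ℝ) : ℝ≥0∞ :=
  ∫⁻ t in Ioo t1 T, ENNReal.ofReal ((V t s) ^ 2)

lemma meas_sq {V : ℝ → ℝ → ℝ} (hV : Measurable (Function.uncurry V)) :
    Measurable (fun p : ℝ × ℝ => ENNReal.ofReal ((V p.1 p.2) ^ 2)) :=
  (hV.pow_const 2).ennreal_ofReal

lemma kap_meas {V : ℝ → ℝ → ℝ} (hV : Measurable (Function.uncurry V)) (t1 : ℝ) :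
    Measurable (kap V t1) := by
  unfold kap
  exact (meas_sq hV).lintegral_prod_left'

lemma rh_meas {V : ℝ → ℝ → ℝ} (hV : Measurable (Function.uncurry V)) (t1 T : ℝ) :
    Measurable (rh V t1 T) := by
  unfold rh
  exact (meas_sq hV).lintegral_prod_left'

lemma kin_eq {V : ℝ → ℝ → ℝ} (hV : Measurable (Function.uncurry V)) {t1 T : ℝ}
    (ht1 : t1 ∈ Ioo 0 T) : kin T V = ∫⁻ s, (kap V t1 s + rh V t1 T s) ∂lam := by
  unfold kin
  rw [lintegral_lintegral_swap (f := fun t s => ENNReal.ofReal ((V t s) ^ 2))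
    (meas_sq hV).aemeasurable]
  refine lintegral_congr fun s => ?_
  unfold kap rh
  rw [← lintegral_union measurableSet_Ioo, Ioc_union_Ioo_eq_Ioo ht1.1.le ht1.2]
  rw [disjoint_left]
  intro x hx hx'
  exact absurd hx.2 (not_le.2 hx'.1)

lemma kap_W_in (V : ℝ → ℝ → ℝ) (t1 s1 s2 u s : ℝ) (hs : s1 < s ∧ s < s2) :
    kap (W V t1 s1 s2 u) t1 s = kap V t1 u := by
  unfold kap
  refine setLIntegral_congr_fun measurableSet_Ioc fun t ht => ?_
  simp [W, hs, ht.2]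

lemma kap_W_out (V : ℝ → ℝ → ℝ) (t1 s1 s2 u s : ℝ) (hs : ¬ (s1 < s ∧ s < s2)) :
    kap (W V t1 s1 s2 u) t1 s = kap V t1 s := by
  unfold kap
  refine setLIntegral_congr_fun measurableSet_Ioc fun t _ => ?_
  simp [W, hs]

lemma rh_W (V : ℝ → ℝ → ℝ) (t1 s1 s2 u T s : ℝ) :
    rh (W V t1 s1 s2 u) t1 T s = rh V t1 T s := by
  unfold rh
  refine setLIntegral_congr_fun measurableSet_Ioo fun t ht => ?_
  simp [W, not_le.2 ht.1]

lemma kin_W {V : ℝ → ℝ → ℝ} (hV : Measurable (Function.uncurry V)) {t1 T : ℝ} (s1 s2 u : ℝ)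
    (ht1 : t1 ∈ Ioo 0 T) :
    kin T (W V t1 s1 s2 u) + ∫⁻ s in Ioo s1 s2, kap V t1 s ∂lam =
      kin T V + kap V t1 u * lam (Ioo s1 s2) := by
  rw [kin_eq (W_meas hV t1 s1 s2 u) ht1, kin_eq hV ht1]
  rw [← lintegral_add_compl (fun s => kap (W V t1 s1 s2 u) t1 s + rh (W V t1 s1 s2 u) t1 T s)
    (measurableSet_Ioo : MeasurableSet (Ioo s1 s2)),
    ← lintegral_add_compl (fun s => kap V t1 s + rh V t1 T s)
    (measurableSet_Ioo : MeasurableSet (Ioo s1 s2))]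
  have e1 : ∫⁻ s in Ioo s1 s2, (kap (W V t1 s1 s2 u) t1 s + rh (W V t1 s1 s2 u) t1 T s) ∂lam
      = kap V t1 u * lam (Ioo s1 s2) + ∫⁻ s in Ioo s1 s2, rh V t1 T s ∂lam := by
    rw [setLIntegral_congr_fun (g := fun s => kap V t1 u + rh V t1 T s) measurableSet_Ioo
      (fun s hs => by
        show kap (W V t1 s1 s2 u) t1 s + rh (W V t1 s1 s2 u) t1 T s = kap V t1 u + rh V t1 T s
        rw [kap_W_in _ _ _ _ _ _ hs, rh_W])]
    rw [lintegral_add_left measurable_const, setLIntegral_const]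
  have e2 : ∫⁻ s in (Ioo s1 s2)ᶜ, (kap (W V t1 s1 s2 u) t1 s + rh (W V t1 s1 s2 u) t1 T s) ∂lam
      = ∫⁻ s in (Ioo s1 s2)ᶜ, (kap V t1 s + rh V t1 T s) ∂lam := by
    refine setLIntegral_congr_fun measurableSet_Ioo.compl fun s hs => ?_
    show kap (W V t1 s1 s2 u) t1 s + rh (W V t1 s1 s2 u) t1 T s = kap V t1 s + rh V t1 T s
    rw [kap_W_out _ _ _ _ _ _ hs, rh_W]
  have e3 : ∫⁻ s in Ioo s1 s2, (kap V t1 s + rh V t1 T s) ∂lam
      = ∫⁻ s in Ioo s1 s2, kap V t1 s ∂lam + ∫⁻ s in Ioo s1 s2, rh V t1 T s ∂lam :=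
    lintegral_add_left (kap_meas hV t1) _
  rw [e1, e2, e3]
  ring

lemma path_W {V : ℝ → ℝ → ℝ} {T : ℝ} (hP : Path T V) {t1 s1 s2 u : ℝ}
    (ht1 : t1 ∈ Ioo 0 T) (hu1 : s1 < u) (hu2 : u < s2)
    (hk : kin T (W V t1 s1 s2 u) < ∞)
    (hI : ∀ᵐ s ∂lam, IntervalIntegrable (fun t => V t s) volume 0 T)
    (hIu : IntervalIntegrable (fun t => V t u) volume 0 T)
    (x : ℝ) (hx : pos V t1 u = x) (hJ : ∀ᵐ s ∂lam, s1 < s → s < s2 → pos V t1 s = x)
    (hgd : ∀ᵐ q ∂lam, ∀ t ∈ Icc 0 T,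
      (u ≤ q → pos V t u ≤ pos V t q) ∧ (q ≤ u → pos V t q ≤ pos V t u)) :
    Path T (W V t1 s1 s2 u) ∧
      ∀ t ∈ Icc t1 T, ∀ᵐ s ∂lam, pos (W V t1 s1 s2 u) t s = pos V t s := by
  have late : ∀ t ∈ Icc t1 T, ∀ᵐ s ∂lam, pos (W V t1 s1 s2 u) t s = pos V t s := by
    intro t ht
    filter_upwards [hI, hJ] with s h1 h2
    by_cases hs : s1 < s ∧ s < s2
    · exact pos_W_late V T t1 s1 s2 u t s ht1.1.le ht.1 ht.2 hs hIu h1
        (by rw [hx, h2 hs.1 hs.2])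
    · exact pos_W_out _ _ _ _ _ _ _ hs
  refine ⟨⟨W_meas hP.meas _ _ _ _, hk, ?_, ?_⟩, late⟩
  · intro t ht
    by_cases h : t ≤ t1
    · refine AEMono_ite (hP.mono t ht) hu1 hu2 ?_
        (fun s h1 h2 => pos_W_in _ _ _ _ _ _ _ ht.1 h ⟨h1, h2⟩)
        (fun s h1 => pos_W_out _ _ _ _ _ _ _ h1)
      filter_upwards [hgd] with q hq using hq t ht
    · exact AEMono_congr (late t ⟨(not_le.1 h).le, ht.2⟩) (hP.mono t ht)
  · filter_upwards [late T ⟨ht1.2.le, le_rfl⟩, hP.final] with s h1 h2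
    rw [h1, h2]

lemma cnt_W {V : ℝ → ℝ → ℝ} {T t1 s1 s2 u : ℝ}
    (hg4 : ∀ᵐ t ∂(volume.restrict (Ioo 0 T)), 0 < lam {s | pos V t s = pos V t u})
    (late : ∀ t ∈ Icc t1 T, ∀ᵐ s ∂lam, pos (W V t1 s1 s2 u) t s = pos V t s) :
    ∫⁻ t in Ioo 0 T, cnt (pos (W V t1 s1 s2 u) t) ≤ ∫⁻ t in Ioo 0 T, cnt (pos V t) := by
  refine lintegral_mono_ae ?_
  filter_upwards [hg4, ae_restrict_mem measurableSet_Ioo] with t h1 h2
  by_cases h : t ≤ t1
  · refine cnt_le _ _ (pos V t u) h1 (Eventually.of_forall fun s => ?_)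
    by_cases hs : s1 < s ∧ s < s2
    · right
      exact pos_W_in _ _ _ _ _ _ _ h2.1.le h hs
    · left
      exact pos_W_out _ _ _ _ _ _ _ hs
  · refine cnt_le _ _ (pos V t u) h1 ?_
    filter_upwards [late t ⟨(not_le.1 h).le, h2.2.le⟩] with s hs
    exact Or.inl hs

lemma good_cnt (hCNT : S_CNT) (hMEAS : S_MEAS) (hREG : S_REG) {T : ℝ} {V : ℝ → ℝ → ℝ}
    (hT : 0 < T) (hP : Path T V) (hfin : ∫⁻ t in Ioo 0 T, cnt (pos V t) < ∞) :
    ∀ᵐ u ∂lam, ∀ᵐ t ∂(volume.restrict (Ioo 0 T)), 0 < lam {s | pos V t s = pos V t u} := by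
  have hm := hMEAS T V hT hP.meas hP.fin 0 1 le_rfl one_pos le_rfl
  have h1 : ∀ᵐ t ∂(volume.restrict (Ioo 0 T)), cnt (pos V t) < ∞ := ae_lt_top' hm hfin.ne
  have hX : Measurable (Function.uncurry (pos V)) := (hREG T V hT hP.meas hP.fin).2.2.2.1
  have hset : MeasurableSet {p : ℝ × ℝ | 0 < lam {s | pos V p.1 s = pos V p.1 p.2}} := by
    have h2 : MeasurableSet {z : (ℝ × ℝ) × ℝ | pos V z.1.1 z.2 = pos V z.1.1 z.1.2} := by
      refine measurableSet_eq_fun ?_ ?_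
      · exact hX.comp ((measurable_fst.comp measurable_fst).prodMk measurable_snd)
      · exact hX.comp ((measurable_fst.comp measurable_fst).prodMk
          (measurable_snd.comp measurable_fst))
    have h3 := measurable_measure_prodMk_left (ν := lam) h2
    exact measurableSet_lt measurable_const h3
  rw [← Measure.ae_ae_comm hset]
  filter_upwards [h1] with t ht
  obtain ⟨A, hA1, _, hA3⟩ := (hCNT 0 1 one_pos).2.2.2.2.1 (pos V t) ht
  filter_upwards [hA1] with u hu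
  exact hA3 _ hu

lemma lam_pos {x y : ℝ} (hx : 0 ≤ x) (hy : y ≤ 1) (hxy : x < y) : 0 < lam (Ioo x y) := by
  rw [Measure.restrict_apply measurableSet_Ioo, inter_eq_left.2 (Ioo_subset_Ioo hx hy),
    Real.volume_Ioo]
  simpa using hxy

lemma no_common (hCNT : S_CNT) (hMEAS : S_MEAS) (hREG : S_REG) (hMZ : S_MZ)
    (T : ℝ) (V : ℝ → ℝ → ℝ) (hT : 0 < T) (hmin : IsMin T V) (hE : E T < ∞)
    (t0 : ℝ) (ht0 : t0 ∈ Ioo 0 T) (a v1 v2 : ℝ) (ha : 0 < a) (ha1 : a < 1) (hv : v1 < v2)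
    (hU : ∀ t ∈ Icc 0 t0, ∀ᵐ s ∂lam,
      (s < a → pos V t s = t * v1) ∧ (a < s → pos V t s = t * v2))
    (t1 : ℝ) (ht1 : t1 ∈ Ioo 0 T) (x : ℝ)
    (hx1 : 0 < (volume.restrict (Ioo 0 a)) {s | pos V t1 s = x})
    (hx2 : 0 < (volume.restrict (Ioo a 1)) {s | pos V t1 s = x}) : False := by
  have hP := hmin.1
  obtain ⟨hI, _, _, _, _, _⟩ := hREG T V hT hP.meas hP.fin
  have res1 : ∀ {P : ℝ → Prop}, (∀ᵐ s ∂lam, P s) → ∀ᵐ s ∂(volume.restrict (Ioo 0 a)), P s :=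
    fun h => ae_mono (Measure.restrict_mono (Ioo_subset_Ioo le_rfl ha1.le) le_rfl) h
  have res2 : ∀ {P : ℝ → Prop}, (∀ᵐ s ∂lam, P s) → ∀ᵐ s ∂(volume.restrict (Ioo a 1)), P s :=
    fun h => ae_mono (Measure.restrict_mono (Ioo_subset_Ioo ha.le le_rfl) le_rfl) h
  by_cases h10 : t1 ≤ t0
  · have h1 := hU t1 ⟨ht1.1.le, h10⟩
    obtain ⟨s, hs, hs', hs''⟩ := exists_of_pos hx1
      ((res1 h1).and (ae_restrict_mem measurableSet_Ioo))
    obtain ⟨r, hr, hr', hr''⟩ := exists_of_pos hx2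
      ((res2 h1).and (ae_restrict_mem measurableSet_Ioo))
    have q1 : pos V t1 s = x := hs
    have q2 : pos V t1 r = x := hr
    rw [hs'.1 hs''.2] at q1
    rw [hr'.2 hr''.1] at q2
    have q3 : t1 * v1 < t1 * v2 := mul_lt_mul_of_pos_left hv ht1.1
    linarith
  rw [not_le] at h10
  have hgood := good_ae hT hP.mono hI
  obtain ⟨s1, hs1x, hs1g, hs1m⟩ := exists_of_pos hx1
    ((res1 hgood).and (ae_restrict_mem measurableSet_Ioo))
  obtain ⟨s2, hs2x, hs2g, hs2m⟩ := exists_of_pos hx2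
    ((res2 hgood).and (ae_restrict_mem measurableSet_Ioo))
  have hs1x' : pos V t1 s1 = x := hs1x
  have hs2x' : pos V t1 s2 = x := hs2x
  have ht1' : t1 ∈ Icc 0 T := ⟨ht1.1.le, ht1.2.le⟩
  have hJ : ∀ᵐ s ∂lam, s1 < s → s < s2 → pos V t1 s = x := by
    filter_upwards [hs1g, hs2g] with s h1 h2 h3 h4
    apply le_antisymm
    · have := (h2 t1 ht1').2 h4.le
      rwa [hs2x'] at this
    · have := (h1 t1 ht1').1 h3.le
      rwa [hs1x'] at this
  have hen : en T V < ∞ := by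
    rw [hmin.2]
    exact hE
  have hcf : ∫⁻ t in Ioo 0 T, cnt (pos V t) < ∞ := lt_of_le_of_lt le_self_add hen
  have hkf := hP.fin
  have hκfin : ∫⁻ s, kap V t1 s ∂lam < ∞ := by
    have hkf' := hkf
    rw [kin_eq hP.meas ht1] at hkf'
    exact lt_of_le_of_lt (lintegral_mono fun s => le_self_add) hkf'
  have hκae : ∀ᵐ s ∂lam, kap V t1 s < ∞ := ae_lt_top (kap_meas hP.meas t1) hκfin.ne
  obtain ⟨c, hcdef⟩ : ∃ c : ℝ≥0∞, c = ∫⁻ s in Ioo s1 s2, kap V t1 s ∂lam := ⟨_, rfl⟩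
  have hc : c < ∞ := by
    rw [hcdef]
    exact lt_of_le_of_lt (setLIntegral_le_lintegral _ _) hκfin
  have hgc := good_cnt hCNT hMEAS hREG hT hP hcf
  have key : ∀ᵐ u ∂lam, s1 < u → u < s2 → (Path T (W V t1 s1 s2 u) ∧
      ∫⁻ t in Ioo 0 T, cnt (pos (W V t1 s1 s2 u) t) ≤ ∫⁻ t in Ioo 0 T, cnt (pos V t)) ∧
      c ≤ kap V t1 u * lam (Ioo s1 s2) := by
    filter_upwards [hgood, hI, hgc, hκae, hJ] with u g1 g2 g3 g4 g5 g6 g7
    have hkin := kin_W hP.meas s1 s2 u ht1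
    rw [← hcdef] at hkin
    have hkW : kin T (W V t1 s1 s2 u) < ∞ := by
      refine lt_of_le_of_lt (le_self_add : _ ≤ kin T (W V t1 s1 s2 u) + c) ?_
      rw [hkin]
      exact ENNReal.add_lt_top.2 ⟨hkf, ENNReal.mul_lt_top g4 (measure_lt_top _ _)⟩
    obtain ⟨hp, hl⟩ := path_W hP ht1 g6 g7 hkW hI g2 x (g5 g6 g7) hJ g1
    have hcW := cnt_W (s1 := s1) (s2 := s2) (t1 := t1) g3 hl
    refine ⟨⟨hp, hcW⟩, ?_⟩
    have h1 : E T ≤ en T (W V t1 s1 s2 u) := iInf₂_le _ hp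
    rw [← hmin.2] at h1
    unfold en at h1
    have h2 := h1.trans (add_le_add hcW (le_refl (kin T (W V t1 s1 s2 u))))
    have h3 : kin T V ≤ kin T (W V t1 s1 s2 u) := (ENNReal.add_le_add_iff_left hcf.ne).1 h2
    have h4 : kin T V + c ≤ kin T V + kap V t1 u * lam (Ioo s1 s2) := by
      rw [← hkin]
      exact add_le_add h3 (le_refl c)
    exact (ENNReal.add_le_add_iff_left hkf.ne).1 h4
  have heq : (fun _ => c) =ᵐ[lam.restrict (Ioo s1 s2)]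
      (fun u => kap V t1 u * lam (Ioo s1 s2)) := by
    refine ae_eq_of_ae_le_of_lintegral_le ?_ ?_ ?_ ?_
    · rw [EventuallyLE, ae_restrict_iff' measurableSet_Ioo]
      filter_upwards [key] with u hu hm using (hu hm.1 hm.2).2
    · rw [lintegral_const]
      exact (ENNReal.mul_lt_top hc (measure_lt_top _ _)).ne
    · exact ((kap_meas hP.meas t1).mul_const _).aemeasurable
    · rw [lintegral_mul_const _ (kap_meas hP.meas t1), lintegral_const,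
        Measure.restrict_apply_univ, ← hcdef]
  have hmins : ∀ᵐ u ∂lam, s1 < u → u < s2 → IsMin T (W V t1 s1 s2 u) := by
    rw [Filter.EventuallyEq, ae_restrict_iff' measurableSet_Ioo] at heq
    filter_upwards [key, heq] with u h1 h2 h3 h4
    obtain ⟨⟨hp, hcW⟩, _⟩ := h1 h3 h4
    have h5 := h2 ⟨h3, h4⟩
    have hkin := kin_W hP.meas s1 s2 u ht1
    rw [← hcdef, ← h5] at hkin
    have h6 : kin T (W V t1 s1 s2 u) = kin T V := (ENNReal.add_left_inj hc.ne).1 hkin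
    refine ⟨hp, le_antisymm ?_ (iInf₂_le _ hp)⟩
    rw [← hmin.2]
    unfold en
    rw [h6]
    exact add_le_add hcW (le_refl _)
  have ht0' : t0 ∈ Icc 0 T := ⟨ht0.1.le, ht0.2.le⟩
  obtain ⟨R, hR⟩ : ∃ R : ℝ, R = ∫ s in (Ioo s1 s2)ᶜ, pos V t0 s ∂lam := ⟨_, rfl⟩
  have hval : ∀ᵐ u ∂lam, s1 < u → u < s2 → lam.real (Ioo s1 s2) * pos V t0 u + R = 0 := by
    filter_upwards [hmins] with u h1 h3 h4
    have hm := h1 h3 h4
    have hz := hMZ T _ hT hm hE t0 ht0'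
    have hint := ((hREG T _ hT hm.1.meas hm.1.fin).2.2.1 t0 ht0').2
    rw [← integral_add_compl (measurableSet_Ioo : MeasurableSet (Ioo s1 s2)) hint] at hz
    have e1 : ∫ s in Ioo s1 s2, pos (W V t1 s1 s2 u) t0 s ∂lam
        = lam.real (Ioo s1 s2) * pos V t0 u := by
      rw [setIntegral_congr_fun measurableSet_Ioo (g := fun _ => pos V t0 u)
        (fun s hs => pos_W_in V t1 s1 s2 u t0 s ht0.1.le h10.le hs)]
      rw [setIntegral_const, smul_eq_mul]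
    have e2 : ∫ s in (Ioo s1 s2)ᶜ, pos (W V t1 s1 s2 u) t0 s ∂lam = R := by
      rw [hR]
      exact setIntegral_congr_fun measurableSet_Ioo.compl
        (fun s hs => pos_W_out V t1 s1 s2 u t0 s hs)
    rw [e1, e2] at hz
    exact hz
  have hU0 := hU t0 ⟨ht0.1.le, le_rfl⟩
  obtain ⟨u1, hu1m, hu1, hu1'⟩ := exists_of_pos (lam_pos hs1m.1.le ha1.le hs1m.2) (hval.and hU0)
  obtain ⟨u2, hu2m, hu2, hu2'⟩ := exists_of_pos (lam_pos ha.le hs2m.2.le hs2m.1) (hval.and hU0)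
  have f1 := hu1 hu1m.1 (hu1m.2.trans hs2m.1)
  have f2 := hu2 (hs1m.2.trans hu2m.1) hu2m.2
  rw [hu1'.1 hu1m.2] at f1
  rw [hu2'.2 hu2m.1] at f2
  have hr : 0 < lam.real (Ioo s1 s2) := by
    refine ENNReal.toReal_pos (lam_pos hs1m.1.le hs2m.2.le (hs1m.2.trans hs2m.1)).ne' ?_
    exact (measure_lt_top _ _).ne
  have h7 : lam.real (Ioo s1 s2) * (t0 * v1) < lam.real (Ioo s1 s2) * (t0 * v2) :=
    mul_lt_mul_of_pos_left (mul_lt_mul_of_pos_left hv ht0.1) hr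
  linarith

lemma cntOn_le (b1 b2 : ℝ) (f : ℝ → ℝ) (A A1 : Finset ℝ)
    (hA : ∀ᵐ s ∂(volume.restrict (Ioo b1 b2)), f s ∈ A)
    (hA1 : ∀ x ∈ A, 0 < (volume.restrict (Ioo b1 b2)) {s | f s = x} → x ∈ A1) :
    cntOn b1 b2 f ≤ (A1.card : ℝ≥0∞) := by
  refine iInf₂_le A1 ?_
  have h2 : ∀ᵐ s ∂(volume.restrict (Ioo b1 b2)), ∀ x ∈ A, x ∉ A1 → f s ≠ x := by
    rw [Filter.eventually_all_finset]
    intro x hx
    by_cases hx1 : x ∈ A1
    · exact Eventually.of_forall fun s h => absurd hx1 h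
    · have h3 : (volume.restrict (Ioo b1 b2)) {s | f s = x} = 0 := by
        by_contra hcon
        exact hx1 (hA1 x hx (pos_iff_ne_zero.2 hcon))
      have h4 : ∀ᵐ s ∂(volume.restrict (Ioo b1 b2)), f s ≠ x := by
        rw [ae_iff]
        simpa using h3
      filter_upwards [h4] with s hs _ using hs
  filter_upwards [hA, h2] with s h5 h6
  by_contra hcon
  exact h6 _ h5 hcon rfl

end NM

open NM in
theorem t_NM (hCNT : S_CNT) (hMEAS : S_MEAS) (hREG : S_REG) (hMZ : S_MZ) : S_NM := by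
  intro T V hT hmin hE t0 ht0 a v1 v2 ha ha1 hv hU
  filter_upwards [ae_restrict_mem measurableSet_Ioo] with t1 ht1
  by_cases hfin : cnt (pos V t1) = ∞
  · rw [hfin]
    exact le_top
  obtain ⟨A, hA1, hA2, hA3⟩ := (hCNT 0 1 one_pos).2.2.2.2.1 (pos V t1)
    (lt_top_iff_ne_top.2 hfin)
  classical
  have hdis : Disjoint (A.filter (fun x => 0 < (volume.restrict (Ioo 0 a)) {s | pos V t1 s = x}))
      (A.filter (fun x => 0 < (volume.restrict (Ioo a 1)) {s | pos V t1 s = x})) := by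
    rw [Finset.disjoint_left]
    intro x h1 h2
    exact no_common hCNT hMEAS hREG hMZ T V hT hmin hE t0 ht0 a v1 v2 ha ha1 hv hU t1 ht1 x
      (Finset.mem_filter.1 h1).2 (Finset.mem_filter.1 h2).2
  have c1 := cntOn_le 0 a (pos V t1) A
    (A.filter (fun x => 0 < (volume.restrict (Ioo 0 a)) {s | pos V t1 s = x}))
    (ae_mono (Measure.restrict_mono (Ioo_subset_Ioo le_rfl ha1.le) le_rfl) hA1)
    (fun x hx h => Finset.mem_filter.2 ⟨hx, h⟩)
  have c2 := cntOn_le a 1 (pos V t1) A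
    (A.filter (fun x => 0 < (volume.restrict (Ioo a 1)) {s | pos V t1 s = x}))
    (ae_mono (Measure.restrict_mono (Ioo_subset_Ioo ha.le le_rfl) le_rfl) hA1)
    (fun x hx h => Finset.mem_filter.2 ⟨hx, h⟩)
  refine (add_le_add c1 c2).trans ?_
  change _ ≤ cntOn 0 1 (pos V t1)
  rw [← hA2, ← Nat.cast_add, ← Finset.card_union_of_disjoint hdis]
  exact_mod_cast Finset.card_le_card
    (Finset.union_subset (Finset.filter_subset _ _) (Finset.filter_subset _ _))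

end Pool.Agent.R508.BT
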