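import Pool.Agent.R508.BT.Stm

/-!
Project BT (MP_c57125_an): piece NUM.
-/

open MeasureTheory Set Filter Topology
open scoped ENNReal

namespace Pool.Agent.R508.BT

namespace NUM

lemma r32_eq {a : ℝ} (ha : 0 ≤ a) : r32 a = Real.sqrt a ^ 3 := by
  unfold r32
  rw [Real.sqrt_eq_rpow, ← Real.rpow_natCast, ← Real.rpow_mul ha]
  norm_num

lemma s_sq : Real.sqrt 2 ^ 2 = 2 := Real.sq_sqrt (by norm_num)

lemma s_gt : 1.414213 < Real.sqrt 2 := by
  rw [Real.lt_sqrt (by norm_num)]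
  norm_num

lemma s_lt : Real.sqrt 2 < 1.414214 := by
  rw [Real.sqrt_lt' (by norm_num)]
  norm_num

/-- the factorisation behind (2) and (3) -/
lemma fac {w y : ℝ} (hy : y = (w ^ 2 - 1) / 2) :
    y - cc * (1 - (1 - y) * w) =
      1 / 2 * ((w - 1) * ((Real.sqrt 2 - w) * (cc * w + (1 + 3 * Real.sqrt 2 / 2)))) := by
  subst hy
  unfold cc
  linear_combination (-(w - 1) * (w + 3) / 4) * s_sq

lemma cc_pos : 0 < cc := by
  unfold cc
  have := s_gt
  linarith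

/-- facts on `w = √(1 + 2 y)` -/
lemma w_facts {y : ℝ} (hy : 0 < y) : 1 < Real.sqrt (1 + 2 * y) ∧
    y = (Real.sqrt (1 + 2 * y) ^ 2 - 1) / 2 := by
  have h1 : Real.sqrt (1 + 2 * y) ^ 2 = 1 + 2 * y := Real.sq_sqrt (by linarith)
  refine ⟨?_, by rw [h1]; ring⟩
  rw [Real.lt_sqrt (by norm_num)]
  linarith

theorem p1 (a : ℝ) (ha : 0 < a) (ha1 : a < 1) : r32 a + r32 (1 - a) =
    (1 - Real.sqrt (a * (1 - a))) * Real.sqrt (1 + 2 * Real.sqrt (a * (1 - a))) := by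
  have hb : 0 < 1 - a := by linarith
  have hu := Real.sqrt_nonneg a
  have hv := Real.sqrt_nonneg (1 - a)
  have hu2 : Real.sqrt a ^ 2 = a := Real.sq_sqrt ha.le
  have hv2 : Real.sqrt (1 - a) ^ 2 = 1 - a := Real.sq_sqrt hb.le
  have h1 : 1 + 2 * (Real.sqrt a * Real.sqrt (1 - a)) =
      (Real.sqrt a + Real.sqrt (1 - a)) ^ 2 := by
    linear_combination -hu2 - hv2
  rw [r32_eq ha.le, r32_eq hb.le, Real.sqrt_mul ha.le, h1, Real.sqrt_sq (add_nonneg hu hv)]
  linear_combination (Real.sqrt a + Real.sqrt (1 - a)) * (hu2 + hv2)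

theorem p2 (y : ℝ) (hy : 0 < y) (hy2 : y ≤ 1 / 2) :
    cc * (1 - (1 - y) * Real.sqrt (1 + 2 * y)) ≤ y := by
  obtain ⟨h1, h2⟩ := w_facts hy
  have h3 : Real.sqrt (1 + 2 * y) ≤ Real.sqrt 2 := Real.sqrt_le_sqrt (by linarith)
  have h4 := fac h2
  have h5 := cc_pos
  have h6 := s_gt
  have h7 : 0 ≤ 1 / 2 * ((Real.sqrt (1 + 2 * y) - 1) * ((Real.sqrt 2 - Real.sqrt (1 + 2 * y)) *
      (cc * Real.sqrt (1 + 2 * y) + (1 + 3 * Real.sqrt 2 / 2)))) := by
    refine mul_nonneg (by norm_num) (mul_nonneg (by linarith) (mul_nonneg (by linarith) ?_))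
    have : 0 < cc * Real.sqrt (1 + 2 * y) := mul_pos h5 (by linarith)
    linarith
  linarith

theorem p3 (y : ℝ) (hy : 0 < y) (hy2 : y < 1 / 2) :
    cc * (1 - (1 - y) * Real.sqrt (1 + 2 * y)) < y := by
  obtain ⟨h1, h2⟩ := w_facts hy
  have h3 : Real.sqrt (1 + 2 * y) < Real.sqrt 2 := Real.sqrt_lt_sqrt (by linarith) (by linarith)
  have h4 := fac h2
  have h5 := cc_pos
  have h6 := s_gt
  have h7 : 0 < 1 / 2 * ((Real.sqrt (1 + 2 * y) - 1) * ((Real.sqrt 2 - Real.sqrt (1 + 2 * y)) *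
      (cc * Real.sqrt (1 + 2 * y) + (1 + 3 * Real.sqrt 2 / 2)))) := by
    refine mul_pos (by norm_num) (mul_pos (by linarith) (mul_pos (by linarith) ?_))
    have : 0 < cc * Real.sqrt (1 + 2 * y) := mul_pos h5 (by linarith)
    linarith
  linarith

/-- the quartic is positive -/
lemma quart {w : ℝ} (hw : 13243 / 10000 ≤ w) :
    0 < cc * w ^ 4 + (1 + 3 * Real.sqrt 2 / 2) * w ^ 3 - (1 + Real.sqrt 2) * w ^ 2 -
      (2 + 2 * Real.sqrt 2) * w - (1 + Real.sqrt 2 / 2) := by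
  obtain ⟨d, hd, rfl⟩ : ∃ d : ℝ, 0 ≤ d ∧ w = 13243 / 10000 + d := ⟨w - 13243 / 10000, by linarith,
    by ring⟩
  have hs := s_gt
  set s := Real.sqrt 2 with hsdef
  have e : cc * (13243 / 10000 + d) ^ 4 + (1 + 3 * s / 2) * (13243 / 10000 + d) ^ 3 -
      (1 + s) * (13243 / 10000 + d) ^ 2 - (2 + 2 * s) * (13243 / 10000 + d) - (1 + s / 2) =
      (-41412984981599 / 10000000000000000 + 2385247313158401 / 20000000000000000 * s) +
      (2475696127407 / 250000000000 + 3944201862407 / 500000000000 * s) * d +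
      (674776147 / 50000000 + 1022066147 / 100000000 * s) * d ^ 2 +
      (15743 / 2500 + 20743 / 5000 * s) * d ^ 3 + (1 + 1 / 2 * s) * d ^ 4 := by
    unfold cc
    rw [← hsdef]
    ring
  rw [e]
  have hs0 : 0 < s := by linarith
  have h0 : 0 < -41412984981599 / 10000000000000000 + 2385247313158401 / 20000000000000000 * s := by
    linarith
  positivity

theorem p4 (y : ℝ) (h : 4 * y ^ 2 ≥ 4 * (2 * Real.sqrt 2 - 2) * (3 - 2 * Real.sqrt 2))
    (hy : 0 < y) (hy2 : y < 1 / 2) :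
    cc * y + cc / (4 * y) < y + cc * ((1 - y) * Real.sqrt (1 + 2 * y)) := by
  obtain ⟨h1, h2⟩ := w_facts hy
  have h3 : Real.sqrt (1 + 2 * y) < Real.sqrt 2 := Real.sqrt_lt_sqrt (by linarith) (by linarith)
  have hw2 : Real.sqrt (1 + 2 * y) ^ 2 = 1 + 2 * y := Real.sq_sqrt (by linarith)
  set w := Real.sqrt (1 + 2 * y) with hw
  have hs := s_gt
  have hss := s_sq
  have hy3 : 0.377 < y := by
    by_contra hc
    push Not at hc
    have h5 : y ^ 2 ≤ 0.377 ^ 2 := by nlinarith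
    nlinarith
  have hw3 : 13243 / 10000 ≤ w := by
    by_contra hc
    push Not at hc
    nlinarith
  have hq := quart hw3
  have key : (y + cc * ((1 - y) * w) - cc * y) * (4 * y) - cc =
      (Real.sqrt 2 - w) * (cc * w ^ 4 + (1 + 3 * Real.sqrt 2 / 2) * w ^ 3 -
        (1 + Real.sqrt 2) * w ^ 2 - (2 + 2 * Real.sqrt 2) * w - (1 + Real.sqrt 2 / 2)) := by
    rw [h2]
    unfold cc
    linear_combination (-(w ^ 4 / 2 + 3 * w ^ 3 / 2 - w ^ 2 - 2 * w - 1 / 2)) * hss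
  have h6 : 0 < (Real.sqrt 2 - w) * (cc * w ^ 4 + (1 + 3 * Real.sqrt 2 / 2) * w ^ 3 -
        (1 + Real.sqrt 2) * w ^ 2 - (2 + 2 * Real.sqrt 2) * w - (1 + Real.sqrt 2 / 2)) :=
    mul_pos (by linarith) hq
  have h7 : cc / (4 * y) < y + cc * ((1 - y) * w) - cc * y := by
    rw [div_lt_iff₀ (by linarith)]
    linarith
  linarith

theorem p5 (b t : ℝ) (hb : 0 < b) (hb2 : b ≤ 3 - 2 * Real.sqrt 2) (ht : 0 < t)
    (hbt : 4 * t ^ 2 = b * (1 - b)) :
    (1 - r32 (1 - b)) * (2 * cc * t + cc / (8 * t)) + t / 10 ≤ 2 * t + cc * r32 b := by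
  have hs := s_gt
  have hs' := s_lt
  have hss := s_sq
  have hc := cc_pos
  have hb1 : 0 < 1 - b := by linarith
  have hv := Real.sqrt_nonneg (1 - b)
  have hv2 : Real.sqrt (1 - b) ^ 2 = 1 - b := Real.sq_sqrt hb1.le
  have hu := Real.sqrt_nonneg b
  have hu2 : Real.sqrt b ^ 2 = b := Real.sq_sqrt hb.le
  rw [r32_eq hb1.le, r32_eq hb.le]
  set v := Real.sqrt (1 - b)
  set u := Real.sqrt b
  have hv1 : v ≤ 1 := by nlinarith
  have h1 : 1 - v ^ 3 ≤ 3 / 2 * b := by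
    have : 0 ≤ (1 - v) ^ 2 * (1 + 2 * v) := by positivity
    nlinarith
  have htuv : 2 * t = u * v := by
    have h2 : (2 * t) ^ 2 = (u * v) ^ 2 := by
      rw [mul_pow u v, hu2, hv2]
      linarith
    have h3 : 0 ≤ u * v := mul_nonneg hu hv
    exact (pow_left_inj₀ (by linarith) h3 (by norm_num)).1 h2
  have h4 : 2 * b * t ≤ u ^ 3 := by
    have h5 : 2 * b * t = u ^ 3 * v := by
      have : 2 * b * t = b * (2 * t) := by ring
      rw [this, htuv, ← hu2]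
      ring
    rw [h5]
    have : 0 ≤ u ^ 3 := by positivity
    nlinarith
  have h6 : 0 < 2 * cc * t + cc / (8 * t) := by positivity
  have h7 : (1 - v ^ 3) * (2 * cc * t + cc / (8 * t)) ≤
      3 / 2 * b * (2 * cc * t + cc / (8 * t)) := mul_le_mul_of_nonneg_right h1 h6.le
  have h8 : 3 / 2 * b * (2 * cc * t + cc / (8 * t)) =
      3 * cc * b * t + (3 * cc / (4 * (1 - b))) * t := by
    have ht2 : b = 4 * t ^ 2 / (1 - b) := by
      rw [hbt]
      field_simp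
    have h9 : 3 / 2 * b * (cc / (8 * t)) = (3 * cc / (4 * (1 - b))) * t := by
      have h10 : 3 / 2 * b * (cc / (8 * t)) = 3 / 2 * (4 * t ^ 2 / (1 - b)) * (cc / (8 * t)) := by
        rw [← ht2]
      rw [h10]
      field_simp
      ring
    rw [mul_add, h9]
    ring
  have h9 : 3 * cc / (4 * (1 - b)) + cc * b ≤ 1.9 := by
    have h10 : 3 * cc / (4 * (1 - b)) ≤ 1.56 := by
      rw [div_le_iff₀ (by linarith)]
      unfold cc
      nlinarith
    have h11 : cc * b ≤ 0.3 := by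
      have : cc ≤ 1.708 := by
        unfold cc
        linarith
      have hb3 : b ≤ 0.1716 := by linarith
      nlinarith
    linarith
  have h12 : cc * (2 * b * t) ≤ cc * u ^ 3 := mul_le_mul_of_nonneg_left h4 hc.le
  have h13 : (3 * cc / (4 * (1 - b)) + cc * b) * t ≤ 1.9 * t :=
    mul_le_mul_of_nonneg_right h9 ht.le
  nlinarith

end NUM

theorem t_NUM : S_NUM := ⟨NUM.p1, NUM.p2, NUM.p3, NUM.p4, NUM.p5⟩

end Pool.Agent.R508.BT
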