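import Pool.Agent.R508.BT.Eul

/-!
# BT-QF: facts on quantile functions
-/

open MeasureTheory Set Filter Topology
open scoped ENNReal

namespace Pool.Agent.R508.BT

namespace QF

theorem galois (ν : Measure ℝ) [IsProbabilityMeasure ν] {s : ℝ} (hs : s ∈ Ioo (0 : ℝ) 1) (x : ℝ) :
    qf ν s ≤ x ↔ s ≤ (ν (Iic x)).toReal := by
  have hF : ∀ y : ℝ, (ν (Iic y)).toReal = ProbabilityTheory.cdf ν y := by
    intro y
    rw [ProbabilityTheory.cdf_eq_real]
    rfl
  have hmono : Monotone (fun y : ℝ => (ν (Iic y)).toReal) := by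
    intro a b hab
    simp only [hF]
    exact ProbabilityTheory.monotone_cdf ν hab
  have hbdd : BddBelow {y : ℝ | s ≤ (ν (Iic y)).toReal} := by
    have h1 := (ProbabilityTheory.tendsto_cdf_atBot ν).eventually (gt_mem_nhds hs.1)
    obtain ⟨a, ha⟩ := h1.exists
    refine ⟨a, fun y hy => ?_⟩
    by_contra hcon
    push Not at hcon
    have h2 : (ν (Iic y)).toReal ≤ (ν (Iic a)).toReal := hmono hcon.le
    rw [hF a] at h2
    have h3 : s ≤ (ν (Iic y)).toReal := hy
    linarith
  have hne : {y : ℝ | s ≤ (ν (Iic y)).toReal}.Nonempty := by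
    have h1 := (ProbabilityTheory.tendsto_cdf_atTop ν).eventually (lt_mem_nhds hs.2)
    obtain ⟨a, ha⟩ := h1.exists
    exact ⟨a, by rw [mem_setOf_eq, hF a]; exact ha.le⟩
  constructor
  · intro h
    have h1 : s ≤ (ν (Iic (qf ν s))).toReal := by
      have hrc : ContinuousWithinAt (ProbabilityTheory.cdf ν) (Ici (qf ν s)) (qf ν s) :=
        (ProbabilityTheory.cdf ν).right_continuous _
      have ht : Tendsto (ProbabilityTheory.cdf ν) (𝓝[>] (qf ν s))
          (𝓝 (ProbabilityTheory.cdf ν (qf ν s))) :=
        hrc.tendsto.mono_left (nhdsWithin_mono _ Ioi_subset_Ici_self)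
      rw [hF]
      apply ge_of_tendsto ht
      filter_upwards [self_mem_nhdsWithin] with y hy
      obtain ⟨z, hz, hzy⟩ := exists_lt_of_csInf_lt hne (show sInf _ < y from hy)
      have h2 : (ν (Iic z)).toReal ≤ (ν (Iic y)).toReal := hmono hzy.le
      rw [hF y] at h2
      have h3 : s ≤ (ν (Iic z)).toReal := hz
      linarith
    exact h1.trans (hmono h)
  · intro h
    exact csInf_le hbdd h

theorem qf_nonpos (ν : Measure ℝ) {s : ℝ} (hs : s ≤ 0) : qf ν s = 0 := by
  unfold qf
  have : {x : ℝ | s ≤ (ν (Iic x)).toReal} = univ := by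
    ext x
    simp only [mem_setOf_eq, mem_univ, iff_true]
    exact hs.trans ENNReal.toReal_nonneg
  rw [this, Real.sInf_univ]

theorem qf_gt_one (ν : Measure ℝ) [IsProbabilityMeasure ν] {s : ℝ} (hs : 1 < s) : qf ν s = 0 := by
  unfold qf
  have : {x : ℝ | s ≤ (ν (Iic x)).toReal} = ∅ := by
    ext x
    simp only [mem_setOf_eq, mem_empty_iff_false, iff_false, not_le]
    have h1 : (ν (Iic x)).toReal ≤ 1 := by
      have := measureReal_le_one (μ := ν) (s := Iic x)
      exact this
    linarith
  rw [this, Real.sInf_empty]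

theorem measurable_qf (ν : Measure ℝ) [IsProbabilityMeasure ν] : Measurable (qf ν) := by
  apply measurable_of_Iic
  intro c
  have h : qf ν ⁻¹' Iic c = (Ioo 0 1 ∩ Iic ((ν (Iic c)).toReal)) ∪
      ((if 0 ≤ c then Iic 0 ∪ Ioi 1 else ∅) ∪ (if qf ν 1 ≤ c then {1} else ∅)) := by
    ext s
    simp only [mem_preimage, mem_Iic, mem_union, mem_inter_iff]
    rcases le_or_gt s 0 with h0 | h0
    · rw [qf_nonpos ν h0]
      have h1 : s ∉ Ioo (0 : ℝ) 1 := fun h => absurd h.1 (not_lt.mpr h0)
      have h2 : s ≠ 1 := by linarith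
      by_cases hc : 0 ≤ c
      · simp [hc, h0]
      · simp only [hc, if_false, mem_empty_iff_false, false_or, h1, false_and, false_iff]
        split_ifs
        · exact fun h => h2 h
        · exact fun h => h
    · rcases lt_trichotomy s 1 with h1 | h1 | h1
      · have hs : s ∈ Ioo (0 : ℝ) 1 := ⟨h0, h1⟩
        rw [galois ν hs c]
        have h2 : s ∉ (if 0 ≤ c then Iic (0 : ℝ) ∪ Ioi 1 else ∅) := by
          split_ifs
          · simp only [mem_union, mem_Iic, mem_Ioi, not_or, not_le, not_lt]
            exact ⟨h0, h1.le⟩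
          · exact fun h => h
        have h3 : s ∉ (if qf ν 1 ≤ c then ({1} : Set ℝ) else ∅) := by
          split_ifs
          · simp only [mem_singleton_iff]
            exact h1.ne
          · exact fun h => h
        simp only [hs, true_and, h2, h3, or_false]
      · subst h1
        have h2 : (1 : ℝ) ∉ (if 0 ≤ c then Iic (0 : ℝ) ∪ Ioi 1 else ∅) := by
          split_ifs
          · simp only [mem_union, mem_Iic, mem_Ioi, not_or, not_le, not_lt]
            exact ⟨h0, le_rfl⟩
          · exact fun h => h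
        simp only [mem_Ioo, lt_irrefl, and_false, false_and, h2, false_or]
        split_ifs with h3
        · simp [h3]
        · simp [h3]
      · rw [qf_gt_one ν h1]
        have h2 : s ∉ Ioo (0 : ℝ) 1 := fun h => absurd h.2 (not_lt.mpr h1.le)
        have h3 : s ∉ (if qf ν 1 ≤ c then ({1} : Set ℝ) else ∅) := by
          split_ifs
          · simp only [mem_singleton_iff]
            exact h1.ne'
          · exact fun h => h
        by_cases hc : 0 ≤ c
        · simp [hc, h1]
        · simp only [hc, if_false, mem_empty_iff_false, false_or, h2, false_and, h3]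
  rw [h]
  refine MeasurableSet.union (measurableSet_Ioo.inter measurableSet_Iic)
    (MeasurableSet.union ?_ ?_)
  · split_ifs
    · exact measurableSet_Iic.union measurableSet_Ioi
    · exact MeasurableSet.empty
  · split_ifs
    · exact measurableSet_singleton 1
    · exact MeasurableSet.empty

theorem vol_aux {a : ℝ} (h0 : 0 ≤ a) (h1 : a ≤ 1) :
    volume (Iic a ∩ Ioo (0 : ℝ) 1) = ENNReal.ofReal a := by
  apply le_antisymm
  · calc volume (Iic a ∩ Ioo (0 : ℝ) 1) ≤ volume (Ioc (0 : ℝ) a) :=
          measure_mono fun x hx => ⟨hx.2.1, hx.1⟩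
      _ = ENNReal.ofReal a := by rw [Real.volume_Ioc, sub_zero]
  · calc ENNReal.ofReal a = volume (Ioo (0 : ℝ) a) := by rw [Real.volume_Ioo, sub_zero]
      _ ≤ volume (Iic a ∩ Ioo (0 : ℝ) 1) :=
          measure_mono fun x hx => ⟨hx.2.le, hx.1, hx.2.trans_le h1⟩

theorem map_qf (ν : Measure ℝ) [IsProbabilityMeasure ν] : lam.map (qf ν) = ν := by
  haveI : IsProbabilityMeasure lam := ⟨by
    rw [Measure.restrict_apply_univ, Real.volume_Ioo]
    simp⟩
  haveI : IsProbabilityMeasure (lam.map (qf ν)) :=
    Measure.isProbabilityMeasure_map (measurable_qf ν).aemeasurable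
  apply Measure.ext_of_Iic
  intro a
  rw [Measure.map_apply (measurable_qf ν) measurableSet_Iic,
    Measure.restrict_apply (measurable_qf ν measurableSet_Iic)]
  have h1 : qf ν ⁻¹' Iic a ∩ Ioo (0 : ℝ) 1 = Iic ((ν (Iic a)).toReal) ∩ Ioo (0 : ℝ) 1 := by
    ext s
    simp only [mem_inter_iff, mem_preimage, mem_Iic, and_congr_left_iff]
    intro hs
    exact galois ν hs a
  rw [h1, vol_aux ENNReal.toReal_nonneg measureReal_le_one, ENNReal.ofReal_toReal]
  exact measure_ne_top _ _

theorem mono_qf (ν : Measure ℝ) [IsProbabilityMeasure ν] : AEMono (qf ν) := by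
  unfold AEMono
  rw [Measure.prod_restrict]
  apply ae_restrict_of_forall_mem (measurableSet_Ioo.prod measurableSet_Ioo)
  rintro ⟨s, t⟩ ⟨hs, ht⟩ hst
  simp only at hs ht hst ⊢
  rw [galois ν hs]
  exact hst.trans ((galois ν ht _).mp le_rfl)

theorem natoms_eq (ν : Measure ℝ) [IsProbabilityMeasure ν] : natoms ν = cnt (qf ν) := by
  unfold natoms cnt cntOn
  apply iInf_congr
  intro A
  have h : ν (↑A : Set ℝ)ᶜ = 0 ↔ ∀ᵐ s ∂(volume.restrict (Ioo (0 : ℝ) 1)), qf ν s ∈ A := by
    rw [ae_iff]
    conv_lhs => rw [← map_qf ν]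
    rw [Measure.map_apply (measurable_qf ν) A.measurableSet.compl]
    rfl
  exact iInf_congr_Prop h fun _ => rfl

end QF

theorem t_QF : S_QF := by
  refine ⟨?_, ?_, ?_, ?_⟩
  · intro ν hν
    exact ⟨QF.measurable_qf ν, QF.map_qf ν, QF.mono_qf ν, QF.natoms_eq ν⟩
  · intro T mu hT hprob hmeas
    classical
    set D : Set (ℝ × ℝ) := Icc 0 T ×ˢ Ioo (0 : ℝ) 1 with hD
    have hDm : MeasurableSet D := measurableSet_Icc.prod measurableSet_Ioo
    refine ⟨fun t s => if (t, s) ∈ D then qf (mu t) s else 0, ?_, ?_⟩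
    · apply measurable_of_Iic
      intro c
      have h : Function.uncurry (fun t s => if (t, s) ∈ D then qf (mu t) s else 0) ⁻¹' Iic c =
          (D ∩ {p : ℝ × ℝ | p.2 ≤ (mu p.1 (Iic c)).toReal}) ∪ (Dᶜ ∩ (if 0 ≤ c then univ else ∅)) := by
        ext ⟨t, s⟩
        simp only [mem_preimage, Function.uncurry_apply_pair, mem_Iic, mem_union, mem_inter_iff,
          mem_setOf_eq, mem_compl_iff]
        by_cases hts : (t, s) ∈ D
        · haveI := hprob t hts.1
          rw [if_pos hts, QF.galois (mu t) hts.2 c]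
          simp only [hts, true_and, not_true_eq_false, false_and, or_false]
        · rw [if_neg hts]
          simp only [hts, false_and, not_false_eq_true, true_and, false_or]
          split_ifs with hc
          · simp [hc]
          · simp [hc]
      rw [h]
      refine MeasurableSet.union (hDm.inter ?_) (hDm.compl.inter ?_)
      · exact measurableSet_le measurable_snd
          (((hmeas (Iic c) measurableSet_Iic).comp measurable_fst).ennreal_toReal)
      · split_ifs
        · exact MeasurableSet.univ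
        · exact MeasurableSet.empty
    · intro t ht s hs
      simp only
      rw [if_pos (show (t, s) ∈ D from ⟨ht, hs⟩)]
  · apply ae_restrict_of_forall_mem measurableSet_Ioo
    intro s hs
    unfold qf
    have : {x : ℝ | s ≤ ((Measure.dirac (0 : ℝ)) (Iic x)).toReal} = Ici 0 := by
      ext x
      rw [mem_setOf_eq, Measure.dirac_apply' _ measurableSet_Iic, mem_Ici]
      by_cases hx : 0 ≤ x
      · simp only [hx, iff_true]
        rw [indicator_of_mem (by exact hx)]
        simp only [Pi.one_apply, ENNReal.toReal_one]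
        exact hs.2.le
      · simp only [hx, iff_false, not_le]
        rw [indicator_of_notMem (by exact hx)]
        simp only [ENNReal.toReal_zero]
        exact hs.1
    rw [this, csInf_Ici]
  · haveI hP : IsProbabilityMeasure (volume.restrict (Icc (-(1 / 2 : ℝ)) (1 / 2))) := ⟨by
      rw [Measure.restrict_apply_univ, Real.volume_Icc]
      norm_num⟩
    apply ae_restrict_of_forall_mem measurableSet_Ioo
    intro s hs
    have hF : ∀ x : ℝ, x ≤ 1 / 2 → -(1 / 2) ≤ x →
        ((volume.restrict (Icc (-(1 / 2 : ℝ)) (1 / 2))) (Iic x)).toReal = x + 1 / 2 := by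
      intro x hx hx'
      rw [Measure.restrict_apply measurableSet_Iic]
      have : Iic x ∩ Icc (-(1 / 2 : ℝ)) (1 / 2) = Icc (-(1 / 2)) x := by
        ext y
        simp only [mem_inter_iff, mem_Iic, mem_Icc]
        constructor
        · rintro ⟨h1, h2, h3⟩
          exact ⟨h2, h1⟩
        · rintro ⟨h1, h2⟩
          exact ⟨h2, h1, h2.trans hx⟩
      rw [this, Real.volume_Icc, ENNReal.toReal_ofReal (by linarith)]
      ring
    apply le_antisymm
    · rw [QF.galois _ hs, hF _ (by linarith [hs.2]) (by linarith [hs.1])]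
      linarith
    · by_contra hcon
      push Not at hcon
      set y := max (qf (volume.restrict (Icc (-(1 / 2 : ℝ)) (1 / 2))) s) (-(1 / 2)) with hy
      have h1 : y < s - 1 / 2 := by
        rw [hy, max_lt_iff]
        exact ⟨hcon, by linarith [hs.1]⟩
      have h2 := (QF.galois (volume.restrict (Icc (-(1 / 2 : ℝ)) (1 / 2))) hs y).mp
        (le_max_left _ _)
      rw [hF y (by linarith [hs.2]) (le_max_right _ _)] at h2
      linarith

end Pool.Agent.R508.BT
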