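import Pool.Agent.R508.BT.Stm

/-!
Piece RA of project BT: conclusion of the real analysis.
-/

open MeasureTheory Set Filter Topology
open scoped ENNReal

namespace Pool.Agent.R508.BT

namespace RAux

theorem r32_pos {a : ℝ} (ha : 0 < a) : 0 < r32 a := Real.rpow_pos_of_pos ha _

theorem r32_lt_one {a : ℝ} (ha : 0 < a) (ha1 : a < 1) : r32 a < 1 :=
  Real.rpow_lt_one ha.le ha1 (by norm_num)

theorem r32_sq {a : ℝ} (ha : 0 < a) : r32 a ^ 2 = a ^ 3 := by
  unfold r32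
  rw [← Real.rpow_natCast (a ^ (3 / 2 : ℝ)) 2, ← Real.rpow_mul ha.le, ← Real.rpow_natCast a 3]
  congr 1
  norm_num

theorem cc_pos : 0 < cc := by
  unfold cc
  positivity

/-- `x` is a left end point of a flat interval which meets `(0, 1/4)` -/
def LE (e : ℝ → ℝ) (x : ℝ) : Prop :=
  0 < x ∧ ¬ FL e x ∧ ∃ T : ℝ, x < T ∧ T < 1 / 4 ∧ FL e T ∧
    (∀ t : ℝ, x ≤ t → t ≤ T → e t = e x + (t - x)) ∧
    (∀ t : ℝ, 0 < t → t < x → e x < e t + (x - t))

theorem exists_LE (h2 : S_LEFT) {e : ℝ → ℝ} (he : VF e) {T : ℝ} (hT : 0 < T) (hT4 : T < 1 / 4)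
    (hF : FL e T) : ∃ x, x < T ∧ LE e x ∧ e T = e x + (T - x) ∧
      (∀ t : ℝ, x ≤ t → t ≤ T → e t = e x + (t - x)) := by
  obtain ⟨x, hx0, hxT, hx1, hx2, hx3, hx4⟩ := h2 e he T hT hF
  exact ⟨x, hxT, ⟨hx0, hx2, T, hxT, hT4, hF, hx3, hx4⟩, hx1, hx3⟩

theorem branch (h3 : S_BAL) {e : ℝ → ℝ} (he : VF e) {x : ℝ} (hx : LE e x) :
    ∃ b : ℝ, 0 < b ∧ b ≤ 1 / 2 ∧ 4 * x ^ 2 = b * (1 - b) ∧ FL e (x / r32 (1 - b)) ∧
      e x - x = r32 b * (e (x / r32 b) - x / r32 b) +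
        r32 (1 - b) * (e (x / r32 (1 - b)) - x / r32 (1 - b)) + 2 * x := by
  obtain ⟨hx0, hxF, T, hxT, hT4, hF, g1, g2⟩ := hx
  obtain ⟨a, ha0, ha1, k1, k2, k3⟩ := he.str x T hx0 hxT (g1 T hxT.le le_rfl) hxF
  obtain ⟨k4, k5⟩ := h3 e he x T a hx0 hxT ha0 ha1 g1 g2 k1 k2 k3
  rcases le_total a (1 / 2) with h | h
  · exact ⟨a, ha0, h, k4, k3, k5⟩
  · refine ⟨1 - a, by linarith, by linarith, ?_, ?_, ?_⟩
    · rw [k4]; ring
    · rw [sub_sub_cancel]; exact k2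
    · rw [sub_sub_cancel, k5]; ring

theorem step (h1 : S_NUM) (h2 : S_LEFT) (h3 : S_BAL) (h4 : S_INF) {e : ℝ → ℝ} (he : VF e) {x : ℝ}
    (hx : LE e x) : ∃ x', x ≤ x' ∧ LE e x' ∧ e x' - x' ≤ e x - x - x / 10 := by
  obtain ⟨n1, -, -, n4, n5⟩ := h1
  obtain ⟨b, hb0, hb2, hbx, hbF, hbe⟩ := branch h3 he hx
  obtain ⟨hx0, hxF, T, hxT, hT4, hF, g1, g2⟩ := hx
  have hb1 : b < 1 := by linarith
  have hc := cc_pos
  have hr1 := r32_pos hb0
  have hr2 : 0 < r32 (1 - b) := r32_pos (by linarith)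
  have hr3 : r32 (1 - b) < 1 := r32_lt_one (by linarith) (by linarith)
  have hi1 := h4 e he (x / r32 b) (div_pos hx0 hr1)
  have hi2 := h4 e he (x / r32 (1 - b)) (div_pos hx0 hr2)
  have hup := he.upp x hx0
  have s2 : Real.sqrt 2 ^ 2 = 2 := Real.sq_sqrt (by norm_num)
  have s2' : 0 ≤ Real.sqrt 2 := Real.sqrt_nonneg 2
  have s3 : Real.sqrt 2 < 3 / 2 := by nlinarith
  have s4 : 7 / 5 < Real.sqrt 2 := by nlinarith
  have hup2 : e x - x ≤ 2 * cc * x + cc / (8 * x) := by linarith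
  rcases le_or_gt (3 - 2 * Real.sqrt 2) b with hA | hB
  · exfalso
    have hy0 : 0 < 2 * x := by linarith
    have hsq : Real.sqrt (b * (1 - b)) = 2 * x := by
      rw [← hbx, show 4 * x ^ 2 = (2 * x) ^ 2 by ring]
      exact Real.sqrt_sq hy0.le
    have e1 := n1 b hb0 hb1
    rw [hsq] at e1
    have e2 := n4 (2 * x) (by
      have : 4 * (2 * x) ^ 2 = 4 * (b * (1 - b)) := by rw [← hbx]; ring
      rw [this]
      nlinarith [mul_nonneg (sub_nonneg.mpr hA)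
        (show (0 : ℝ) ≤ 1 - b - (3 - 2 * Real.sqrt 2) by linarith)]) hy0 (by linarith)
    have e3 : cc / (4 * (2 * x)) = cc / (8 * x) := by ring_nf
    have e4 : cc * (r32 b + r32 (1 - b)) ≤
        r32 b * (e (x / r32 b) - x / r32 b) +
        r32 (1 - b) * (e (x / r32 (1 - b)) - x / r32 (1 - b)) := by
      have q1 : r32 b * cc ≤ r32 b * (e (x / r32 b) - x / r32 b) :=
        mul_le_mul_of_nonneg_left (by linarith) hr1.le
      have q2 : r32 (1 - b) * cc ≤ r32 (1 - b) * (e (x / r32 (1 - b)) - x / r32 (1 - b)) :=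
        mul_le_mul_of_nonneg_left (by linarith) hr2.le
      linarith
    rw [e1] at e4
    rw [e3] at e2
    linarith
  · have e5 := n5 b x hb0 hB.le hx0 hbx
    have hs0 : 0 < x / r32 (1 - b) := div_pos hx0 hr2
    have hs4 : x / r32 (1 - b) < 1 / 4 := by
      rw [div_lt_iff₀ hr2]
      have q1 : (4 * x) ^ 2 < r32 (1 - b) ^ 2 := by
        rw [r32_sq (by linarith), show (4 * x) ^ 2 = 4 * (4 * x ^ 2) by ring, hbx]
        have q2 : 4 * b < (1 - b) ^ 2 := by nlinarith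
        have q3 : 0 < 1 - b := by linarith
        nlinarith
      have q4 : 4 * x < r32 (1 - b) := lt_of_pow_lt_pow_left₀ 2 hr2.le q1
      linarith
    obtain ⟨l, hl1, hl2, hl3, hl4⟩ := exists_LE h2 he hs0 hs4 hbF
    have hxs : x < x / r32 (1 - b) := by
      rw [lt_div_iff₀ hr2]
      nlinarith
    have hxl : x ≤ l := by
      by_contra hcon
      push Not at hcon
      apply hxF
      refine ⟨x - l, by linarith, by linarith [hl2.1], ?_⟩
      rw [sub_sub_cancel]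
      have := hl4 x hcon.le hxs.le
      linarith
    refine ⟨l, hxl, hl2, ?_⟩
    have hh : e (x / r32 (1 - b)) - x / r32 (1 - b) = e l - l := by linarith
    rw [hh] at hbe
    have q1 : r32 b * cc ≤ r32 b * (e (x / r32 b) - x / r32 b) :=
      mul_le_mul_of_nonneg_left (by linarith) hr1.le
    have q2 : (1 - r32 (1 - b)) * (e x - x) ≤
        (1 - r32 (1 - b)) * (2 * cc * x + cc / (8 * x)) :=
      mul_le_mul_of_nonneg_left hup2 (by linarith)
    have q3 : r32 (1 - b) * (e l - l) ≤ r32 (1 - b) * (e x - x) - x / 10 := by linarith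
    by_contra hcon
    push Not at hcon
    have q4 : r32 (1 - b) * (e x - x - x / 10) < r32 (1 - b) * (e l - l) :=
      mul_lt_mul_of_pos_left hcon hr2
    have q5 : r32 (1 - b) * (x / 10) ≤ 1 * (x / 10) :=
      mul_le_mul_of_nonneg_right hr3.le (by linarith)
    linarith

end RAux

open RAux in
theorem t_RA (h1 : S_NUM) (h2 : S_LEFT) (h3 : S_BAL) (h4 : S_INF) : S_RA := by
  intro e he T hT hT4 hF
  obtain ⟨x, hxT, hx, -, -⟩ := exists_LE h2 he hT hT4 hF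
  have hx0 : 0 < x := hx.1
  have key : ∀ n : ℕ, ∃ z, x ≤ z ∧ LE e z ∧ e z - z ≤ e x - x - n * (x / 10) := by
    intro n
    induction n with
    | zero => exact ⟨x, le_rfl, hx, by simp⟩
    | succ n ih =>
      obtain ⟨z, hz1, hz2, hz3⟩ := ih
      obtain ⟨z', hz4, hz5, hz6⟩ := step h1 h2 h3 h4 he hz2
      refine ⟨z', hz1.trans hz4, hz5, ?_⟩
      push_cast
      linarith
  obtain ⟨n, hn⟩ := exists_nat_gt ((e x - x - cc) / (x / 10))
  rw [div_lt_iff₀ (by linarith)] at hn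
  obtain ⟨z, hz1, hz2, hz3⟩ := key n
  have := h4 e he z hz2.1
  linarith

end Pool.Agent.R508.BT
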