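import Pool.Agent.R508.BT.Stm

open MeasureTheory Set Filter Topology
open scoped ENNReal

namespace Pool.Agent.R508.BT

namespace REG

theorem meas_pos (V : ℝ → ℝ → ℝ) (hV : Measurable (Function.uncurry V)) :
    Measurable (Function.uncurry (pos V)) := by
  have hV3 : Measurable (fun q : (ℝ × ℝ) × ℝ => V q.2 q.1.2) :=
    hV.comp (measurable_snd.prodMk (measurable_snd.comp measurable_fst))
  have hS1 : MeasurableSet {q : (ℝ × ℝ) × ℝ | 0 < q.2 ∧ q.2 ≤ q.1.1} :=
    (measurableSet_lt measurable_const measurable_snd).inter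
      (measurableSet_le measurable_snd (measurable_fst.comp measurable_fst))
  have hS2 : MeasurableSet {q : (ℝ × ℝ) × ℝ | q.1.1 < q.2 ∧ q.2 ≤ 0} :=
    (measurableSet_lt (measurable_fst.comp measurable_fst) measurable_snd).inter
      (measurableSet_le measurable_snd measurable_const)
  have h1 : Measurable (fun p : ℝ × ℝ =>
      ∫ τ, ({q : (ℝ × ℝ) × ℝ | 0 < q.2 ∧ q.2 ≤ q.1.1}.indicator (fun q => V q.2 q.1.2)) (p, τ)) :=
    (StronglyMeasurable.integral_prod_right'
      (hV3.indicator hS1).stronglyMeasurable).measurable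
  have h2 : Measurable (fun p : ℝ × ℝ =>
      ∫ τ, ({q : (ℝ × ℝ) × ℝ | q.1.1 < q.2 ∧ q.2 ≤ 0}.indicator (fun q => V q.2 q.1.2)) (p, τ)) :=
    (StronglyMeasurable.integral_prod_right'
      (hV3.indicator hS2).stronglyMeasurable).measurable
  have h3 : Function.uncurry (pos V) = fun p : ℝ × ℝ =>
      (∫ τ, ({q : (ℝ × ℝ) × ℝ | 0 < q.2 ∧ q.2 ≤ q.1.1}.indicator (fun q => V q.2 q.1.2)) (p, τ)) -
      ∫ τ, ({q : (ℝ × ℝ) × ℝ | q.1.1 < q.2 ∧ q.2 ≤ 0}.indicator (fun q => V q.2 q.1.2)) (p, τ) := by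
    funext p
    obtain ⟨t, s⟩ := p
    simp only [Function.uncurry, pos, intervalIntegral]
    rw [← integral_indicator measurableSet_Ioc, ← integral_indicator measurableSet_Ioc]
    rfl
  rw [h3]
  exact h1.sub h2

theorem cs (t : ℝ) (ht : 0 ≤ t) (v : ℝ → ℝ) (h1 : IntervalIntegrable v volume 0 t)
    (h2 : IntervalIntegrable (fun τ => (v τ) ^ 2) volume 0 t) :
    (∫ τ in (0 : ℝ)..t, v τ) ^ 2 ≤ t * ∫ τ in (0 : ℝ)..t, (v τ) ^ 2 := by
  rcases ht.eq_or_lt with rfl | ht
  · simp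
  · set m : ℝ := ∫ τ in (0 : ℝ)..t, v τ with hm
    have h0 : 0 ≤ ∫ τ in (0 : ℝ)..t, (v τ - m / t) ^ 2 :=
      intervalIntegral.integral_nonneg ht.le (fun _ _ => sq_nonneg _)
    have h3 : ∫ τ in (0 : ℝ)..t, (v τ - m / t) ^ 2 =
        (∫ τ in (0 : ℝ)..t, (v τ) ^ 2) - m ^ 2 / t := by
      have h4 : ∀ τ, (v τ - m / t) ^ 2 = ((v τ) ^ 2 - (2 * (m / t)) * v τ) + (m / t) ^ 2 := by
        intro τ; ring
      simp_rw [h4]
      rw [intervalIntegral.integral_add (h2.sub (h1.const_mul _)) (by simp),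
        intervalIntegral.integral_sub h2 (h1.const_mul _), intervalIntegral.integral_const_mul,
        intervalIntegral.integral_const, ← hm]
      simp only [sub_zero, smul_eq_mul]
      field_simp
      ring
    rw [h3] at h0
    have h5 : m ^ 2 / t ≤ ∫ τ in (0 : ℝ)..t, (v τ) ^ 2 := by linarith
    rw [div_le_iff₀ ht] at h5
    linarith

theorem main (T : ℝ) (V : ℝ → ℝ → ℝ) (hT : 0 < T) (hV : Measurable (Function.uncurry V))
    (hK : kin T V < ∞) :
    (∀ᵐ s ∂lam, IntervalIntegrable (fun t => V t s) volume 0 T) ∧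
  (∀ᵐ s ∂lam, IntervalIntegrable (fun t => (V t s) ^ 2) volume 0 T) ∧
  (∀ t ∈ Icc 0 T, Integrable (fun s => (pos V t s) ^ 2) lam ∧ Integrable (pos V t) lam) ∧
  (Measurable (Function.uncurry (pos V))) ∧
  (kin T V = ENNReal.ofReal (∫ s, (∫ t in (0:ℝ)..T, (V t s) ^ 2) ∂lam)) ∧
  (kin T V = ENNReal.ofReal (∫ t in (0:ℝ)..T, (∫ s, (V t s) ^ 2 ∂lam))) := by
  have hP := meas_pos V hV
  set μ : Measure ℝ := volume.restrict (Ioo 0 T) with hμ
  have hfm : Measurable (fun p : ℝ × ℝ => (V p.1 p.2) ^ 2) := by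
    have : Measurable (fun p : ℝ × ℝ => V p.1 p.2) := hV
    exact this.pow_const 2
  have hkin : ∫⁻ p, ENNReal.ofReal ((V p.1 p.2) ^ 2) ∂(μ.prod lam) = kin T V := by
    rw [lintegral_prod _ hfm.ennreal_ofReal.aemeasurable]
    rfl
  have hint : Integrable (fun p : ℝ × ℝ => (V p.1 p.2) ^ 2) (μ.prod lam) := by
    refine ⟨hfm.aestronglyMeasurable, ?_⟩
    rw [hasFiniteIntegral_iff_ofReal (Eventually.of_forall fun _ => sq_nonneg _), hkin]
    exact hK
  have hint1 : Integrable (fun p : ℝ × ℝ => V p.1 p.2) (μ.prod lam) := by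
    refine Integrable.mono' ((integrable_const (1 : ℝ)).add hint)
      (show Measurable (fun p : ℝ × ℝ => V p.1 p.2) from hV).aestronglyMeasurable ?_
    refine Eventually.of_forall fun p => ?_
    simp only [Pi.add_apply, Real.norm_eq_abs]
    rw [abs_le]
    constructor <;> nlinarith [sq_nonneg (V p.1 p.2 + 1), sq_nonneg (V p.1 p.2 - 1)]
  have hreal : kin T V = ENNReal.ofReal (∫ p, (V p.1 p.2) ^ 2 ∂(μ.prod lam)) := by
    rw [← hkin, ofReal_integral_eq_lintegral_ofReal hint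
      (Eventually.of_forall fun _ => sq_nonneg _)]
  have h1 : ∀ᵐ s ∂lam, IntervalIntegrable (fun t => V t s) volume 0 T := by
    filter_upwards [hint1.prod_left_ae] with s hs
    rw [intervalIntegrable_iff_integrableOn_Ioo_of_le hT.le]
    exact hs
  have h2 : ∀ᵐ s ∂lam, IntervalIntegrable (fun t => (V t s) ^ 2) volume 0 T := by
    filter_upwards [hint.prod_left_ae] with s hs
    rw [intervalIntegrable_iff_integrableOn_Ioo_of_le hT.le]
    exact hs
  have hcv : ∀ f : ℝ → ℝ, ∫ t in (0:ℝ)..T, f t = ∫ t, f t ∂μ := by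
    intro f
    rw [intervalIntegral.integral_of_le hT.le, integral_Ioc_eq_integral_Ioo]
  refine ⟨h1, h2, ?_, hP, ?_, ?_⟩
  · intro t ht
    have hsq : Integrable (fun s => (pos V t s) ^ 2) lam := by
      have hb : Integrable (fun s => T * ∫ t, (V t s) ^ 2 ∂μ) lam :=
        (hint.integral_prod_right).const_mul T
      have hmt : Measurable (pos V t) := hP.comp (measurable_const.prodMk measurable_id)
      refine Integrable.mono' hb (hmt.pow_const 2).aestronglyMeasurable ?_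
      filter_upwards [h1, h2] with s hs1 hs2
      rw [Real.norm_eq_abs, abs_of_nonneg (sq_nonneg _), ← hcv]
      have hsub : uIcc 0 t ⊆ uIcc 0 T := by
        rw [uIcc_of_le ht.1, uIcc_of_le hT.le]
        exact Icc_subset_Icc_right ht.2
      have hc := cs t ht.1 (fun τ => V τ s) (hs1.mono_set hsub) (hs2.mono_set hsub)
      have hle : ∫ τ in (0 : ℝ)..t, (V τ s) ^ 2 ≤ ∫ τ in (0 : ℝ)..T, (V τ s) ^ 2 :=
        intervalIntegral.integral_mono_interval le_rfl ht.1 ht.2
          (Eventually.of_forall fun _ => sq_nonneg _) hs2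
      have hnn : 0 ≤ ∫ τ in (0 : ℝ)..t, (V τ s) ^ 2 :=
        intervalIntegral.integral_nonneg ht.1 (fun _ _ => sq_nonneg _)
      calc (pos V t s) ^ 2 ≤ t * ∫ τ in (0 : ℝ)..t, (V τ s) ^ 2 := hc
        _ ≤ T * ∫ τ in (0 : ℝ)..T, (V τ s) ^ 2 := by
          apply mul_le_mul ht.2 hle hnn hT.le
    refine ⟨hsq, ?_⟩
    have hmt : Measurable (pos V t) := hP.comp (measurable_const.prodMk measurable_id)
    refine Integrable.mono' ((integrable_const (1 : ℝ)).add hsq) hmt.aestronglyMeasurable ?_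
    refine Eventually.of_forall fun p => ?_
    simp only [Pi.add_apply, Real.norm_eq_abs]
    rw [abs_le]
    constructor <;> nlinarith [sq_nonneg (pos V t p + 1), sq_nonneg (pos V t p - 1)]
  · rw [hreal, integral_prod_symm _ hint]
    simp_rw [hcv]
  · rw [hreal, integral_prod _ hint, hcv]

end REG

theorem t_REG : S_REG := fun T V hT hV hK => REG.main T V hT hV hK

end Pool.Agent.R508.BT
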