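import Pool.Agent.R508.BT.Eul

/-!
# Smooth case of the one-dimensional Benamou-Brenier inequality
-/

open MeasureTheory Set Filter Topology
open scoped ENNReal

namespace Pool.Agent.R508.BT

namespace SMaux

variable {F : ℝ → ℝ → ℝ}

lemma sm (h : SmoothCdf F) (t : ℝ) : StrictMono (F t) := strictMono_of_deriv_pos (h.pos t)

lemma contS (h : SmoothCdf F) (t : ℝ) : Continuous (F t) :=
  h.smooth.continuous.comp (by fun_prop : Continuous fun x : ℝ => (t, x))

lemma exq (h : SmoothCdf F) (t : ℝ) {s : ℝ} (hs : s ∈ Ioo (0:ℝ) 1) : ∃ x, F t x = s := by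
  have h1 : ∃ x, F t x ≤ s :=
    ((h.bot t).eventually (gt_mem_nhds hs.1)).exists.imp (fun x hx => le_of_lt hx)
  have h2 : ∃ x, s ≤ F t x :=
    ((h.top t).eventually (lt_mem_nhds hs.2)).exists.imp (fun x hx => le_of_lt hx)
  exact mem_range_of_exists_le_of_exists_ge (contS h t) h1 h2

lemma memF (h : SmoothCdf F) (t x : ℝ) : F t x ∈ Ioo (0:ℝ) 1 := by
  have h1 : 0 ≤ F t (x - 1) := (sm h t).monotone.le_of_tendsto (h.bot t) _
  have h2 : F t (x + 1) ≤ 1 := (sm h t).monotone.ge_of_tendsto (h.top t) _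
  have h3 := sm h t (show x - 1 < x by linarith)
  have h4 := sm h t (show x < x + 1 by linarith)
  exact ⟨by linarith, by linarith⟩

open Classical in
noncomputable def q (F : ℝ → ℝ → ℝ) (t s : ℝ) : ℝ :=
  if hs : ∃ x, F t x = s then hs.choose else 0

lemma Fq (h : SmoothCdf F) (t : ℝ) {s : ℝ} (hs : s ∈ Ioo (0:ℝ) 1) : F t (q F t s) = s := by
  have h1 := exq h t hs
  rw [q, dif_pos h1]
  exact h1.choose_spec

lemma qF (h : SmoothCdf F) (t x : ℝ) : q F t (F t x) = x :=
  (sm h t).injective (Fq h t (memF h t x))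

lemma contq (h : SmoothCdf F) (t : ℝ) {s : ℝ} (hs : s ∈ Ioo (0:ℝ) 1) :
    ContinuousAt (Function.uncurry (q F)) (t, s) := by
  have hev : ∀ᶠ p : ℝ × ℝ in 𝓝 (t, s), p.2 ∈ Ioo (0:ℝ) 1 :=
    continuousAt_snd.eventually (isOpen_Ioo.mem_nhds hs)
  have hc : ∀ l : ℝ, Continuous (fun p : ℝ × ℝ => F p.1 l) := fun l =>
    h.smooth.continuous.comp (by fun_prop : Continuous fun p : ℝ × ℝ => (p.1, l))
  rw [ContinuousAt, tendsto_order]
  constructor
  · intro l hl
    have h1 : F t l < s := by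
      have := sm h t hl
      rwa [Function.uncurry_apply_pair, Fq h t hs] at this
    have h2 : ∀ᶠ p : ℝ × ℝ in 𝓝 (t, s), F p.1 l < p.2 :=
      (hc l).continuousAt.eventually_lt continuousAt_snd h1
    filter_upwards [h2, hev] with p hp hp2
    rw [← Fq h p.1 hp2] at hp
    exact (sm h p.1).lt_iff_lt.1 hp
  · intro l hl
    have h1 : s < F t l := by
      have := sm h t hl
      rwa [Function.uncurry_apply_pair, Fq h t hs] at this
    have h2 : ∀ᶠ p : ℝ × ℝ in 𝓝 (t, s), p.2 < F p.1 l :=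
      continuousAt_snd.eventually_lt (hc l).continuousAt h1
    filter_upwards [h2, hev] with p hp hp2
    rw [← Fq h p.1 hp2] at hp
    exact (sm h p.1).lt_iff_lt.1 hp

/-- partial derivatives -/
noncomputable def A (F : ℝ → ℝ → ℝ) (p : ℝ × ℝ) : ℝ := fderiv ℝ (Function.uncurry F) p (1, 0)
noncomputable def B (F : ℝ → ℝ → ℝ) (p : ℝ × ℝ) : ℝ := fderiv ℝ (Function.uncurry F) p (0, 1)

lemma hasF (h : SmoothCdf F) (p : ℝ × ℝ) :
    HasFDerivAt (Function.uncurry F) (fderiv ℝ (Function.uncurry F) p) p :=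
  ((h.smooth.differentiable (by norm_num)) p).hasFDerivAt

lemma hasA (h : SmoothCdf F) (t x : ℝ) : HasDerivAt (fun τ => F τ x) (A F (t, x)) t := by
  have h1 : HasDerivAt (fun τ : ℝ => (τ, x)) ((1:ℝ), (0:ℝ)) t :=
    (hasDerivAt_id t).prodMk (hasDerivAt_const t x)
  exact (hasF h (t, x)).comp_hasDerivAt t h1

lemma hasB (h : SmoothCdf F) (t x : ℝ) : HasDerivAt (F t) (B F (t, x)) x := by
  have h1 : HasDerivAt (fun y : ℝ => (t, y)) ((0:ℝ), (1:ℝ)) x :=
    (hasDerivAt_const x t).prodMk (hasDerivAt_id x)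
  exact (hasF h (t, x)).comp_hasDerivAt x h1

lemma contA (h : SmoothCdf F) : Continuous (A F) :=
  (h.smooth.continuous_fderiv (by norm_num)).clm_apply continuous_const

lemma contB (h : SmoothCdf F) : Continuous (B F) :=
  (h.smooth.continuous_fderiv (by norm_num)).clm_apply continuous_const

lemma Bpos (h : SmoothCdf F) (p : ℝ × ℝ) : 0 < B F p := by
  have := h.pos p.1 p.2
  rwa [(hasB h p.1 p.2).deriv] at this

/-- the velocity of the label `s` -/
noncomputable def g (F : ℝ → ℝ → ℝ) (t s : ℝ) : ℝ := -A F (t, q F t s) / B F (t, q F t s)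

noncomputable def eqv (α β : ℝ) (hβ : β ≠ 0) : (ℝ × ℝ) ≃L[ℝ] (ℝ × ℝ) :=
  LinearEquiv.toContinuousLinearEquiv
    { toFun := fun v => (v.1, α * v.1 + β * v.2)
      map_add' := fun v w => by
        ext <;> simp
        ring
      map_smul' := fun c v => by
        ext <;> simp
        ring
      invFun := fun w => (w.1, (w.2 - α * w.1) / β)
      left_inv := fun v => by
        ext <;> simp
        field_simp
      right_inv := fun w => by
        ext <;> simp
        field_simp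
        ring }

lemma hasq (h : SmoothCdf F) (t : ℝ) {s : ℝ} (hs : s ∈ Ioo (0:ℝ) 1) :
    HasDerivAt (fun τ => q F τ s) (g F t s) t := by
  have hB := Bpos h (t, q F t s)
  have h1 : HasFDerivAt (fun p : ℝ × ℝ => (p.1, Function.uncurry F p))
      (eqv (A F (t, q F t s)) (B F (t, q F t s)) hB.ne' : (ℝ × ℝ) →L[ℝ] (ℝ × ℝ)) (t, q F t s) := by
    have h2 := (hasFDerivAt_fst (𝕜 := ℝ) (p := (t, q F t s))).prodMk (hasF h (t, q F t s))
    refine h2.congr_fderiv ?_
    ext <;> simp [eqv, A, B]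
  have h3 : ContinuousAt (fun p : ℝ × ℝ => (p.1, Function.uncurry (q F) p)) (t, s) :=
    continuousAt_fst.prodMk (contq h t hs)
  have h4 : ∀ᶠ p : ℝ × ℝ in 𝓝 (t, s),
      (fun p : ℝ × ℝ => (p.1, Function.uncurry F p)) ((fun p : ℝ × ℝ => (p.1, Function.uncurry (q F) p)) p) = p := by
    have hev : ∀ᶠ p : ℝ × ℝ in 𝓝 (t, s), p.2 ∈ Ioo (0:ℝ) 1 :=
      continuousAt_snd.eventually (isOpen_Ioo.mem_nhds hs)
    filter_upwards [hev] with p hp
    have := Fq h p.1 hp
    ext
    · rfl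
    · simpa [Function.uncurry] using this
  have h5 := HasFDerivAt.of_local_left_inverse (f := fun p : ℝ × ℝ => (p.1, Function.uncurry F p))
    (g := fun p : ℝ × ℝ => (p.1, Function.uncurry (q F) p)) (a := (t, s)) h3 h1 h4
  have h6 : HasDerivAt (fun τ : ℝ => (τ, s)) ((1:ℝ), (0:ℝ)) t :=
    (hasDerivAt_id t).prodMk (hasDerivAt_const t s)
  have h7 := h5.comp_hasDerivAt t h6
  have h8 := (hasFDerivAt_snd (𝕜 := ℝ) (p := (t, q F t s))).comp_hasDerivAt t h7
  have h9 : (ContinuousLinearMap.snd ℝ ℝ ℝ)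
      (((eqv (A F (t, q F t s)) (B F (t, q F t s)) hB.ne').symm : (ℝ × ℝ) →L[ℝ] (ℝ × ℝ)) ((1:ℝ), (0:ℝ)))
      = g F t s := by
    simp only [g, ContinuousLinearMap.coe_snd', ContinuousLinearEquiv.coe_coe]
    change (0 - A F (t, q F t s) * 1) / B F (t, q F t s) = _
    ring
  rw [h9] at h8
  exact h8

lemma contg (h : SmoothCdf F) (t : ℝ) {s : ℝ} (hs : s ∈ Ioo (0:ℝ) 1) :
    ContinuousAt (Function.uncurry (g F)) (t, s) := by
  have h3 : ContinuousAt (fun p : ℝ × ℝ => (p.1, Function.uncurry (q F) p)) (t, s) :=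
    continuousAt_fst.prodMk (contq h t hs)
  have hA : ContinuousAt (fun p : ℝ × ℝ => A F (p.1, Function.uncurry (q F) p)) (t, s) :=
    ContinuousAt.comp (contA h).continuousAt h3
  have hB : ContinuousAt (fun p : ℝ × ℝ => B F (p.1, Function.uncurry (q F) p)) (t, s) :=
    ContinuousAt.comp (contB h).continuousAt h3
  exact hA.neg.div hB (Bpos h _).ne'

/-- Cauchy-Schwarz for one label -/
lemma label (h : SmoothCdf F) {a b : ℝ} (hab : a < b) {s : ℝ} (hs : s ∈ Ioo (0:ℝ) 1) :
    ENNReal.ofReal ((q F b s - q F a s) ^ 2) ≤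
      ENNReal.ofReal (b - a) * ∫⁻ t in Ioo a b, ENNReal.ofReal ((g F t s) ^ 2) := by
  have hgc : Continuous (fun t => g F t s) := by
    rw [continuous_iff_continuousAt]
    intro t
    exact ContinuousAt.comp (f := fun τ : ℝ => (τ, s)) (contg h t hs) (by fun_prop)
  have hI : ∫ t in a..b, g F t s = q F b s - q F a s :=
    intervalIntegral.integral_eq_sub_of_hasDerivAt (fun t _ => hasq h t hs) (hgc.intervalIntegrable _ _)
  set I := ∫ t in a..b, g F t s with hIdef
  have h2 : 0 ≤ ∫ t in a..b, (g F t s - I / (b - a)) ^ 2 :=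
    intervalIntegral.integral_nonneg hab.le (fun t _ => sq_nonneg _)
  have h3 : ∫ t in a..b, (g F t s - I / (b - a)) ^ 2 =
      (∫ t in a..b, (g F t s) ^ 2) - 2 * (I / (b - a)) * I + (I / (b - a)) ^ 2 * (b - a) := by
    have e1 : ∀ t, (g F t s - I / (b - a)) ^ 2 =
        (g F t s) ^ 2 - 2 * (I / (b - a)) * g F t s + (I / (b - a)) ^ 2 := fun t => by ring
    simp_rw [e1]
    rw [intervalIntegral.integral_add, intervalIntegral.integral_sub,
      intervalIntegral.integral_const_mul, intervalIntegral.integral_const]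
    · simp only [smul_eq_mul]
      ring
    · exact (hgc.pow 2).intervalIntegrable _ _
    · exact (continuous_const.mul hgc).intervalIntegrable _ _
    · exact ((hgc.pow 2).sub (continuous_const.mul hgc)).intervalIntegrable _ _
    · exact continuous_const.intervalIntegrable _ _
  have hba : 0 < b - a := by linarith
  have h4 : I ^ 2 ≤ (b - a) * ∫ t in a..b, (g F t s) ^ 2 := by
    rw [h3] at h2
    have e2 : (∫ t in a..b, (g F t s) ^ 2) - 2 * (I / (b - a)) * I + (I / (b - a)) ^ 2 * (b - a)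
        = (∫ t in a..b, (g F t s) ^ 2) - I ^ 2 / (b - a) := by
      field_simp
      ring
    rw [e2] at h2
    have h5 : I ^ 2 / (b - a) ≤ ∫ t in a..b, (g F t s) ^ 2 := by linarith
    rw [div_le_iff₀ hba] at h5
    linarith
  have h6 : ENNReal.ofReal (∫ t in a..b, (g F t s) ^ 2) =
      ∫⁻ t in Ioo a b, ENNReal.ofReal ((g F t s) ^ 2) := by
    rw [intervalIntegral.integral_of_le hab.le, integral_Ioc_eq_integral_Ioo]
    apply ofReal_integral_eq_lintegral_ofReal
    · exact ((hgc.pow 2).continuousOn.integrableOn_Icc (a := a) (b := b)).mono_set Ioo_subset_Icc_self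
    · exact Eventually.of_forall (fun t => sq_nonneg _)
  rw [← h6, ← ENNReal.ofReal_mul hba.le, ← hI]
  exact ENNReal.ofReal_le_ofReal h4

/-- change of variables -/
lemma chg (h : SmoothCdf F) (t : ℝ) :
    ∫⁻ s in Ioo (0:ℝ) 1, ENNReal.ofReal ((g F t s) ^ 2) =
      ∫⁻ x, ENNReal.ofReal ((deriv (fun τ => F τ x) t) ^ 2 / deriv (F t) x) := by
  have himg : (F t) '' univ = Ioo (0:ℝ) 1 := by
    ext s
    constructor
    · rintro ⟨x, _, rfl⟩
      exact memF h t x
    · intro hs
      exact ⟨q F t s, mem_univ _, Fq h t hs⟩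
  have h1 := lintegral_image_eq_lintegral_abs_deriv_mul (s := univ) (f := F t)
    (f' := fun x => B F (t, x)) MeasurableSet.univ (fun x _ => (hasB h t x).hasDerivWithinAt)
    (sm h t).injective.injOn (fun s => ENNReal.ofReal ((g F t s) ^ 2))
  rw [himg] at h1
  rw [h1, Measure.restrict_univ]
  refine lintegral_congr (fun x => ?_)
  have hB := Bpos h (t, x)
  rw [(hasA h t x).deriv, (hasB h t x).deriv, ← ENNReal.ofReal_mul (abs_nonneg _)]
  congr 1
  rw [g, qF h, abs_of_pos hB]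
  field_simp

end SMaux

theorem t_SM : S_SM := by
  intro F a b h hab
  refine ⟨SMaux.q F, fun t s hs => SMaux.Fq h t hs, ?_⟩
  calc ∫⁻ s, ENNReal.ofReal ((SMaux.q F b s - SMaux.q F a s) ^ 2) ∂lam
      ≤ ∫⁻ s in Ioo (0:ℝ) 1, ENNReal.ofReal (b - a) * ∫⁻ t in Ioo a b, ENNReal.ofReal ((SMaux.g F t s) ^ 2) := by
        refine setLIntegral_mono' measurableSet_Ioo (fun s hs => SMaux.label h hab hs)
    _ = ENNReal.ofReal (b - a) * ∫⁻ s in Ioo (0:ℝ) 1, ∫⁻ t in Ioo a b, ENNReal.ofReal ((SMaux.g F t s) ^ 2) := by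
        rw [lintegral_const_mul' _ _ ENNReal.ofReal_ne_top]
    _ = ENNReal.ofReal (b - a) * ∫⁻ t in Ioo a b, ∫⁻ s in Ioo (0:ℝ) 1, ENNReal.ofReal ((SMaux.g F t s) ^ 2) := by
        congr 1
        rw [lintegral_lintegral_swap]
        rw [Measure.prod_restrict]
        have hc : ContinuousOn (fun p : ℝ × ℝ => ENNReal.ofReal ((SMaux.g F p.2 p.1) ^ 2))
            (Ioo (0:ℝ) 1 ×ˢ Ioo a b) := by
          intro p hp
          have h1 : ContinuousAt (fun p : ℝ × ℝ => Function.uncurry (SMaux.g F) (p.2, p.1)) p :=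
            ContinuousAt.comp (f := fun p : ℝ × ℝ => (p.2, p.1)) (SMaux.contg h p.2 hp.1) (by fun_prop)
          exact ((ENNReal.continuous_ofReal.continuousAt).comp (h1.pow 2)).continuousWithinAt
        exact hc.aemeasurable (measurableSet_Ioo.prod measurableSet_Ioo)
    _ = ENNReal.ofReal (b - a) * act F a b := by
        rw [act]
        congr 1
        exact lintegral_congr (fun t => SMaux.chg h t)

end Pool.Agent.R508.BT
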