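import Pool.Agent.R508.BT.Stm

open MeasureTheory Set Filter Topology
open scoped ENNReal

namespace Pool.Agent.R508.BT

namespace SS

lemma r32_pos {a : ℝ} (ha : 0 < a) : 0 < r32 a := Real.rpow_pos_of_pos ha _

lemma E_le {T : ℝ} {V : ℝ → ℝ → ℝ} (h : Path T V) : E T ≤ en T V := iInf₂_le V h

end SS

open SS

theorem t_S (hCNT : S_CNT) (hREG : S_REG) (hUPP : S_UPP) (hMZ : S_MZ) (hGLUE : S_GLUE)
    (hEXI : S_EXI) (hLIN : S_LIN) (hT0 : S_T0) (hN1 : S_N1) (hVAR : S_VAR) (hMRG : S_MRG)
    (hTWO : S_TWO) (hNM : S_NM) (hCHILD : S_CHILD) : S_S := by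
  intro T T' hT hTT' hflat hnFL
  have hEfin : ∀ T, 0 < T → E T < ∞ := fun T hT =>
    lt_of_le_of_lt (hUPP T hT) ENNReal.ofReal_lt_top
  obtain ⟨V, hV⟩ := hEXI T hT
  have hen : en T V < ∞ := by rw [hV.2]; exact hEfin T hT
  obtain ⟨t0, ht0, hc, hmin⟩ := hT0 T V hT hV.1 hen T ⟨hT, le_rfl⟩
  have ht0p : 0 < t0 := ht0.1
  have hlin := hLIN T V hT hV (hEfin T hT) t0 ht0 hmin
  obtain ⟨h1, -, hcomp, -, hatt, -, -⟩ := hCNT 0 1 one_pos
  obtain ⟨A, hA, hAc, -⟩ := hatt (pos V t0) hc
  have hn : cnt (pos V t0) = (A.card : ℝ≥0∞) := hAc.symm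
  have hn1 : 1 ≤ A.card := by
    have := h1 (pos V t0)
    rw [← hAc] at this
    exact_mod_cast this
  rcases Nat.lt_or_ge 1 A.card with hn2 | hn2
  · -- at least two groups
    have hmeasP : Measurable (pos V t0) :=
      (hREG T V hT hV.1.meas hV.1.fin).2.2.2.1.comp (measurable_const.prodMk measurable_id)
    have hUm : Measurable (fun s => pos V t0 s / t0) := hmeasP.div_const _
    have hUmono : AEMono (fun s => pos V t0 s / t0) := by
      have := hV.1.mono t0 ⟨ht0.1.le, ht0.2.le⟩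
      filter_upwards [this] with p hp hle
      exact div_le_div_of_nonneg_right (hp hle) ht0p.le
    have hUc : cnt (fun s => pos V t0 s / t0) = (A.card : ℝ≥0∞) := by
      rw [← hn]
      apply le_antisymm
      · exact hcomp (pos V t0) (fun x => x / t0)
      · have := hcomp (fun s => pos V t0 s / t0) (fun x => x * t0)
        have heq : (fun s => pos V t0 s / t0 * t0) = pos V t0 := by
          funext s
          field_simp
        simpa [heq] using this
    have hU0 : ∫ s, pos V t0 s / t0 ∂lam = 0 := by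
      rw [integral_div, hMZ T V hT hV (hEfin T hT) t0 ⟨ht0.1.le, ht0.2.le⟩, zero_div]
    have hU2 := hVAR T V hT hV (hEfin T hT) t0 ht0 hlin A.card hn T' hTT' hflat
    obtain ⟨a, v1, v2, ha0, ha1, hv, hlo, hhi⟩ := hTWO (fun s => pos V t0 s / t0) A.card hUm hUmono
      hUc hn2 hU0 hU2 (fun g m hg h0 hm =>
        hMRG T V hT hV (hEfin T hT) t0 ht0 hlin A.card hn g m hg h0 hm)
    have hsplit : ∀ t ∈ Icc 0 t0, ∀ᵐ s ∂lam,
        (s < a → pos V t s = t * v1) ∧ (a < s → pos V t s = t * v2) := by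
      intro t ht
      filter_upwards [hlin t ht, hlo, hhi] with s hs h1 h2
      constructor
      · intro hsa
        rw [hs, ← h1 hsa]
        ring
      · intro hsa
        rw [hs, ← h2 hsa]
        ring
    have hadd := hNM T V hT hV (hEfin T hT) t0 ht0 a v1 v2 ha0 ha1 hv hsplit
    obtain ⟨Z1, Z2, hZ1, hZ2, hC, hc1, hc2⟩ := hCHILD T V a hT hV.1 hen ha0 ha1 hadd
    rw [hV.2] at hC
    have hG := hGLUE T a hT ha0 ha1
    have hb0 : 0 < 1 - a := by linarith
    have hs1 : 0 < T / r32 a := div_pos hT (r32_pos ha0)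
    have hs2 : 0 < T / r32 (1 - a) := div_pos hT (r32_pos hb0)
    have hE1 := E_le hZ1
    have hE2 := E_le hZ2
    have hr1 : ENNReal.ofReal (r32 a) ≠ 0 := by
      simpa using r32_pos ha0
    have hr2 : ENNReal.ofReal (r32 (1 - a)) ≠ 0 := by
      simpa using r32_pos hb0
    have hsum : ENNReal.ofReal (r32 a) * E (T / r32 a) +
        ENNReal.ofReal (r32 (1 - a)) * E (T / r32 (1 - a)) +
        ENNReal.ofReal (a * (1 - a) / (4 * T)) ≤ E T := by
      refine le_trans ?_ hC
      gcongr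
    have hETf := hEfin T hT
    -- the children are minimizers
    have hm1 : en (T / r32 a) Z1 ≤ E (T / r32 a) := by
      by_contra hcon
      push Not at hcon
      have hlt : ENNReal.ofReal (r32 a) * E (T / r32 a) <
          ENNReal.ofReal (r32 a) * en (T / r32 a) Z1 :=
        (ENNReal.mul_lt_mul_iff_right hr1 ENNReal.ofReal_ne_top).2 hcon
      have : E T < E T := by
        calc E T ≤ ENNReal.ofReal (r32 a) * E (T / r32 a) +
              ENNReal.ofReal (r32 (1 - a)) * E (T / r32 (1 - a)) +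
              ENNReal.ofReal (a * (1 - a) / (4 * T)) := hG
          _ < ENNReal.ofReal (r32 a) * en (T / r32 a) Z1 +
              ENNReal.ofReal (r32 (1 - a)) * E (T / r32 (1 - a)) +
              ENNReal.ofReal (a * (1 - a) / (4 * T)) := by
            apply ENNReal.add_lt_add_right ENNReal.ofReal_ne_top
            apply ENNReal.add_lt_add_right _ hlt
            exact (ENNReal.mul_lt_top ENNReal.ofReal_lt_top (hEfin _ hs2)).ne
          _ ≤ ENNReal.ofReal (r32 a) * en (T / r32 a) Z1 +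
              ENNReal.ofReal (r32 (1 - a)) * en (T / r32 (1 - a)) Z2 +
              ENNReal.ofReal (a * (1 - a) / (4 * T)) := by gcongr
          _ ≤ E T := hC
      exact lt_irrefl _ this
    have hm2 : en (T / r32 (1 - a)) Z2 ≤ E (T / r32 (1 - a)) := by
      by_contra hcon
      push Not at hcon
      have hlt : ENNReal.ofReal (r32 (1 - a)) * E (T / r32 (1 - a)) <
          ENNReal.ofReal (r32 (1 - a)) * en (T / r32 (1 - a)) Z2 :=
        (ENNReal.mul_lt_mul_iff_right hr2 ENNReal.ofReal_ne_top).2 hcon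
      have : E T < E T := by
        calc E T ≤ ENNReal.ofReal (r32 a) * E (T / r32 a) +
              ENNReal.ofReal (r32 (1 - a)) * E (T / r32 (1 - a)) +
              ENNReal.ofReal (a * (1 - a) / (4 * T)) := hG
          _ < ENNReal.ofReal (r32 a) * E (T / r32 a) +
              ENNReal.ofReal (r32 (1 - a)) * en (T / r32 (1 - a)) Z2 +
              ENNReal.ofReal (a * (1 - a) / (4 * T)) := by
            apply ENNReal.add_lt_add_right ENNReal.ofReal_ne_top
            apply ENNReal.add_lt_add_left _ hlt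
            exact (ENNReal.mul_lt_top ENNReal.ofReal_lt_top (hEfin _ hs1)).ne
          _ ≤ ENNReal.ofReal (r32 a) * en (T / r32 a) Z1 +
              ENNReal.ofReal (r32 (1 - a)) * en (T / r32 (1 - a)) Z2 +
              ENNReal.ofReal (a * (1 - a) / (4 * T)) := by gcongr
          _ ≤ E T := hC
      exact lt_irrefl _ this
    have hMin1 : IsMin (T / r32 a) Z1 := ⟨hZ1, le_antisymm hm1 hE1⟩
    have hMin2 : IsMin (T / r32 (1 - a)) Z2 := ⟨hZ2, le_antisymm hm2 hE2⟩
    refine ⟨a, ha0, ha1, hsum, ?_, ?_⟩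
    · have hra := r32_pos ha0
      have hmem : t0 / r32 a ∈ Ioo 0 (T / r32 a) :=
        ⟨div_pos ht0p hra, div_lt_div_of_pos_right ht0.2 hra⟩
      refine ⟨t0 / r32 a, hmem, hN1 _ Z1 hs1 hMin1 (hEfin _ hs1) _ hmem ?_⟩
      rw [ae_restrict_iff' measurableSet_Ioo]
      refine Eventually.of_forall fun t ht => ?_
      have ht1 : 0 ≤ t * r32 a := (mul_pos ht.1 hra).le
      have ht2 : t * r32 a ≤ t0 := by
        have := ht.2
        rw [lt_div_iff₀ hra] at this
        exact this.le
      have := hc1 (t * r32 a) ⟨ht1, ht2.trans ht0.2.le⟩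
        ⟨t * r32 a * v1, (hsplit _ ⟨ht1, ht2⟩).mono fun s hs => hs.1⟩
      rwa [mul_div_cancel_right₀ _ hra.ne'] at this
    · have hra := r32_pos hb0
      have hmem : t0 / r32 (1 - a) ∈ Ioo 0 (T / r32 (1 - a)) :=
        ⟨div_pos ht0p hra, div_lt_div_of_pos_right ht0.2 hra⟩
      refine ⟨t0 / r32 (1 - a), hmem, hN1 _ Z2 hs2 hMin2 (hEfin _ hs2) _ hmem ?_⟩
      rw [ae_restrict_iff' measurableSet_Ioo]
      refine Eventually.of_forall fun t ht => ?_
      have ht1 : 0 ≤ t * r32 (1 - a) := (mul_pos ht.1 hra).le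
      have ht2 : t * r32 (1 - a) ≤ t0 := by
        have := ht.2
        rw [lt_div_iff₀ hra] at this
        exact this.le
      have := hc2 (t * r32 (1 - a)) ⟨ht1, ht2.trans ht0.2.le⟩
        ⟨t * r32 (1 - a) * v2, (hsplit _ ⟨ht1, ht2⟩).mono fun s hs => hs.2⟩
      rwa [mul_div_cancel_right₀ _ hra.ne'] at this
  · -- a single group
    exfalso
    have hcard : A.card = 1 := le_antisymm hn2 hn1
    obtain ⟨x, hx⟩ := Finset.card_eq_one.1 hcard
    apply hnFL
    refine ⟨t0, ht0, hN1 T V hT hV (hEfin T hT) t0 ht0 ?_⟩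
    rw [ae_restrict_iff' measurableSet_Ioo]
    refine Eventually.of_forall fun t ht => ?_
    refine ⟨t / t0 * x, ?_⟩
    filter_upwards [hlin t ⟨ht.1.le, ht.2.le⟩, hA] with s hs hxs
    rw [hs]
    rw [hx, Finset.mem_singleton] at hxs
    rw [hxs]

end Pool.Agent.R508.BT
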