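import Pool.Agent.R508.BT.Stm

open MeasureTheory Set Filter Topology
open scoped ENNReal

namespace Pool.Agent.R508.BT

namespace T0

/-- an infimum of naturals which is not at most `n` is at least `n + 1` -/
theorem succ_le_of_not_le {a b : ℝ} {f : ℝ → ℝ} {n : ℕ} (h : ¬ cntOn a b f ≤ (n : ℝ≥0∞)) :
    ((n + 1 : ℕ) : ℝ≥0∞) ≤ cntOn a b f := by
  unfold cntOn at h ⊢
  refine le_iInf₂ fun A hA => ?_
  by_contra hlt
  apply h
  have h1 : A.card ≤ n := by
    have : (A.card : ℝ≥0∞) < ((n + 1 : ℕ) : ℝ≥0∞) := not_le.1 hlt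
    have h2 : A.card < n + 1 := by exact_mod_cast this
    omega
  refine (iInf₂_le A hA).trans ?_
  exact_mod_cast h1

end T0

theorem t_T0 : S_T0 := by
  intro T V hT hP hen t1 ht1
  have hN : (∫⁻ t in Ioo 0 T, cnt (pos V t)) < ∞ := lt_of_le_of_lt le_self_add hen
  have hex : ∃ n : ℕ, ¬ ∀ᵐ t ∂(volume.restrict (Ioo 0 t1)), ¬ cnt (pos V t) ≤ (n : ℝ≥0∞) := by
    by_contra hcon
    push Not at hcon
    have h1 : ∀ᵐ t ∂(volume.restrict (Ioo 0 t1)), cnt (pos V t) = ∞ := by
      have h2 := ae_all_iff.2 hcon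
      filter_upwards [h2] with t ht
      by_contra hne
      obtain ⟨n, hn⟩ := ENNReal.exists_nat_gt hne
      exact absurd hn.le (not_le.2 (ht n))
    have h3 : (∫⁻ t in Ioo 0 t1, cnt (pos V t)) = ∞ := by
      rw [lintegral_congr_ae h1, lintegral_const]
      rw [Measure.restrict_apply_univ, Real.volume_Ioo, sub_zero]
      exact ENNReal.top_mul (by simpa using ht1.1)
    have h4 : (∫⁻ t in Ioo 0 t1, cnt (pos V t)) ≤ ∫⁻ t in Ioo 0 T, cnt (pos V t) :=
      lintegral_mono_set (Ioo_subset_Ioo_right ht1.2)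
    rw [h3] at h4
    exact absurd hN (by simpa using h4)
  classical
  set n := Nat.find hex with hn
  have hn1 : ¬ ∀ᵐ t ∂(volume.restrict (Ioo 0 t1)), ¬ cnt (pos V t) ≤ (n : ℝ≥0∞) := Nat.find_spec hex
  have hn2 : ∀ᵐ t ∂(volume.restrict (Ioo 0 t1)), (n : ℝ≥0∞) ≤ cnt (pos V t) := by
    rcases Nat.eq_zero_or_pos n with h0 | hpos
    · rw [h0]; simp
    · have hlt : n - 1 < Nat.find hex := by omega
      have := Nat.find_min hex hlt
      push Not at this
      filter_upwards [this] with t ht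
      have h5 := T0.succ_le_of_not_le (not_le.2 ht)
      rwa [Nat.sub_add_cancel hpos] at h5
  have hex2 : ∃ t0 ∈ Ioo 0 t1, cnt (pos V t0) ≤ (n : ℝ≥0∞) := by
    by_contra hcon
    push Not at hcon
    apply hn1
    filter_upwards [ae_restrict_mem measurableSet_Ioo] with t ht
    exact not_le.2 (hcon t ht)
  obtain ⟨t0, ht0, hle⟩ := hex2
  refine ⟨t0, ht0, lt_of_le_of_lt hle (ENNReal.natCast_lt_top n), ?_⟩
  have h6 := ae_mono (Measure.restrict_mono_set volume (Ioo_subset_Ioo_right ht0.2.le)) hn2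
  filter_upwards [h6] with t ht
  exact hle.trans ht

end Pool.Agent.R508.BT
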