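import Pool.Agent.R508.BT.Stm

set_option autoImplicit false

open MeasureTheory Set
open scoped ENNReal

namespace Pool.Agent.R508.BT

namespace TSC

/-- Scaling of the lower integral over an interval; no measurability is needed. -/
theorem lint_scale (c T T' : ℝ) (hc : 0 < c) (hT : c * T' = T) (g : ℝ → ℝ≥0∞) :
    ∫⁻ t in Ioo 0 T', g (c * t) = ENNReal.ofReal c⁻¹ * ∫⁻ t in Ioo 0 T, g t := by
  have hemb : MeasurableEmbedding (fun x : ℝ => c * x) := measurableEmbedding_mulLeft₀ hc.ne'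
  have hpre : (fun x : ℝ => c * x) ⁻¹' (Ioo 0 T) = Ioo 0 T' := by
    ext x
    simp only [mem_preimage, mem_Ioo]
    rw [← hT]
    constructor
    · rintro ⟨h1, h2⟩
      exact ⟨pos_of_mul_pos_right h1 hc.le, lt_of_mul_lt_mul_left h2 hc.le⟩
    · rintro ⟨h1, h2⟩
      exact ⟨mul_pos hc h1, mul_lt_mul_of_pos_left h2 hc⟩
  have h1 : ((volume : Measure ℝ).map (fun x : ℝ => c * x)).restrict (Ioo 0 T) =
      ((volume : Measure ℝ).restrict (Ioo 0 T')).map (fun x : ℝ => c * x) := by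
    rw [hemb.restrict_map, hpre]
  have h2 : (volume : Measure ℝ).map (fun x : ℝ => c * x) = ENNReal.ofReal |c⁻¹| • volume :=
    Real.map_volume_mul_left hc.ne'
  rw [h2, Measure.restrict_smul, abs_of_pos (inv_pos.mpr hc)] at h1
  rw [← hemb.lintegral_map, ← h1, lintegral_smul_measure]
  rfl

/-- The rescaled velocity. -/
noncomputable def Wv (c : ℝ) (V : ℝ → ℝ → ℝ) (t s : ℝ) : ℝ := c * V (c * t) s

theorem pos_Wv (c : ℝ) (V : ℝ → ℝ → ℝ) (t s : ℝ) :
    pos (Wv c V) t s = pos V (c * t) s := by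
  unfold pos Wv
  rw [intervalIntegral.integral_const_mul]
  have h := intervalIntegral.smul_integral_comp_mul_left (a := 0) (b := t) (fun x => V x s) c
  rw [mul_zero, smul_eq_mul] at h
  exact h

theorem kin_Wv (c T T' : ℝ) (hc : 0 < c) (hT : c * T' = T) (V : ℝ → ℝ → ℝ) :
    kin T' (Wv c V) = ENNReal.ofReal c * kin T V := by
  unfold kin
  have h1 : ∀ t : ℝ, ∫⁻ s, ENNReal.ofReal ((Wv c V t s) ^ 2) ∂lam =
      ENNReal.ofReal (c ^ 2) * ∫⁻ s, ENNReal.ofReal ((V (c * t) s) ^ 2) ∂lam := by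
    intro t
    rw [← lintegral_const_mul' _ _ ENNReal.ofReal_ne_top]
    refine lintegral_congr (fun s => ?_)
    unfold Wv
    rw [mul_pow, ENNReal.ofReal_mul (by positivity)]
  simp only [h1]
  rw [lintegral_const_mul' _ _ ENNReal.ofReal_ne_top,
    lint_scale c T T' hc hT (fun t => ∫⁻ s, ENNReal.ofReal ((V t s) ^ 2) ∂lam), ← mul_assoc,
    ← ENNReal.ofReal_mul (by positivity)]
  congr 2
  field_simp

theorem path_Wv (c T T' : ℝ) (hc : 0 < c) (hT : c * T' = T) (V : ℝ → ℝ → ℝ) (hV : Path T V) :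
    Path T' (Wv c V) := by
  refine ⟨?_, ?_, ?_, ?_⟩
  · have h : Function.uncurry (Wv c V) =
        fun p : ℝ × ℝ => c * Function.uncurry V (c * p.1, p.2) := by
      funext p
      rfl
    rw [h]
    exact (hV.meas.comp (by fun_prop)).const_mul c
  · rw [kin_Wv c T T' hc hT]
    exact ENNReal.mul_lt_top ENNReal.ofReal_lt_top hV.fin
  · intro t ht
    have h : pos (Wv c V) t = pos V (c * t) := by
      funext s
      exact pos_Wv c V t s
    rw [h]
    refine hV.mono (c * t) ⟨mul_nonneg hc.le ht.1, ?_⟩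
    rw [← hT]
    exact mul_le_mul_of_nonneg_left ht.2 hc.le
  · filter_upwards [hV.final] with s hs
    rw [pos_Wv, hT]
    exact hs

theorem en_Wv (c T T' : ℝ) (hc : 0 < c) (hT : c * T' = T) (V : ℝ → ℝ → ℝ) :
    en T' (Wv c V) ≤ ENNReal.ofReal (max c⁻¹ c) * en T V := by
  unfold en
  have h1 : ∫⁻ t in Ioo 0 T', cnt (pos (Wv c V) t) =
      ENNReal.ofReal c⁻¹ * ∫⁻ t in Ioo 0 T, cnt (pos V t) := by
    rw [← lint_scale c T T' hc hT]
    refine lintegral_congr (fun t => ?_)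
    have h : pos (Wv c V) t = pos V (c * t) := by
      funext s
      exact pos_Wv c V t s
    rw [h]
  rw [h1, kin_Wv c T T' hc hT, mul_add]
  gcongr
  · exact le_max_left _ _
  · exact le_max_right _ _

end TSC

open TSC in
theorem t_TSC : S_TSC := by
  intro T T' hT hT'
  have hc : 0 < T / T' := div_pos hT hT'
  have hcT : T / T' * T' = T := div_mul_cancel₀ T hT'.ne'
  have hinv : (T / T')⁻¹ = T' / T := inv_div T T'
  have hm : 0 < max (T' / T) (T / T') := lt_max_of_lt_right hc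
  have h0 : ENNReal.ofReal (max (T' / T) (T / T')) ≠ 0 := by
    rw [Ne, ENNReal.ofReal_eq_zero, not_le]
    exact hm
  unfold E
  rw [ENNReal.mul_iInf_of_ne h0 ENNReal.ofReal_ne_top]
  refine le_iInf (fun V => ?_)
  rw [ENNReal.mul_iInf_of_ne h0 ENNReal.ofReal_ne_top]
  refine le_iInf (fun hV => ?_)
  refine (iInf₂_le (Wv (T / T') V) (path_Wv _ T T' hc hcT V hV)).trans ?_
  have h := en_Wv (T / T') T T' hc hcT V
  rw [hinv] at h
  exact h

end Pool.Agent.R508.BT
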