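import Pool.Agent.R508.BT.Stm

/-! # BT-TWO: only binary branchings -/

open MeasureTheory Set Filter Topology
open scoped ENNReal

namespace Pool.Agent.R508.BT

namespace TWO

instance instP : IsProbabilityMeasure lam := ⟨by simp [lam]⟩

lemma integral_comp (U : ℝ → ℝ) (hU : Measurable U) (A : Finset ℝ) (hA : ∀ᵐ s ∂lam, U s ∈ A) (F : ℝ → ℝ) :
    ∫ s, F (U s) ∂lam = ∑ x ∈ A, (lam {s | U s = x}).toReal * F x := by
  have h1 : (fun s => F (U s)) =ᵐ[lam] fun s => ∑ x ∈ A, Set.indicator {s | U s = x} (fun _ => F x) s := by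
    filter_upwards [hA] with s hs
    rw [Finset.sum_eq_single (U s)]
    · rw [Set.indicator_of_mem]
      rfl
    · intro x _ hx
      rw [Set.indicator_of_notMem]
      intro h
      exact hx h.symm
    · intro h
      exact absurd hs h
  have hm : ∀ x : ℝ, MeasurableSet {s | U s = x} := fun x => hU (measurableSet_singleton x)
  rw [integral_congr_ae h1, integral_finsetSum]
  · apply Finset.sum_congr rfl
    intro x _
    rw [integral_indicator_const _ (hm x)]
    rfl
  · intro x _
    exact (integrable_const (F x)).indicator (hm x)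

/-- the numerical contradiction -/
lemma numeric (p q r m e M M' w u n : ℝ) (hp : 0 < p) (hq : 0 < q) (hr : 0 < r) (h1 : p + q + r = 1)
    (hmean : p * M + q * M' + m = 0) (h2 : p * M ^ 2 + q * M' ^ 2 + e ≤ n - 1) (hMM : M' < M)
    (hw : w * (q + r) = q * M' + m) (hwM : w ≤ M') (hu : u * (q + p) = q * M' + p * M)
    (hg1 : n - 2 ≤ q * (M' - w) ^ 2 + (e - 2 * w * m + w ^ 2 * r))
    (hg2 : 1 ≤ q * (M' - u) ^ 2 + p * (M - u) ^ 2) : False := by
  have hm : m = -(p * M + q * M') := by linarith
  have hr' : r = 1 - p - q := by linarith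
  -- first inequality
  have a1 : p * M ^ 2 + (q + r) * w ^ 2 ≤ 1 := by
    have e1 : q * (M' - w) ^ 2 + (e - 2 * w * m + w ^ 2 * r) =
        (q * M' ^ 2 + e) - 2 * w * (q * M' + m) + w ^ 2 * (q + r) := by ring
    rw [e1, ← hw] at hg1
    nlinarith
  have a2 : (1 - p) * w = -(p * M) := by
    have : w * (q + r) = -(p * M) := by rw [hw]; linarith
    rw [← this, hr']
    ring
  have a3 : p * (1 - p) * (M - w) ^ 2 ≤ 1 := by
    have e1 : p * (1 - p) * (M - w) ^ 2 = p * M ^ 2 + (1 - p) * w ^ 2 - (p * M + (1 - p) * w) ^ 2 := by ring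
    rw [e1, a2]
    have e2 : q + r = 1 - p := by linarith
    rw [e2] at a1
    nlinarith
  -- second inequality
  have b1 : (p + q) * (q * (M' - u) ^ 2 + p * (M - u) ^ 2) = p * q * (M - M') ^ 2 := by
    have hs : q + p ≠ 0 := by positivity
    have hu' : u = (q * M' + p * M) / (q + p) := by
      rw [eq_div_iff hs]
      exact hu
    rw [hu']
    field_simp
    ring
  have b2 : p + q ≤ p * q * (M - M') ^ 2 := by
    rw [← b1]
    nlinarith
  have b3 : (M - M') ^ 2 ≤ (M - w) ^ 2 := by nlinarith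
  have b4 : p + q ≤ p * q * (M - w) ^ 2 := b2.trans (mul_le_mul_of_nonneg_left b3 (by positivity))
  have hp1 : 0 < 1 - p := by linarith
  have b5 : (1 - p) * (p + q) ≤ (1 - p) * (p * q * (M - w) ^ 2) := mul_le_mul_of_nonneg_left b4 hp1.le
  have b6 : (1 - p) * (p * q * (M - w) ^ 2) = q * (p * (1 - p) * (M - w) ^ 2) := by ring
  have b7 : q * (p * (1 - p) * (M - w) ^ 2) ≤ q * 1 := mul_le_mul_of_nonneg_left a3 hq.le
  have b8 : p * r ≤ 0 := by
    rw [hr']
    nlinarith
  have b9 : 0 < p * r := by positivity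
  linarith

lemma cnt_le (f : ℝ → ℝ) (A : Finset ℝ) (h : ∀ᵐ s ∂lam, f s ∈ A) : cnt f ≤ A.card :=
  iInf₂_le A h

lemma two_values (U : ℝ → ℝ) (hU : Measurable U) (hmono : AEMono U) (v1 v2 : ℝ) (hv : v1 < v2)
    (hA : ∀ᵐ s ∂lam, U s = v1 ∨ U s = v2) (h1 : 0 < lam {s | U s = v1}) (h2 : 0 < lam {s | U s = v2}) :
    ∃ a : ℝ, 0 < a ∧ a < 1 ∧ (∀ᵐ s ∂lam, s < a → U s = v1) ∧ (∀ᵐ s ∂lam, a < s → U s = v2) := by
  have hm1 : MeasurableSet {s | U s = v1} := hU (measurableSet_singleton v1)
  have hm2 : MeasurableSet {s | U s = v2} := hU (measurableSet_singleton v2)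
  obtain ⟨a, ha⟩ : ∃ a, a = (lam {s | U s = v1}).toReal := ⟨_, rfl⟩
  have hfin1 : lam {s | U s = v1} ≠ ∞ := measure_ne_top _ _
  have hfin2 : lam {s | U s = v2} ≠ ∞ := measure_ne_top _ _
  have ha0 : 0 < a := by
    rw [ha]
    exact ENNReal.toReal_pos h1.ne' hfin1
  have hofa : ENNReal.ofReal a = lam {s | U s = v1} := by
    rw [ha]
    exact ENNReal.ofReal_toReal hfin1
  -- total mass
  have hsum : lam {s | U s = v1} + lam {s | U s = v2} = 1 := by
    rw [← measure_union _ hm2]
    · rw [← measure_univ (μ := lam)]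
      apply measure_congr
      filter_upwards [hA] with s hs
      apply propext
      constructor
      · intro _
        trivial
      · intro _
        exact hs
    · rw [Set.disjoint_left]
      intro s hs hs'
      have e1 : U s = v1 := hs
      have e2 : U s = v2 := hs'
      linarith
  have ha1 : a < 1 := by
    have h3 : ENNReal.ofReal a < 1 := by
      rw [hofa, ← hsum]
      exact ENNReal.lt_add_right hfin1 h2.ne'
    rw [← ENNReal.ofReal_one] at h3
    exact (ENNReal.ofReal_lt_ofReal_iff (by norm_num)).1 h3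
  -- the measure of `(0,a)`
  have hIa : lam (Iio a) = ENNReal.ofReal a := by
    rw [Measure.restrict_apply measurableSet_Iio]
    have : Iio a ∩ Ioo 0 1 = Ioo 0 a := by
      ext x
      simp only [mem_inter_iff, mem_Iio, mem_Ioo]
      constructor
      · rintro ⟨h, h', -⟩
        exact ⟨h', h⟩
      · rintro ⟨h, h'⟩
        exact ⟨h', h, by linarith⟩
    rw [this, Real.volume_Ioo]
    congr 1
    ring
  -- splitting
  have s1 : lam ({s | U s = v1} ∩ Iio a) + lam ({s | U s = v1} \ Iio a) = lam {s | U s = v1} :=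
    measure_inter_add_sdiff _ measurableSet_Iio
  have s2 : lam (Iio a ∩ {s | U s = v1}) + lam (Iio a \ {s | U s = v1}) = lam (Iio a) :=
    measure_inter_add_sdiff _ hm1
  have key : lam ({s | U s = v1} \ Iio a) = lam (Iio a \ {s | U s = v1}) := by
    rw [hIa, hofa, ← s1, inter_comm] at s2
    exact (ENNReal.add_right_inj (ne_top_of_le_ne_top hfin1 (measure_mono inter_subset_left))).1 s2.symm
  have hzero : lam (Iio a \ {s | U s = v1}) = 0 := by
    by_contra hne
    have hpos : 0 < lam (Iio a \ {s | U s = v1}) := pos_iff_ne_zero.2 hne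
    have hpos' : 0 < lam ({s | U s = v1} \ Iio a) := by rw [key]; exact hpos
    -- restrict to the set where `U = v2`
    have hpos2 : 0 < lam (Iio a ∩ {s | U s = v2}) := by
      refine lt_of_lt_of_le hpos (le_of_eq ?_)
      apply measure_congr
      filter_upwards [hA] with s hs
      apply propext
      constructor
      · rintro ⟨h3, h4⟩
        exact ⟨h3, hs.resolve_left h4⟩
      · rintro ⟨h3, h4⟩
        refine ⟨h3, fun h5 => ?_⟩
        have e1 : U s = v1 := h5
        have e2 : U s = v2 := h4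
        linarith
    have hprod : 0 < (lam.prod lam) ((Iio a ∩ {s | U s = v2}) ×ˢ ({s | U s = v1} \ Iio a)) := by
      rw [Measure.prod_prod]
      exact ENNReal.mul_pos hpos2.ne' hpos'.ne'
    have hnull : (lam.prod lam) ((Iio a ∩ {s | U s = v2}) ×ˢ ({s | U s = v1} \ Iio a)) = 0 := by
      refine measure_mono_null ?_ hmono
      rintro ⟨s, t⟩ ⟨⟨h3, h4⟩, h5, h6⟩
      simp only [mem_compl_iff, mem_ofPred_eq, Classical.not_imp, not_le]
      have e1 : U t = v1 := h5
      have e2 : U s = v2 := h4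
      have e3 : s < a := h3
      have e4 : a ≤ t := not_lt.1 h6
      refine ⟨by linarith, ?_⟩
      change U t < U s
      rw [e1, e2]
      exact hv
    rw [hnull] at hprod
    exact lt_irrefl _ hprod
  refine ⟨a, ha0, ha1, ?_, ?_⟩
  · have h3 : ∀ᵐ s ∂lam, s ∉ Iio a \ {s | U s = v1} := measure_eq_zero_iff_ae_notMem.1 hzero
    filter_upwards [h3] with s hs hsa
    by_contra hcon
    exact hs ⟨hsa, hcon⟩
  · rw [← key] at hzero
    have h3 : ∀ᵐ s ∂lam, s ∉ {s | U s = v1} \ Iio a := measure_eq_zero_iff_ae_notMem.1 hzero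
    filter_upwards [h3, hA] with s hs hs' hsa
    refine hs'.resolve_left fun h4 => hs ⟨h4, ?_⟩
    intro h5
    have : s < a := h5
    linarith

end TWO

open TWO in
theorem t_TWO (hc : S_CNT) : S_TWO := by
  classical
  intro U n hU hmono hcnt hn hmean hsq hg
  obtain ⟨-, -, -, -, h5, -, -⟩ := hc 0 1 one_pos
  obtain ⟨A, hA, hcard, hpos⟩ := h5 U (by
    have : cntOn 0 1 U = (n : ℝ≥0∞) := hcnt
    rw [this]
    exact ENNReal.natCast_lt_top n)
  have hcard' : A.card = n := by
    have : (A.card : ℝ≥0∞) = n := hcard.trans hcnt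
    exact_mod_cast this
  have hint := integral_comp U hU A hA
  obtain ⟨φ, hφ⟩ : ∃ φ : ℝ → ℝ, φ = fun x => (lam {s | U s = x}).toReal := ⟨_, rfl⟩
  have hint' : ∀ F : ℝ → ℝ, ∫ s, F (U s) ∂lam = ∑ x ∈ A, φ x * F x := by
    intro F
    rw [hint F, hφ]
  have hφpos : ∀ x ∈ A, 0 < φ x := by
    intro x hx
    rw [hφ]
    exact ENNReal.toReal_pos (hpos x hx).ne' (measure_ne_top _ _)
  have hne : A.Nonempty := by
    rw [← Finset.card_pos]
    omega
  obtain ⟨M, hM⟩ : ∃ M, M = A.max' hne := ⟨_, rfl⟩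
  have hMA : M ∈ A := hM ▸ A.max'_mem hne
  have hMle : ∀ x ∈ A, x ≤ M := fun x hx => hM ▸ A.le_max' x hx
  obtain ⟨A1, hA1⟩ : ∃ A1, A1 = A.erase M := ⟨_, rfl⟩
  have hcard1 : A1.card = n - 1 := by rw [hA1, Finset.card_erase_of_mem hMA, hcard']
  have hne1 : A1.Nonempty := by
    rw [← Finset.card_pos]
    omega
  obtain ⟨M', hM'⟩ : ∃ M', M' = A1.max' hne1 := ⟨_, rfl⟩
  have hM'A1 : M' ∈ A1 := hM' ▸ A1.max'_mem hne1
  have hM'le : ∀ x ∈ A1, x ≤ M' := fun x hx => hM' ▸ A1.le_max' x hx
  have hM'A : M' ∈ A := by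
    rw [hA1] at hM'A1
    exact Finset.mem_of_mem_erase hM'A1
  have hMM : M' < M := by
    refine lt_of_le_of_ne (hMle _ hM'A) ?_
    rw [hA1] at hM'A1
    exact Finset.ne_of_mem_erase hM'A1
  obtain ⟨A2, hA2⟩ : ∃ A2, A2 = A1.erase M' := ⟨_, rfl⟩
  have hA2lt : ∀ x ∈ A2, x < M' := by
    intro x hx
    rw [hA2] at hx
    exact lt_of_le_of_ne (hM'le _ (Finset.mem_of_mem_erase hx)) (Finset.ne_of_mem_erase hx)
  have hA2A : ∀ x ∈ A2, x ∈ A := by
    intro x hx
    rw [hA2, hA1] at hx
    exact Finset.mem_of_mem_erase (Finset.mem_of_mem_erase hx)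
  have hcard2 : A2.card = n - 2 := by
    rw [hA2, Finset.card_erase_of_mem hM'A1, hcard1]
    omega
  have hsplit : ∀ F : ℝ → ℝ, ∑ x ∈ A, φ x * F x = φ M * F M + (φ M' * F M' + ∑ x ∈ A2, φ x * F x) := by
    intro F
    rw [hA2, Finset.add_sum_erase A1 (fun x => φ x * F x) hM'A1, hA1,
      Finset.add_sum_erase A (fun x => φ x * F x) hMA]
  have hsets : ∀ x ∈ A, x = M ∨ x = M' ∨ x ∈ A2 := by
    intro x hx
    by_cases h1 : x = M
    · exact Or.inl h1
    by_cases h2 : x = M'
    · exact Or.inr (Or.inl h2)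
    refine Or.inr (Or.inr ?_)
    rw [hA2, hA1]
    exact Finset.mem_erase.2 ⟨h2, Finset.mem_erase.2 ⟨h1, hx⟩⟩
  have hp : 0 < φ M := hφpos M hMA
  have hq : 0 < φ M' := hφpos M' hM'A
  -- only two values
  have hA2e : A2 = ∅ := by
    by_contra hne2
    have hne2 : A2.Nonempty := Finset.nonempty_iff_ne_empty.2 hne2
    obtain ⟨r, hr⟩ : ∃ r, r = ∑ x ∈ A2, φ x := ⟨_, rfl⟩
    obtain ⟨m, hm⟩ : ∃ m, m = ∑ x ∈ A2, φ x * x := ⟨_, rfl⟩
    obtain ⟨e, he⟩ : ∃ e, e = ∑ x ∈ A2, φ x * x ^ 2 := ⟨_, rfl⟩
    have hr0 : 0 < r := by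
      rw [hr]
      exact Finset.sum_pos (fun x hx => hφpos x (hA2A x hx)) hne2
    have t1 : φ M + φ M' + r = 1 := by
      have := hint' (fun _ => 1)
      rw [hsplit] at this
      simp only [integral_const, mul_one, smul_eq_mul, probReal_univ] at this
      rw [hr]
      linarith
    have t2 : φ M * M + φ M' * M' + m = 0 := by
      have := hint' (fun x => x)
      rw [hsplit, hmean] at this
      rw [hm]
      linarith
    have t3 : φ M * M ^ 2 + φ M' * M' ^ 2 + e ≤ n - 1 := by
      have := hint' (fun x => x ^ 2)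
      rw [hsplit] at this
      rw [this] at hsq
      rw [he]
      linarith
    have hqr : 0 < φ M' + r := by linarith
    have hqp : 0 < φ M' + φ M := by linarith
    obtain ⟨w, hw⟩ : ∃ w, w = (φ M' * M' + m) / (φ M' + r) := ⟨_, rfl⟩
    obtain ⟨u, hu⟩ : ∃ u, u = (φ M' * M' + φ M * M) / (φ M' + φ M) := ⟨_, rfl⟩
    have hw' : w * (φ M' + r) = φ M' * M' + m := by
      rw [hw]
      exact div_mul_cancel₀ _ hqr.ne'
    have hu' : u * (φ M' + φ M) = φ M' * M' + φ M * M := by
      rw [hu]
      exact div_mul_cancel₀ _ hqp.ne'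
    have hwM : w ≤ M' := by
      have h1 : m ≤ M' * r := by
        rw [hm, hr, Finset.mul_sum]
        apply Finset.sum_le_sum
        intro x hx
        have := (hA2lt x hx).le
        have := (hφpos x (hA2A x hx)).le
        nlinarith
      rw [hw, div_le_iff₀ hqr]
      linarith
    have huM : M' ≤ u := by
      rw [hu, le_div_iff₀ hqp]
      nlinarith
    -- first merging
    have k1 := hg (fun x => if x ≤ M' then w else M) 2 (by
      intro x y hxy
      simp only
      split_ifs with h1 h2 h2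
      · exact le_rfl
      · linarith
      · exact absurd (hxy.trans h2) h1
      · exact le_rfl) (by
      rw [hint' (fun x => (x - if x ≤ M' then w else M) * (if x ≤ M' then w else M)), hsplit]
      rw [if_neg (not_le.2 hMM), if_pos le_rfl]
      have : ∑ x ∈ A2, φ x * ((x - if x ≤ M' then w else M) * (if x ≤ M' then w else M)) = m * w - r * w ^ 2 := by
        rw [hm, hr, Finset.sum_mul, Finset.sum_mul, ← Finset.sum_sub_distrib]
        apply Finset.sum_congr rfl
        intro x hx
        rw [if_pos (hA2lt x hx).le]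
        ring
      rw [this]
      linear_combination (-w) * hw') (by
      refine (cnt_le _ {w, M} ?_).trans ?_
      · filter_upwards [hA] with s _
        split_ifs <;> simp
      · exact_mod_cast Finset.card_le_two)
    rw [hint' (fun x => (x - if x ≤ M' then w else M) ^ 2), hsplit, if_neg (not_le.2 hMM), if_pos le_rfl] at k1
    have k1' : ∑ x ∈ A2, φ x * (x - if x ≤ M' then w else M) ^ 2 = e - 2 * w * m + w ^ 2 * r := by
      rw [he, hm, hr, Finset.mul_sum, Finset.mul_sum, ← Finset.sum_sub_distrib, ← Finset.sum_add_distrib]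
      apply Finset.sum_congr rfl
      intro x hx
      rw [if_pos (hA2lt x hx).le]
      ring
    rw [k1'] at k1
    -- second merging
    have k2 := hg (fun x => if x < M' then x else u) (n - 1) (by
      intro x y hxy
      simp only
      split_ifs with h1 h2 h2
      · exact hxy
      · linarith
      · exact absurd (lt_of_le_of_lt hxy h2) h1
      · exact le_rfl) (by
      rw [hint' (fun x => (x - if x < M' then x else u) * (if x < M' then x else u)), hsplit]
      rw [if_neg (not_lt.2 hMM.le), if_neg (lt_irrefl _)]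
      have : ∑ x ∈ A2, φ x * ((x - if x < M' then x else u) * (if x < M' then x else u)) = 0 := by
        apply Finset.sum_eq_zero
        intro x hx
        rw [if_pos (hA2lt x hx)]
        ring
      rw [this]
      linear_combination (-u) * hu') (by
      refine (cnt_le _ (insert u A2) ?_).trans ?_
      · filter_upwards [hA] with s hs
        rcases hsets _ hs with h | h | h
        · rw [h, if_neg (not_lt.2 hMM.le)]
          exact Finset.mem_insert_self _ _
        · rw [h, if_neg (lt_irrefl _)]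
          exact Finset.mem_insert_self _ _
        · rw [if_pos (hA2lt _ h)]
          exact Finset.mem_insert_of_mem h
      · have h6 := Finset.card_insert_le u A2
        rw [hcard2] at h6
        exact_mod_cast (h6.trans (by omega)))
    rw [hint' (fun x => (x - if x < M' then x else u) ^ 2), hsplit, if_neg (not_lt.2 hMM.le),
      if_neg (lt_irrefl _)] at k2
    have k2' : ∑ x ∈ A2, φ x * (x - if x < M' then x else u) ^ 2 = 0 := by
      apply Finset.sum_eq_zero
      intro x hx
      rw [if_pos (hA2lt x hx)]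
      ring
    rw [k2'] at k2
    have hn1 : ((n - 1 : ℕ) : ℝ) = n - 1 := by
      rw [Nat.cast_sub (by omega)]
      norm_num
    rw [hn1] at k2
    refine numeric (φ M) (φ M') r m e M M' w u n hp hq hr0 t1 t2 t3 hMM hw' hwM hu' ?_ ?_
    · have : φ M * (M - M) ^ 2 = 0 := by ring
      rw [this] at k1
      push_cast at k1
      linarith
    · linarith
  -- conclusion
  have hA' : ∀ᵐ s ∂lam, U s = M' ∨ U s = M := by
    filter_upwards [hA] with s hs
    rcases hsets _ hs with h | h | h
    · exact Or.inr h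
    · exact Or.inl h
    · rw [hA2e] at h
      exact absurd h (Finset.notMem_empty _)
  obtain ⟨a, ha0, ha1, h1, h2⟩ := two_values U hU hmono M' M hMM hA' (hpos M' hM'A) (hpos M hMA)
  exact ⟨a, M', M, ha0, ha1, hMM, h1, h2⟩

end Pool.Agent.R508.BT
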