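import Pool.Agent.R508.BT.Stm

/-!
Piece UPP (helper31): the energy is finite by an explicit binary tree, and the bound follows from
gluing two copies.
-/

set_option autoImplicit false

open MeasureTheory Set Filter Topology
open scoped ENNReal

namespace Pool.Agent.R508.BT

namespace UPP

/-- value of the midpoint of the dyadic interval number `N` -/
noncomputable def gg (k N : ℕ) : ℝ := ((N : ℝ) + 1 / 2) / 2 ^ k - 1 / 2

/-- midpoints of the dyadic intervals -/
noncomputable def D (k : ℕ) (s : ℝ) : ℝ := gg k ⌊(2 : ℝ) ^ k * s⌋₊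

theorem D_zero {s : ℝ} (h1 : s < 1) : D 0 s = 0 := by
  unfold D gg
  have : ⌊(2 : ℝ) ^ 0 * s⌋₊ = 0 := by
    rw [Nat.floor_eq_zero]
    simpa using h1
  rw [this]
  norm_num

theorem D_err (k : ℕ) {s : ℝ} (h0 : 0 < s) : |D k s - (s - 1 / 2)| ≤ (1 / 2) / 2 ^ k := by
  have hp : (0 : ℝ) < 2 ^ k := by positivity
  have h1 : (⌊(2 : ℝ) ^ k * s⌋₊ : ℝ) ≤ 2 ^ k * s := Nat.floor_le (by positivity)
  have h2 : 2 ^ k * s < (⌊(2 : ℝ) ^ k * s⌋₊ : ℝ) + 1 := Nat.lt_floor_add_one _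
  have h3 : D k s - (s - 1 / 2) =
      ((⌊(2 : ℝ) ^ k * s⌋₊ : ℝ) + 1 / 2 - 2 ^ k * s) / 2 ^ k := by
    unfold D gg
    field_simp
    ring
  rw [h3, abs_div, abs_of_pos hp]
  gcongr
  rw [abs_le]
  constructor <;> linarith

theorem D_step (k : ℕ) {s : ℝ} (h0 : 0 < s) : |D (k + 1) s - D k s| ≤ (1 / 2) ^ k := by
  have h1 := D_err k h0
  have h2 := D_err (k + 1) h0
  have h3 : |D (k + 1) s - D k s| ≤ |D (k + 1) s - (s - 1 / 2)| + |D k s - (s - 1 / 2)| := by
    rw [abs_sub_comm (D k s)]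
    exact abs_sub_le _ _ _
  have h4 : (1 / 2 : ℝ) / 2 ^ (k + 1) ≤ (1 / 2) / 2 ^ k := by
    rw [pow_succ]
    have hp : (0 : ℝ) < 2 ^ k := by positivity
    gcongr
    linarith
  have h5 : (1 / 2 : ℝ) ^ k = (1 / 2) / 2 ^ k + (1 / 2) / 2 ^ k := by
    rw [one_div, inv_pow]
    ring
  linarith

theorem D_mono (k : ℕ) {s s' : ℝ} (h : s ≤ s') : D k s ≤ D k s' := by
  unfold D gg
  have h1 : (⌊(2 : ℝ) ^ k * s⌋₊ : ℝ) ≤ ⌊(2 : ℝ) ^ k * s'⌋₊ := by
    exact_mod_cast Nat.floor_mono (mul_le_mul_of_nonneg_left h (by positivity))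
  have hp : (0 : ℝ) < 2 ^ k := by positivity
  gcongr

theorem D_half (k : ℕ) (s : ℝ) : D k s = gg k (⌊(2 : ℝ) ^ (k + 1) * s⌋₊ / 2) := by
  unfold D
  congr 1
  have h := Nat.floor_div_natCast ((2 : ℝ) ^ (k + 1) * s) 2
  rw [← h]
  congr 1
  push_cast
  ring

theorem meas_D (k : ℕ) : Measurable (D k) := by
  have h : Measurable fun s : ℝ => ((⌊(2 : ℝ) ^ k * s⌋₊ : ℕ) : ℝ) :=
    (measurable_of_countable fun n : ℕ => (n : ℝ)).comp
      (Nat.measurable_floor.comp (measurable_const.mul measurable_id))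
  unfold D gg
  exact ((h.add_const _).div_const _).sub_const _

/-- the branching times -/
noncomputable def tt (k : ℕ) : ℝ := 3 / 2 * (1 - (1 / 3) ^ k)

theorem tt_zero : tt 0 = 0 := by
  unfold tt
  norm_num

theorem tt_succ (k : ℕ) : tt (k + 1) = tt k + (1 / 3) ^ k := by
  unfold tt
  ring

theorem tt_mono : Monotone tt := by
  refine monotone_nat_of_le_succ fun k => ?_
  rw [tt_succ]
  have : (0 : ℝ) < (1 / 3) ^ k := by positivity
  linarith

theorem tt_nonneg (k : ℕ) : 0 ≤ tt k := by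
  rw [← tt_zero]
  exact tt_mono (Nat.zero_le k)

theorem tt_lt (k : ℕ) : tt k < 3 / 2 := by
  unfold tt
  have : (0 : ℝ) < (1 / 3) ^ k := by positivity
  linarith

theorem tt_tend : Tendsto tt atTop (𝓝 (3 / 2)) := by
  have h : Tendsto (fun k : ℕ => (1 / 3 : ℝ) ^ k) atTop (𝓝 0) :=
    tendsto_pow_atTop_nhds_zero_of_lt_one (by norm_num) (by norm_num)
  have h2 := (h.const_sub 1).const_mul (3 / 2 : ℝ)
  unfold tt
  simpa using h2

theorem exists_piece {t : ℝ} (h0 : 0 < t) (h1 : t < 3 / 2) : ∃ k, tt k < t ∧ t ≤ tt (k + 1) := by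
  have hex : ∃ n, t ≤ tt n := by
    obtain ⟨n, hn⟩ := ((tendsto_order.1 tt_tend).1 t h1).exists
    exact ⟨n, hn.le⟩
  classical
  have hs := Nat.find_spec hex
  obtain ⟨k, hk⟩ : ∃ k, Nat.find hex = k + 1 := by
    refine ⟨Nat.find hex - 1, ?_⟩
    have : Nat.find hex ≠ 0 := by
      intro h
      rw [h, tt_zero] at hs
      linarith
    omega
  refine ⟨k, ?_, ?_⟩
  · have := Nat.find_min hex (m := k) (by omega)
    linarith [not_le.1 this]
  · rw [← hk]
    exact hs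

/-- the number of the generation -/
noncomputable def idx (t : ℝ) : ℕ := Nat.log 3 (⌈(3 / 2) / (3 / 2 - t)⌉₊ - 1)

theorem idx_eq (k : ℕ) {t : ℝ} (h1 : tt k < t) (h2 : t ≤ tt (k + 1)) : idx t = k := by
  have hp : (0 : ℝ) < 3 ^ k := by positivity
  have he : (1 / 3 : ℝ) ^ k = 1 / 3 ^ k := by
    rw [one_div, one_div, inv_pow]
  have h3 : 0 < 3 / 2 - t := by linarith [tt_lt (k + 1)]
  have h4 : (3 / 2 - t) * 3 ^ k < 3 / 2 := by
    have : 3 / 2 - t < 3 / 2 * (1 / 3 ^ k) := by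
      unfold tt at h1
      rw [he] at h1
      linarith
    calc (3 / 2 - t) * 3 ^ k < 3 / 2 * (1 / 3 ^ k) * 3 ^ k := by gcongr
      _ = 3 / 2 := by field_simp
  have h5 : 3 / 2 ≤ (3 / 2 - t) * 3 ^ (k + 1) := by
    have : 3 / 2 * (1 / 3 ^ (k + 1)) ≤ 3 / 2 - t := by
      unfold tt at h2
      rw [one_div, inv_pow, ← one_div] at h2
      linarith
    calc (3 / 2 : ℝ) = 3 / 2 * (1 / 3 ^ (k + 1)) * 3 ^ (k + 1) := by field_simp
      _ ≤ _ := by gcongr
  unfold idx
  have h6 : 3 ^ k < ⌈(3 / 2) / (3 / 2 - t)⌉₊ := by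
    rw [Nat.lt_ceil]
    push_cast
    rw [lt_div_iff₀ h3]
    linarith
  have h7 : ⌈(3 / 2) / (3 / 2 - t)⌉₊ ≤ 3 ^ (k + 1) := by
    rw [Nat.ceil_le]
    push_cast
    rw [div_le_iff₀ h3]
    linarith
  refine Nat.log_eq_of_pow_le_of_lt_pow (by omega) (by omega)

/-- the velocity -/
noncomputable def V (t s : ℝ) : ℝ := 3 ^ (idx t) * (D (idx t + 1) s - D (idx t) s)

theorem meas_idx : Measurable idx := by
  unfold idx
  have h : Measurable fun t : ℝ => ⌈(3 / 2) / (3 / 2 - t)⌉₊ :=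
    Nat.measurable_ceil.comp (measurable_const.div (measurable_const.sub measurable_id))
  exact (measurable_of_countable fun n : ℕ => Nat.log 3 (n - 1)).comp h

theorem meas_V : Measurable (Function.uncurry V) := by
  have h : Measurable fun p : ℕ × ℝ => (3 : ℝ) ^ p.1 * (D (p.1 + 1) p.2 - D p.1 p.2) := by
    refine measurable_from_prod_countable_right fun n => ?_
    change Measurable fun y => (3 : ℝ) ^ n * (D (n + 1) y - D n y)
    exact Measurable.const_mul (Measurable.sub (meas_D (n + 1)) (meas_D n)) ((3 : ℝ) ^ n)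
  exact h.comp ((meas_idx.comp measurable_fst).prodMk measurable_snd)

theorem V_eq (k : ℕ) {t : ℝ} (h1 : tt k < t) (h2 : t ≤ tt (k + 1)) (s : ℝ) :
    V t s = 3 ^ k * (D (k + 1) s - D k s) := by
  unfold V
  rw [idx_eq k h1 h2]

theorem int_piece (k : ℕ) (s : ℝ) {t : ℝ} (h1 : tt k ≤ t) (h2 : t ≤ tt (k + 1)) :
    IntervalIntegrable (fun τ => V τ s) volume (tt k) t ∧
      ∫ τ in (tt k)..t, V τ s = (t - tt k) * (3 ^ k * (D (k + 1) s - D k s)) := by
  have hEq : ∀ τ ∈ Set.uIoc (tt k) t, V τ s = 3 ^ k * (D (k + 1) s - D k s) := by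
    rw [uIoc_of_le h1]
    rintro τ ⟨a, b⟩
    exact V_eq k a (b.trans h2) s
  constructor
  · rw [intervalIntegrable_iff]
    refine (integrableOn_congr_fun hEq measurableSet_uIoc).2 ?_
    rw [← intervalIntegrable_iff]
    exact intervalIntegrable_const
  · rw [intervalIntegral.integral_congr_ae (ae_of_all _ hEq), intervalIntegral.integral_const,
      smul_eq_mul]

theorem pos_tt (k : ℕ) (s : ℝ) : IntervalIntegrable (fun τ => V τ s) volume 0 (tt k) ∧
    ∫ τ in (0 : ℝ)..(tt k), V τ s = D k s - D 0 s := by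
  induction k with
  | zero => simp [tt_zero]
  | succ k ih =>
    obtain ⟨h1, h2⟩ := int_piece k s (tt_mono (Nat.le_succ k)) le_rfl
    refine ⟨ih.1.trans h1, ?_⟩
    rw [← intervalIntegral.integral_add_adjacent_intervals ih.1 h1, ih.2, h2, tt_succ]
    have : (1 / 3 : ℝ) ^ k * 3 ^ k = 1 := by
      rw [← mul_pow]
      norm_num
    linear_combination (D (k + 1) s - D k s) * this

theorem pos_piece (k : ℕ) (s : ℝ) {t : ℝ} (h1 : tt k ≤ t) (h2 : t ≤ tt (k + 1)) :
    pos V t s = D k s - D 0 s + ((t - tt k) * 3 ^ k) * (D (k + 1) s - D k s) := by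
  obtain ⟨h3, h4⟩ := int_piece k s h1 h2
  obtain ⟨h5, h6⟩ := pos_tt k s
  unfold pos
  rw [← intervalIntegral.integral_add_adjacent_intervals h5 h3, h6, h4]
  ring

theorem union_eq : Ioo (0 : ℝ) (3 / 2) = ⋃ k, Ioc (tt k) (tt (k + 1)) := by
  ext x
  rw [mem_iUnion]
  constructor
  · rintro ⟨h0, h1⟩
    obtain ⟨k, hk, hk'⟩ := exists_piece h0 h1
    exact ⟨k, hk, hk'⟩
  · rintro ⟨k, hk, hk'⟩
    exact ⟨(tt_nonneg k).trans_lt hk, hk'.trans_lt (tt_lt _)⟩

theorem disj : Pairwise (Function.onFun Disjoint fun k => Ioc (tt k) (tt (k + 1))) :=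
  tt_mono.pairwise_disjoint_on_Ioc_succ

theorem D_tend {s : ℝ} (h0 : 0 < s) : Tendsto (fun k => D k s) atTop (𝓝 (s - 1 / 2)) := by
  rw [tendsto_iff_norm_sub_tendsto_zero]
  have h : Tendsto (fun k : ℕ => (1 / 2 : ℝ) ^ k * (1 / 2)) atTop (𝓝 0) := by
    have := (tendsto_pow_atTop_nhds_zero_of_lt_one (r := (1 / 2 : ℝ)) (by norm_num)
      (by norm_num)).mul_const (1 / 2 : ℝ)
    simpa using this
  refine squeeze_zero (fun _ => norm_nonneg _) (fun k => ?_) h
  rw [Real.norm_eq_abs]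
  refine (D_err k h0).trans (le_of_eq ?_)
  rw [one_div, inv_pow]
  ring

theorem pos_final {s : ℝ} (h0 : 0 < s) (h1 : s < 1) : pos V (3 / 2) s = s - 1 / 2 := by
  have hi : ∀ k, IntegrableOn (fun τ => V τ s) (Ioc (tt k) (tt (k + 1))) := by
    intro k
    have := (int_piece k s (tt_mono (Nat.le_succ k)) le_rfl).1
    rwa [intervalIntegrable_iff_integrableOn_Ioc_of_le (tt_mono (Nat.le_succ k))] at this
  have hint : IntegrableOn (fun τ => V τ s) (⋃ k, Ioc (tt k) (tt (k + 1))) := by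
    refine integrableOn_iUnion_of_summable_integral_norm hi ?_
    refine Summable.of_nonneg_of_le (fun k => integral_nonneg fun _ => norm_nonneg _) (fun k => ?_)
      (summable_geometric_of_lt_one (r := (1 / 2 : ℝ)) (by norm_num) (by norm_num))
    have hEq : ∀ τ ∈ Ioc (tt k) (tt (k + 1)), ‖V τ s‖ = 3 ^ k * |D (k + 1) s - D k s| := by
      rintro τ ⟨a, b⟩
      rw [V_eq k a b s, Real.norm_eq_abs, abs_mul, abs_of_pos (by positivity : (0 : ℝ) < 3 ^ k)]
    rw [setIntegral_congr_fun measurableSet_Ioc hEq, setIntegral_const]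
    rw [measureReal_def, Real.volume_Ioc, tt_succ, add_sub_cancel_left,
      ENNReal.toReal_ofReal (by positivity), smul_eq_mul, ← mul_assoc, ← mul_pow]
    norm_num
    exact (D_step k h0).trans (le_of_eq (by norm_num))
  have hs := hasSum_integral_iUnion (fun k => measurableSet_Ioc) disj hint
  have hs2 := hs.tendsto_sum_nat
  have h3 : ∀ n : ℕ, ∑ k ∈ Finset.range n, ∫ τ in Ioc (tt k) (tt (k + 1)), V τ s = D n s := by
    intro n
    have h4 : ∀ k ∈ Finset.range n, ∫ τ in Ioc (tt k) (tt (k + 1)), V τ s =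
        D (k + 1) s - D k s := by
      intro k _
      rw [← intervalIntegral.integral_of_le (tt_mono (Nat.le_succ k)),
        (int_piece k s (tt_mono (Nat.le_succ k)) le_rfl).2, tt_succ]
      have : (1 / 3 : ℝ) ^ k * 3 ^ k = 1 := by
        rw [← mul_pow]
        norm_num
      linear_combination (D (k + 1) s - D k s) * this
    rw [Finset.sum_congr rfl h4, Finset.sum_range_sub (fun k => D k s), D_zero h1, sub_zero]
  simp only [h3] at hs2
  have h5 := tendsto_nhds_unique hs2 (D_tend h0)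
  unfold pos
  rw [intervalIntegral.integral_of_le (by norm_num), integral_Ioc_eq_integral_Ioo, union_eq, h5]

theorem aemono_of {f : ℝ → ℝ} (h : ∀ s ∈ Ioo (0 : ℝ) 1, ∀ s' ∈ Ioo (0 : ℝ) 1, s ≤ s' → f s ≤ f s') :
    AEMono f := by
  unfold AEMono
  rw [Measure.prod_restrict]
  refine (ae_restrict_iff' (measurableSet_Ioo.prod measurableSet_Ioo)).2 (ae_of_all _ ?_)
  rintro ⟨a, b⟩ ⟨ha, hb⟩ hab
  exact h a ha b hb hab

theorem mono_V {t : ℝ} (ht : t ∈ Icc (0 : ℝ) (3 / 2)) : AEMono (pos V t) := by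
  refine aemono_of fun s hs s' hs' hss => ?_
  rcases eq_or_lt_of_le ht.2 with h | h
  · rw [h, pos_final hs.1 hs.2, pos_final hs'.1 hs'.2]
    linarith
  · rcases eq_or_lt_of_le ht.1 with h0 | h0
    · rw [← h0]
      simp [pos]
    · obtain ⟨k, hk, hk'⟩ := exists_piece h0 h
      rw [pos_piece k s hk.le hk', pos_piece k s' hk.le hk', D_zero hs.2, D_zero hs'.2]
      have h1 := D_mono k hss
      have h2 := D_mono (k + 1) hss
      have h3 : 0 ≤ (t - tt k) * 3 ^ k := mul_nonneg (by linarith) (by positivity)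
      have h4 : (t - tt k) * 3 ^ k ≤ 1 := by
        rw [tt_succ] at hk'
        calc (t - tt k) * 3 ^ k ≤ (1 / 3) ^ k * 3 ^ k := by
              gcongr
              linarith
          _ = 1 := by
            rw [← mul_pow]
            norm_num
      nlinarith [mul_nonneg h3 (sub_nonneg.2 h2), mul_nonneg (sub_nonneg.2 h4) (sub_nonneg.2 h1)]

theorem cnt_V (k : ℕ) {t : ℝ} (h1 : tt k ≤ t) (h2 : t ≤ tt (k + 1)) :
    cnt (pos V t) ≤ ENNReal.ofReal (2 ^ (k + 1)) := by
  classical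
  set A : Finset ℝ := (Finset.range (2 ^ (k + 1))).image (fun N : ℕ =>
    gg k (N / 2) + ((t - tt k) * 3 ^ k) * (gg (k + 1) N - gg k (N / 2))) with hA
  have hmem : ∀ᵐ s ∂(volume.restrict (Ioo (0 : ℝ) 1)), pos V t s ∈ A := by
    refine (ae_restrict_iff' measurableSet_Ioo).2 (ae_of_all _ fun s hs => ?_)
    rw [hA, Finset.mem_image]
    refine ⟨⌊(2 : ℝ) ^ (k + 1) * s⌋₊, ?_, ?_⟩
    · rw [Finset.mem_range, Nat.floor_lt (by have := hs.1; positivity)]
      push_cast
      have : (0 : ℝ) < 2 ^ (k + 1) := by positivity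
      nlinarith [hs.2]
    · rw [pos_piece k s h1 h2, D_zero hs.2, sub_zero, D_half k s]
      rfl
  calc cnt (pos V t) ≤ (A.card : ℝ≥0∞) := iInf₂_le A hmem
    _ ≤ ((2 ^ (k + 1) : ℕ) : ℝ≥0∞) := by
        have : A.card ≤ 2 ^ (k + 1) := by
          rw [hA]
          exact Finset.card_image_le.trans (by rw [Finset.card_range])
        exact_mod_cast this
    _ = _ := by
        rw [← ENNReal.ofReal_natCast]
        push_cast
        rfl

theorem vol_piece (k : ℕ) : volume (Ioc (tt k) (tt (k + 1))) = ENNReal.ofReal ((1 / 3) ^ k) := by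
  rw [Real.volume_Ioc, tt_succ, add_sub_cancel_left]

theorem sum_piece (f : ℝ → ℝ≥0∞) (q C : ℝ) (hC : 0 ≤ C) (hq : 0 < q) (hq3 : q < 3)
    (hf : ∀ k : ℕ, ∀ t ∈ Ioc (tt k) (tt (k + 1)), f t ≤ ENNReal.ofReal (C * q ^ k)) :
    ∫⁻ t in Ioo 0 (3 / 2), f t < ∞ := by
  rw [union_eq, lintegral_iUnion (fun k => measurableSet_Ioc) disj]
  have h1 : ∀ k, ∫⁻ t in Ioc (tt k) (tt (k + 1)), f t ≤ ENNReal.ofReal (C * (q / 3) ^ k) := by
    intro k
    calc ∫⁻ t in Ioc (tt k) (tt (k + 1)), f t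
        ≤ ∫⁻ t in Ioc (tt k) (tt (k + 1)), ENNReal.ofReal (C * q ^ k) :=
          setLIntegral_mono' measurableSet_Ioc (hf k)
      _ = ENNReal.ofReal (C * q ^ k) * ENNReal.ofReal ((1 / 3) ^ k) := by
          rw [setLIntegral_const, vol_piece]
      _ = _ := by
          rw [← ENNReal.ofReal_mul (by positivity)]
          congr 1
          rw [div_pow, div_pow, one_pow]
          ring
  refine (ENNReal.tsum_le_tsum h1).trans_lt ?_
  have hsum : Summable fun k : ℕ => C * (q / 3) ^ k :=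
    (summable_geometric_of_lt_one (by positivity) (by rw [div_lt_one (by norm_num)]; exact hq3)).mul_left C
  exact hsum.tsum_ofReal_lt_top

theorem lam_univ : lam Set.univ = 1 := by
  rw [Measure.restrict_apply_univ, Real.volume_Ioo]
  norm_num

theorem kin_V : kin (3 / 2) V < ∞ := by
  unfold kin
  refine sum_piece _ (9 / 4) 1 zero_le_one (by norm_num) (by norm_num) fun k t ht => ?_
  calc ∫⁻ s, ENNReal.ofReal ((V t s) ^ 2) ∂lam ≤ ∫⁻ _s, ENNReal.ofReal (1 * (9 / 4) ^ k) ∂lam := by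
        refine lintegral_mono_ae ?_
        refine (ae_restrict_iff' measurableSet_Ioo).2 (ae_of_all _ fun s hs => ?_)
        refine ENNReal.ofReal_le_ofReal ?_
        rw [V_eq k ht.1 ht.2 s, mul_pow, one_mul]
        have h1 : (D (k + 1) s - D k s) ^ 2 ≤ ((1 / 2) ^ k) ^ 2 := by
          rw [sq_le_sq, abs_of_pos (by positivity : (0 : ℝ) < (1 / 2) ^ k)]
          exact D_step k hs.1
        calc ((3 : ℝ) ^ k) ^ 2 * (D (k + 1) s - D k s) ^ 2
            ≤ ((3 : ℝ) ^ k) ^ 2 * ((1 / 2) ^ k) ^ 2 := by gcongr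
          _ = (9 / 4) ^ k := by
              rw [← pow_mul, ← pow_mul, mul_comm k 2, pow_mul, pow_mul, ← mul_pow]
              norm_num
    _ = ENNReal.ofReal (1 * (9 / 4) ^ k) := by
        rw [lintegral_const, lam_univ, mul_one]

theorem path_V : Path (3 / 2) V where
  meas := meas_V
  fin := kin_V
  mono := fun t ht => mono_V ht
  final := (ae_restrict_iff' measurableSet_Ioo).2 (ae_of_all _ fun s hs => pos_final hs.1 hs.2)

theorem en_V : en (3 / 2) V < ∞ := by
  unfold en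
  refine ENNReal.add_lt_top.2 ⟨?_, kin_V⟩
  refine sum_piece _ 2 2 (by norm_num) (by norm_num) (by norm_num) fun k t ht => ?_
  refine (cnt_V k ht.1.le ht.2).trans (le_of_eq ?_)
  rw [pow_succ]
  congr 1
  ring

theorem E_fin0 : E (3 / 2) < ∞ := by
  unfold E
  exact (iInf₂_le V path_V).trans_lt en_V

theorem E_fin (h : S_TSC) {T : ℝ} (hT : 0 < T) : E T < ∞ :=
  (h (3 / 2) T (by norm_num) hT).trans_lt (ENNReal.mul_lt_top ENNReal.ofReal_lt_top E_fin0)

theorem r32_half : r32 (1 / 2) = Real.sqrt 2 / 4 := by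
  unfold r32
  rw [show (3 / 2 : ℝ) = 1 + 1 / 2 by norm_num, Real.rpow_add (by norm_num), Real.rpow_one,
    ← Real.sqrt_eq_rpow, Real.sqrt_div (by norm_num), Real.sqrt_one]
  have h2 : Real.sqrt 2 * Real.sqrt 2 = 2 := Real.mul_self_sqrt (by norm_num)
  have h0 : 0 < Real.sqrt 2 := Real.sqrt_pos.2 (by norm_num)
  field_simp
  nlinarith

end UPP

open UPP in
/-- the upper bound for the minimal energy -/
theorem t_UPP (hG : S_GLUE) (hW : S_WAIT) (hT : S_TSC) : S_UPP := by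
  intro T hT0
  have hfin := (E_fin hT hT0).ne
  have h0 : 0 < Real.sqrt 2 := Real.sqrt_pos.2 (by norm_num)
  have h2 : Real.sqrt 2 * Real.sqrt 2 = 2 := Real.mul_self_sqrt (by norm_num)
  have hs2 : Real.sqrt 2 < 2 := by nlinarith
  have hr : r32 (1 / 2) = Real.sqrt 2 / 4 := r32_half
  have hr0 : 0 < Real.sqrt 2 / 4 := by positivity
  have h1 := hG T (1 / 2) hT0 (by norm_num) (by norm_num)
  rw [show (1 : ℝ) - 1 / 2 = 1 / 2 by norm_num, hr] at h1
  have hTr : T ≤ T / (Real.sqrt 2 / 4) := by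
    rw [le_div_iff₀ hr0]
    nlinarith
  have h3 := hW T (T / (Real.sqrt 2 / 4)) hT0 hTr
  set e : ℝ := (E T).toReal with he
  have hE : E T = ENNReal.ofReal e := (ENNReal.ofReal_toReal hfin).symm
  have he0 : 0 ≤ e := ENNReal.toReal_nonneg
  have hd : 0 ≤ T / (Real.sqrt 2 / 4) - T := by linarith
  rw [hE, ← ENNReal.ofReal_add he0 hd] at h3
  have h4 : E T ≤ ENNReal.ofReal (Real.sqrt 2 / 4 * (e + (T / (Real.sqrt 2 / 4) - T)) +
      Real.sqrt 2 / 4 * (e + (T / (Real.sqrt 2 / 4) - T)) + 1 / 2 * (1 / 2) / (4 * T)) := by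
    refine h1.trans ?_
    rw [ENNReal.ofReal_add (by positivity) (by positivity),
      ENNReal.ofReal_add (by positivity) (by positivity), ENNReal.ofReal_mul hr0.le]
    gcongr
  rw [hE, ENNReal.ofReal_le_ofReal_iff (by positivity)] at h4
  rw [hE]
  refine ENNReal.ofReal_le_ofReal ?_
  have h5 : Real.sqrt 2 / 4 * (e + (T / (Real.sqrt 2 / 4) - T)) = Real.sqrt 2 / 4 * e + T -
      Real.sqrt 2 / 4 * T := by
    field_simp
    ring
  rw [h5] at h4
  have h6 : (1 / 2 * (1 / 2) / (4 * T) : ℝ) = 1 / (16 * T) := by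
    field_simp
    norm_num
  rw [h6] at h4
  have h7 : e * (1 - Real.sqrt 2 / 2) ≤ (2 - Real.sqrt 2 / 2) * T + 1 / (16 * T) := by linarith
  have h8 : e = (2 + Real.sqrt 2) * (e * (1 - Real.sqrt 2 / 2)) := by
    linear_combination (e / 2) * h2
  rw [h8]
  calc (2 + Real.sqrt 2) * (e * (1 - Real.sqrt 2 / 2))
      ≤ (2 + Real.sqrt 2) * ((2 - Real.sqrt 2 / 2) * T + 1 / (16 * T)) := by gcongr
    _ = (1 + 2 * cc) * T + cc / (8 * T) := by
        unfold cc
        field_simp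
        nlinarith [h2]

end Pool.Agent.R508.BT
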