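import Pool.Agent.R508.BT.Stm

set_option autoImplicit false

open MeasureTheory Set Filter Topology
open scoped ENNReal

namespace Pool.Agent.R508.BT

namespace VAR

theorem split {a b : ℝ} (ha : 0 < a) (hb : a < b) (F : ℝ → ℝ≥0∞) :
    ∫⁻ t in Ioo 0 b, F t = (∫⁻ t in Ioc 0 a, F t) + ∫⁻ t in Ioo a b, F t := by
  have e : Ioo 0 b = Ioc 0 a ∪ Ioo a b := (Ioc_union_Ioo_eq_Ioo ha.le hb).symm
  rw [e, lintegral_union measurableSet_Ioo]
  rw [Set.disjoint_left]
  intro x hx hx'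
  exact absurd hx.2 (not_le.2 hx'.1)

theorem shift (F : ℝ → ℝ≥0∞) (a b τ : ℝ) :
    ∫⁻ t in Ioo (a + τ) (b + τ), F (t - τ) = ∫⁻ t in Ioo a b, F t := by
  have h := (measurePreserving_sub_right (volume : Measure ℝ) τ).setLIntegral_comp_preimage_emb
    (MeasurableEquiv.subRight τ).measurableEmbedding F (Ioo a b)
  have e : (fun x : ℝ => x - τ) ⁻¹' Ioo a b = Ioo (a + τ) (b + τ) := by
    ext x
    simp only [mem_preimage, mem_Ioo]
    constructor
    · rintro ⟨h1, h2⟩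
      exact ⟨by linarith, by linarith⟩
    · rintro ⟨h1, h2⟩
      exact ⟨by linarith, by linarith⟩
  rw [e] at h
  exact h

theorem cs {t0 : ℝ} (ht0 : 0 < t0) (f : ℝ → ℝ) (h1 : IntervalIntegrable f volume 0 t0)
    (h2 : IntervalIntegrable (fun t => (f t) ^ 2) volume 0 t0) :
    ENNReal.ofReal ((∫ t in (0 : ℝ)..t0, f t) ^ 2 / t0) ≤
      ∫⁻ t in Ioc 0 t0, ENNReal.ofReal ((f t) ^ 2) := by
  set X := ∫ t in (0 : ℝ)..t0, f t with hX
  have h3 : (0 : ℝ) ≤ ∫ t in (0 : ℝ)..t0, (f t - X / t0) ^ 2 :=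
    intervalIntegral.integral_nonneg ht0.le fun t _ => sq_nonneg _
  have h4 : ∫ t in (0 : ℝ)..t0, (f t - X / t0) ^ 2 =
      (∫ t in (0 : ℝ)..t0, (f t) ^ 2) - X ^ 2 / t0 := by
    have e1 : ∀ t, (f t - X / t0) ^ 2 = (f t) ^ 2 - (2 * (X / t0)) * f t + (X / t0) ^ 2 := by
      intro t
      ring
    simp only [e1]
    rw [intervalIntegral.integral_add (h2.sub (h1.const_mul _)) intervalIntegrable_const,
      intervalIntegral.integral_sub h2 (h1.const_mul _), intervalIntegral.integral_const_mul,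
      intervalIntegral.integral_const, ← hX, smul_eq_mul]
    field_simp
    ring
  have h5 : X ^ 2 / t0 ≤ ∫ t in (0 : ℝ)..t0, (f t) ^ 2 := by linarith
  refine (ENNReal.ofReal_le_ofReal h5).trans ?_
  rw [intervalIntegral.integral_of_le ht0.le]
  rw [ofReal_integral_eq_lintegral_ofReal]
  · exact (intervalIntegrable_iff_integrableOn_Ioc_of_le ht0.le).1 h2
  · exact Eventually.of_forall fun t => sq_nonneg _

theorem aemono_congr {f g : ℝ → ℝ} (hf : AEMono f) (h : ∀ᵐ s ∂lam, f s = g s) : AEMono g := by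
  have h1 : ∀ᵐ p ∂(lam.prod lam), f p.1 = g p.1 :=
    Measure.quasiMeasurePreserving_fst.ae h
  have h2 : ∀ᵐ p ∂(lam.prod lam), f p.2 = g p.2 :=
    Measure.quasiMeasurePreserving_snd.ae h
  unfold AEMono at hf ⊢
  filter_upwards [hf, h1, h2] with p hp e1 e2 hle
  rw [← e1, ← e2]
  exact hp hle

theorem aemono_mul {f : ℝ → ℝ} (hf : AEMono f) {c : ℝ} (hc : 0 ≤ c) :
    AEMono (fun s => c * f s) := by
  unfold AEMono at hf ⊢
  filter_upwards [hf] with p hp hle
  exact mul_le_mul_of_nonneg_left (hp hle) hc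

/-- the competitor -/
noncomputable def W (V : ℝ → ℝ → ℝ) (t0 τ : ℝ) (t s : ℝ) : ℝ :=
  if t ≤ t0 + τ then pos V t0 s / (t0 + τ) else V (t - τ) s

theorem pos1 (V : ℝ → ℝ → ℝ) {t0 τ : ℝ} (ht0 : 0 < t0) (hτ : 0 < τ) {t : ℝ} (h0 : 0 ≤ t)
    (ht : t ≤ t0 + τ) (s : ℝ) : pos (W V t0 τ) t s = t / (t0 + τ) * pos V t0 s := by
  have h1 : pos (W V t0 τ) t s = ∫ _ in (0 : ℝ)..t, pos V t0 s / (t0 + τ) := by
    unfold pos
    refine intervalIntegral.integral_congr fun x hx => ?_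
    rw [uIcc_of_le h0] at hx
    simp only [W]
    rw [if_pos (hx.2.trans ht)]
    rfl
  rw [h1, intervalIntegral.integral_const, smul_eq_mul]
  ring

theorem pos2 (V : ℝ → ℝ → ℝ) {t0 τ T : ℝ} (ht0 : 0 < t0) (hτ : 0 < τ) (s : ℝ)
    (hs : IntervalIntegrable (fun t => V t s) volume 0 T) {t : ℝ} (h0 : t0 + τ ≤ t)
    (ht : t ≤ T + τ) : pos (W V t0 τ) t s = pos V (t - τ) s := by
  have hsub : ∀ a b : ℝ, 0 ≤ a → a ≤ b → b ≤ T →
      IntervalIntegrable (fun t => V t s) volume a b := by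
    intro a b ha hab hb
    refine hs.mono_set ?_
    rw [uIcc_of_le hab, uIcc_of_le (ha.trans (hab.trans hb))]
    exact Icc_subset_Icc ha hb
  have i1 : IntervalIntegrable (fun x => W V t0 τ x s) volume 0 (t0 + τ) := by
    have : IntervalIntegrable (fun _ : ℝ => pos V t0 s / (t0 + τ)) volume 0 (t0 + τ) :=
      intervalIntegrable_const
    rw [intervalIntegrable_iff] at this ⊢
    refine this.congr_fun (fun x hx => ?_) measurableSet_uIoc
    rw [uIoc_of_le (by linarith)] at hx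
    simp only [W]
    rw [if_pos hx.2]
  have i2 : IntervalIntegrable (fun x => W V t0 τ x s) volume (t0 + τ) t := by
    have : IntervalIntegrable (fun x => V (x - τ) s) volume (t0 + τ) t := by
      have h1 := (hsub t0 (t - τ) ht0.le (by linarith) (by linarith)).comp_sub_right τ
      rwa [sub_add_cancel] at h1
    rw [intervalIntegrable_iff] at this ⊢
    refine this.congr_fun (fun x hx => ?_) measurableSet_uIoc
    rw [uIoc_of_le h0] at hx
    simp only [W]
    rw [if_neg (not_le.2 hx.1)]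
  have h1 : ∫ x in (t0 + τ)..t, W V t0 τ x s = ∫ x in t0..(t - τ), V x s := by
    have e1 : ∫ x in (t0 + τ)..t, W V t0 τ x s = ∫ x in (t0 + τ)..t, V (x - τ) s := by
      refine intervalIntegral.integral_congr_ae (Eventually.of_forall fun x hx => ?_)
      rw [uIoc_of_le h0] at hx
      simp only [W]
      rw [if_neg (not_le.2 hx.1)]
    rw [e1, intervalIntegral.integral_comp_sub_right (fun x => V x s) τ, add_sub_cancel_right]
  have h2 : pos (W V t0 τ) (t0 + τ) s = pos V t0 s := by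
    rw [pos1 V ht0 hτ (by linarith) le_rfl s, div_self (by linarith), one_mul]
  have h3 : pos (W V t0 τ) t s = pos (W V t0 τ) (t0 + τ) s + ∫ x in (t0 + τ)..t, W V t0 τ x s :=
    (intervalIntegral.integral_add_adjacent_intervals i1 i2).symm
  rw [h3, h2, h1]
  exact intervalIntegral.integral_add_adjacent_intervals (hsub 0 t0 le_rfl ht0.le (by linarith))
    (hsub t0 (t - τ) ht0.le (by linarith) (by linarith))

/-- the energy of the competitor -/
theorem upper (hC : S_CNT) (hR : S_REG) (T : ℝ) (V : ℝ → ℝ → ℝ) (hT : 0 < T) (hP : Path T V)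
    (t0 : ℝ) (ht0 : t0 ∈ Ioo 0 T) (n : ℕ) (hn : cnt (pos V t0) = n) (τ : ℝ) (hτ : 0 < τ) :
    E (T + τ) ≤ ((n : ℝ≥0∞) * ENNReal.ofReal (t0 + τ) + ∫⁻ t in Ioo t0 T, cnt (pos V t)) +
      (ENNReal.ofReal ((∫ s, (pos V t0 s) ^ 2 ∂lam) / (t0 + τ)) +
        ∫⁻ t in Ioo t0 T, ∫⁻ s, ENNReal.ofReal ((V t s) ^ 2) ∂lam) := by
  obtain ⟨hI1, _, hI3, hI4, _, _⟩ := hR T V hT hP.meas hP.fin
  obtain ⟨_, _, hC3, hC4, _, _, _⟩ := hC 0 1 one_pos
  have hlt : 0 < t0 + τ := by linarith [ht0.1]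
  have hXm : Measurable (pos V t0) := hI4.comp measurable_prodMk_left
  have hXi : Integrable (fun s => (pos V t0 s) ^ 2) lam := (hI3 t0 ⟨ht0.1.le, ht0.2.le⟩).1
  have p2 : ∀ t, t0 + τ ≤ t → t ≤ T + τ →
      ∀ᵐ s ∂lam, pos V (t - τ) s = pos (W V t0 τ) t s := by
    intro t h1 h2
    filter_upwards [hI1] with s hs
    exact (pos2 V ht0.1 hτ s hs h1 h2).symm
  have hkin : kin (T + τ) (W V t0 τ) =
      ENNReal.ofReal ((∫ s, (pos V t0 s) ^ 2 ∂lam) / (t0 + τ)) +
        ∫⁻ t in Ioo t0 T, ∫⁻ s, ENNReal.ofReal ((V t s) ^ 2) ∂lam := by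
    unfold kin
    rw [split hlt (by linarith [ht0.2] : t0 + τ < T + τ)]
    congr 1
    · have e1 : ∫⁻ t in Ioc 0 (t0 + τ), ∫⁻ s, ENNReal.ofReal ((W V t0 τ t s) ^ 2) ∂lam =
          ∫⁻ _ in Ioc 0 (t0 + τ), ENNReal.ofReal ((∫ s, (pos V t0 s) ^ 2 ∂lam) / (t0 + τ) ^ 2) := by
        refine setLIntegral_congr_fun measurableSet_Ioc fun t ht => ?_
        have e2 : ∀ s, (W V t0 τ t s) ^ 2 = (pos V t0 s) ^ 2 / (t0 + τ) ^ 2 := by
          intro s
          unfold W
          rw [if_pos ht.2, div_pow]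
        simp only [e2]
        rw [← ofReal_integral_eq_lintegral_ofReal, integral_div]
        · exact hXi.div_const _
        · exact Eventually.of_forall fun s => by positivity
      rw [e1, setLIntegral_const, Real.volume_Ioc, ← ENNReal.ofReal_mul]
      · congr 1
        field_simp
        ring
      · exact div_nonneg (integral_nonneg fun s => sq_nonneg _) (sq_nonneg _)
    · rw [← shift (fun t => ∫⁻ s, ENNReal.ofReal ((V t s) ^ 2) ∂lam) t0 T τ]
      refine setLIntegral_congr_fun measurableSet_Ioo fun t ht => ?_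
      have e2 : ∀ s, W V t0 τ t s = V (t - τ) s := fun s => if_neg (not_le.2 ht.1)
      simp only [e2]
  have hcnt : ∫⁻ t in Ioo 0 (T + τ), cnt (pos (W V t0 τ) t) ≤
      (n : ℝ≥0∞) * ENNReal.ofReal (t0 + τ) + ∫⁻ t in Ioo t0 T, cnt (pos V t) := by
    rw [split hlt (by linarith [ht0.2] : t0 + τ < T + τ)]
    refine add_le_add ?_ (le_of_eq ?_)
    · have e1 : ∫⁻ t in Ioc 0 (t0 + τ), cnt (pos (W V t0 τ) t) ≤
          ∫⁻ _ in Ioc 0 (t0 + τ), (n : ℝ≥0∞) := by
        refine setLIntegral_mono' measurableSet_Ioc fun t ht => ?_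
        have e2 : pos (W V t0 τ) t = fun s => (fun x => t / (t0 + τ) * x) (pos V t0 s) := by
          funext s
          exact pos1 V ht0.1 hτ ht.1.le ht.2 s
        rw [e2, ← hn]
        exact hC3 _ _
      refine e1.trans (le_of_eq ?_)
      rw [setLIntegral_const, Real.volume_Ioc, sub_zero]
    · rw [← shift (fun t => cnt (pos V t)) t0 T τ]
      refine setLIntegral_congr_fun measurableSet_Ioo fun t ht => ?_
      exact (hC4 _ _ (p2 t ht.1.le ht.2.le)).symm
  have hfin2 : ∫⁻ t in Ioo t0 T, ∫⁻ s, ENNReal.ofReal ((V t s) ^ 2) ∂lam < ∞ :=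
    lt_of_le_of_lt (lintegral_mono_set (Ioo_subset_Ioo_left ht0.1.le)) hP.fin
  have hW : Path (T + τ) (W V t0 τ) := by
    refine ⟨?_, ?_, ?_, ?_⟩
    · refine Measurable.ite (measurableSet_le measurable_fst measurable_const) ?_ ?_
      · exact (hXm.comp measurable_snd).div_const _
      · exact hP.meas.comp ((measurable_fst.sub_const τ).prodMk measurable_snd)
    · rw [hkin]
      exact ENNReal.add_lt_top.2 ⟨ENNReal.ofReal_lt_top, hfin2⟩
    · intro t ht
      rcases le_or_gt t (t0 + τ) with h | h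
      · have e2 : pos (W V t0 τ) t = fun s => t / (t0 + τ) * pos V t0 s := by
          funext s
          exact pos1 V ht0.1 hτ ht.1 h s
        rw [e2]
        exact aemono_mul (hP.mono t0 ⟨ht0.1.le, ht0.2.le⟩) (div_nonneg ht.1 hlt.le)
      · exact aemono_congr (hP.mono (t - τ) ⟨by linarith [ht0.1], by linarith [ht.2]⟩)
          (p2 t h.le ht.2)
    · filter_upwards [hP.final, p2 (T + τ) (by linarith [ht0.2]) le_rfl] with s h1 h2
      rw [← h2, add_sub_cancel_right]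
      exact h1
  calc E (T + τ) ≤ en (T + τ) (W V t0 τ) := iInf₂_le _ hW
    _ ≤ _ := by
      unfold en
      rw [hkin]
      exact add_le_add_left hcnt _

/-- the energy of the minimizer -/
theorem lower (hC : S_CNT) (hR : S_REG) (T : ℝ) (V : ℝ → ℝ → ℝ) (hT : 0 < T) (hP : Path T V)
    (t0 : ℝ) (ht0 : t0 ∈ Ioo 0 T)
    (hlin : ∀ t ∈ Icc 0 t0, ∀ᵐ s ∂lam, pos V t s = t / t0 * pos V t0 s)
    (n : ℕ) (hn : cnt (pos V t0) = n) :
    ((n : ℝ≥0∞) * ENNReal.ofReal t0 + ∫⁻ t in Ioo t0 T, cnt (pos V t)) +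
      (ENNReal.ofReal ((∫ s, (pos V t0 s) ^ 2 ∂lam) / t0) +
        ∫⁻ t in Ioo t0 T, ∫⁻ s, ENNReal.ofReal ((V t s) ^ 2) ∂lam) ≤ en T V := by
  obtain ⟨hI1, hI2, hI3, hI4, _, _⟩ := hR T V hT hP.meas hP.fin
  obtain ⟨_, _, hC3, hC4, _, _, _⟩ := hC 0 1 one_pos
  have hXi : Integrable (fun s => (pos V t0 s) ^ 2) lam := (hI3 t0 ⟨ht0.1.le, ht0.2.le⟩).1
  unfold en kin
  rw [split ht0.1 ht0.2 (fun t => cnt (pos V t)),
    split ht0.1 ht0.2 (fun t => ∫⁻ s, ENNReal.ofReal ((V t s) ^ 2) ∂lam)]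
  refine add_le_add (add_le_add ?_ le_rfl) (add_le_add ?_ le_rfl)
  · have e1 : ∫⁻ _ in Ioc 0 t0, (n : ℝ≥0∞) ≤ ∫⁻ t in Ioc 0 t0, cnt (pos V t) := by
      refine setLIntegral_mono' measurableSet_Ioc fun t ht => ?_
      have e2 : cnt (pos V t0) = cnt (fun s => (fun x => t0 / t * x) (pos V t s)) := by
        refine hC4 _ _ ?_
        filter_upwards [hlin t ⟨ht.1.le, ht.2⟩] with s hs
        simp only [hs]
        have h1 : t ≠ 0 := ht.1.ne'
        have h2 : t0 ≠ 0 := ht0.1.ne'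
        field_simp
      rw [← hn, e2]
      exact hC3 _ _
    refine le_trans (le_of_eq ?_) e1
    rw [setLIntegral_const, Real.volume_Ioc, sub_zero]
  · rw [lintegral_lintegral_swap]
    · have e3 : ENNReal.ofReal ((∫ s, (pos V t0 s) ^ 2 ∂lam) / t0) =
          ∫⁻ s, ENNReal.ofReal ((pos V t0 s) ^ 2 / t0) ∂lam := by
        rw [← ofReal_integral_eq_lintegral_ofReal, integral_div]
        · exact hXi.div_const _
        · exact Eventually.of_forall fun s => div_nonneg (sq_nonneg _) ht0.1.le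
      rw [e3]
      refine lintegral_mono_ae ?_
      filter_upwards [hI1, hI2] with s h1 h2
      have hsub : uIcc 0 t0 ⊆ uIcc 0 T := by
        rw [uIcc_of_le ht0.1.le, uIcc_of_le hT.le]
        exact Icc_subset_Icc_right ht0.2.le
      exact cs ht0.1 (fun t => V t s) (h1.mono_set hsub) (h2.mono_set hsub)
    · exact (ENNReal.measurable_ofReal.comp (hP.meas.pow_const 2)).aemeasurable

end VAR

theorem t_VAR (hC : S_CNT) (hR : S_REG) (hW : S_WAIT) : S_VAR := by
  intro T V hT hmin hfin t0 ht0 hlin n hn T' hT' hE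
  obtain ⟨hP, hen⟩ := hmin
  have hlow := VAR.lower hC hR T V hT hP t0 ht0 hlin n hn
  rw [hen] at hlow
  set R1 := ∫⁻ t in Ioo t0 T, cnt (pos V t) with hR1
  set R2 := ∫⁻ t in Ioo t0 T, ∫⁻ s, ENNReal.ofReal ((V t s) ^ 2) ∂lam with hR2
  set a := ∫ s, (pos V t0 s) ^ 2 ∂lam with ha
  have ha0 : 0 ≤ a := integral_nonneg fun s => sq_nonneg _
  have hsum : ((n : ℝ≥0∞) * ENNReal.ofReal t0 + R1) + (ENNReal.ofReal (a / t0) + R2) < ∞ :=
    lt_of_le_of_lt hlow hfin
  have hR1' : R1 ≠ ∞ := by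
    rintro h
    rw [h] at hsum
    simp at hsum
  have hR2' : R2 ≠ ∞ := by
    rintro h
    rw [h] at hsum
    simp at hsum
  have key : ∀ τ : ℝ, 0 < τ → τ ≤ T' - T → a ≤ ((n : ℝ) - 1) * (t0 * (t0 + τ)) := by
    intro τ hτ hτ'
    have h1 : E T + ENNReal.ofReal τ ≤ E (T + τ) := by
      have h2 := hW (T + τ) T' (by linarith) (by linarith)
      rw [hE] at h2
      have h3 : ENNReal.ofReal (T' - T) = ENNReal.ofReal τ + ENNReal.ofReal (T' - (T + τ)) := by
        rw [← ENNReal.ofReal_add hτ.le (by linarith)]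
        congr 1
        ring
      rw [h3, ← add_assoc] at h2
      exact (ENNReal.add_le_add_iff_right ENNReal.ofReal_ne_top).1 h2
    have h2 := VAR.upper hC hR T V hT hP t0 ht0 n hn τ hτ
    have h3 := (add_le_add_left hlow (ENNReal.ofReal τ)).trans (h1.trans h2)
    have hn' : (n : ℝ≥0∞) = ENNReal.ofReal (n : ℝ) := (ENNReal.ofReal_natCast n).symm
    have hlt : 0 < t0 + τ := by linarith [ht0.1]
    have h4 : ENNReal.ofReal ((n : ℝ) * t0 + a / t0 + τ) + (R1 + R2) ≤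
        ENNReal.ofReal ((n : ℝ) * (t0 + τ) + a / (t0 + τ)) + (R1 + R2) := by
      rw [ENNReal.ofReal_add (by have := ht0.1; positivity) hτ.le,
        ENNReal.ofReal_add (by have := ht0.1; positivity) (div_nonneg ha0 ht0.1.le),
        ENNReal.ofReal_add (by positivity) (div_nonneg ha0 hlt.le),
        ENNReal.ofReal_mul (Nat.cast_nonneg n), ENNReal.ofReal_mul (Nat.cast_nonneg n), ← hn']
      calc _ = ((n : ℝ≥0∞) * ENNReal.ofReal t0 + R1) + (ENNReal.ofReal (a / t0) + R2) +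
            ENNReal.ofReal τ := by ring
        _ ≤ _ := h3
        _ = _ := by ring
    have h5 := (ENNReal.add_le_add_iff_right (ENNReal.add_ne_top.2 ⟨hR1', hR2'⟩)).1 h4
    rw [ENNReal.ofReal_le_ofReal_iff (by positivity)] at h5
    have h6 : a / t0 - a / (t0 + τ) ≤ ((n : ℝ) - 1) * τ := by linarith
    have h7 : a / t0 - a / (t0 + τ) = a * τ / (t0 * (t0 + τ)) := by
      have := ht0.1.ne'
      field_simp
      ring
    rw [h7, div_le_iff₀ (mul_pos ht0.1 hlt)] at h6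
    have h8 : a * τ ≤ ((n : ℝ) - 1) * (t0 * (t0 + τ)) * τ := by
      calc a * τ ≤ _ := h6
        _ = _ := by ring
    exact le_of_mul_le_mul_right h8 hτ
  have hlim : a ≤ ((n : ℝ) - 1) * (t0 * t0) := by
    have ht : Tendsto (fun τ : ℝ => ((n : ℝ) - 1) * (t0 * (t0 + τ))) (𝓝[>] 0)
        (𝓝 (((n : ℝ) - 1) * (t0 * t0))) := by
      have hc : Continuous (fun τ : ℝ => ((n : ℝ) - 1) * (t0 * (t0 + τ))) := by fun_prop
      have h1 := hc.tendsto 0
      simp only [add_zero] at h1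
      exact h1.mono_left nhdsWithin_le_nhds
    refine ge_of_tendsto ht ?_
    have h1 : ∀ᶠ τ : ℝ in 𝓝[>] 0, τ ∈ Ioc (0 : ℝ) (T' - T) :=
      Ioc_mem_nhdsGT (by linarith)
    filter_upwards [h1] with τ hτ
    exact key τ hτ.1 hτ.2
  have e1 : ∀ s, (pos V t0 s / t0) ^ 2 = (pos V t0 s) ^ 2 / t0 ^ 2 := fun s => div_pow _ _ _
  simp only [e1]
  rw [integral_div, div_le_iff₀ (by have := ht0.1; positivity)]
  calc ∫ s, (pos V t0 s) ^ 2 ∂lam = a := ha.symm
    _ ≤ ((n : ℝ) - 1) * (t0 * t0) := hlim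
    _ = _ := by ring

end Pool.Agent.R508.BT
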