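import Pool.Agent.R508.BT.Eul

/-!
# Piece W2: inequality for quantile functions (uses SM, MOL)
-/

set_option autoImplicit false

open MeasureTheory Set Filter Topology
open scoped ENNReal

namespace Pool.Agent.R508.BT

namespace W2

/-- the non-atoms are dense -/
lemma dense_nonatoms (ν : Measure ℝ) [IsProbabilityMeasure ν] : Dense {x : ℝ | ν {x} = 0} := by
  have hc : Set.Countable {x : ℝ | 0 < ν {x}} := by
    refine Measure.countable_meas_pos_of_disjoint_iUnion (μ := ν) (As := fun x : ℝ => {x})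
      (fun x => measurableSet_singleton x) ?_
    intro x y hxy
    simpa [Function.onFun] using hxy
  have h2 := hc.dense_compl ℝ
  have h3 : {x : ℝ | 0 < ν {x}}ᶜ = {x : ℝ | ν {x} = 0} := by
    ext x
    simp
  rwa [h3] at h2

lemma cdf_mono (ν : Measure ℝ) [IsProbabilityMeasure ν] :
    Monotone (fun x : ℝ => (ν (Iic x)).toReal) := by
  intro x y hxy
  exact ENNReal.toReal_mono (measure_ne_top _ _) (measure_mono (Iic_subset_Iic.2 hxy))

lemma cdf_top (ν : Measure ℝ) [IsProbabilityMeasure ν] :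
    Tendsto (fun x : ℝ => (ν (Iic x)).toReal) atTop (𝓝 1) := by
  refine (ProbabilityTheory.tendsto_cdf_atTop ν).congr fun x => ?_
  rw [ProbabilityTheory.cdf_eq_real]
  rfl

lemma cdf_bot (ν : Measure ℝ) [IsProbabilityMeasure ν] :
    Tendsto (fun x : ℝ => (ν (Iic x)).toReal) atBot (𝓝 0) := by
  refine (ProbabilityTheory.tendsto_cdf_atBot ν).congr fun x => ?_
  rw [ProbabilityTheory.cdf_eq_real]
  rfl

lemma set_nonempty (ν : Measure ℝ) [IsProbabilityMeasure ν] {s : ℝ} (hs : s < 1) :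
    {x : ℝ | s ≤ (ν (Iic x)).toReal}.Nonempty := by
  have := (cdf_top ν).eventually (lt_mem_nhds hs)
  obtain ⟨x, hx⟩ := this.exists
  exact ⟨x, hx.le⟩

lemma set_bdd (ν : Measure ℝ) [IsProbabilityMeasure ν] {s : ℝ} (hs : 0 < s) :
    BddBelow {x : ℝ | s ≤ (ν (Iic x)).toReal} := by
  have := (cdf_bot ν).eventually (gt_mem_nhds hs)
  obtain ⟨y, hy⟩ := this.exists
  refine ⟨y, fun x hx => ?_⟩
  by_contra hlt
  push Not at hlt
  have h1 := cdf_mono ν hlt.le
  have h2 : s ≤ (ν (Iic x)).toReal := hx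
  simp only at h1
  linarith

/-- below the quantile the distribution function is smaller -/
lemma lt_of_lt_qf (ν : Measure ℝ) [IsProbabilityMeasure ν] {s y : ℝ} (h0 : 0 < s)
    (hy : y < qf ν s) : (ν (Iic y)).toReal < s := by
  by_contra h
  push Not at h
  exact absurd (csInf_le (set_bdd ν h0) (show y ∈ {x : ℝ | s ≤ (ν (Iic x)).toReal} from h))
    (not_le.2 hy)

/-- above the quantile the distribution function is at least `s` -/
lemma le_of_qf_lt (ν : Measure ℝ) [IsProbabilityMeasure ν] {s y : ℝ} (h1 : s < 1)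
    (hy : qf ν s < y) : s ≤ (ν (Iic y)).toReal := by
  obtain ⟨x, hx, hxy⟩ := exists_lt_of_csInf_lt (set_nonempty ν h1) hy
  exact le_trans hx (cdf_mono ν hxy.le)

/-- convergence of quantiles -/
lemma tendsto_q (ν : Measure ℝ) [IsProbabilityMeasure ν] (G : ℕ → ℝ → ℝ)
    (hG : ∀ n, StrictMono (G n))
    (hlim : ∀ x : ℝ, ν {x} = 0 → Tendsto (fun n => G n x) atTop (𝓝 ((ν (Iic x)).toReal)))
    (q : ℕ → ℝ → ℝ) (hq : ∀ n, ∀ s ∈ Ioo (0:ℝ) 1, G n (q n s) = s) {s : ℝ} (hs : s ∈ Ioo (0:ℝ) 1)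
    (hr : s ∉ range (fun r : ℚ => (ν (Iic (r : ℝ))).toReal)) :
    Tendsto (fun n => q n s) atTop (𝓝 (qf ν s)) := by
  rw [tendsto_order]
  constructor
  · intro a ha
    obtain ⟨y, hy, hay, hyq⟩ := (dense_nonatoms ν).exists_between ha
    have h1 := lt_of_lt_qf ν hs.1 hyq
    filter_upwards [(hlim y hy).eventually (gt_mem_nhds h1)] with n hn
    have h2 : G n y < G n (q n s) := by rw [hq n s hs]; exact hn
    exact hay.trans ((hG n).lt_iff_lt.1 h2)
  · intro a ha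
    obtain ⟨y, hy, hqy, hya⟩ := (dense_nonatoms ν).exists_between ha
    have h1 : s < (ν (Iic y)).toReal := by
      obtain ⟨r, hr1, hr2⟩ := exists_rat_btwn hqy
      have h3 := le_of_qf_lt ν hs.2 hr1
      have h4 : s ≠ (ν (Iic (r : ℝ))).toReal := fun h => hr ⟨r, h.symm⟩
      exact lt_of_lt_of_le (lt_of_le_of_ne h3 h4) (cdf_mono ν hr2.le)
    filter_upwards [(hlim y hy).eventually (lt_mem_nhds h1)] with n hn
    have h2 : G n (q n s) < G n y := by rw [hq n s hs]; exact hn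
    exact ((hG n).lt_iff_lt.1 h2).trans hya

lemma ae_tendsto (ν : Measure ℝ) [IsProbabilityMeasure ν] (G : ℕ → ℝ → ℝ)
    (hG : ∀ n, StrictMono (G n))
    (hlim : ∀ x : ℝ, ν {x} = 0 → Tendsto (fun n => G n x) atTop (𝓝 ((ν (Iic x)).toReal)))
    (q : ℕ → ℝ → ℝ) (hq : ∀ n, ∀ s ∈ Ioo (0:ℝ) 1, G n (q n s) = s) :
    ∀ᵐ s ∂lam, Tendsto (fun n => q n s) atTop (𝓝 (qf ν s)) := by
  have h0 : ∀ᵐ s ∂lam, s ∉ range (fun r : ℚ => (ν (Iic (r : ℝ))).toReal) :=
    measure_eq_zero_iff_ae_notMem.1 ((countable_range _).measure_zero _)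
  filter_upwards [h0, ae_restrict_mem measurableSet_Ioo] with s hr hs
  exact tendsto_q ν G hG hlim q hq hs hr

lemma strictMono_cdf {F : ℝ → ℝ → ℝ} (hF : SmoothCdf F) (t : ℝ) : StrictMono (F t) :=
  strictMono_of_deriv_pos (hF.pos t)

lemma aemeas_q (G q : ℝ → ℝ) (hG : StrictMono G) (hq : ∀ s ∈ Ioo (0:ℝ) 1, G (q s) = s) :
    AEMeasurable q lam := by
  refine aemeasurable_restrict_of_monotoneOn measurableSet_Ioo ?_
  intro s hs s' hs' hss
  by_contra h
  push Not at h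
  have := hG h
  rw [hq s hs, hq s' hs'] at this
  linarith

/-- the windows shrink -/
lemma tendsto_window (T a b : ℝ) (g : ℝ → ℝ≥0∞) (hg : (∫⁻ t in Ioo 0 T, g t) < ∞) :
    ∃ L : ℝ≥0∞, L ≤ ∫⁻ t in Ioo a b, g t ∧
      Tendsto (fun n : ℕ => ∫⁻ t in (Ioo (a - 1 / (n + 1 : ℝ)) (b + 1 / (n + 1 : ℝ)) ∩ Ioo 0 T), g t)
        atTop (𝓝 L) := by
  let m : Measure ℝ := (volume.restrict (Ioo 0 T)).withDensity g
  have hm : ∀ S : Set ℝ, MeasurableSet S → m S = ∫⁻ t in S ∩ Ioo 0 T, g t := by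
    intro S hS
    rw [withDensity_apply _ hS, Measure.restrict_restrict hS]
  have hint : ⋂ n : ℕ, Ioo (a - 1 / (n + 1 : ℝ)) (b + 1 / (n + 1 : ℝ)) = Icc a b := by
    ext x
    simp only [mem_iInter, mem_Ioo, mem_Icc]
    constructor
    · intro h
      constructor
      · refine le_of_forall_pos_lt_add fun ε hε => ?_
        obtain ⟨n, hn⟩ := exists_nat_one_div_lt hε
        linarith [(h n).1]
      · refine le_of_forall_pos_lt_add fun ε hε => ?_
        obtain ⟨n, hn⟩ := exists_nat_one_div_lt hε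
        linarith [(h n).2]
    · rintro ⟨h1, h2⟩ n
      have : (0 : ℝ) < 1 / (n + 1 : ℝ) := by positivity
      exact ⟨by linarith, by linarith⟩
  refine ⟨m (Icc a b), ?_, ?_⟩
  · rw [hm _ measurableSet_Icc, restrict_Ioo_eq_restrict_Icc]
    exact lintegral_mono_set inter_subset_left
  · have h := tendsto_measure_iInter_atTop (μ := m)
      (s := fun n : ℕ => Ioo (a - 1 / (n + 1 : ℝ)) (b + 1 / (n + 1 : ℝ)))
      (fun n => measurableSet_Ioo.nullMeasurableSet) ?_ ⟨0, ?_⟩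
    · rw [hint] at h
      refine h.congr fun n => ?_
      exact hm _ measurableSet_Ioo
    · intro n k hnk
      have h1 : 1 / (k + 1 : ℝ) ≤ 1 / (n + 1 : ℝ) := Nat.one_div_le_one_div hnk
      exact Ioo_subset_Ioo (by linarith) (by linarith)
    · rw [hm _ measurableSet_Ioo]
      exact (lt_of_le_of_lt (lintegral_mono_set inter_subset_right) hg).ne

end W2

open W2 in
theorem t_W2 (hSM : S_SM) (hMOL : S_MOL) : S_W2 := by
  intro T mu v hT hA a b ha hab hb
  obtain ⟨F, hF, hact, hlim⟩ := hMOL T mu v hT hA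
  have hq := fun n => hSM (F n) a b (hF n) hab
  choose q hq1 hq2 using hq
  have haI : a ∈ Icc 0 T := ⟨ha, hab.le.trans hb⟩
  have hbI : b ∈ Icc 0 T := ⟨ha.trans hab.le, hb⟩
  have := hA.prob a haI
  have := hA.prob b hbI
  have hta := ae_tendsto (mu a) (fun n => F n a) (fun n => strictMono_cdf (hF n) a)
    (hlim a haI) (fun n => q n a) (fun n => hq1 n a)
  have htb := ae_tendsto (mu b) (fun n => F n b) (fun n => strictMono_cdf (hF n) b)
    (hlim b hbI) (fun n => q n b) (fun n => hq1 n b)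
  obtain ⟨L, hL, hLt⟩ := tendsto_window T a b
    (fun t => ∫⁻ x, ENNReal.ofReal ((v t x) ^ 2) ∂(mu t)) hA.fin
  have hmeas : ∀ n, AEMeasurable (fun s => ENNReal.ofReal ((q n b s - q n a s) ^ 2)) lam := by
    intro n
    have h1 := aemeas_q (F n b) (q n b) (strictMono_cdf (hF n) b) (hq1 n b)
    have h2 := aemeas_q (F n a) (q n a) (strictMono_cdf (hF n) a) (hq1 n a)
    exact ((h1.sub h2).pow_const 2).ennreal_ofReal
  have hstep1 : ∫⁻ s, ENNReal.ofReal ((qf (mu b) s - qf (mu a) s) ^ 2) ∂lam ≤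
      ∫⁻ s, liminf (fun n => ENNReal.ofReal ((q n b s - q n a s) ^ 2)) atTop ∂lam := by
    refine lintegral_mono_ae ?_
    filter_upwards [hta, htb] with s h1 h2
    have h3 : Tendsto (fun n => ENNReal.ofReal ((q n b s - q n a s) ^ 2)) atTop
        (𝓝 (ENNReal.ofReal ((qf (mu b) s - qf (mu a) s) ^ 2))) :=
      (ENNReal.continuous_ofReal.tendsto _).comp ((h2.sub h1).pow 2)
    rw [h3.liminf_eq]
  have hstep2 := lintegral_liminf_le' (μ := lam) hmeas (u := atTop)
  have hlimR : Tendsto (fun n : ℕ => ENNReal.ofReal (b - a) *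
      ∫⁻ t in (Ioo (a - 1 / (n + 1 : ℝ)) (b + 1 / (n + 1 : ℝ)) ∩ Ioo 0 T),
        ∫⁻ x, ENNReal.ofReal ((v t x) ^ 2) ∂(mu t)) atTop (𝓝 (ENNReal.ofReal (b - a) * L)) :=
    ENNReal.Tendsto.const_mul hLt (Or.inr ENNReal.ofReal_ne_top)
  have hstep3 : liminf (fun n => ∫⁻ s, ENNReal.ofReal ((q n b s - q n a s) ^ 2) ∂lam) atTop ≤
      ENNReal.ofReal (b - a) * L := by
    rw [← hlimR.liminf_eq]
    refine liminf_le_liminf (Eventually.of_forall fun n => ?_)
    exact (hq2 n).trans (mul_le_mul_right (hact n a b ha hab hb) _)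
  calc ∫⁻ s, ENNReal.ofReal ((qf (mu b) s - qf (mu a) s) ^ 2) ∂lam ≤ _ := hstep1
    _ ≤ _ := hstep2
    _ ≤ _ := hstep3
    _ ≤ _ := mul_le_mul_right hL _

end Pool.Agent.R508.BT
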