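import Pool.Agent.R508.BT.Stm

open MeasureTheory Set Filter Topology
open scoped ENNReal

namespace Pool.Agent.R508.BT

namespace WAIT

/-- the curve which waits for the time `d` -/
noncomputable def W (d : ℝ) (V : ℝ → ℝ → ℝ) (t s : ℝ) : ℝ := if d < t then V (t - d) s else 0

theorem pos_W_le {d : ℝ} (_hd : 0 ≤ d) (V : ℝ → ℝ → ℝ) {t : ℝ} (ht0 : 0 ≤ t) (ht : t ≤ d) (s : ℝ) :
    pos (W d V) t s = 0 := by
  unfold pos
  rw [intervalIntegral.integral_of_le ht0]
  rw [setIntegral_congr_fun (g := fun _ => (0 : ℝ)) measurableSet_Ioc]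
  · simp
  · intro τ hτ
    have : ¬ d < τ := not_lt.2 (hτ.2.trans ht)
    simp [W, this]

theorem pos_W_ge {d : ℝ} (hd : 0 ≤ d) (V : ℝ → ℝ → ℝ) {t : ℝ} (ht : d ≤ t) (s : ℝ) :
    pos (W d V) t s = pos V (t - d) s := by
  unfold pos
  have h1 : (∫ τ in (0 : ℝ)..(t - d), V τ s) = ∫ τ in d..t, V (τ - d) s := by
    rw [intervalIntegral.integral_comp_sub_right (fun τ => V τ s) d, sub_self]
  rw [h1, intervalIntegral.integral_of_le (hd.trans ht), intervalIntegral.integral_of_le ht]
  have h2 : (fun τ => W d V τ s) = (Ioi d).indicator (fun τ => V (τ - d) s) := by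
    funext τ
    simp only [W, indicator, mem_Ioi]
  rw [h2, setIntegral_indicator measurableSet_Ioi]
  congr 2
  ext τ
  simp only [mem_inter_iff, mem_Ioc, mem_Ioi]
  constructor
  · rintro ⟨⟨_, h4⟩, h5⟩; exact ⟨h5, h4⟩
  · rintro ⟨h4, h5⟩; exact ⟨⟨lt_of_le_of_lt hd h4, h5⟩, h4⟩

theorem lint_shift (d T' T : ℝ) (h : T - T' = d) (g : ℝ → ℝ≥0∞) :
    (∫⁻ t in Ioo d T, g (t - d)) = ∫⁻ t in Ioo 0 T', g t := by
  have h1 := (measurePreserving_sub_right (volume : Measure ℝ) d).setLIntegral_comp_preimage_emb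
    (MeasurableEquiv.subRight d).measurableEmbedding g (Ioo 0 T')
  have h2 : (fun x : ℝ => x - d) ⁻¹' (Ioo 0 T') = Ioo d T := by
    ext x
    simp only [mem_preimage, mem_Ioo]
    constructor
    · rintro ⟨a, b⟩; constructor <;> linarith
    · rintro ⟨a, b⟩; constructor <;> linarith
  rw [h2] at h1
  exact h1

theorem cnt_zero_le : cnt (fun _ => (0 : ℝ)) ≤ 1 := by
  unfold cnt cntOn
  refine (iInf₂_le ({0} : Finset ℝ) (Eventually.of_forall (by simp))).trans ?_
  simp

theorem split (d T : ℝ) (g : ℝ → ℝ≥0∞) :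
    (∫⁻ t in Ioo 0 T, g t) ≤ (∫⁻ t in Ioc 0 d, g t) + ∫⁻ t in Ioo d T, g t := by
  have h1 : Ioo 0 T ⊆ Ioc 0 d ∪ Ioo d T := by
    intro x hx
    rcases le_or_gt x d with h | h
    · exact Or.inl ⟨hx.1, h⟩
    · exact Or.inr ⟨h, hx.2⟩
  exact (lintegral_mono_set h1).trans (lintegral_union_le _ _ _)

end WAIT

open WAIT in
theorem t_WAIT : S_WAIT := by
  intro T' T hT' hTT
  rw [← tsub_le_iff_right]
  unfold E
  refine le_iInf₂ fun V hV => ?_
  rw [tsub_le_iff_right]
  set d := T - T' with hd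
  have hd0 : 0 ≤ d := by rw [hd]; linarith
  have hTd : T - d = T' := by rw [hd]; ring
  have hdT : d ≤ T := by rw [hd]; linarith
  have hkin : kin T (W d V) ≤ kin T' V := by
    unfold kin
    refine (split d T _).trans ?_
    have h1 : (∫⁻ t in Ioc 0 d, ∫⁻ s, ENNReal.ofReal ((W d V t s) ^ 2) ∂lam) = 0 := by
      rw [setLIntegral_congr_fun (g := fun _ => (0 : ℝ≥0∞)) measurableSet_Ioc]
      · simp
      · intro t ht
        have : ¬ d < t := not_lt.2 ht.2
        simp [W, this]
    have h2 : (∫⁻ t in Ioo d T, ∫⁻ s, ENNReal.ofReal ((W d V t s) ^ 2) ∂lam) =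
        ∫⁻ t in Ioo 0 T', ∫⁻ s, ENNReal.ofReal ((V t s) ^ 2) ∂lam := by
      rw [← lint_shift d T' T hd.symm (fun t => ∫⁻ s, ENNReal.ofReal ((V t s) ^ 2) ∂lam)]
      refine setLIntegral_congr_fun measurableSet_Ioo ?_
      intro t ht
      simp [W, ht.1]
    rw [h1, h2, zero_add]
  have hP : Path T (W d V) := by
    refine ⟨?_, lt_of_le_of_lt hkin hV.fin, ?_, ?_⟩
    · have h1 : Measurable (fun p : ℝ × ℝ => V (p.1 - d) p.2) :=
        hV.meas.comp ((measurable_fst.sub_const d).prodMk measurable_snd)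
      have h2 : Function.uncurry (W d V) = fun p : ℝ × ℝ => if d < p.1 then V (p.1 - d) p.2 else 0 := by
        funext p
        rfl
      rw [h2]
      exact Measurable.ite (measurableSet_lt measurable_const measurable_fst) h1 measurable_const
    · intro t ht
      rcases le_total t d with h | h
      · unfold AEMono
        refine Eventually.of_forall fun p _ => ?_
        rw [pos_W_le hd0 V ht.1 h, pos_W_le hd0 V ht.1 h]
      · have h1 : pos (W d V) t = pos V (t - d) := by
          funext s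
          exact pos_W_ge hd0 V h s
        rw [h1]
        exact hV.mono (t - d) ⟨by linarith, by linarith [ht.2]⟩
    · filter_upwards [hV.final] with s hs
      rw [pos_W_ge hd0 V hdT s, hTd, hs]
  refine (iInf₂_le (W d V) hP).trans ?_
  unfold en
  have hN : (∫⁻ t in Ioo 0 T, cnt (pos (W d V) t)) ≤ ENNReal.ofReal d + ∫⁻ t in Ioo 0 T', cnt (pos V t) := by
    refine (split d T _).trans ?_
    refine add_le_add ?_ ?_
    · have h1 : (∫⁻ t in Ioc 0 d, cnt (pos (W d V) t)) ≤ ∫⁻ _ in Ioc 0 d, (1 : ℝ≥0∞) := by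
        refine setLIntegral_mono' measurableSet_Ioc ?_
        intro t ht
        have h2 : pos (W d V) t = fun _ => (0 : ℝ) := by
          funext s
          exact pos_W_le hd0 V ht.1.le ht.2 s
        rw [h2]
        exact cnt_zero_le
      refine h1.trans ?_
      rw [setLIntegral_const, Real.volume_Ioc, one_mul, sub_zero]
    · rw [← lint_shift d T' T hd.symm (fun t => cnt (pos V t))]
      refine le_of_eq (setLIntegral_congr_fun measurableSet_Ioo ?_)
      intro t ht
      have h2 : pos (W d V) t = pos V (t - d) := by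
        funext s
        exact pos_W_ge hd0 V ht.1.le s
      simp only [h2]
  calc (∫⁻ t in Ioo 0 T, cnt (pos (W d V) t)) + kin T (W d V)
      ≤ (ENNReal.ofReal d + ∫⁻ t in Ioo 0 T', cnt (pos V t)) + kin T' V := add_le_add hN hkin
    _ = (∫⁻ t in Ioo 0 T', cnt (pos V t)) + kin T' V + ENNReal.ofReal d := by
        rw [add_assoc, add_comm]

end Pool.Agent.R508.BT
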