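import Pool.Agent.R508.BT.Stm

/-! Piece WK: weak compactness of bounded sequences of velocities in `L²((0,T)×(0,1))`. -/

open MeasureTheory Set Filter Topology
open scoped ENNReal InnerProductSpace

namespace Pool.Agent.R508.BT

namespace WKx

/-- bounded sequences in a separable Hilbert space have weakly convergent subsequences -/
theorem weak_subseq {H : Type*} [NormedAddCommGroup H] [InnerProductSpace ℝ H] [CompleteSpace H]
    [TopologicalSpace.SeparableSpace H] (f : ℕ → H) (r : ℝ) (hf : ∀ n, ‖f n‖ ≤ r) :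
    ∃ (φ : ℕ → ℕ) (w : H), StrictMono φ ∧
      ∀ g : H, Tendsto (fun n => ⟪f (φ n), g⟫_ℝ) atTop (𝓝 ⟪w, g⟫_ℝ) := by
  have hc := WeakDual.isSeqCompact_closedBall ℝ H 0 r
  set x : ℕ → WeakDual ℝ H := fun n => StrongDual.toWeakDual (InnerProductSpace.toDual ℝ H (f n))
    with hx
  have hxm : ∀ n, x n ∈ (WeakDual.toStrongDual ⁻¹' Metric.closedBall (0 : StrongDual ℝ H) r) := by
    intro n
    simp only [hx, Set.mem_preimage]
    rw [mem_closedBall_zero_iff]
    refine le_trans (le_of_eq ?_) (hf n)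
    exact (InnerProductSpace.toDual ℝ H).norm_map (f n)
  obtain ⟨y, -, φ, hφ, hy⟩ := hc hxm
  refine ⟨φ, (InnerProductSpace.toDual ℝ H).symm (WeakDual.toStrongDual y), hφ, ?_⟩
  intro g
  have h1 : Tendsto (fun n => (x (φ n)) g) atTop (𝓝 (y g)) :=
    ((WeakDual.eval_continuous g).tendsto y).comp hy
  rw [InnerProductSpace.toDual_symm_apply]
  exact h1

/-- Lebesgue measure on `(0,T)×(0,1)` -/
noncomputable abbrev nu (T : ℝ) : Measure (ℝ × ℝ) := (volume.restrict (Ioo 0 T)).prod lam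

theorem kin_eq (T : ℝ) (V : ℝ → ℝ → ℝ) (hV : Measurable (Function.uncurry V)) :
    kin T V = ∫⁻ z, ENNReal.ofReal ((Function.uncurry V z) ^ 2) ∂(nu T) := by
  unfold kin
  rw [lintegral_prod]
  · rfl
  · exact (hV.pow_const 2).ennreal_ofReal.aemeasurable

theorem memLp (T : ℝ) (V : ℝ → ℝ → ℝ) (hV : Measurable (Function.uncurry V))
    (hf : kin T V < ∞) : MemLp (Function.uncurry V) 2 (nu T) := by
  rw [memLp_two_iff_integrable_sq hV.aestronglyMeasurable]
  refine ⟨(hV.pow_const 2).aestronglyMeasurable, ?_⟩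
  rw [hasFiniteIntegral_iff_ofReal (Filter.Eventually.of_forall fun z => sq_nonneg _)]
  rw [← kin_eq T V hV]
  exact hf

theorem kin_norm (T : ℝ) (V : ℝ → ℝ → ℝ) (hV : Measurable (Function.uncurry V))
    (hm : MemLp (Function.uncurry V) 2 (nu T)) :
    kin T V = ENNReal.ofReal (‖hm.toLp‖ ^ 2) := by
  rw [kin_eq T V hV, ← ofReal_integral_eq_lintegral_ofReal hm.integrable_sq
    (Filter.Eventually.of_forall fun z => sq_nonneg _)]
  congr 1
  rw [← real_inner_self_eq_norm_sq, L2.inner_def]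
  refine integral_congr_ae ?_
  filter_upwards [hm.coeFn_toLp] with z hz
  rw [hz, real_inner_self_eq_norm_sq, Real.norm_eq_abs, sq_abs]

/-- the averages of the positions as scalar products -/
theorem avg_eq (T : ℝ) (V : ℝ → ℝ → ℝ)
    (hm : MemLp (Function.uncurry V) 2 (nu T)) (t a b : ℝ) (ht : t ∈ Icc 0 T)
    (ha : 0 ≤ a) (hab : a ≤ b) (hb : b ≤ 1) (f : Lp ℝ 2 (nu T))
    (hf : (f : ℝ × ℝ → ℝ) =ᵐ[nu T] Function.uncurry V) :
    ∫ s in a..b, pos V t s = ⟪f, indicatorConstLp 2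
      (measurableSet_Ioo.prod measurableSet_Ioo : MeasurableSet (Ioo 0 t ×ˢ Ioo a b))
      (measure_ne_top (nu T) _) (1 : ℝ)⟫_ℝ := by
  rw [real_inner_comm, L2.inner_indicatorConstLp_one,
    integral_congr_ae (ae_restrict_of_ae hf)]
  have hint : Integrable (Function.uncurry V) (nu T) := hm.integrable one_le_two
  have hres : (nu T).restrict (Ioo 0 t ×ˢ Ioo a b) =
      (volume.restrict (Ioo 0 t)).prod (volume.restrict (Ioo a b)) := by
    have e1 : Ioo 0 t ∩ Ioo 0 T = Ioo 0 t := inter_eq_left.mpr (Ioo_subset_Ioo_right ht.2)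
    have e2 : Ioo a b ∩ Ioo 0 1 = Ioo a b := inter_eq_left.mpr (Ioo_subset_Ioo ha hb)
    rw [nu, ← Measure.prod_restrict, Measure.restrict_restrict measurableSet_Ioo,
      Measure.restrict_restrict measurableSet_Ioo, e1, e2]
  have hint' : Integrable (Function.uncurry V)
      ((volume.restrict (Ioo 0 t)).prod (volume.restrict (Ioo a b))) := by
    rw [← hres]
    exact hint.restrict
  rw [hres, integral_prod_symm _ hint', intervalIntegral.integral_of_le hab,
    integral_Ioc_eq_integral_Ioo]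
  refine integral_congr_ae (Filter.Eventually.of_forall fun s => ?_)
  simp only [pos]
  rw [intervalIntegral.integral_of_le ht.1, integral_Ioc_eq_integral_Ioo]
  rfl

end WKx

open WKx in
theorem t_WK : S_WK := by
  intro T C V hT hV hC
  have hfin : ∀ n, kin T (V n) < ∞ := fun n => (hC n).trans_lt ENNReal.ofReal_lt_top
  have hm : ∀ n, MemLp (Function.uncurry (V n)) 2 (nu T) := fun n => memLp T (V n) (hV n) (hfin n)
  set f : ℕ → Lp ℝ 2 (nu T) := fun n => (hm n).toLp with hf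
  have hk : ∀ n, kin T (V n) = ENNReal.ofReal (‖f n‖ ^ 2) := fun n => kin_norm T (V n) (hV n) (hm n)
  have hbound : ∀ n, ‖f n‖ ≤ Real.sqrt (max C 0) := by
    intro n
    apply Real.le_sqrt_of_sq_le
    have h1 := hC n
    rw [hk n] at h1
    have h2 : ENNReal.ofReal (‖f n‖ ^ 2) ≤ ENNReal.ofReal (max C 0) :=
      h1.trans (ENNReal.ofReal_le_ofReal (le_max_left _ _))
    exact (ENNReal.ofReal_le_ofReal_iff (le_max_right _ _)).mp h2
  have : Fact ((2 : ℝ≥0∞) ≠ ∞) := ⟨by norm_num⟩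
  obtain ⟨φ, w, hφ, hw⟩ := weak_subseq f _ hbound
  -- the representative
  set W : ℝ → ℝ → ℝ := fun t s => (w : ℝ × ℝ → ℝ) (t, s) with hW
  have hWu : Function.uncurry W = (w : ℝ × ℝ → ℝ) := by
    ext z
    rfl
  have hWm : Measurable (Function.uncurry W) := by
    rw [hWu]
    exact (Lp.stronglyMeasurable w).measurable
  have hWL : MemLp (Function.uncurry W) 2 (nu T) := by
    rw [hWu]
    exact Lp.memLp w
  have hWw : hWL.toLp = w := by
    apply Lp.ext
    refine (hWL.coeFn_toLp).trans ?_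
    rw [hWu]
  refine ⟨φ, W, hφ, hWm, ?_, ?_⟩
  · rw [kin_norm T W hWm hWL, hWw]
    have hlim : Tendsto (fun n => ENNReal.ofReal (2 * ⟪f (φ n), w⟫_ℝ - ‖w‖ ^ 2)) atTop
        (𝓝 (ENNReal.ofReal (‖w‖ ^ 2))) := by
      have h1 : Tendsto (fun n => 2 * ⟪f (φ n), w⟫_ℝ - ‖w‖ ^ 2) atTop
          (𝓝 (2 * ⟪w, w⟫_ℝ - ‖w‖ ^ 2)) := ((hw w).const_mul 2).sub_const _
      have h2 : 2 * ⟪w, w⟫_ℝ - ‖w‖ ^ 2 = ‖w‖ ^ 2 := by
        rw [real_inner_self_eq_norm_sq]
        ring
      rw [h2] at h1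
      exact ENNReal.tendsto_ofReal h1
    rw [← hlim.liminf_eq]
    refine liminf_le_liminf (Filter.Eventually.of_forall fun n => ?_)
    rw [hk (φ n)]
    apply ENNReal.ofReal_le_ofReal
    have h3 := norm_sub_sq_real (f (φ n)) w
    have h4 := sq_nonneg ‖f (φ n) - w‖
    linarith
  · intro t ht a b ha hab hb
    rw [avg_eq T W hWL t a b ht ha hab hb w (by rw [hWu])]
    have h5 : (fun n => ∫ s in a..b, pos (V (φ n)) t s) = fun n => ⟪f (φ n), indicatorConstLp 2
      (measurableSet_Ioo.prod measurableSet_Ioo : MeasurableSet (Ioo 0 t ×ˢ Ioo a b))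
      (measure_ne_top (nu T) _) (1 : ℝ)⟫_ℝ := by
      funext n
      exact avg_eq T (V (φ n)) (hm (φ n)) t a b ht ha hab hb (f (φ n)) (hm (φ n)).coeFn_toLp
    rw [h5]
    exact hw _

end Pool.Agent.R508.BT
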